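import Pool.Agent.Helper37.MEI.Clo5

/-!
# Project MEI (M2): the a priori bound `S < 0.12`

`lt12`: if the sum of the six edge defects is at most `0.1774`, then `Q_i < 0.12` on `K`.
-/

set_option autoImplicit false

namespace Helper37.MEI.Clo

open Set Metric Finset MeasureTheory Helper80.CW Helper82.CW Helper14.CW Helper93.MEI
open Helper66.MEI Helper13.PLM Pool.Agent.Helper52.MEI
open scoped RealInnerProductSpace

theorem Eps_perm (c : Fin 4 → E3) (σ : Equiv.Perm (Fin 4)) : Eps (fun i => c (σ i)) = Eps c := by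
  unfold Eps
  congr 1
  rw [← Equiv.sum_comp σ (fun i => ∑ j, (if i = j then (0 : ℝ) else 1 - ‖c i - c j‖ ^ 2))]
  refine Finset.sum_congr rfl fun i _ => ?_
  rw [← Equiv.sum_comp σ (fun j => if σ i = j then (0 : ℝ) else 1 - ‖c (σ i) - c j‖ ^ 2)]
  refine Finset.sum_congr rfl fun j _ => ?_
  simp only [σ.injective.eq_iff]

section near
variable {K : Set E3} {a c : Fin 4 → E3} (N : Near K a c) (hK : IsCompact K) (hw : Width1 K)
include N hK hw

theorem of_perm (hE : Eps c ≤ 0.1774) (σ : Equiv.Perm (Fin 4)) {i j k l : Fin 4} (e0 : σ 0 = i)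
    (e1 : σ 1 = j) (e2 : σ 2 = k) (e3 : σ 3 = l) {z : E3} (hz : z ∈ K) (hQ : Qv a i z = 0.12)
    (h12 : bar a k z ≤ bar a j z) (h23 : bar a l z ≤ bar a k z) : False := by
  refine sorted (N.perm σ) hK hw ((Eps_perm c σ).trans_le hE) hz (by rwa [Qv_perm, e0])
    (by rwa [bar_perm, bar_perm, e1, e2]) (by rwa [bar_perm, bar_perm, e2, e3])

/-- the level `0.12` is not attained at the vertex `0` -/
theorem level_zero (hE : Eps c ≤ 0.1774) {z : E3} (hz : z ∈ K) : Qv a 0 z ≠ 0.12 := by
  intro hQ
  rcases le_total (bar a 1 z) (bar a 2 z) with h12 | h12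
  · rcases le_total (bar a 2 z) (bar a 3 z) with h23 | h23
    · exact of_perm N hK hw hE (Equiv.swap 1 3) (i := 0) (j := 3) (k := 2) (l := 1) (by decide)
        (by decide) (by decide) (by decide) hz hQ h23 h12
    · rcases le_total (bar a 1 z) (bar a 3 z) with h13 | h13
      · exact of_perm N hK hw hE (Equiv.swap 1 2 * Equiv.swap 2 3) (i := 0) (j := 2) (k := 3)
          (l := 1) (by decide) (by decide) (by decide) (by decide) hz hQ h23 h13
      · exact of_perm N hK hw hE (Equiv.swap 1 2) (i := 0) (j := 2) (k := 1) (l := 3) (by decide)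
          (by decide) (by decide) (by decide) hz hQ h12 h13
  · rcases le_total (bar a 2 z) (bar a 3 z) with h23 | h23
    · rcases le_total (bar a 1 z) (bar a 3 z) with h13 | h13
      · exact of_perm N hK hw hE (Equiv.swap 1 3 * Equiv.swap 2 3) (i := 0) (j := 3) (k := 1)
          (l := 2) (by decide) (by decide) (by decide) (by decide) hz hQ h13 h12
      · exact of_perm N hK hw hE (Equiv.swap 2 3) (i := 0) (j := 1) (k := 3) (l := 2) (by decide)
          (by decide) (by decide) (by decide) hz hQ h13 h23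
    · exact of_perm N hK hw hE (Equiv.refl _) (i := 0) (j := 1) (k := 2) (l := 3) rfl rfl rfl rfl
        hz hQ h12 h23

/-- the level `0.12` is not attained -/
theorem level (hE : Eps c ≤ 0.1774) (i : Fin 4) {z : E3} (hz : z ∈ K) : Qv a i z ≠ 0.12 := by
  have h := level_zero (N.perm (Equiv.swap 0 i)) hK hw ((Eps_perm c _).trans_le hE) hz
  rwa [Qv_perm, Equiv.swap_apply_left] at h

/-- **(C1)** `Q_i < 0.12` on `K` -/
theorem lt12 (hcv : Convex ℝ K) (hE : Eps c ≤ 0.1774) (i : Fin 4) {z : E3} (hz : z ∈ K) :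
    Qv a i z < 0.12 := by
  by_contra hc
  push Not at hc
  set f : ℝ → ℝ := fun t => Qv a i ((1 - t) • c i + t • z) with hf
  have hcont : Continuous f := by
    rw [hf]
    unfold Qv
    fun_prop
  have h0 : f 0 ≤ 0.12 := by
    have h1 := N.delta_le i
    have h2 : Adep a c i ≤ 0.123 :=
      (Finset.single_le_sum (f := Adep a c) (fun i _ => N.A_nonneg i) (Finset.mem_univ i)).trans
        (N.A_sum_1774 hE)
    have h3 := N.A_nonneg i
    have e : f 0 = ‖a i - c i‖ ^ 2 - 1 := by
      simp only [hf, Qv, sub_zero, one_smul, zero_smul, add_zero]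
      rw [norm_sub_rev]
    rw [e]
    nlinarith
  have h1 : 0.12 ≤ f 1 := by
    have e : f 1 = Qv a i z := by simp [hf]
    rw [e]
    exact hc
  obtain ⟨t, ht, hft⟩ := intermediate_value_Icc (zero_le_one (α := ℝ)) hcont.continuousOn ⟨h0, h1⟩
  refine level N hK hw hE i (z := (1 - t) • c i + t • z) ?_ hft
  exact hcv (N.mem i) hz (by linarith [ht.2]) ht.1 (by ring)

end near

end Helper37.MEI.Clo
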