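import Pool.Agent.Helper37.MEI.Clq3

/-!
# Project MEI (M2): the a priori bound `S < 0.115`, final contradiction
-/

set_option autoImplicit false

namespace Helper37.MEI.Clq

open Real

/-- interpolation in `P` -/
theorem interp {F co b P P0 κ : ℝ} (hP0 : P0 ≤ P) (hP1 : P ≤ 0.1115) (h0 : P0 < 0.1115)
    (hco : 0 ≤ co)
    (hL : co * (1.5 * P0 ^ 2) + b * (4.5 * κ * (0.1115 - P0) + 0.00063) < F)
    (hH : co * (1.5 * 0.1115 ^ 2) + b * 0.00063 < F) :
    co * (1.5 * P ^ 2) + b * (4.5 * κ * (0.1115 - P) + 0.00063) < F := by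
  have k1 := mul_nonneg (sub_nonneg.2 hP1) (sub_nonneg.2 hL.le)
  have k2 := mul_nonneg (sub_nonneg.2 hP0) (sub_nonneg.2 hH.le)
  have k3 := mul_nonneg hco (mul_nonneg (sub_nonneg.2 hP1) (sub_nonneg.2 hP0))
  have hd : 0 < 0.1115 - P0 := by linarith
  have k4 := mul_nonneg hd.le k3
  rcases eq_or_lt_of_le hP1 with h1 | h1
  · rw [h1]
    have : co * (1.5 * 0.1115 ^ 2) + b * (4.5 * κ * (0.1115 - 0.1115) + 0.00063) =
        co * (1.5 * 0.1115 ^ 2) + b * 0.00063 := by ring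
    rw [this]
    exact hH
  · have k1' := mul_pos (sub_pos.2 h1) (sub_pos.2 hL)
    have key : 0 < (0.1115 - P0) *
        (F - (co * (1.5 * P ^ 2) + b * (4.5 * κ * (0.1115 - P) + 0.00063))) := by
      linarith
    by_contra hcon
    push Not at hcon
    have := mul_nonneg hd.le (sub_nonneg.2 hcon)
    linarith

/-- the final contradiction -/
theorem clq_final {b1 b2 b3 β P A1 A2 A3 Ω δ R R2 Y1 Y2 : ℝ} (h1 : b1 + b2 + b3 = 1 + β)
    (h2 : 1 / 2 * (β ^ 2 + b1 ^ 2 + b2 ^ 2 + b3 ^ 2) + β - 1 / 2 = 0.115) (h12 : b2 ≤ b1)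
    (h32 : b3 ≤ b2) (p01 : b1 + β ≤ 1) (p31 : b1 - b3 ≤ 1) (p30 : -β - b3 ≤ 1)
    (hA1 : 0 ≤ A1) (hA2 : 0 ≤ A2) (hA3 : 0 ≤ A3) (hΩ0 : 0 ≤ Ω) (hΩ : Ω ≤ A3) (hP0 : 0 ≤ P)
    (hS : P + (A1 + A2 + A3) ≤ 0.1115) (hδ0 : 0 ≤ δ) (hδ : δ ≤ 1.5 * P ^ 2)
    (hE0 : 0.115 + δ ≤ 2 * b1 * P)
    (hR : (0.115 + R) ^ 2 ≤ R * (4 * (1 + 0.115) - (1 + β + b1) ^ 2))
    (hR2 : (0.115 + R2) ^ 2 ≤ R2 * (4 * (1 + 0.115) - (1 + β + b2) ^ 2))
    (hY1 : 0 ≤ Y1) (hRY1 : R ≤ 1.5 * Y1 ^ 2) (hY2 : 0 ≤ Y2) (hRY2 : R2 ≤ 1.5 * Y2 ^ 2)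
    (hQ3 : 0 ≤ β → 0.115 - β - b3 ≤ 2 * b1 * Ω)
    (J1 : 0 ≤ b2 → ∀ p, 0 ≤ p → b3 ≤ p → p ≤ b1 →
      0.115 + δ * (1 - b1 - b2 - p) + b1 * R + b2 * R2 + 2 * (b1 - p) * Ω ≤
        0.1774 * b1 + 4.5 * b1 * (A1 ^ 2 + A2 ^ 2 + A3 ^ 2) + b1 * (max (P - Y1) 0 * A1) +
          b2 * (max (P - Y2) 0 * A2))
    (J2 : P + (A1 + A2 + A3) - 1.5 * δ - 3 * (A1 ^ 2 + A2 ^ 2 + A3 ^ 2) -
      1 / 2 * (P * (A1 + A2 + A3)) ≤ 0.0887) : False := by
  set T : ℝ := A1 + A2 + A3 with hT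
  have hT0 : 0 ≤ T := by positivity
  have hsq : A1 ^ 2 + A2 ^ 2 + A3 ^ 2 ≤ T ^ 2 := by
    rw [hT]
    nlinarith [mul_nonneg hA1 hA2, mul_nonneg hA1 hA3, mul_nonneg hA2 hA3]
  have hP1 : P ≤ 0.1115 := by linarith
  have hbP : 0.0575 ≤ b1 * P := by linarith
  have hb1 : 0.5156 ≤ b1 := by
    by_contra hc
    push Not at hc
    rcases le_or_gt b1 0 with h | h
    · have := mul_nonneg (by linarith : 0 ≤ -b1) hP0
      linarith
    · have h3 := mul_le_mul_of_nonneg_left hP1 h.le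
      linarith
  have hβ0 : 0 ≤ β := beta_nonneg h1 h2 h12 h32 p31 (by linarith) p30
  have hb1' : b1 ≤ 1 := by linarith
  have hP6 : 0.0575 ≤ P := by
    have := mul_le_mul_of_nonneg_right hb1' hP0
    linarith
  have hT2 : P - 2.25 * P ^ 2 + T - 3 * T ^ 2 - 1 / 2 * (P * T) ≤ 0.0887 := by linarith
  have hT3 : T ≤ 0.0467 := T_le (p0 := 0.0575) (by norm_num) (by norm_num) (by norm_num) hP6 hS hT2
  set ε : ℝ := 2 * b1 * Ω with hε
  have hε0 : 0 ≤ ε := by positivity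
  have hΩT : Ω ≤ 0.0467 := by linarith
  have hε1 : ε ≤ 0.0934 * b1 := by
    have := mul_le_mul_of_nonneg_left hΩT (by linarith : 0 ≤ b1)
    rw [hε]
    linarith
  have hC := C0_ge h1 h2 h32 (hQ3 hβ0)
  have hβ := loc hβ0 hb1 p01 hε0 hε1 hC
  have hb85 : b1 ≤ 0.851 := by linarith
  have hP7 : 0.0675 ≤ P := by
    have := mul_le_mul_of_nonneg_right hb85 hP0
    linarith
  have hT4 : T ≤ 0.0369 := T_le (p0 := 0.0675) (by norm_num) (by norm_num) (by norm_num) hP7 hS hT2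
  have hm := mT_le hP7 hT0 hS hT4 hT2
  have hTA := Tsq_A hP7 hT0 hS hT4 hT2
  have hδ1 : δ ≤ 0.0187 := by
    have : P ^ 2 ≤ 0.1115 ^ 2 := pow_le_pow_left₀ hP0 hP1 2
    norm_num at this
    linarith
  have hb2 : 1 + β - b1 - b3 = b2 := by linarith
  -- mixed terms, given lower bounds of `R`, `R2`
  have mixed : 0 ≤ b2 → 0.0057 ≤ R → 0.0057 ≤ R2 → b1 * (max (P - Y1) 0 * A1) +
      b2 * (max (P - Y2) 0 * A2) ≤ 0.00063 * b1 := by
    intro hb20 k1 k2
    have y1 : 0.0616 ≤ Y1 := by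
      by_contra hc
      push Not at hc
      have : Y1 ^ 2 ≤ 0.0616 ^ 2 := pow_le_pow_left₀ hY1 hc.le 2
      norm_num at this
      linarith
    have y2 : 0.0616 ≤ Y2 := by
      by_contra hc
      push Not at hc
      have : Y2 ^ 2 ≤ 0.0616 ^ 2 := pow_le_pow_left₀ hY2 hc.le 2
      norm_num at this
      linarith
    have m0 : 0 ≤ max (P - 0.0616) 0 := le_max_right _ _
    have m1 : max (P - Y1) 0 ≤ max (P - 0.0616) 0 := max_le_max (by linarith) le_rfl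
    have m2 : max (P - Y2) 0 ≤ max (P - 0.0616) 0 := max_le_max (by linarith) le_rfl
    have q1 := mul_le_mul_of_nonneg_left (mul_le_mul_of_nonneg_right m1 hA1)
      (by linarith : 0 ≤ b1)
    have q2 := mul_le_mul_of_nonneg_left (mul_le_mul_of_nonneg_right m2 hA2) hb20
    have q3 := mul_le_mul_of_nonneg_right h12 (mul_nonneg m0 hA2)
    have q4 := mul_nonneg (mul_nonneg m0 hA3) (by linarith : 0 ≤ b1)
    have q5 := mul_le_mul_of_nonneg_left hm (by linarith : 0 ≤ b1)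
    have e : b1 * (max (P - 0.0616) 0 * T) = b1 * (max (P - 0.0616) 0 * A1) +
        b1 * (max (P - 0.0616) 0 * A2) + max (P - 0.0616) 0 * A3 * b1 := by rw [hT]; ring
    linarith
  have hR6 : 0.0057 ≤ R := R_ge (by linarith) (by linarith) hR
  have hbR : ∀ k : ℝ, b1 * (0.01210275 * (2 * k - k ^ 2 * (4.163 - (1 + β + b1) ^ 2))) ≤ b1 * R :=
    fun k => mul_le_mul_of_nonneg_left (R_tang k (by linarith) (by linarith) hR) (by linarith)
  have hbsq : ∀ κ : ℝ, T ^ 2 ≤ κ * (0.1115 - P) →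
      4.5 * b1 * (A1 ^ 2 + A2 ^ 2 + A3 ^ 2) ≤ b1 * (4.5 * κ * (0.1115 - P)) := by
    intro κ hκ
    have h := mul_le_mul_of_nonneg_left (hsq.trans hκ) (by linarith : 0 ≤ 4.5 * b1)
    linarith
  have hP12 : b2 * b3 = 2 * β + β ^ 2 - 0.115 - b1 * (1 + β) + b1 ^ 2 := by
    rw [← hb2] at h2 ⊢
    linarith
  rcases le_or_gt 0 b3 with h3 | h3
  · -- case 1
    have hb20 : 0 ≤ b2 := h3.trans h32
    have hpp : 0 ≤ 2 * β + β ^ 2 - 0.115 - b1 * (1 + β) + b1 ^ 2 := by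
      rw [← hP12]; exact mul_nonneg hb20 h3
    have hβ2 : 0.1957 ≤ β := by
      by_contra hc
      push Not at hc
      have r1 := mul_nonneg (by linarith : 0 ≤ b1 - 0.5156) (by linarith : 0 ≤ 1 - β - b1)
      have r2 := mul_nonneg (by linarith : 0 ≤ 0.5156 - 2 * β) (by linarith : 0 ≤ 1 - β - b1)
      have r3 := mul_pos (by linarith : 0 < 0.1957 - β) (by linarith : 0 < 0.1957 + β)
      linarith
    have hb2l : β ≤ b2 := by linarith
    have hR26 : 0.0057 ≤ R2 := R_ge (by linarith) (by linarith) hR2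
    have hM := mixed hb20 hR6 hR26
    have hJ := J1 hb20 b3 h3 le_rfl (h32.trans h12)
    have e1 : 1 - b1 - b2 - b3 = -β := by linarith
    rw [e1] at hJ
    have r1 : b2 * 0.0057 ≤ b2 * R2 := mul_le_mul_of_nonneg_left hR26 hb20
    have r2 : δ * β ≤ β * (1.5 * P ^ 2) := by
      rw [mul_comm δ β]; exact mul_le_mul_of_nonneg_left hδ hβ0
    have r3 : 0 ≤ 2 * (b1 - b3) * Ω := mul_nonneg (by linarith) hΩ0
    have r4 := hbsq 0.0324 hTA
    have hlo := F1_lo hb1 p01 hβ2 hpp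
    have hhi := F1_hi hb1 p01 hβ2 hpp
    have g1 := hbR 2.3
    have g2 := hbR 2.2
    unfold F1 at hlo hhi
    have hfin := interp (F := 0.115 + b1 * R + b2 * R2 - 0.1774 * b1) (co := β) (b := b1)
      (P := P) (P0 := 0.0675) (κ := 0.0324) hP7 hP1 (by norm_num) hβ0
      (by norm_num at hlo g1 ⊢; linarith) (by norm_num at hhi g2 ⊢; linarith)
    linarith
  · -- case 2
    have hb2l : 1 + β - b1 ≤ b2 := by linarith
    have hb20 : 0 ≤ b2 := by linarith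
    have hβ2 : β ≤ 0.2195 := by
      by_contra hc
      push Not at hc
      have r1 : b2 * b3 ≤ 0 := mul_nonpos_of_nonneg_of_nonpos hb20 h3.le
      rw [hP12] at r1
      nlinarith [sq_nonneg (b1 - (1 + β) / 2), mul_nonneg hβ0 (by linarith : 0 ≤ β - 0.2195)]
    have hR26 : 0.0057 ≤ R2 := R_ge (by linarith) (by linarith) hR2
    have hM := mixed hb20 hR6 hR26
    have hJ := J1 hb20 0 le_rfl h3.le (by linarith)
    have s2 : ∀ k : ℝ, (1 + β - b1) *
        (0.013081 * (2 * k - k ^ 2 * (4.206 - (2 + 2 * β - b1) ^ 2))) ≤ b2 * R2 := by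
      intro k
      have hRt2 := R_tang2 k (by linarith) (by linarith) hR2
      have s1 : 0.013081 * (2 * k - k ^ 2 * (4.206 - (2 + 2 * β - b1) ^ 2)) ≤ R2 := by
        refine le_trans ?_ hRt2
        have h5 : (2 + 2 * β - b1) ^ 2 ≤ (1 + β + b2) ^ 2 :=
          pow_le_pow_left₀ (by linarith) (by linarith) 2
        have h6 := mul_le_mul_of_nonneg_left h5 (sq_nonneg k)
        linarith
      refine (mul_le_mul_of_nonneg_left s1 (by linarith)).trans ?_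
      exact mul_le_mul_of_nonneg_right hb2l (by linarith)
    -- the credit
    have hq := hQ3 hβ0
    have t2 : δ * (-(2 * β - 0.115 + ε)) ≤ δ * (1 - b1 - b2 - 0) := by
      apply mul_le_mul_of_nonneg_left _ hδ0
      linarith
    have t1 : δ * (2 * β - 0.115) ≤ (2 * β - 0.115) * (1.5 * P ^ 2) := by
      rw [mul_comm δ]; exact mul_le_mul_of_nonneg_left hδ (by linarith)
    have t1' : δ * ε ≤ 0.0187 * ε := mul_le_mul_of_nonneg_right hδ1 hε0
    have t3 : ε * (0.77 + 3 * β - b1 + ε) ≤ ε * 1 :=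
      mul_le_mul_of_nonneg_left (by linarith) hε0
    have t4 : 2 * (b1 - 0) * Ω = ε := by rw [hε]; ring
    rw [t4] at hJ
    have hhi := F2_hi hb1 hb85 hβ hβ2
    have g2 := hbR 2.3
    have s22 := s2 0.75
    rcases le_total b1 0.79 with hs | hs
    · have hP8 : 0.0727 ≤ P := by
        have := mul_le_mul_of_nonneg_right hs hP0
        linarith
      have hT5 : T ≤ 0.0323 :=
        T_le (p0 := 0.0727) (by norm_num) (by norm_num) (by norm_num) hP8 hS hT2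
      have r4 := hbsq 0.0281 (Tsq_B hP8 hT0 hS hT5 hT2)
      have hlo := F2_loB hb1 hs hβ hβ2
      have s21 := s2 0.7
      unfold F2 at hlo hhi
      have hfin := interp (F := 0.115 + b1 * R + b2 * R2 - 0.1774 * b1 + 0.98 * ε)
        (co := 2 * β - 0.115) (b := b1) (P := P) (P0 := 0.0727) (κ := 0.0281) hP8 hP1
        (by norm_num) (by linarith) (by norm_num at hlo g2 s21 ⊢; linarith)
        (by norm_num at hhi g2 s22 ⊢; linarith)
      linarith
    · have r4 := hbsq 0.0324 hTA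
      have hlo := F2_loA hs hb85 hβ hβ2
      have s21 := s2 0.66
      have g1 := hbR 2.5
      unfold F2 at hlo hhi
      have hfin := interp (F := 0.115 + b1 * R + b2 * R2 - 0.1774 * b1 + 0.98 * ε)
        (co := 2 * β - 0.115) (b := b1) (P := P) (P0 := 0.0675) (κ := 0.0324) hP7 hP1
        (by norm_num) (by linarith) (by norm_num at hlo g1 s21 ⊢; linarith)
        (by norm_num at hhi g2 s22 ⊢; linarith)
      linarith

end Helper37.MEI.Clq
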