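import Pool.Agent.Helper13.PLM.Ap4
import Pool.Agent.Helper37.MEI.Clo6
import Pool.Agent.Helper37.MEI.Clq4

/-!
# Project MEI (M2): the a priori bound `S < 0.115`

`lt115`: if the sum of the six edge defects is at most `0.1774`, then `Q_i < 0.115` on `K`.
-/

set_option autoImplicit false

namespace Helper37.MEI.Clq

open Set Metric Finset MeasureTheory Helper80.CW Helper82.CW Helper14.CW Helper93.MEI
open Helper66.MEI Helper13.PLM Pool.Agent.Helper52.MEI
open Helper37.MEI.Clo (ct_R dep_le len_le x0k xkd hB J1_arith J2_arith Eps_perm)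
open scoped RealInnerProductSpace

section near
variable {K : Set E3} {a c : Fin 4 → E3} (N : Near K a c) (hK : IsCompact K) (hw : Width1 K)
include N hK hw

/-- vertex `0`, coordinates in decreasing order -/
theorem sorted (hE : Eps c ≤ 0.1774) {z : E3} (hz : z ∈ K) (hQ : Qv a 0 z = 0.115)
    (h12 : bar a 2 z ≤ bar a 1 z) (h23 : bar a 3 z ≤ bar a 2 z) : False := by
  have P := N.placed
  have hG := P.gram
  have hs := bar_sum hG z
  have hp := (pl_iff hG).1 (N.pl z hz)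
  have hdi : ∀ x ∈ K, ∀ y ∈ K, ‖x - y‖ ≤ 1 := by
    intro x hx y hy
    rw [← dist_eq_norm]
    exact diam_le hK hw x hx y hy
  obtain ⟨d, hd⟩ := contact_exists hK hw N.reg N.sup (i := 0) (j := 1) (by decide)
  obtain ⟨e, he⟩ := contact_exists hK hw N.reg N.sup (i := 0) (j := 2) (by decide)
  have hnd := hd.norm_sq hG (i := 0) (j := 1) (k := 2) (l := 3) (by decide) (by decide)
    (by decide) (by decide) (by decide) (by decide)
  have hne := he.norm_sq hG (i := 0) (j := 2) (k := 1) (l := 3) (by decide) (by decide)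
    (by decide) (by decide) (by decide) (by decide)
  have hd16 : ‖d‖ ^ 2 ≤ 3 / 16 := by
    rw [← hd.Qv_eq (N.reg 0 1 (by decide))]
    exact (N.ap hK hw hd.mem2 0).le
  have he16 : ‖e‖ ^ 2 ≤ 3 / 16 := by
    rw [← he.Qv_eq (N.reg 0 2 (by decide))]
    exact (N.ap hK hw he.mem2 0).le
  have hd2 := hd.y_nonneg N.pl (k := 2) (by decide)
  have hd3 := hd.y_nonneg N.pl (k := 3) (by decide)
  have he1 := he.y_nonneg N.pl (k := 1) (by decide)
  have he3 := he.y_nonneg N.pl (k := 3) (by decide)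
  have hR := ct_R hG (by decide) hd (N.reg 0 1 (by decide)) hdi hz (by rw [hQ]; norm_num)
  have hR2 := ct_R hG (by decide) he (N.reg 0 2 (by decide)) hdi hz (by rw [hQ]; norm_num)
  have hc1 := hd.symm.coupling (N.reg 1 0 (by decide)) hdi (N.mem 1)
  have hc2 := he.symm.coupling (N.reg 2 0 (by decide)) hdi (N.mem 2)
  rw [norm_sub_sq_real] at hc1 hc2
  unfold yv at hc1 hc2
  have hx1 := x0k N 1
  have hx2 := x0k N 2
  have hx3 := x0k N 3
  have hxd := xkd N 1 d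
  have hxe := xkd N 2 e
  have hBB := hB N hE
  have hg2 := N.eps_nonneg hK hw (i := 0) (j := 2) (by decide)
  have hg3 := N.eps_nonneg hK hw (i := 0) (j := 3) (by decide)
  rw [norm_sub_sq_real] at hg2 hg3
  have q0 := P.Qv_le hK hw hz 0
  have q3 := P.Qv_le hK hw hz 3
  have hQ3 : Qv a 3 z = Qv a 0 z + bar a 0 z - bar a 3 z := by
    rw [Qv_eq hG, Qv_eq hG]; ring
  have hQe := Qv_eq hG 0 z
  rw [hQ] at hR hR2 q0 hQ3 hQe
  have hdl := N.delta_le
  have hsum := N.A_sum_1115 hK hw hE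
  have n0 := hdl 0
  have n1 := hdl 1
  have n2 := hdl 2
  have n3 := hdl 3
  have dp : ⟪d, a 1 - a 0⟫ = (0 : ℝ) := hd.symm.perp
  have ep : ⟪e, a 2 - a 0⟫ = (0 : ℝ) := he.symm.perp
  have dp2 : ⟪d, a 1 - a 2⟫ = (⟪d, a 0 - a 2⟫ : ℝ) := by
    have e1 : a 1 - a 2 = (a 0 - a 2) + (a 1 - a 0) := by abel
    rw [e1, inner_add_right, dp, add_zero]
  have dp3 : ⟪d, a 1 - a 3⟫ = (⟪d, a 0 - a 3⟫ : ℝ) := by
    have e1 : a 1 - a 3 = (a 0 - a 3) + (a 1 - a 0) := by abel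
    rw [e1, inner_add_right, dp, add_zero]
  have ep1 : ⟪e, a 2 - a 1⟫ = (⟪e, a 0 - a 1⟫ : ℝ) := by
    have e1 : a 2 - a 1 = (a 0 - a 1) + (a 2 - a 0) := by abel
    rw [e1, inner_add_right, ep, add_zero]
  have ep3 : ⟪e, a 2 - a 3⟫ = (⟪e, a 0 - a 3⟫ : ℝ) := by
    have e1 : a 2 - a 3 = (a 0 - a 3) + (a 2 - a 0) := by abel
    rw [e1, inner_add_right, ep, add_zero]
  unfold Adep at hBB hsum n0 n1 n2 n3
  simp only [Fin.sum_univ_four, sub_self, inner_zero_right] at q0 q3 hBB hsum n0 n1 n2 n3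
  simp only [Fin.sum_univ_four, sub_self, inner_zero_right] at hx1 hx2 hx3
  simp only [Fin.sum_univ_four, sub_self, inner_zero_right, dp, ep, dp2, dp3, ep1, ep3] at hxd hxe
  have m01 := N.nonneg 0 1
  have m02 := N.nonneg 0 2
  have m03 := N.nonneg 0 3
  have m10 := N.nonneg 1 0
  have m12 := N.nonneg 1 2
  have m13 := N.nonneg 1 3
  have m20 := N.nonneg 2 0
  have m21 := N.nonneg 2 1
  have m23 := N.nonneg 2 3
  have m30 := N.nonneg 3 0
  have m31 := N.nonneg 3 1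
  have m32 := N.nonneg 3 2
  have δ0n := sq_nonneg ‖a 0 - c 0‖
  have δ3n := sq_nonneg ‖a 3 - c 3‖
  generalize ⟪a 0 - c 0, a 0 - a 1⟫ = α1 at *
  generalize ⟪a 0 - c 0, a 0 - a 2⟫ = α2 at *
  generalize ⟪a 0 - c 0, a 0 - a 3⟫ = α3 at *
  generalize ⟪a 1 - c 1, a 1 - a 0⟫ = γ1 at *
  generalize ⟪a 1 - c 1, a 1 - a 2⟫ = ω12 at *
  generalize ⟪a 1 - c 1, a 1 - a 3⟫ = ω13 at *
  generalize ⟪a 2 - c 2, a 2 - a 0⟫ = γ2 at *
  generalize ⟪a 2 - c 2, a 2 - a 1⟫ = ω21 at *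
  generalize ⟪a 2 - c 2, a 2 - a 3⟫ = ω23 at *
  generalize ⟪a 3 - c 3, a 3 - a 0⟫ = γ3 at *
  generalize ⟪a 3 - c 3, a 3 - a 1⟫ = ω31 at *
  generalize ⟪a 3 - c 3, a 3 - a 2⟫ = ω32 at *
  generalize ‖a 0 - c 0‖ ^ 2 = δ0 at *
  generalize ‖a 1 - c 1‖ ^ 2 = δ1 at *
  generalize ‖a 2 - c 2‖ ^ 2 = δ2 at *
  generalize ‖a 3 - c 3‖ ^ 2 = δ3 at *
  generalize ⟪a 0 - c 0, a 1 - c 1⟫ = x01 at *
  generalize ⟪a 0 - c 0, a 2 - c 2⟫ = x02 at *
  generalize ⟪a 0 - c 0, a 3 - c 3⟫ = x03 at *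
  generalize ⟪a 1 - c 1, d⟫ = x1d at *
  generalize ⟪a 2 - c 2, e⟫ = x2e at *
  generalize ⟪d, a 0 - a 2⟫ = y2 at *
  generalize ⟪d, a 0 - a 3⟫ = y3 at *
  generalize ⟪e, a 0 - a 1⟫ = w1 at *
  generalize ⟪e, a 0 - a 3⟫ = w3 at *
  generalize ‖d‖ ^ 2 = R at *
  generalize ‖e‖ ^ 2 = R2 at *
  have hy2 := dep_le hnd hd16
  have hy3 : y3 ≤ 1 / 2 := dep_le (x := y3) (y := y2) (r := R) (by rw [hnd]; ring) hd16
  have hw1 := dep_le hne he16
  have hw3 : w3 ≤ 1 / 2 := dep_le (x := w3) (y := w1) (r := R2) (by rw [hne]; ring) he16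
  have c01 := hp 1 0 (by decide)
  have c13 := hp 1 3 (by decide)
  have c03 := hp 0 3 (by decide)
  have hAA : 0.1115 ≥ α1 + α2 + α3 + (γ1 + ω12 + ω13 + (γ2 + ω21 + ω23) + (γ3 + ω31 + ω32)) := by
    linarith
  have hBB' : α1 + α2 + α3 + (γ1 + ω12 + ω13 + (γ2 + ω21 + ω23) + (γ3 + ω31 + ω32)) ≤
      0.0887 + 1.5 * δ0 + 2 * (δ1 + δ2 + δ3) - (x01 + x02 + x03) := by linarith
  have n0' : δ0 ≤ 1.5 * (α1 + α2 + α3) ^ 2 := by
    have e : (0 + α1 + α2 + α3) = (α1 + α2 + α3) := by ring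
    rwa [e] at n0
  have n1' : δ1 ≤ 1.5 * (γ1 + ω12 + ω13) ^ 2 := by
    have e : (γ1 + 0 + ω12 + ω13) = (γ1 + ω12 + ω13) := by ring
    rwa [e] at n1
  have n2' : δ2 ≤ 1.5 * (γ2 + ω21 + ω23) ^ 2 := by
    have e : (γ2 + ω21 + 0 + ω23) = (γ2 + ω21 + ω23) := by ring
    rwa [e] at n2
  have n3' : δ3 ≤ 1.5 * (γ3 + ω31 + ω32) ^ 2 := by
    have e : (γ3 + ω31 + ω32 + 0) = (γ3 + ω31 + ω32) := by ring
    rwa [e] at n3
  have hx01 : x01 = 2 * (α2 * ω12 + α3 * ω13) - 1 / 2 * ((α1 + α2 + α3) * (γ1 + ω12 + ω13)) := by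
    rw [hx1]; ring
  have hx02 : x02 = 2 * (α1 * ω21 + α3 * ω23) - 1 / 2 * ((α1 + α2 + α3) * (γ2 + ω21 + ω23)) := by
    rw [hx2]; ring
  have hx03 : x03 = 2 * (α1 * ω31 + α2 * ω32) - 1 / 2 * ((α1 + α2 + α3) * (γ3 + ω31 + ω32)) := by
    rw [hx3]; ring
  have hxd' : x1d = 2 * (ω12 * y2 + ω13 * y3) - 1 / 2 * ((γ1 + ω12 + ω13) * (y2 + y3)) := by
    rw [hxd]; ring
  have hxe' : x2e = 2 * (ω21 * w1 + ω23 * w3) - 1 / 2 * ((γ2 + ω21 + ω23) * (w1 + w3)) := by
    rw [hxe]; ring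
  generalize bar a 0 z = b0 at *
  generalize bar a 1 z = b1 at *
  generalize bar a 2 z = b2 at *
  generalize bar a 3 z = b3 at *
  refine clq_final (b1 := b1) (b2 := b2) (b3 := b3) (β := -b0) (P := α1 + α2 + α3)
    (A1 := γ1 + ω12 + ω13) (A2 := γ2 + ω21 + ω23) (A3 := γ3 + ω31 + ω32) (Ω := ω31 + ω32)
    (δ := δ0) (R := R) (R2 := R2) (Y1 := y2 + y3) (Y2 := w1 + w3) (by linarith) (by linarith)
    h12 h23 (by linarith) (by linarith) (by linarith) (by linarith) (by linarith) (by linarith)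
    (by linarith) (by linarith) (by linarith) (by linarith) δ0n n0' ?_ ?_ ?_ (by linarith)
    (len_le hnd hd2 hd3) (by linarith) (len_le hne he1 he3) ?_ ?_ ?_
  · -- E0
    have k1 := mul_nonneg (sub_nonneg.2 h12) m02
    have k2 := mul_nonneg (sub_nonneg.2 (h23.trans h12)) m03
    linarith
  · have e1 : (1 + -b0 + b1) = (1 - b0 + b1) := by ring
    rw [e1]; exact hR
  · have e1 : (1 + -b0 + b2) = (1 - b0 + b2) := by ring
    rw [e1]; exact hR2
  · intro hβ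
    have k1 := mul_nonneg hβ m30
    have k2 := mul_nonneg (sub_nonneg.2 h12) m32
    linarith
  · intro hb2 p hp0 hp3 hp1
    have h := J1_arith (s := 0.115) (X2 := 0.0887) (b1 := b1) (b2 := b2) (b3 := b3) (p := p)
      (P := α1 + α2 + α3) (A1 := γ1 + ω12 + ω13) (A2 := γ2 + ω21 + ω23) (A3 := γ3 + ω31 + ω32)
      rfl rfl rfl rfl m01 m02 m03 m10 m20 m30 m12 m13 m21 m23 m31 m32 hy2 hy3 hw1 hw3
      (hb2.trans h12) hb2 h12 hp0 hp3 hp1 hx01 hx02 hx03 hxd' hxe' n1' n2' n3' (by linarith)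
      hBB' (R := R) (R2 := R2) (by linarith) (by linarith) (by linarith) (by linarith)
      (by linarith)
    linarith
  · have h := J2_arith (X2 := 0.0887) (P := α1 + α2 + α3) m01 m02 m03 m12 m13 m21 m23 m31 m32
      hx01 hx02 hx03 n1' n2' n3' hBB'
    linarith

theorem of_perm (hE : Eps c ≤ 0.1774) (σ : Equiv.Perm (Fin 4)) {i j k l : Fin 4} (e0 : σ 0 = i)
    (e1 : σ 1 = j) (e2 : σ 2 = k) (e3 : σ 3 = l) {z : E3} (hz : z ∈ K) (hQ : Qv a i z = 0.115)
    (h12 : bar a k z ≤ bar a j z) (h23 : bar a l z ≤ bar a k z) : False := by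
  refine sorted (N.perm σ) hK hw ((Eps_perm c σ).trans_le hE) hz (by rwa [Qv_perm, e0])
    (by rwa [bar_perm, bar_perm, e1, e2]) (by rwa [bar_perm, bar_perm, e2, e3])

/-- the level `0.115` is not attained at the vertex `0` -/
theorem level_zero (hE : Eps c ≤ 0.1774) {z : E3} (hz : z ∈ K) : Qv a 0 z ≠ 0.115 := by
  intro hQ
  rcases le_total (bar a 1 z) (bar a 2 z) with h12 | h12
  · rcases le_total (bar a 2 z) (bar a 3 z) with h23 | h23
    · exact of_perm N hK hw hE (Equiv.swap 1 3) (i := 0) (j := 3) (k := 2) (l := 1) (by decide)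
        (by decide) (by decide) (by decide) hz hQ h23 h12
    · rcases le_total (bar a 1 z) (bar a 3 z) with h13 | h13
      · exact of_perm N hK hw hE (Equiv.swap 1 2 * Equiv.swap 2 3) (i := 0) (j := 2) (k := 3)
          (l := 1) (by decide) (by decide) (by decide) (by decide) hz hQ h23 h13
      · exact of_perm N hK hw hE (Equiv.swap 1 2) (i := 0) (j := 2) (k := 1) (l := 3) (by decide)
          (by decide) (by decide) (by decide) hz hQ h12 h13
  · rcases le_total (bar a 2 z) (bar a 3 z) with h23 | h23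
    · rcases le_total (bar a 1 z) (bar a 3 z) with h13 | h13
      · exact of_perm N hK hw hE (Equiv.swap 1 3 * Equiv.swap 2 3) (i := 0) (j := 3) (k := 1)
          (l := 2) (by decide) (by decide) (by decide) (by decide) hz hQ h13 h12
      · exact of_perm N hK hw hE (Equiv.swap 2 3) (i := 0) (j := 1) (k := 3) (l := 2) (by decide)
          (by decide) (by decide) (by decide) hz hQ h13 h23
    · exact of_perm N hK hw hE (Equiv.refl _) (i := 0) (j := 1) (k := 2) (l := 3) rfl rfl rfl rfl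
        hz hQ h12 h23

/-- the level `0.115` is not attained -/
theorem level (hE : Eps c ≤ 0.1774) (i : Fin 4) {z : E3} (hz : z ∈ K) : Qv a i z ≠ 0.115 := by
  have h := level_zero (N.perm (Equiv.swap 0 i)) hK hw ((Eps_perm c _).trans_le hE) hz
  rwa [Qv_perm, Equiv.swap_apply_left] at h

/-- **(C1)** `Q_i < 0.115` on `K` -/
theorem lt115 (hcv : Convex ℝ K) (hE : Eps c ≤ 0.1774) (i : Fin 4) {z : E3} (hz : z ∈ K) :
    Qv a i z < 0.115 := by
  by_contra hc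
  push Not at hc
  set f : ℝ → ℝ := fun t => Qv a i ((1 - t) • c i + t • z) with hf
  have hcont : Continuous f := by
    rw [hf]
    unfold Qv
    fun_prop
  have h0 : f 0 ≤ 0.115 := by
    have h1 := N.delta_le i
    have h2 : Adep a c i ≤ 0.1115 :=
      (Finset.single_le_sum (f := Adep a c) (fun i _ => N.A_nonneg i) (Finset.mem_univ i)).trans
        (N.A_sum_1115 hK hw hE)
    have h3 := N.A_nonneg i
    have e : f 0 = ‖a i - c i‖ ^ 2 - 1 := by
      simp only [hf, Qv, sub_zero, one_smul, zero_smul, add_zero]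
      rw [norm_sub_rev]
    rw [e]
    nlinarith
  have h1 : 0.115 ≤ f 1 := by
    have e : f 1 = Qv a i z := by simp [hf]
    rw [e]
    exact hc
  obtain ⟨t, ht, hft⟩ := intermediate_value_Icc (zero_le_one (α := ℝ)) hcont.continuousOn ⟨h0, h1⟩
  refine level N hK hw hE i (z := (1 - t) • c i + t • z) ?_ hft
  exact hcv (N.mem i) hz (by linarith [ht.2]) ht.1 (by ring)

end near

end Helper37.MEI.Clq
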