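import Pool.Agent.Helper37.MEI.Mass
import Pool.Agent.Helper73.MEI.Star
import Pool.Agent.Helper95.MEI.Fub2

/-!
# Project MEI (M2): the loss measure of a vertex and its first moment
-/

namespace Helper37.MEI

open Set Metric MeasureTheory Helper80.CW Helper14.CW Helper14.MEI2
open Helper22.MEI (t s Fa Fb Fc FD FD_pos)
open Helper22.Wedge (co fld EC ib ibv norm_co)
open Helper22.Sig (dvg)
open Helper93.MEI
open Pool.Agent.Helper73.MEI (PM TE pf pf_bij pr pr_apply beE)
open Pool.Agent.Helper95.MEI.Cst (AsE AxE dvE fAs)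
open scoped ContDiff RealInnerProductSpace Real

/-! ### coupling at a general vertex -/

section
variable {a : Fin 4 → E3}

theorem yv_self (j : Fin 4) (q : E3) : yv a j j q = 0 := by
  unfold yv
  rw [sub_self, inner_zero_right]

theorem sum_bar (h : Gram4 (al a)) (x : E3) : ∑ k, bar a k x = 1 := by
  rw [Fin.sum_univ_four]
  exact bar_sum h x

theorem sum_bar_sub (h : Gram4 (al a)) (j : Fin 4) (z : E3) :
    ∑ k, bar a k z • (a j - a k) = a j - z := by
  have h1 := bar_expand h z
  have h2 := bar_sum h z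
  have h3 : ∀ k, a k = al a k + cen a := fun k => by unfold al; abel
  rw [Fin.sum_univ_four]
  have e1 : bar a 0 z • (a j - a 0) + bar a 1 z • (a j - a 1) + bar a 2 z • (a j - a 2) +
      bar a 3 z • (a j - a 3) = (bar a 0 z + bar a 1 z + bar a 2 z + bar a 3 z) • (a j - cen a) -
      (bar a 0 z • al a 0 + bar a 1 z • al a 1 + bar a 2 z • al a 2 + bar a 3 z • al a 3) := by
    rw [h3 0, h3 1, h3 2, h3 3]
    module
  rw [e1, h2, ← h1, one_smul]
  abel

/-- coupling at a general vertex -/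
theorem coupling (h : Gram4 (al a)) (j : Fin 4) {z r : E3} (hzr : ‖z - r‖ ≤ 1) :
    Qv a j z + ‖a j - r‖ ^ 2 ≤ 2 * ∑ k, bar a k z * yv a j k r := by
  have h1 : ∑ k, bar a k z * yv a j k r = ⟪a j - r, a j - z⟫ := by
    rw [← sum_bar_sub h j z, inner_sum]
    apply Finset.sum_congr rfl
    intro k _
    rw [real_inner_smul_right]
    rfl
  rw [h1]
  have h2 := norm_sub_sq_real (a j - r) (a j - z)
  have e : a j - r - (a j - z) = z - r := by abel
  rw [e] at h2
  have h3 : ‖z - r‖ ^ 2 ≤ 1 := by nlinarith [norm_nonneg (z - r)]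
  unfold Qv
  rw [norm_sub_rev z (a j)]
  linarith

/-- the positive barycentric coordinates -/
theorem sum_pp_le (h : Gram4 (al a)) {q : E3} (hp : Pl a q) {S : ℝ} (hS : 0 ≤ S)
    (hQ : ∀ i, Qv a i q ≤ S) (j : Fin 4) :
    (∑ k, if k = j then 0 else pp (bar a k q)) ≤ √(3 / 2 + 2 * S) := by
  have hs := bar_sum h q
  have hq := (pl_iff h).1 hp
  have q0 := hQ 0
  have q1 := hQ 1
  have q2 := hQ 2
  have q3 := hQ 3
  rw [Qv_eq h] at q0 q1 q2 q3
  apply Real.le_sqrt_of_sq_le
  set x0 := bar a 0 q with hx0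
  set x1 := bar a 1 q with hx1
  set x2 := bar a 2 q with hx2
  set x3 := bar a 3 q with hx3
  -- the abstract statement
  have key : ∀ u v w z : ℝ, u + v + w + z = 1 → u - v ≤ 1 → u - w ≤ 1 → v - u ≤ 1 → v - w ≤ 1 →
      w - u ≤ 1 → w - v ≤ 1 →
      1 / 2 * (u ^ 2 + v ^ 2 + w ^ 2 + z ^ 2) - z - 1 / 2 ≤ S →
      1 / 2 * (u ^ 2 + v ^ 2 + w ^ 2 + z ^ 2) - u - 1 / 2 ≤ S →
      1 / 2 * (u ^ 2 + v ^ 2 + w ^ 2 + z ^ 2) - v - 1 / 2 ≤ S →
      1 / 2 * (u ^ 2 + v ^ 2 + w ^ 2 + z ^ 2) - w - 1 / 2 ≤ S →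
      (pp u + pp v + pp w) ^ 2 ≤ 3 / 2 + 2 * S := by
    intro u v w z e1 c1 c2 c3 c4 c5 c6 d0 d1 d2 d3
    have two : ∀ u v w z : ℝ, u + v + w + z = 1 → 0 ≤ u → 0 ≤ v → w < 0 →
        1 / 2 * (u ^ 2 + v ^ 2 + w ^ 2 + z ^ 2) - z - 1 / 2 ≤ S →
        1 / 2 * (u ^ 2 + v ^ 2 + w ^ 2 + z ^ 2) - w - 1 / 2 ≤ S →
        (u + v) ^ 2 ≤ 3 / 2 + 2 * S := by
      intro u v w z e1 hu hv hw d0 d3
      have hz : z = 1 - u - v - w := by linarith
      subst hz
      linarith [sq_nonneg (u - v), sq_nonneg (w - (1 - u - v - w))]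
    have one : ∀ u v : ℝ, 0 ≤ u → v < 0 → u - v ≤ 1 → u ^ 2 ≤ 3 / 2 + 2 * S := by
      intro u v hu hv h1
      have h2 : u ≤ 1 := by linarith
      have h3 : u ^ 2 ≤ 1 ^ 2 := pow_le_pow_left₀ hu h2 2
      linarith
    rcases le_or_gt 0 u with hu | hu <;> rcases le_or_gt 0 v with hv | hv <;>
      rcases le_or_gt 0 w with hw | hw
    · have e2 : pp u + pp v + pp w = u + v + w := by
        unfold pp; rw [max_eq_left hu, max_eq_left hv, max_eq_left hw]
      rw [e2]
      have hz : z = 1 - u - v - w := by linarith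
      subst hz
      linarith [sq_nonneg (u - v), sq_nonneg (u - w), sq_nonneg (v - w)]
    · have e2 : pp u + pp v + pp w = u + v := by
        unfold pp; rw [max_eq_left hu, max_eq_left hv, max_eq_right hw.le]; ring
      rw [e2]
      exact two u v w z e1 hu hv hw d0 d3
    · have e2 : pp u + pp v + pp w = u + w := by
        unfold pp; rw [max_eq_left hu, max_eq_right hv.le, max_eq_left hw]; ring
      rw [e2]
      exact two u w v z (by linarith) hu hw hv (by linarith) (by linarith)
    · have e2 : pp u + pp v + pp w = u := by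
        unfold pp; rw [max_eq_left hu, max_eq_right hv.le, max_eq_right hw.le]; ring
      rw [e2]
      exact one u v hu hv c1
    · have e2 : pp u + pp v + pp w = v + w := by
        unfold pp; rw [max_eq_right hu.le, max_eq_left hv, max_eq_left hw]; ring
      rw [e2]
      exact two v w u z (by linarith) hv hw hu (by linarith) (by linarith)
    · have e2 : pp u + pp v + pp w = v := by
        unfold pp; rw [max_eq_right hu.le, max_eq_left hv, max_eq_right hw.le]; ring
      rw [e2]
      exact one v u hv hu c3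
    · have e2 : pp u + pp v + pp w = w := by
        unfold pp; rw [max_eq_right hu.le, max_eq_right hv.le, max_eq_left hw]; ring
      rw [e2]
      exact one w u hw hu c5
    · have e2 : pp u + pp v + pp w = 0 := by
        unfold pp; rw [max_eq_right hu.le, max_eq_right hv.le, max_eq_right hw.le]; ring
      rw [e2]
      linarith
  have k01 := hq 0 1 (by decide)
  have k02 := hq 0 2 (by decide)
  have k03 := hq 0 3 (by decide)
  have k10 := hq 1 0 (by decide)
  have k12 := hq 1 2 (by decide)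
  have k13 := hq 1 3 (by decide)
  have k20 := hq 2 0 (by decide)
  have k21 := hq 2 1 (by decide)
  have k23 := hq 2 3 (by decide)
  have k30 := hq 3 0 (by decide)
  have k31 := hq 3 1 (by decide)
  have k32 := hq 3 2 (by decide)
  fin_cases j
  · have e2 : (∑ k, if k = (⟨0, by decide⟩ : Fin 4) then (0 : ℝ) else pp (bar a k q)) =
        pp x1 + pp x2 + pp x3 := by
      rw [Fin.sum_univ_four]
      simp
      rfl
    rw [e2]
    exact key x1 x2 x3 x0 (by linarith) (by linarith) (by linarith) (by linarith) (by linarith)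
      (by linarith) (by linarith) (by linarith) (by linarith) (by linarith) (by linarith)
  · have e2 : (∑ k, if k = (⟨1, by decide⟩ : Fin 4) then (0 : ℝ) else pp (bar a k q)) =
        pp x0 + pp x2 + pp x3 := by
      rw [Fin.sum_univ_four]
      simp
      rfl
    rw [e2]
    exact key x0 x2 x3 x1 (by linarith) (by linarith) (by linarith) (by linarith) (by linarith)
      (by linarith) (by linarith) (by linarith) (by linarith) (by linarith) (by linarith)
  · have e2 : (∑ k, if k = (⟨2, by decide⟩ : Fin 4) then (0 : ℝ) else pp (bar a k q)) =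
        pp x0 + pp x1 + pp x3 := by
      rw [Fin.sum_univ_four]
      simp
      rfl
    rw [e2]
    exact key x0 x1 x3 x2 (by linarith) (by linarith) (by linarith) (by linarith) (by linarith)
      (by linarith) (by linarith) (by linarith) (by linarith) (by linarith) (by linarith)
  · have e2 : (∑ k, if k = (⟨3, by decide⟩ : Fin 4) then (0 : ℝ) else pp (bar a k q)) =
        pp x0 + pp x1 + pp x2 := by
      rw [Fin.sum_univ_four]
      simp
      rfl
    rw [e2]
    exact key x0 x1 x2 x3 (by linarith) (by linarith) (by linarith) (by linarith) (by linarith)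
      (by linarith) (by linarith) (by linarith) (by linarith) (by linarith) (by linarith)

end

/-! ### one cell -/

section
variable {a : Fin 4 → E3} {K : Set E3} {σ : Measure (E3 × E3)}

/-- the pairs whose second point is outside of the ball of the vertex `j` -/
def Pos (a : Fin 4 → E3) (j : Fin 4) : Set (E3 × E3) := {z | 0 < Qv a j z.2}

theorem Pos_meas (a : Fin 4 → E3) (j : Fin 4) : MeasurableSet (Pos a j) :=
  measurableSet_lt measurable_const
    ((Pool.Agent.Helper95.MEI.Fub.Qv_cont a j).comp continuous_snd).measurable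

theorem pp_int {E : Set (E3 × E3)} (hE : MeasurableSet E) (W : E3 → ℝ) (j : Fin 4) :
    ∫ z in E, W z.1 * pp (Qv a j z.2) ∂σ = ∫ z in E ∩ Pos a j, W z.1 * Qv a j z.2 ∂σ := by
  rw [← integral_indicator hE, ← integral_indicator (hE.inter (Pos_meas a j))]
  congr 1
  funext z
  by_cases h1 : z ∈ E
  · by_cases h2 : z ∈ Pos a j
    · rw [indicator_of_mem h1, indicator_of_mem (show z ∈ E ∩ Pos a j from ⟨h1, h2⟩)]
      have h3 : 0 < Qv a j z.2 := h2
      unfold pp
      rw [max_eq_left h3.le]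
    · rw [indicator_of_mem h1, indicator_of_notMem (fun h => h2 h.2)]
      have h3 : ¬ 0 < Qv a j z.2 := h2
      unfold pp
      rw [max_eq_right (not_lt.1 h3), mul_zero]
  · rw [indicator_of_notMem h1, indicator_of_notMem (fun h => h1 h.1)]

/-- averaged coupling of one cell -/
theorem cell_cpl [IsFiniteMeasure σ] (h : Gram4 (al a)) (hK : IsCompact K)
    (hσ : ∀ᵐ z ∂σ, z.1 ∈ K ∧ z.2 ∈ K) {E : Set (E3 × E3)} (hE : MeasurableSet E) {W : E3 → ℝ}
    (hW : Continuous W) (hW0 : ∀ x ∈ K, 0 ≤ W x) (j : Fin 4) {r : E3}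
    (hr : ∀ z ∈ K, ‖z - r‖ ≤ 1) :
    (∫ z in E, W z.1 * pp (Qv a j z.2) ∂σ) + (∫ z in E ∩ Pos a j, W z.1 ∂σ) * ‖a j - r‖ ^ 2 ≤
      2 * ∑ k, (∫ z in E ∩ Pos a j, W z.1 * bar a k z.2 ∂σ) * yv a j k r := by
  have hb : ∀ k, Continuous (bar a k) := Pool.Agent.Helper95.MEI.Fub.bar_cont a
  have hq := Pool.Agent.Helper95.MEI.Fub.Qv_cont a j
  have i1 : Integrable (fun z : E3 × E3 => W z.1 * Qv a j z.2) σ :=
    cont_int hK hσ ((hW.comp continuous_fst).mul (hq.comp continuous_snd))
  have i2 : Integrable (fun z : E3 × E3 => W z.1) σ := cont_int hK hσ (hW.comp continuous_fst)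
  have i3 : ∀ k, Integrable (fun z : E3 × E3 => W z.1 * bar a k z.2) σ := fun k =>
    cont_int hK hσ ((hW.comp continuous_fst).mul ((hb k).comp continuous_snd))
  rw [pp_int hE]
  have e1 : 2 * ∑ k, (∫ z in E ∩ Pos a j, W z.1 * bar a k z.2 ∂σ) * yv a j k r =
      ∫ z in E ∩ Pos a j, 2 * ∑ k, (W z.1 * bar a k z.2) * yv a j k r ∂σ := by
    rw [integral_const_mul, integral_finsetSum]
    · congr 1
      apply Finset.sum_congr rfl
      intro k _
      rw [integral_mul_const]
    · intro k _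
      exact (i3 k).integrableOn.mul_const _
  have e2 : (∫ z in E ∩ Pos a j, W z.1 * Qv a j z.2 ∂σ) +
      (∫ z in E ∩ Pos a j, W z.1 ∂σ) * ‖a j - r‖ ^ 2 =
      ∫ z in E ∩ Pos a j, (W z.1 * Qv a j z.2 + W z.1 * ‖a j - r‖ ^ 2) ∂σ := by
    rw [integral_add i1.integrableOn (i2.integrableOn.mul_const _), integral_mul_const]
  rw [e1, e2]
  apply integral_mono_ae
  · exact i1.integrableOn.add (i2.integrableOn.mul_const _)
  · apply Integrable.const_mul
    apply integrable_finsetSum
    intro k _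
    exact (i3 k).integrableOn.mul_const _
  · filter_upwards [ae_restrict_of_ae hσ] with z hz
    have h1 := coupling h j (hr z.2 hz.2)
    have h2 := mul_le_mul_of_nonneg_left h1 (hW0 z.1 hz.1)
    have e3 : 2 * ∑ k, (W z.1 * bar a k z.2) * yv a j k r =
        W z.1 * (2 * ∑ k, bar a k z.2 * yv a j k r) := by
      rw [Finset.mul_sum, Finset.mul_sum, Finset.mul_sum]
      apply Finset.sum_congr rfl
      intro k _
      ring
    rw [e3]
    linarith

/-- first moment against mass, one cell -/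
theorem cell_pp [IsFiniteMeasure σ] (h : Gram4 (al a)) (hK : IsCompact K)
    (hσ : ∀ᵐ z ∂σ, z.1 ∈ K ∧ z.2 ∈ K) (hp : ∀ x ∈ K, Pl a x) {S : ℝ} (hS : 0 ≤ S)
    (hQ : ∀ i, ∀ x ∈ K, Qv a i x ≤ S) {E : Set (E3 × E3)} {W : E3 → ℝ}
    (hW : Continuous W) (hW0 : ∀ x ∈ K, 0 ≤ W x) (j : Fin 4) :
    (∑ k, if k = j then 0 else ∫ z in E ∩ Pos a j, W z.1 * pp (bar a k z.2) ∂σ) ≤
      √(3 / 2 + 2 * S) * ∫ z in E ∩ Pos a j, W z.1 ∂σ := by
  have hb : ∀ k, Continuous (bar a k) := Pool.Agent.Helper95.MEI.Fub.bar_cont a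
  have hpc := Pool.Agent.Helper95.MEI.Fub.pp_cont
  have i2 : Integrable (fun z : E3 × E3 => W z.1) σ := cont_int hK hσ (hW.comp continuous_fst)
  have i3 : ∀ k, Integrable (fun z : E3 × E3 => W z.1 * pp (bar a k z.2)) σ := fun k =>
    cont_int hK hσ ((hW.comp continuous_fst).mul (hpc.comp ((hb k).comp continuous_snd)))
  have i4 : ∀ k, Integrable (fun z : E3 × E3 => if k = j then 0 else W z.1 * pp (bar a k z.2)) σ := by
    intro k
    by_cases hk : k = j
    · simp only [hk, if_true]
      exact integrable_const 0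
    · simp only [hk, if_false]
      exact i3 k
  have e1 : (∑ k, if k = j then 0 else ∫ z in E ∩ Pos a j, W z.1 * pp (bar a k z.2) ∂σ) =
      ∫ z in E ∩ Pos a j, ∑ k, (if k = j then 0 else W z.1 * pp (bar a k z.2)) ∂σ := by
    rw [integral_finsetSum]
    · apply Finset.sum_congr rfl
      intro k _
      by_cases hk : k = j
      · simp [hk]
      · simp [hk]
    · intro k _
      exact (i4 k).integrableOn
  rw [e1, ← integral_const_mul]
  apply integral_mono_ae
  · apply integrable_finsetSum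
    intro k _
    exact (i4 k).integrableOn
  · exact i2.integrableOn.const_mul _
  · filter_upwards [ae_restrict_of_ae hσ] with z hz
    have h1 := sum_pp_le h (hp z.2 hz.2) hS (fun i => hQ i z.2 hz.2) j
    have h2 := mul_le_mul_of_nonneg_left h1 (hW0 z.1 hz.1)
    have e3 : (∑ k, (if k = j then 0 else W z.1 * pp (bar a k z.2))) =
        W z.1 * ∑ k, (if k = j then 0 else pp (bar a k z.2)) := by
      rw [Finset.mul_sum]
      apply Finset.sum_congr rfl
      intro k _
      by_cases hk : k = j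
      · simp [hk]
      · simp [hk]
    simp only [e3]
    linarith

theorem cell_M_le [IsFiniteMeasure σ] (hK : IsCompact K)
    (hσ : ∀ᵐ z ∂σ, z.1 ∈ K ∧ z.2 ∈ K) {E : Set (E3 × E3)} {W : E3 → ℝ}
    (hW : Continuous W) (hW0 : ∀ x ∈ K, 0 ≤ W x) (j k : Fin 4) :
    ∫ z in E ∩ Pos a j, W z.1 * bar a k z.2 ∂σ ≤
      ∫ z in E ∩ Pos a j, W z.1 * pp (bar a k z.2) ∂σ ∧
    0 ≤ ∫ z in E ∩ Pos a j, W z.1 * pp (bar a k z.2) ∂σ := by
  have hb : ∀ k, Continuous (bar a k) := Pool.Agent.Helper95.MEI.Fub.bar_cont a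
  have hpc := Pool.Agent.Helper95.MEI.Fub.pp_cont
  have i3 : Integrable (fun z : E3 × E3 => W z.1 * pp (bar a k z.2)) σ :=
    cont_int hK hσ ((hW.comp continuous_fst).mul (hpc.comp ((hb k).comp continuous_snd)))
  have i4 : Integrable (fun z : E3 × E3 => W z.1 * bar a k z.2) σ :=
    cont_int hK hσ ((hW.comp continuous_fst).mul ((hb k).comp continuous_snd))
  constructor
  · apply integral_mono_ae i4.integrableOn i3.integrableOn
    filter_upwards [ae_restrict_of_ae hσ] with z hz
    exact mul_le_mul_of_nonneg_left (le_pp _) (hW0 z.1 hz.1)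
  · apply integral_nonneg_of_ae
    filter_upwards [ae_restrict_of_ae hσ] with z hz
    exact mul_nonneg (hW0 z.1 hz.1) (pp_nonneg _)

end

end Helper37.MEI
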