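import Pool.Agent.Helper37.MEI.Loss2

/-!
# Project MEI (M2): loads of a general density
-/

namespace Helper37.MEI

open Set Metric MeasureTheory Helper80.CW Helper14.CW Helper14.MEI2
open Helper22.MEI (t s Fa Fb Fc FD FD_pos)
open Helper22.Wedge (co fld EC ib ibv norm_co)
open Helper22.Sig (dvg)
open Helper93.MEI
open Pool.Agent.Helper8.MEI (DD DD_pos DD_ge divF NU)
open Pool.Agent.Helper73.MEI (PM TE pf pf_bij pr pr_apply beE EC_Ze)
open Pool.Agent.Helper95.MEI.Fub (Zp exn Zp_meas)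
open Pool.Agent.Helper95.MEI.Cst (AsE AxE dvE fAs AsE_eq int_dvE_As)
open scoped ContDiff RealInnerProductSpace Real

section
variable {a : Fin 4 → E3} {K : Set E3} {σ : Measure (E3 × E3)} {c : E3 × E3 → ℝ} {C : ℝ}

theorem dens_int [IsFiniteMeasure σ] (hK : IsCompact K) (hσ : ∀ᵐ z ∂σ, z.1 ∈ K ∧ z.2 ∈ K)
    (hc : Measurable c) (hc0 : ∀ᵐ z ∂σ, 0 ≤ c z) (hcC : ∀ᵐ z ∂σ, c z ≤ C)
    {g : E3 × E3 → ℝ} (hg : Continuous g) : Integrable (fun z => c z * g z) σ := by
  have h1 := cont_int hK hσ hg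
  apply h1.bdd_mul (c := C) hc.aestronglyMeasurable
  filter_upwards [hc0, hcC] with z h2 h3
  rw [Real.norm_eq_abs, abs_of_nonneg h2]
  exact h3

theorem dens_int1 [IsFiniteMeasure σ] (hc : Measurable c) (hc0 : ∀ᵐ z ∂σ, 0 ≤ c z)
    (hcC : ∀ᵐ z ∂σ, c z ≤ C) : Integrable c σ := by
  apply Integrable.mono' (integrable_const C) hc.aestronglyMeasurable
  filter_upwards [hc0, hcC] with z h2 h3
  rw [Real.norm_eq_abs, abs_of_nonneg h2]
  exact h3

/-- **averaged coupling**, general density -/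
theorem cplG [IsFiniteMeasure σ] (h : Gram4 (al a)) (hK : IsCompact K)
    (hσ : ∀ᵐ z ∂σ, z.1 ∈ K ∧ z.2 ∈ K) (hc : Measurable c) (hc0 : ∀ᵐ z ∂σ, 0 ≤ c z)
    (hcC : ∀ᵐ z ∂σ, c z ≤ C) (E : Set (E3 × E3)) (j : Fin 4) {r : E3}
    (hr : ∀ z ∈ K, ‖z - r‖ ≤ 1) :
    (∫ z in E, c z * Qv a j z.2 ∂σ) + (∫ z in E, c z ∂σ) * ‖a j - r‖ ^ 2 ≤
      2 * ∑ k, (∫ z in E, c z * bar a k z.2 ∂σ) * yv a j k r := by
  have hb : ∀ k, Continuous (bar a k) := Pool.Agent.Helper95.MEI.Fub.bar_cont a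
  have hq := Pool.Agent.Helper95.MEI.Fub.Qv_cont a j
  have i1 : Integrable (fun z : E3 × E3 => c z * Qv a j z.2) σ :=
    dens_int hK hσ hc hc0 hcC (hq.comp continuous_snd)
  have i2 : Integrable (fun z : E3 × E3 => c z) σ := dens_int1 hc hc0 hcC
  have i3 : ∀ k, Integrable (fun z : E3 × E3 => c z * bar a k z.2) σ := fun k =>
    dens_int hK hσ hc hc0 hcC ((hb k).comp continuous_snd)
  have e1 : 2 * ∑ k, (∫ z in E, c z * bar a k z.2 ∂σ) * yv a j k r =
      ∫ z in E, 2 * ∑ k, (c z * bar a k z.2) * yv a j k r ∂σ := by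
    rw [integral_const_mul, integral_finsetSum]
    · congr 1
      apply Finset.sum_congr rfl
      intro k _
      rw [integral_mul_const]
    · intro k _
      exact (i3 k).integrableOn.mul_const _
  have e2 : (∫ z in E, c z * Qv a j z.2 ∂σ) + (∫ z in E, c z ∂σ) * ‖a j - r‖ ^ 2 =
      ∫ z in E, (c z * Qv a j z.2 + c z * ‖a j - r‖ ^ 2) ∂σ := by
    rw [integral_add i1.integrableOn (i2.integrableOn.mul_const _), integral_mul_const]
  rw [e1, e2]
  apply integral_mono_ae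
  · exact i1.integrableOn.add (i2.integrableOn.mul_const _)
  · apply Integrable.const_mul
    apply integrable_finsetSum
    intro k _
    exact (i3 k).integrableOn.mul_const _
  · filter_upwards [ae_restrict_of_ae hσ, ae_restrict_of_ae hc0] with z hz hz0
    have h1 := coupling h j (hr z.2 hz.2)
    have h2 := mul_le_mul_of_nonneg_left h1 hz0
    have e3 : 2 * ∑ k, (c z * bar a k z.2) * yv a j k r =
        c z * (2 * ∑ k, bar a k z.2 * yv a j k r) := by
      rw [Finset.mul_sum, Finset.mul_sum, Finset.mul_sum]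
      apply Finset.sum_congr rfl
      intro k _
      ring
    rw [e3]
    linarith

/-- first moment of positive parts against mass -/
theorem sumG [IsFiniteMeasure σ] (h : Gram4 (al a)) (hK : IsCompact K)
    (hσ : ∀ᵐ z ∂σ, z.1 ∈ K ∧ z.2 ∈ K) (hp : ∀ x ∈ K, Pl a x) {S : ℝ} (hS : 0 ≤ S)
    (hQ : ∀ i, ∀ x ∈ K, Qv a i x ≤ S) (hc : Measurable c) (hc0 : ∀ᵐ z ∂σ, 0 ≤ c z)
    (hcC : ∀ᵐ z ∂σ, c z ≤ C) (E : Set (E3 × E3)) (j : Fin 4) :
    (∑ k, if k = j then 0 else pp (∫ z in E, c z * bar a k z.2 ∂σ)) ≤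
      √(3 / 2 + 2 * S) * ∫ z in E, c z ∂σ := by
  have hb : ∀ k, Continuous (bar a k) := Pool.Agent.Helper95.MEI.Fub.bar_cont a
  have hpc := Pool.Agent.Helper95.MEI.Fub.pp_cont
  have i2 : Integrable (fun z : E3 × E3 => c z) σ := dens_int1 hc hc0 hcC
  have i5 : ∀ k, Integrable (fun z : E3 × E3 => c z * bar a k z.2) σ := fun k =>
    dens_int hK hσ hc hc0 hcC ((hb k).comp continuous_snd)
  have i3 : ∀ k, Integrable (fun z : E3 × E3 => c z * pp (bar a k z.2)) σ := fun k =>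
    dens_int hK hσ hc hc0 hcC (hpc.comp ((hb k).comp continuous_snd))
  have i4 : ∀ k, Integrable (fun z : E3 × E3 => if k = j then 0 else c z * pp (bar a k z.2)) σ := by
    intro k
    by_cases hk : k = j
    · simp only [hk, if_true]
      exact integrable_const 0
    · simp only [hk, if_false]
      exact i3 k
  have h1 : ∀ k, pp (∫ z in E, c z * bar a k z.2 ∂σ) ≤ ∫ z in E, c z * pp (bar a k z.2) ∂σ := by
    intro k
    unfold pp
    apply max_le
    · apply integral_mono_ae (i5 k).integrableOn (i3 k).integrableOn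
      filter_upwards [ae_restrict_of_ae hc0] with z hz0
      exact mul_le_mul_of_nonneg_left (le_pp _) hz0
    · apply integral_nonneg_of_ae
      filter_upwards [ae_restrict_of_ae hc0] with z hz0
      exact mul_nonneg hz0 (pp_nonneg _)
  have e1 : (∑ k, if k = j then 0 else ∫ z in E, c z * pp (bar a k z.2) ∂σ) =
      ∫ z in E, ∑ k, (if k = j then 0 else c z * pp (bar a k z.2)) ∂σ := by
    rw [integral_finsetSum]
    · apply Finset.sum_congr rfl
      intro k _
      by_cases hk : k = j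
      · simp [hk]
      · simp [hk]
    · intro k _
      exact (i4 k).integrableOn
  calc (∑ k, if k = j then 0 else pp (∫ z in E, c z * bar a k z.2 ∂σ))
      ≤ ∑ k, (if k = j then 0 else ∫ z in E, c z * pp (bar a k z.2) ∂σ) := by
        apply Finset.sum_le_sum
        intro k _
        split_ifs
        · exact le_rfl
        · exact h1 k
    _ ≤ _ := by
        rw [e1, ← integral_const_mul]
        apply integral_mono_ae
        · apply integrable_finsetSum
          intro k _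
          exact (i4 k).integrableOn
        · exact i2.integrableOn.const_mul _
        · filter_upwards [ae_restrict_of_ae hσ, ae_restrict_of_ae hc0] with z hz hz0
          have h1 := sum_pp_le h (hp z.2 hz.2) hS (fun i => hQ i z.2 hz.2) j
          have h2 := mul_le_mul_of_nonneg_left h1 hz0
          have e3 : (∑ k, (if k = j then 0 else c z * pp (bar a k z.2))) =
              c z * ∑ k, (if k = j then 0 else pp (bar a k z.2)) := by
            rw [Finset.mul_sum]
            apply Finset.sum_congr rfl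
            intro k _
            by_cases hk : k = j
            · simp [hk]
            · simp [hk]
          simp only [e3]
          linarith

/-- one coordinate of the first moment, from a pointwise bound -/
theorem thirdG [IsFiniteMeasure σ] (hK : IsCompact K) (hσ : ∀ᵐ z ∂σ, z.1 ∈ K ∧ z.2 ∈ K)
    (hc : Measurable c) (hc0 : ∀ᵐ z ∂σ, 0 ≤ c z) (hcC : ∀ᵐ z ∂σ, c z ≤ C)
    {E : Set (E3 × E3)} {W : E3 → ℝ} (hW : Continuous W) {D : ℝ} (k : Fin 4)
    (hk : ∀ᵐ z ∂(σ.restrict E), c z * pp (bar a k z.2) ≤ D * W z.1) :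
    pp (∫ z in E, c z * bar a k z.2 ∂σ) ≤ D * ∫ z in E, W z.1 ∂σ := by
  have hb : ∀ k, Continuous (bar a k) := Pool.Agent.Helper95.MEI.Fub.bar_cont a
  have hpc := Pool.Agent.Helper95.MEI.Fub.pp_cont
  have i5 : Integrable (fun z : E3 × E3 => c z * bar a k z.2) σ :=
    dens_int hK hσ hc hc0 hcC ((hb k).comp continuous_snd)
  have i3 : Integrable (fun z : E3 × E3 => c z * pp (bar a k z.2)) σ :=
    dens_int hK hσ hc hc0 hcC (hpc.comp ((hb k).comp continuous_snd))
  have i2 : Integrable (fun z : E3 × E3 => W z.1) σ := cont_int hK hσ (hW.comp continuous_fst)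
  have h2 : ∫ z in E, c z * pp (bar a k z.2) ∂σ ≤ D * ∫ z in E, W z.1 ∂σ := by
    rw [← integral_const_mul]
    exact integral_mono_ae i3.integrableOn (i2.integrableOn.const_mul _) hk
  refine le_trans ?_ h2
  unfold pp
  apply max_le
  · apply integral_mono_ae i5.integrableOn i3.integrableOn
    filter_upwards [ae_restrict_of_ae hc0] with z hz0
    exact mul_le_mul_of_nonneg_left (le_pp _) hz0
  · apply integral_nonneg_of_ae
    filter_upwards [ae_restrict_of_ae hc0] with z hz0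
    exact mul_nonneg hz0 (pp_nonneg _)

/-- mass, from a pointwise bound -/
theorem massG [IsFiniteMeasure σ] (hK : IsCompact K) (hσ : ∀ᵐ z ∂σ, z.1 ∈ K ∧ z.2 ∈ K)
    (hc : Measurable c) (hc0 : ∀ᵐ z ∂σ, 0 ≤ c z) (hcC : ∀ᵐ z ∂σ, c z ≤ C)
    {E : Set (E3 × E3)} {W : E3 → ℝ} (hW : Continuous W)
    (hk : ∀ᵐ z ∂(σ.restrict E), c z ≤ W z.1) :
    ∫ z in E, c z ∂σ ≤ ∫ z in E, W z.1 ∂σ :=
  integral_mono_ae (dens_int1 hc hc0 hcC).integrableOn
    (cont_int hK hσ (hW.comp continuous_fst)).integrableOn hk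

end

/-! ### the mass of a cell -/

section
variable {a : Fin 4 → E3} {K : Set E3} {σ : Measure (E3 × E3)}

/-- **the mass of the full weight of one arc** -/
theorem wt_mass (ha : ∀ i j, i ≠ j → dist (a i) (a j) = 1)
    {B : Fin 3 → Bool → OrthonormalBasis (Fin 3) ℝ E3} [IsFiniteMeasure σ]
    (h : PM K σ) (hp : ∀ x ∈ K, Pl a x)
    (hB : ∀ m e, Fr (fun i => a (pr m e i)) (B m e)) {s : Fin 4 → ℝ} (hs : ∀ i, 0 ≤ s i)
    (hQ : ∀ i, ∀ q ∈ K, Qv a i q ≤ s i) (m : Fin 3) (e i : Bool) :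
    (1 - 2 * (s (pf m e 0) + s (pf m e 1)) - 1.54 * (s (pf m e 0) - s (pf m e 1)) ^ 2) *
        ∫ z in EE a m e, wt (ap a m e) i z.1 ∂σ ≤
      2 * fAs + 9.2 * ((0.0393 + 0.2358 * s (pf m e 2)) * s (pf m e 2) +
        (0.0393 + 0.2358 * s (pf m e 3)) * s (pf m e 3)) := by
  have ha' := hap ha m e
  have hb : Fr (ap a m e) (B m e) := hB m e
  have hc : cen (ap a m e) = cen a := cen_perm _
  have hp' : ∀ x ∈ K, Pl (ap a m e) x := fun x hx => Pl_perm _ (hp x hx)
  have ht : √2 / 4 = t := by unfold t; ring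
  obtain ⟨v0, v1, v2, v3⟩ := co_vert ha' hb
  rw [ht] at v0 v1 v2 v3
  have hpr : ∀ᵐ z ∂σ, z.1 ∈ K ∧ z.2 ∈ K ∧ ‖z.1 - z.2‖ = 1 := by
    filter_upwards [h.ae] with z hz using ⟨hz.1, hz.2.1, hz.2.2.1⟩
  have hX : ∀ x ∈ K, |(co (B m e) (cen (ap a m e)) x).1| ≤ 1 / 2 := by
    intro x hx
    have h1 := (pl_e (hgp ha m e) (hp' x hx)).2.1
    have h2 := (frame_e (hgp ha m e) hb.1 hb.2.1 hb.2.2 x).1
    have h3 : (co (B m e) (cen (ap a m e)) x).1 = ⟪B m e 0, x - cen (ap a m e)⟫ := rfl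
    rw [h3, h2]
    exact h1
  have hq : ∀ j, ∀ x ∈ K, ‖x - ap a m e j‖ ^ 2 - 1 ≤ s (pf m e j) :=
    fun j x hx => hQ (pf m e j) x hx
  set ε : ℝ := if i then -1 else 1 with hε
  have hε2 : ε ^ 2 = 1 := by
    rw [hε]
    split_ifs <;> norm_num
  have h1 := mass_s (b := B m e) (c := cen (ap a m e)) (σ := σ) h.cpt hpr h.flux hX v0 v1 v2 v3
    (hq 0) (hq 1) (hq 2) (hq 3) hε2
  have hA := Ast_AsE ha' hb
  have e1 : ∫ x in Ast (B m e) (cen (ap a m e)) (ap a m e 2) (ap a m e 3),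
      dvF (B m e) (cen (ap a m e)) x = fAs := by
    rw [hA]
    exact int_dvE_As _ _
  rw [e1, Pool.Agent.Helper73.MEI.EC_Zp ha' hb] at h1
  have h2 : volume.real (Rg (B m e) (cen (ap a m e)) (ap a m e 2) (ap a m e 3)
      (s (pf m e 2)) (s (pf m e 3))) ≤
      (0.0393 + 0.2358 * s (pf m e 2)) * s (pf m e 2) +
        (0.0393 + 0.2358 * s (pf m e 3)) * s (pf m e 3) := by
    unfold Rg
    rw [hA]
    apply Helper72.MEI.beta_gen ha' hb _ (hs _) (hs _)
    · intro q hq
      exact hq.2.1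
    · intro q hq
      exact hq.2.2
    · intro q hq
      have h3 := hq.1
      have h4 := (frame_e (hgp ha m e) hb.1 hb.2.1 hb.2.2 q).1
      have h5 : (co (B m e) (cen (ap a m e)) q).1 = ⟪B m e 0, q - cen (ap a m e)⟫ := rfl
      rw [h5, h4] at h3
      exact h3
  have e2 : ∀ x, wD (B m e) (cen (ap a m e)) ε x = wt (ap a m e) i x := by
    intro x
    obtain ⟨w0, w1⟩ := wt_wD (hgp ha m e) hb x
    rw [hε]
    cases i
    · simp only [Bool.false_eq_true, if_false]
      exact w0.symm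
    · simp only [if_true]
      exact w1.symm
  simp only [e2] at h1
  unfold EE
  linarith

end

end Helper37.MEI
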