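import Pool.Agent.Helper53.MEI.Mom3

/-!
# Project MEI (M2): bulk terms of the moment of an arc, I

The inner body in the edge cell (all points with transversal coordinate between the walls), the
field `om * (- b_k)` in the axial direction, and the total volume term.
-/

namespace Helper37.Bulk

open Set MeasureTheory Filter Topology Metric
open Helper80.CW Helper22.Wedge Helper22.Sig Helper14.CW Helper14.MEI2 Helper93.MEI
open Helper22.MEI (s t FD FD_pos)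
open Helper21.Sec Helper21.Mom Helper53.MEI
open scoped RealInnerProductSpace ContDiff Real

/-! ### the inner body -/

theorem mem_poly {X W y Y X' Y' W' s1 s2 : ℝ} (hy : √2 * y = W) (hy0 : 0 ≤ y)
    (hysm : y ≤ 0.0774) (hY : Y ^ 2 ≤ y ^ 2) (hX : |X| ≤ 1 / 2) (hs1 : 0 ≤ s1) (hs2 : 0 ≤ s2)
    (hq1 : X' ^ 2 + Y' ^ 2 + W' ^ 2 - X' - 3 / 4 ≤ s1)
    (hq2 : X' ^ 2 + Y' ^ 2 + W' ^ 2 + X' - 3 / 4 ≤ s2)
    (hq : X ^ 2 + W ^ 2 + y ^ 2 + 3 * y ≤ 1 / 4 - (0.5774 * (s1 + s2) + (s1 - s2) * X)) :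
    (X - X') ^ 2 + (Y - Y') ^ 2 + (W - W') ^ 2 ≤ 1 := by
  obtain ⟨hXl, hXu⟩ := abs_le.1 hX
  have h2 := r2
  have hW2 : W ^ 2 = 2 * y ^ 2 := by
    rw [← hy]; linear_combination y ^ 2 * h2
  -- the radial estimate
  have hE : 0 ≤ 2 * y * (Y' ^ 2 + W' ^ 2) + 2 * (Y * Y' + W * W') + 3 / 2 * y := by
    rcases hy0.eq_or_lt with h0 | h0
    · have hW0 : W = 0 := by rw [← hy, ← h0, mul_zero]
      have hY0 : Y = 0 := by
        rw [← h0] at hY
        have : Y ^ 2 = 0 := le_antisymm (by linarith) (sq_nonneg _)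
        exact pow_eq_zero_iff (two_ne_zero) |>.1 this
      rw [hW0, hY0, ← h0]; simp
    · have h3 : 0 ≤ (2 * y) * (2 * y * (Y' ^ 2 + W' ^ 2) + 2 * (Y * Y' + W * W') + 3 / 2 * y) := by
        have e : (2 * y) * (2 * y * (Y' ^ 2 + W' ^ 2) + 2 * (Y * Y' + W * W') + 3 / 2 * y) =
            (2 * y * Y' + Y) ^ 2 + (2 * y * W' + W) ^ 2 + (3 * y ^ 2 - Y ^ 2 - W ^ 2) := by ring
        rw [e, hW2]
        have := sq_nonneg (2 * y * Y' + Y)
        have := sq_nonneg (2 * y * W' + W)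
        linarith
      exact nonneg_of_mul_nonneg_right h3 (by linarith)
  have hb1 : 0 ≤ 1 / 2 + y + X := by linarith
  have hb2 : 0 ≤ 1 / 2 + y - X := by linarith
  have k1 := mul_le_mul_of_nonneg_left hq1 hb1
  have k2 := mul_le_mul_of_nonneg_left hq2 hb2
  have k3 : 0 ≤ 2 * y * X' ^ 2 := by positivity
  have k4 : (1 / 2 + y) * (s1 + s2) ≤ 0.5774 * (s1 + s2) :=
    mul_le_mul_of_nonneg_right (by linarith) (by linarith)
  have k7 : (1 / 2 + y + X) * s1 + (1 / 2 + y - X) * s2 = (1 / 2 + y) * (s1 + s2) + (s1 - s2) * X := by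
    ring
  have k8 : (1 / 2 + y + X) * (X' ^ 2 + Y' ^ 2 + W' ^ 2 - X' - 3 / 4) +
      (1 / 2 + y - X) * (X' ^ 2 + Y' ^ 2 + W' ^ 2 + X' - 3 / 4) =
      (1 + 2 * y) * (X' ^ 2 + Y' ^ 2 + W' ^ 2) - 2 * X * X' - 3 / 4 * (1 + 2 * y) := by ring
  have k9 : (X - X') ^ 2 + (Y - Y') ^ 2 + (W - W') ^ 2 =
      X ^ 2 + Y ^ 2 + W ^ 2 - 2 * X * X' - 2 * (Y * Y' + W * W') + (X' ^ 2 + Y' ^ 2 + W' ^ 2) := by
    ring
  rw [k9]
  rw [hW2] at hq
  nlinarith

variable {b : OrthonormalBasis (Fin 3) ℝ E3} {c : E3}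

/-- the inner body, all transversal positions -/
theorem in_mem {K : Set E3} {s1 s2 s3 s4 : ℝ} (h : Bod b c K s1 s2 s3 s4) {X W Y : ℝ}
    (hX : |X| ≤ 1 / 2) (hW0 : 0 ≤ W) (hWu : W < W0 X - √2 / 3 * (0.5774 * (s1 + s2) +
      (s1 - s2) * X)) (hY : |Y| ≤ √2 / 2 * W) :
    ∃ x ∈ K, co b c x = (X, Y, √2 / 4 + W) := by
  obtain ⟨hXl, hXu⟩ := abs_le.1 hX
  have h2 := r2
  have hs1 := h.s1_nn
  have hs2 := h.s2_nn
  have he : 0 ≤ 0.5774 * (s1 + s2) + (s1 - s2) * X := by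
    have h4 : 0 ≤ s1 * (0.5774 + X) := mul_nonneg hs1 (by linarith)
    have h5 : 0 ≤ s2 * (0.5774 - X) := mul_nonneg hs2 (by linarith)
    have h6 : s1 * (0.5774 + X) + s2 * (0.5774 - X) =
      0.5774 * (s1 + s2) + (s1 - s2) * X := by ring
    linarith
  have hq := low_in hX hW0 he hWu
  set y := √2 / 2 * W with hy
  have hy0 : 0 ≤ y := by positivity
  have hyW : √2 * y = W := by rw [hy]; linear_combination W / 2 * h2
  have hyy : y ^ 2 = W ^ 2 / 2 := by rw [← hyW]; linear_combination -(y ^ 2) / 2 * h2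
  have hq' : X ^ 2 + W ^ 2 + y ^ 2 + 3 * y ≤
      1 / 4 - (0.5774 * (s1 + s2) + (s1 - s2) * X) := by
    have : qw X W = X ^ 2 + W ^ 2 + y ^ 2 + 3 * y := by
      unfold qw; rw [hyy, hy]; ring
    rw [← this]; exact hq
  have hysm : y ≤ 0.0774 := by
    have h3 : 3 * y ^ 2 + 3 * y ≤ 1 / 4 := by nlinarith [sq_nonneg X]
    by_contra hcon
    rw [not_le] at hcon
    nlinarith
  have hYs : Y ^ 2 ≤ y ^ 2 := by
    rw [← sq_abs Y]
    exact pow_le_pow_left₀ (abs_nonneg _) hY 2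
  obtain ⟨x, hx⟩ := co_surj b c (X, Y, √2 / 4 + W)
  have hx1 : (co b c x).1 = X := by rw [hx]
  have hx2 : (co b c x).2.1 = Y := by rw [hx]
  have hx3 : (co b c x).2.2 = √2 / 4 + W := by rw [hx]
  refine ⟨x, h.comp x fun q hq => ?_, hx⟩
  have hn := norm_co b c x q
  rw [hx1, hx2, hx3] at hn
  set X' := (co b c q).1 with hX'
  set Y' := (co b c q).2.1 with hY'
  set W' := (co b c q).2.2 - √2 / 4 with hW'
  have hZ : √2 / 4 + W - (co b c q).2.2 = W - W' := by rw [hW']; ring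
  rw [hZ] at hn
  have hq1 := h.Q1 q hq
  have hq2 := h.Q2 q hq
  rw [← hX', ← hY', ← hW'] at hq1 hq2
  have hfin := mem_poly hyW hy0 hysm hYs hX hs1 hs2 hq1 hq2 hq'
  rw [dist_eq_norm]
  have : ‖x - q‖ ^ 2 ≤ 1 ^ 2 := by rw [hn, one_pow]; exact hfin
  exact le_of_sq_le_sq this (by norm_num)

/-! ### the field -/

/-- the linear form `- b_k` in the coordinates -/
noncomputable def lf (ε : ℝ) (q : ℝ × ℝ × ℝ) : ℝ := √2 / 2 * (q.2.2 - √2 / 4) - ε * q.2.1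

/-- the weight of the axial field -/
noncomputable def gf (η ε : ℝ) (q : ℝ × ℝ × ℝ) : ℝ := om η q * lf ε q

theorem lf_cd (ε : ℝ) {n : WithTop ℕ∞} : ContDiff ℝ n (lf ε) := by
  unfold lf
  fun_prop

theorem gf_cd (η ε : ℝ) {n : WithTop ℕ∞} : ContDiff ℝ n (gf η ε) := (om_cd η).mul (lf_cd ε)

variable (b c)

theorem lf_Tw (ε : ℝ) (x : E3) : lf ε (co b c x) = (Tw b c ε x).2 := rfl

theorem fd_om2 (η : ℝ) (x : E3) : fderiv ℝ (fun y => om η (co b c y)) x (b 2) =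
    omz η (co b c x) := by
  obtain ⟨⟨i00, i01, i02⟩, ⟨i10, i11, i12⟩, ⟨i20, i21, i22⟩⟩ := ibv b
  rw [fd_co b c (om_cd η), i02, i12, i22]
  exact E3_om η _

theorem fd_lf (ε : ℝ) (x : E3) : fderiv ℝ (fun y => lf ε (co b c y)) x (b 2) = √2 / 2 := by
  obtain ⟨⟨i00, i01, i02⟩, ⟨i10, i11, i12⟩, ⟨i20, i21, i22⟩⟩ := ibv b
  rw [fd_co b c (lf_cd ε), i02, i12, i22]
  have h1 : HasDerivAt (fun a : ℝ => lf ε ((co b c x).1, (co b c x).2.1, a)) (√2 / 2)
      (co b c x).2.2 := by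
    have h2 := (((hasDerivAt_id (co b c x).2.2).sub_const (√2 / 4)).const_mul (√2 / 2)).sub_const
      (ε * (co b c x).2.1)
    refine h2.congr_deriv ?_
    ring
  exact Helper22.MEI.E3_of (lf_cd ε) h1

theorem fd_gf (η ε : ℝ) (x : E3) : fderiv ℝ (fun y => gf η ε (co b c y)) x (b 2) =
    om η (co b c x) * (√2 / 2) + lf ε (co b c x) * omz η (co b c x) := by
  have hco := co_cdn b c (n := 1)
  have h1 : DifferentiableAt ℝ (fun y => om η (co b c y)) x :=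
    (((om_cd η).comp hco).differentiable one_ne_zero) x
  have h2 : DifferentiableAt ℝ (fun y => lf ε (co b c y)) x :=
    (((lf_cd ε).comp hco).differentiable one_ne_zero) x
  have h3 := (h1.hasFDerivAt.mul h2.hasFDerivAt).fderiv
  have e : (fun y => gf η ε (co b c y)) = (fun y => om η (co b c y)) * fun y => lf ε (co b c y) := by
    funext y; rfl
  rw [e, h3]
  have k1 := fd_om2 b c η x
  have k2 := fd_lf b c ε x
  simp only [_root_.add_apply, _root_.smul_apply, smul_eq_mul]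
  rw [k1, k2]

/-- the denominator in wall coordinates -/
noncomputable def Dh (p : (ℝ × ℝ) × ℝ) : ℝ :=
  1 / 4 + p.1.1 ^ 2 / 8 + ((√2 / 2 * p.1.2 - p.2) ^ 2 + p.1.2 ^ 2)

theorem Dh_pos (p : (ℝ × ℝ) × ℝ) : 1 / 4 ≤ Dh p := by
  unfold Dh
  have : 0 ≤ p.1.1 ^ 2 / 8 + ((√2 / 2 * p.1.2 - p.2) ^ 2 + p.1.2 ^ 2) := by positivity
  linarith

/-- the total volume term in wall coordinates -/
noncomputable def Fv (η : ℝ) (p : (ℝ × ℝ) × ℝ) : ℝ :=
  nn η p.1.1 / (4 * Dh p) * (√2 / 2) + nn η p.1.1 * (p.2 * (1 - p.1.2)) / (2 * Dh p ^ 2)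

theorem Fv_cont (η : ℝ) : Continuous (Fv η) := by
  have hD : ∀ p : (ℝ × ℝ) × ℝ, Dh p ≠ 0 := fun p => by have := Dh_pos p; linarith
  have hc : Continuous Dh := by unfold Dh; fun_prop
  unfold Fv nn
  refine Continuous.add ?_ ?_
  · refine Continuous.mul (Continuous.div (by fun_prop) (by fun_prop) fun p => ?_) continuous_const
    have := Dh_pos p
    positivity
  · refine Continuous.div (by fun_prop) (by fun_prop) fun p => ?_
    have := Dh_pos p
    positivity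

theorem FD_Dh {ε : ℝ} (hε : ε = 1 ∨ ε = -1) (x : E3) : FD (co b c x) = Dh (Tw b c ε x) := by
  unfold FD Dh Tw t
  simp only
  have e : (√2 / 2 * ((co b c x).2.2 - √2 / 4) -
      (√2 / 2 * ((co b c x).2.2 - √2 / 4) - ε * (co b c x).2.1)) ^ 2 = (co b c x).2.1 ^ 2 := by
    rcases hε with h | h <;> rw [h] <;> ring
  rw [e]

/-- **the total volume term** -/
theorem TV_eq (η : ℝ) {ε : ℝ} (hε : ε = 1 ∨ ε = -1) (x : E3) :
    fderiv ℝ (fun y => gf η ε (co b c y)) x (b 2) +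
      fderiv ℝ (fun y => om η (co b c y)) x (be b ε) = Fv η (Tw b c ε x) := by
  rw [fd_gf, fd_be]
  have hD := FD_Dh b c hε x
  have hp := FD_pos (co b c x)
  unfold Fv
  rw [← hD]
  unfold om omz omy lf nn Tw t
  simp only
  field_simp
  ring

end Helper37.Bulk
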