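import Pool.Agent.Helper37.MEI.Bulk1

/-!
# Project MEI (M2): bulk terms of the moment of an arc, II: the numbers
-/

namespace Helper37.Bulk

open Set MeasureTheory Filter Topology Metric
open Helper80.CW Helper22.Wedge Helper22.Sig Helper14.CW Helper14.MEI2 Helper93.MEI
open Helper22.MEI (s t FD FD_pos)
open Helper21.Sec Helper21.Mom Helper53.MEI
open scoped RealInnerProductSpace ContDiff Real

/-! ### polynomials -/

noncomputable def hh (X : ℝ) : ℝ := 1 / 4 - X ^ 2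
noncomputable def ul (X : ℝ) : ℝ := hh X * (1 - hh X / 3)
noncomputable def uu (X : ℝ) : ℝ := hh X * (1 - 0.286 * hh X)
noncomputable def c2 (X : ℝ) : ℝ := 1 - X ^ 2 / 2 - 2 / 3 * hh X ^ 2
noncomputable def c3 (X : ℝ) : ℝ := 8 / 3 * (1 - X ^ 2) - 0.943 * hh X - 64 / 15 * hh X ^ 2

/-- lower bound of the square of the height, `δ` = depth of the leak -/
noncomputable def L2 (la X δ : ℝ) : ℝ := 2 / 9 * ((2 * la - la ^ 2) * ul X ^ 2 - 2 * la * (uu X * δ))

/-- lower bound of the cube of the height -/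
noncomputable def L3 (la X δ : ℝ) : ℝ :=
  √2 * (2 / 27) * ((3 * la ^ 2 - 2 * la ^ 3) * ul X ^ 3 - 3 * la ^ 2 * (uu X ^ 2 * δ))

theorem q2 {z δ l u la : ℝ} (hl : 0 ≤ l) (hlz : l ≤ z) (hzu : z ≤ u) (hδ : 0 ≤ δ) (h0 : 0 ≤ la)
    (h1 : la ≤ 1) : (2 * la - la ^ 2) * l ^ 2 - 2 * la * (u * δ) ≤ (max (z - δ) 0) ^ 2 := by
  have k0 : 0 ≤ 2 * la - la ^ 2 := by nlinarith
  have k1 : l ^ 2 ≤ z ^ 2 := pow_le_pow_left₀ hl hlz 2
  have k2 := mul_le_mul_of_nonneg_left k1 k0
  have k3 : la * (z * δ) ≤ la * (u * δ) :=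
    mul_le_mul_of_nonneg_left (mul_le_mul_of_nonneg_right hzu hδ) h0
  have hz : 0 ≤ z := hl.trans hlz
  rcases le_total δ z with h | h
  · rw [max_eq_left (by linarith)]
    nlinarith [sq_nonneg (z - δ - la * z)]
  · rw [max_eq_right (by linarith)]
    have k4 : la * (z * z) ≤ la * (z * δ) :=
      mul_le_mul_of_nonneg_left (mul_le_mul_of_nonneg_left h hz) h0
    nlinarith [mul_nonneg (sq_nonneg la) (sq_nonneg z)]

theorem q3 {z δ l u la : ℝ} (hl : 0 ≤ l) (hlz : l ≤ z) (hzu : z ≤ u) (hδ : 0 ≤ δ) (h0 : 0 ≤ la)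
    (h1 : la ≤ 1) : (3 * la ^ 2 - 2 * la ^ 3) * l ^ 3 - 3 * la ^ 2 * (u ^ 2 * δ) ≤
      (max (z - δ) 0) ^ 3 := by
  have hla2 : 0 ≤ la ^ 2 := sq_nonneg la
  have k0 : 0 ≤ 3 * la ^ 2 - 2 * la ^ 3 := by nlinarith
  have k1 : l ^ 3 ≤ z ^ 3 := pow_le_pow_left₀ hl hlz 3
  have k2 := mul_le_mul_of_nonneg_left k1 k0
  have hz : 0 ≤ z := hl.trans hlz
  have k3 : la ^ 2 * (z ^ 2 * δ) ≤ la ^ 2 * (u ^ 2 * δ) :=
    mul_le_mul_of_nonneg_left (mul_le_mul_of_nonneg_right (pow_le_pow_left₀ hz hzu 2) hδ) hla2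
  rcases le_total δ z with h | h
  · rw [max_eq_left (by linarith)]
    have k5 : 0 ≤ (z - δ - la * z) ^ 2 * (z - δ + 2 * (la * z)) := by
      refine mul_nonneg (sq_nonneg _) ?_
      have : 0 ≤ la * z := mul_nonneg h0 hz
      linarith
    nlinarith
  · rw [max_eq_right (by linarith)]
    have k4 : la ^ 2 * (z ^ 2 * z) ≤ la ^ 2 * (z ^ 2 * δ) :=
      mul_le_mul_of_nonneg_left (mul_le_mul_of_nonneg_left h (sq_nonneg z)) hla2
    have k6 : 0 ≤ la ^ 3 * z ^ 3 := by positivity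
    nlinarith

/-- the height of the slice and its powers -/
theorem T_bd {X δ la : ℝ} (hX : |X| ≤ 1 / 2) (hδ : 0 ≤ δ) (h0 : 0 ≤ la) (h1 : la ≤ 1) :
    ∃ τ : ℝ, 0 ≤ τ ∧ max (W0 X - √2 / 3 * δ) 0 = √2 * τ ∧ τ ≤ hh X / 3 ∧
      L2 la X δ ≤ 2 * τ ^ 2 ∧ L3 la X δ ≤ √2 * 2 * τ ^ 3 := by
  obtain ⟨y, hy, hyl, hyu⟩ := y0_bd hX
  have hX2 := sq_le_of_abs hX
  have hX0 := sq_nonneg X
  have hh0 : 0 ≤ hh X := by unfold hh; linarith
  have hh1 : hh X ≤ 1 / 4 := by unfold hh; linarith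
  have r := r2
  have rp : (0 : ℝ) ≤ √2 := by positivity
  have hyl' : ul X ≤ 3 * y := by
    have : 0 ≤ hh X ^ 3 := by positivity
    unfold ul hh at *
    nlinarith
  have hyu' : 3 * y ≤ uu X := by
    unfold uu hh at *
    nlinarith
  have hul : 0 ≤ ul X := by
    unfold ul
    exact mul_nonneg hh0 (by linarith)
  have huh : uu X ≤ hh X := by
    unfold uu
    have : 0 ≤ hh X * (0.286 * hh X) := by positivity
    linarith
  refine ⟨max (3 * y - δ) 0 / 3, by positivity, ?_, ?_, ?_, ?_⟩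
  · rw [hy]
    have e : √2 * y - √2 / 3 * δ = √2 / 3 * (3 * y - δ) := by ring
    rw [e]
    rcases le_total (3 * y - δ) 0 with h | h
    · rw [max_eq_right h, max_eq_right (mul_nonpos_of_nonneg_of_nonpos (by positivity) h)]
      ring
    · rw [max_eq_left h, max_eq_left (mul_nonneg (by positivity) h)]
      ring
  · have : max (3 * y - δ) 0 ≤ hh X := max_le (by linarith) hh0
    linarith
  · have := q2 hul hyl' hyu' hδ h0 h1
    unfold L2
    have e : 2 * (max (3 * y - δ) 0 / 3) ^ 2 = 2 / 9 * (max (3 * y - δ) 0) ^ 2 := by ring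
    rw [e]
    exact mul_le_mul_of_nonneg_left this (by norm_num)
  · have := q3 hul hyl' hyu' hδ h0 h1
    unfold L3
    have e : √2 * 2 * (max (3 * y - δ) 0 / 3) ^ 3 = √2 * (2 / 27) * (max (3 * y - δ) 0) ^ 3 := by ring
    rw [e]
    exact mul_le_mul_of_nonneg_left this (by positivity)

theorem c2_bd {X : ℝ} (hX : |X| ≤ 1 / 2) : 0 ≤ c2 X ∧ c2 X ≤ 1 := by
  have hX2 := sq_le_of_abs hX
  have hX0 := sq_nonneg X
  have hh0 : 0 ≤ hh X := by unfold hh; linarith
  have hh1 : hh X ≤ 1 / 4 := by unfold hh; linarith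
  unfold c2
  constructor <;> nlinarith

theorem c3_bd {X : ℝ} (hX : |X| ≤ 1 / 2) : 0 ≤ c3 X := by
  have hX2 := sq_le_of_abs hX
  have hX0 := sq_nonneg X
  have hh0 : 0 ≤ hh X := by unfold hh; linarith
  have hh1 : hh X ≤ 1 / 4 := by unfold hh; linarith
  unfold c3
  nlinarith

/-! ### slices -/

/-- the volume term integrated in transversal direction -/
noncomputable def PhiV (η : ℝ) (r : ℝ × ℝ) : ℝ :=
  nn η r.1 * (r.2 * (1 - r.1 ^ 2 / 2 - 6 * r.2 ^ 2) +
    8 * r.2 ^ 2 * (1 - r.2) * (1 - r.1 ^ 2 - 12 * r.2 ^ 2))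

theorem PhiV_cont (η : ℝ) : Continuous (PhiV η) := by
  unfold PhiV nn
  fun_prop

theorem sliceV {η : ℝ} (hη : |η| ≤ 1) {X δ la : ℝ} (hX : |X| ≤ 1 / 2) (hδ : 0 ≤ δ) (h0 : 0 ≤ la)
    (h1 : la ≤ 1) : nn η X * (1 / 2 * (c2 X * L2 la X δ) + c3 X * L3 la X δ) ≤
      ∫ W in Ioo (0 : ℝ) (W0 X - √2 / 3 * δ), PhiV η (X, W) := by
  obtain ⟨τ, hτ0, hτ, hτh, hL2, hL3⟩ := T_bd hX hδ h0 h1
  obtain ⟨n0, n1⟩ := nn_bd hη hX
  obtain ⟨c20, c21⟩ := c2_bd hX
  have c30 := c3_bd hX
  have r := r2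
  have hX2 := sq_le_of_abs hX
  have hX0 := sq_nonneg X
  have e : ∫ W in Ioo (0 : ℝ) (W0 X - √2 / 3 * δ), PhiV η (X, W) =
      ∫ W in (0 : ℝ)..(√2 * τ), PhiV η (X, W) := by
    rw [intervalIntegral.integral_of_le (by positivity), integral_Ioc_eq_integral_Ioo, ← hτ]
    rcases le_total (W0 X - √2 / 3 * δ) 0 with h | h
    · rw [max_eq_right h, Ioo_eq_empty (by linarith), Ioo_eq_empty (by linarith)]
    · rw [max_eq_left h]
  rw [e]
  set T := √2 * τ with hT
  have hT0 : 0 ≤ T := by positivity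
  have hT2 : T ^ 2 = 2 * τ ^ 2 := by rw [hT]; linear_combination τ ^ 2 * r
  have hd : ∀ W ∈ uIcc (0 : ℝ) T, HasDerivAt (fun W : ℝ =>
      (nn η X * ((1 - X ^ 2 / 2) / 2)) * W ^ 2 + (nn η X * (8 * (1 - X ^ 2) / 3)) * W ^ 3 +
      (nn η X * (-(3 / 2) - 2 * (1 - X ^ 2))) * W ^ 4 + (nn η X * (-(96 / 5))) * W ^ 5 +
      (nn η X * 16) * W ^ 6) (PhiV η (X, W)) W := by
    intro W _
    have k := ((((hpow 1 (nn η X * ((1 - X ^ 2 / 2) / 2)) W).add
      (hpow 2 (nn η X * (8 * (1 - X ^ 2) / 3)) W)).add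
      (hpow 3 (nn η X * (-(3 / 2) - 2 * (1 - X ^ 2))) W)).add
      (hpow 4 (nn η X * (-(96 / 5))) W)).add (hpow 5 (nn η X * 16) W)
    refine k.congr_deriv ?_
    unfold PhiV
    push_cast
    ring
  have hc : Continuous fun W : ℝ => PhiV η (X, W) := (PhiV_cont η).comp (by fun_prop)
  rw [intervalIntegral.integral_eq_sub_of_hasDerivAt hd (hc.intervalIntegrable _ _)]
  have key : 1 / 2 * (c2 X * L2 la X δ) + c3 X * L3 la X δ ≤
      (1 - X ^ 2 / 2) / 2 * T ^ 2 + 8 * (1 - X ^ 2) / 3 * T ^ 3 +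
      (-(3 / 2) - 2 * (1 - X ^ 2)) * T ^ 4 + (-(96 / 5)) * T ^ 5 + 16 * T ^ 6 := by
    have m2 := mul_le_mul_of_nonneg_left hL2 c20
    have m3 := mul_le_mul_of_nonneg_left hL3 c30
    have hT3 : √2 * 2 * τ ^ 3 = T ^ 3 := by
      have : T ^ 3 = T ^ 2 * T := by ring
      rw [this, hT2, hT]; ring
    rw [← hT2] at m2
    rw [hT3] at m3
    have hh0 : 0 ≤ hh X := by unfold hh; linarith
    have b2 : T ^ 2 ≤ 2 / 9 * hh X ^ 2 := by
      rw [hT2]
      have := pow_le_pow_left₀ hτ0 hτh 2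
      linarith [this, (by ring : (hh X / 3) ^ 2 = 1 / 9 * hh X ^ 2)]
    have b1 : 2 * T ≤ 0.943 * hh X := by
      have s2u : √2 ≤ 1.4143 := by
        rw [Real.sqrt_le_left (by norm_num)]; norm_num
      have : √2 * τ ≤ 1.4143 * (hh X / 3) := mul_le_mul s2u hτh hτ0 (by norm_num)
      rw [hT]
      linarith
    have d2 : c2 X * T ^ 2 ≤ (1 - X ^ 2 / 2 - 3 * T ^ 2) * T ^ 2 := by
      refine mul_le_mul_of_nonneg_right ?_ (sq_nonneg T)
      unfold c2
      linarith
    have hT3' : 0 ≤ T ^ 3 := by positivity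
    have d3 : c3 X * T ^ 3 ≤ (8 / 3 * (1 - X ^ 2) - 2 * (1 - X ^ 2) * T - 96 / 5 * T ^ 2) * T ^ 3 := by
      refine mul_le_mul_of_nonneg_right ?_ hT3'
      unfold c3
      have : 0 ≤ X ^ 2 * T := by positivity
      linarith
    have hT6 : 0 ≤ T ^ 6 := by positivity
    nlinarith
  have := mul_le_mul_of_nonneg_left key n0
  nlinarith

theorem sliceW {η : ℝ} (hη : |η| ≤ 1) {X δ la w : ℝ} (hX : |X| ≤ 1 / 2) (hδ : 0 ≤ δ) (h0 : 0 ≤ la)
    (h1 : la ≤ 1) (hw : 0 ≤ w) : nn η X * (1 / 2 * (c2 X * L2 la X δ) - w ^ 2 / 2) ≤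
      ∫ W in Ioo w (W0 X - √2 / 3 * δ), f2 η (X, W) * W := by
  obtain ⟨τ, hτ0, hτ, hτh, hL2, hL3⟩ := T_bd hX hδ h0 h1
  obtain ⟨n0, n1⟩ := nn_bd hη hX
  obtain ⟨c20, c21⟩ := c2_bd hX
  have r := r2
  have hX2 := sq_le_of_abs hX
  have hX0 := sq_nonneg X
  have m2 := mul_le_mul_of_nonneg_left hL2 c20
  have hh0 : 0 ≤ hh X := by unfold hh; linarith
  rcases le_total (W0 X - √2 / 3 * δ) w with h | h
  · rw [Ioo_eq_empty (by linarith)]
    simp only [Measure.restrict_empty, integral_zero_measure]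
    refine mul_nonpos_of_nonneg_of_nonpos n0 ?_
    have e1 : √2 * τ ≤ w := by
      rw [← hτ]; exact max_le h hw
    have e2 : 2 * τ ^ 2 ≤ w ^ 2 := by
      have : (√2 * τ) ^ 2 ≤ w ^ 2 := pow_le_pow_left₀ (by positivity) e1 2
      have e3 : (√2 * τ) ^ 2 = 2 * τ ^ 2 := by linear_combination τ ^ 2 * r
      linarith
    have e4 : c2 X * (2 * τ ^ 2) ≤ 1 * (2 * τ ^ 2) :=
      mul_le_mul_of_nonneg_right c21 (by positivity)
    linarith
  · have hT : W0 X - √2 / 3 * δ = √2 * τ := by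
      rw [← hτ, max_eq_left (hw.trans h)]
    rw [hT] at h ⊢
    set T := √2 * τ with hTd
    have hT0 : 0 ≤ T := by positivity
    have hT2 : T ^ 2 = 2 * τ ^ 2 := by rw [hTd]; linear_combination τ ^ 2 * r
    rw [← hT2] at m2
    have b2 : T ^ 2 ≤ 2 / 9 * hh X ^ 2 := by
      rw [hT2]
      have := pow_le_pow_left₀ hτ0 hτh 2
      linarith [this, (by ring : (hh X / 3) ^ 2 = 1 / 9 * hh X ^ 2)]
    have hc : Continuous fun W : ℝ => f2 η (X, W) * W :=
      ((f2_cont η).comp (by fun_prop)).mul continuous_id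
    rw [← integral_Ioc_eq_integral_Ioo, ← intervalIntegral.integral_of_le h]
    have hd : ∀ W ∈ uIcc w T, HasDerivAt (fun W : ℝ =>
        (nn η X * ((1 - X ^ 2 / 2) / 2)) * W ^ 2 + (nn η X * (-(3 / 2))) * W ^ 4)
        (nn η X * ((1 - X ^ 2 / 2 - 6 * W ^ 2) * W)) W := by
      intro W _
      have k := (hpow 1 (nn η X * ((1 - X ^ 2 / 2) / 2)) W).add (hpow 3 (nn η X * (-(3 / 2))) W)
      refine k.congr_deriv ?_
      push_cast
      ring
    have hc2 : Continuous fun W : ℝ => nn η X * ((1 - X ^ 2 / 2 - 6 * W ^ 2) * W) := by fun_prop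
    have hmono : ∫ W in w..T, nn η X * ((1 - X ^ 2 / 2 - 6 * W ^ 2) * W) ≤
        ∫ W in w..T, f2 η (X, W) * W := by
      refine intervalIntegral.integral_mono_on h (hc2.intervalIntegrable _ _)
        (hc.intervalIntegrable _ _) fun W hW => ?_
      have hW0 : 0 ≤ W := hw.trans hW.1
      have e : nn η X * ((1 - X ^ 2 / 2 - 6 * W ^ 2) * W) =
        (nn η X * (1 - X ^ 2 / 2 - 6 * W ^ 2)) * W := by ring
      rw [e]
      refine mul_le_mul_of_nonneg_right ?_ hW0
      unfold f2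
      simp only
      have hE : (0 : ℝ) < 1 + X ^ 2 / 2 + 6 * W ^ 2 := by positivity
      rw [le_div_iff₀ hE]
      have e2 : (1 - X ^ 2 / 2 - 6 * W ^ 2) * (1 + X ^ 2 / 2 + 6 * W ^ 2) ≤ 1 := by
        nlinarith [sq_nonneg (X ^ 2 / 2 + 6 * W ^ 2)]
      have := mul_le_mul_of_nonneg_left e2 n0
      linarith
    refine le_trans ?_ hmono
    rw [intervalIntegral.integral_eq_sub_of_hasDerivAt hd (hc2.intervalIntegrable _ _)]
    have d2 : c2 X * T ^ 2 ≤ (1 - X ^ 2 / 2 - 3 * T ^ 2) * T ^ 2 := by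
      refine mul_le_mul_of_nonneg_right ?_ (sq_nonneg T)
      unfold c2
      linarith
    have key : 1 / 2 * (c2 X * L2 la X δ) - w ^ 2 / 2 ≤
        ((1 - X ^ 2 / 2) / 2 * T ^ 2 + (-(3 / 2)) * T ^ 4) -
        ((1 - X ^ 2 / 2) / 2 * w ^ 2 + (-(3 / 2)) * w ^ 4) := by
      have w4 : 0 ≤ w ^ 4 := by positivity
      have w2 : 0 ≤ X ^ 2 * w ^ 2 := by positivity
      nlinarith
    have := mul_le_mul_of_nonneg_left key n0
    nlinarith

/-! ### the outer integrals -/

theorem int_k1 (η : ℝ) : ∫ x in (-(1 / 2) : ℝ)..(1 / 2), nn η x * (c2 x * ul x ^ 2) =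
    (25309 / 1853280) := by
  have hd : ∀ x ∈ uIcc (-(1 / 2) : ℝ) (1 / 2), HasDerivAt (fun x : ℝ =>
      ((2783 / 110592)) * x ^ 1 +
      ((19481 / 1769472) * (η)) * x ^ 2 +
      ((-1727 / 27648)) * x ^ 3 +
      ((-12089 / 294912) * (η)) * x ^ 4 +
      ((631 / 11520)) * x ^ 5 +
      ((4417 / 110592) * (η)) * x ^ 6 +
      ((43 / 864)) * x ^ 7 +
      ((2107 / 55296) * (η)) * x ^ 8 +
      ((-25 / 1296)) * x ^ 9 +
      ((-35 / 2304) * (η)) * x ^ 10 +
      ((-7 / 396)) * x ^ 11 +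
      ((-49 / 3456) * (η)) * x ^ 12 +
      ((-1 / 351)) * x ^ 13 +
      ((-1 / 432) * (η)) * x ^ 14)
      (nn η x * (c2 x * ul x ^ 2)) x := by
    intro x _
    have k := ((((((((((((((((((((((((((hpow 0 ((2783 / 110592)) x).add
      (hpow 1 ((19481 / 1769472) * (η)) x))).add
      (hpow 2 ((-1727 / 27648)) x))).add
      (hpow 3 ((-12089 / 294912) * (η)) x))).add
      (hpow 4 ((631 / 11520)) x))).add
      (hpow 5 ((4417 / 110592) * (η)) x))).add
      (hpow 6 ((43 / 864)) x))).add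
      (hpow 7 ((2107 / 55296) * (η)) x))).add
      (hpow 8 ((-25 / 1296)) x))).add
      (hpow 9 ((-35 / 2304) * (η)) x))).add
      (hpow 10 ((-7 / 396)) x))).add
      (hpow 11 ((-49 / 3456) * (η)) x))).add
      (hpow 12 ((-1 / 351)) x))).add
      (hpow 13 ((-1 / 432) * (η)) x))
    refine k.congr_deriv ?_
    unfold nn c2 ul hh
    push_cast
    ring
  rw [intervalIntegral.integral_eq_sub_of_hasDerivAt hd
    ((by unfold nn c2 ul hh; fun_prop : Continuous fun x : ℝ =>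
      nn η x * (c2 x * ul x ^ 2)).intervalIntegrable _ _)]
  ring

theorem int_k2 (η e d : ℝ) : ∫ x in (-(1 / 2) : ℝ)..(1 / 2), nn η x * (c2 x * (uu x * (e + d * x))) =
    (1124003 / 15120000) * e + (74947 / 23040000) * (η * d) := by
  have hd : ∀ x ∈ uIcc (-(1 / 2) : ℝ) (1 / 2), HasDerivAt (fun x : ℝ =>
      ((14237 / 128000) * (e)) * x ^ 1 +
      ((14237 / 256000) * (d) + (99659 / 2048000) * (η * e)) * x ^ 2 +
      ((99659 / 3072000) * (η * d) + (-41279 / 288000) * (e)) * x ^ 3 +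
      ((-41279 / 384000) * (d) + (-288953 / 3072000) * (η * e)) * x ^ 4 +
      ((-288953 / 3840000) * (η * d) + (-143 / 5000) * (e)) * x ^ 5 +
      ((-143 / 6000) * (d) + (-1001 / 48000) * (η * e)) * x ^ 6 +
      ((-143 / 8000) * (η * d) + (619 / 14000) * (e)) * x ^ 7 +
      ((619 / 16000) * (d) + (4333 / 128000) * (η * e)) * x ^ 8 +
      ((4333 / 144000) * (η * d) + (143 / 13500) * (e)) * x ^ 9 +
      ((143 / 15000) * (d) + (1001 / 120000) * (η * e)) * x ^ 10 +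
      ((91 / 12000) * (η * d)) * x ^ 11)
      (nn η x * (c2 x * (uu x * (e + d * x)))) x := by
    intro x _
    have k := ((((((((((((((((((((hpow 0 ((14237 / 128000) * (e)) x).add
      (hpow 1 ((14237 / 256000) * (d) + (99659 / 2048000) * (η * e)) x))).add
      (hpow 2 ((99659 / 3072000) * (η * d) + (-41279 / 288000) * (e)) x))).add
      (hpow 3 ((-41279 / 384000) * (d) + (-288953 / 3072000) * (η * e)) x))).add
      (hpow 4 ((-288953 / 3840000) * (η * d) + (-143 / 5000) * (e)) x))).add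
      (hpow 5 ((-143 / 6000) * (d) + (-1001 / 48000) * (η * e)) x))).add
      (hpow 6 ((-143 / 8000) * (η * d) + (619 / 14000) * (e)) x))).add
      (hpow 7 ((619 / 16000) * (d) + (4333 / 128000) * (η * e)) x))).add
      (hpow 8 ((4333 / 144000) * (η * d) + (143 / 13500) * (e)) x))).add
      (hpow 9 ((143 / 15000) * (d) + (1001 / 120000) * (η * e)) x))).add
      (hpow 10 ((91 / 12000) * (η * d)) x))
    refine k.congr_deriv ?_
    unfold nn c2 uu hh
    push_cast
    ring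
  rw [intervalIntegral.integral_eq_sub_of_hasDerivAt hd
    ((by unfold nn c2 uu hh; fun_prop : Continuous fun x : ℝ =>
      nn η x * (c2 x * (uu x * (e + d * x)))).intervalIntegrable _ _)]
  ring

theorem int_k3 (η : ℝ) : ∫ x in (-(1 / 2) : ℝ)..(1 / 2), nn η x * (c3 x * ul x ^ 3) =
    (6101119279 / 992431440000) := by
  have hd : ∀ x ∈ uIcc (-(1 / 2) : ℝ) (1 / 2), HasDerivAt (fun x : ℝ =>
      ((11522467 / 884736000)) * x ^ 1 +
      ((80657269 / 14155776000) * (η)) * x ^ 2 +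
      ((-92638931 / 1990656000)) * x ^ 3 +
      ((-648472517 / 21233664000) * (η)) * x ^ 4 +
      ((67556357 / 829440000)) * x ^ 5 +
      ((472894499 / 7962624000) * (η)) * x ^ 6 +
      ((2131811 / 96768000)) * x ^ 7 +
      ((14922677 / 884736000) * (η)) * x ^ 8 +
      ((-16750517 / 93312000)) * x ^ 9 +
      ((-117253619 / 829440000) * (η)) * x ^ 10 +
      ((-19273 / 28512000)) * x ^ 11 +
      ((-134911 / 248832000) * (η)) * x ^ 12 +
      ((29317 / 312000)) * x ^ 13 +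
      ((29317 / 384000) * (η)) * x ^ 14 +
      ((94771 / 2430000)) * x ^ 15 +
      ((663397 / 20736000) * (η)) * x ^ 16 +
      ((32 / 6885)) * x ^ 17 +
      ((14 / 3645) * (η)) * x ^ 18)
      (nn η x * (c3 x * ul x ^ 3)) x := by
    intro x _
    have k := ((((((((((((((((((((((((((((((((((hpow 0 ((11522467 / 884736000)) x).add
      (hpow 1 ((80657269 / 14155776000) * (η)) x))).add
      (hpow 2 ((-92638931 / 1990656000)) x))).add
      (hpow 3 ((-648472517 / 21233664000) * (η)) x))).add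
      (hpow 4 ((67556357 / 829440000)) x))).add
      (hpow 5 ((472894499 / 7962624000) * (η)) x))).add
      (hpow 6 ((2131811 / 96768000)) x))).add
      (hpow 7 ((14922677 / 884736000) * (η)) x))).add
      (hpow 8 ((-16750517 / 93312000)) x))).add
      (hpow 9 ((-117253619 / 829440000) * (η)) x))).add
      (hpow 10 ((-19273 / 28512000)) x))).add
      (hpow 11 ((-134911 / 248832000) * (η)) x))).add
      (hpow 12 ((29317 / 312000)) x))).add
      (hpow 13 ((29317 / 384000) * (η)) x))).add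
      (hpow 14 ((94771 / 2430000)) x))).add
      (hpow 15 ((663397 / 20736000) * (η)) x))).add
      (hpow 16 ((32 / 6885)) x))).add
      (hpow 17 ((14 / 3645) * (η)) x))
    refine k.congr_deriv ?_
    unfold nn c3 ul hh
    push_cast
    ring
  rw [intervalIntegral.integral_eq_sub_of_hasDerivAt hd
    ((by unfold nn c3 ul hh; fun_prop : Continuous fun x : ℝ =>
      nn η x * (c3 x * ul x ^ 3)).intervalIntegrable _ _)]
  ring

theorem int_k4 (η e d : ℝ) : ∫ x in (-(1 / 2) : ℝ)..(1 / 2), nn η x * (c3 x * (uu x ^ 2 * (e + d * x))) =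
    (1336263121 / 42000000000) * e + (19374653503 / 19008000000000) * (η * d) := by
  have hd : ∀ x ∈ uIcc (-(1 / 2) : ℝ) (1 / 2), HasDerivAt (fun x : ℝ =>
      ((29853222993 / 512000000000) * (e)) * x ^ 1 +
      ((29853222993 / 1024000000000) * (d) + (208972560951 / 8192000000000) * (η * e)) * x ^ 2 +
      ((69657520317 / 4096000000000) * (η * d) + (-3579732091 / 25600000000) * (e)) * x ^ 3 +
      ((-10739196273 / 102400000000) * (d) + (-75174373911 / 819200000000) * (η * e)) * x ^ 4 +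
      ((-75174373911 / 1024000000000) * (η * d) + (1454854993 / 16000000000) * (e)) * x ^ 5 +
      ((1454854993 / 19200000000) * (d) + (10183984951 / 153600000000) * (η * e)) * x ^ 6 +
      ((1454854993 / 25600000000) * (η * d) + (3605946221 / 16800000000) * (e)) * x ^ 7 +
      ((3605946221 / 19200000000) * (d) + (25241623547 / 153600000000) * (η * e)) * x ^ 8 +
      ((25241623547 / 172800000000) * (η * d) + (-145952869 / 1200000000) * (e)) * x ^ 9 +
      ((-437858607 / 4000000000) * (d) + (-3065010249 / 32000000000) * (η * e)) * x ^ 10 +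
      ((-3065010249 / 35200000000) * (η * d) + (-46773363 / 500000000) * (e)) * x ^ 11 +
      ((-171502331 / 2000000000) * (d) + (-1200516317 / 16000000000) * (η * e)) * x ^ 12 +
      ((-277042227 / 4000000000) * (η * d) + (-3146 / 234375) * (e)) * x ^ 13 +
      ((-20449 / 1640625) * (d) + (-20449 / 1875000) * (η * e)) * x ^ 14 +
      ((-143143 / 14062500) * (η * d)) * x ^ 15)
      (nn η x * (c3 x * (uu x ^ 2 * (e + d * x)))) x := by
    intro x _
    have k := ((((((((((((((((((((((((((((hpow 0 ((29853222993 / 512000000000) * (e)) x).add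
      (hpow 1 ((29853222993 / 1024000000000) * (d) + (208972560951 / 8192000000000) * (η * e)) x))).add
      (hpow 2 ((69657520317 / 4096000000000) * (η * d) + (-3579732091 / 25600000000) * (e)) x))).add
      (hpow 3 ((-10739196273 / 102400000000) * (d) + (-75174373911 / 819200000000) * (η * e)) x))).add
      (hpow 4 ((-75174373911 / 1024000000000) * (η * d) + (1454854993 / 16000000000) * (e)) x))).add
      (hpow 5 ((1454854993 / 19200000000) * (d) + (10183984951 / 153600000000) * (η * e)) x))).add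
      (hpow 6 ((1454854993 / 25600000000) * (η * d) + (3605946221 / 16800000000) * (e)) x))).add
      (hpow 7 ((3605946221 / 19200000000) * (d) + (25241623547 / 153600000000) * (η * e)) x))).add
      (hpow 8 ((25241623547 / 172800000000) * (η * d) + (-145952869 / 1200000000) * (e)) x))).add
      (hpow 9 ((-437858607 / 4000000000) * (d) + (-3065010249 / 32000000000) * (η * e)) x))).add
      (hpow 10 ((-3065010249 / 35200000000) * (η * d) + (-46773363 / 500000000) * (e)) x))).add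
      (hpow 11 ((-171502331 / 2000000000) * (d) + (-1200516317 / 16000000000) * (η * e)) x))).add
      (hpow 12 ((-277042227 / 4000000000) * (η * d) + (-3146 / 234375) * (e)) x))).add
      (hpow 13 ((-20449 / 1640625) * (d) + (-20449 / 1875000) * (η * e)) x))).add
      (hpow 14 ((-143143 / 14062500) * (η * d)) x))
    refine k.congr_deriv ?_
    unfold nn c3 uu hh
    push_cast
    ring
  rw [intervalIntegral.integral_eq_sub_of_hasDerivAt hd
    ((by unfold nn c3 uu hh; fun_prop : Continuous fun x : ℝ =>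
      nn η x * (c3 x * (uu x ^ 2 * (e + d * x)))).intervalIntegrable _ _)]
  ring

end Helper37.Bulk
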