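import Pool.Agent.Helper37.MEI.Bulk2

/-!
# Project MEI (M2): bulk terms of the moment of an arc, III: volume part and wall part
-/

namespace Helper37.Bulk

open Set MeasureTheory Filter Topology Metric
open Helper80.CW Helper22.Wedge Helper22.Sig Helper14.CW Helper14.MEI2 Helper93.MEI
open Helper22.MEI (s t FD FD_pos)
open Helper21.Sec Helper21.Mom Helper53.MEI
open scoped RealInnerProductSpace ContDiff Real

/-! ### iterated integrals -/

theorem int_reg2 {g : ℝ × ℝ → ℝ} {s : Set (ℝ × ℝ)} (hg : Continuous g)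
    (hs : MeasurableSet s) {H : (ℝ × ℝ) × ℝ → ℝ} (hH : Continuous H)
    (hb : Bornology.IsBounded (regionBetween (fun _ => (0 : ℝ)) g s)) :
    IntegrableOn (fun r => ∫ l in Ioo 0 (g r), H (r, l)) s ∧
    ∫ p in regionBetween (fun _ => (0 : ℝ)) g s, H p =
      ∫ r in s, ∫ l in Ioo 0 (g r), H (r, l) := by
  have hm : MeasurableSet (regionBetween (fun _ => (0 : ℝ)) g s) :=
    measurableSet_regionBetween measurable_const hg.measurable hs
  have hi : IntegrableOn H (regionBetween (fun _ => (0 : ℝ)) g s) :=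
    (hH.continuousOn.integrableOn_compact hb.isCompact_closure).mono_set subset_closure
  have hi2 := (integrable_indicator_iff hm).2 hi
  have hv : (volume : Measure ((ℝ × ℝ) × ℝ)) =
      (volume : Measure (ℝ × ℝ)).prod (volume : Measure ℝ) := rfl
  have key : ∀ r : ℝ × ℝ, ∫ l, (regionBetween (fun _ => (0 : ℝ)) g s).indicator H (r, l) =
      s.indicator (fun r => ∫ l in Ioo 0 (g r), H (r, l)) r := by
    intro r
    by_cases hx : r ∈ s
    · rw [indicator_of_mem hx, ← integral_indicator measurableSet_Ioo]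
      refine integral_congr_ae (Eventually.of_forall fun l => ?_)
      simp only [indicator, regionBetween, mem_ofPred_eq, hx, true_and]
    · rw [indicator_of_notMem hx]
      have : ∀ l, (regionBetween (fun _ => (0 : ℝ)) g s).indicator H (r, l) = 0 := fun l =>
        indicator_of_notMem (fun h => hx h.1) _
      simp only [this, integral_zero]
  have h3 : ∫ p in regionBetween (fun _ => (0 : ℝ)) g s, H p =
      ∫ r in s, ∫ l in Ioo 0 (g r), H (r, l) := by
    rw [← integral_indicator hm, hv]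
    rw [hv] at hi2
    rw [integral_prod _ hi2, ← integral_indicator hs]
    exact integral_congr_ae (Eventually.of_forall key)
  refine ⟨?_, h3⟩
  rw [hv] at hi2
  have h4 := hi2.integral_prod_left
  rw [← integrable_indicator_iff hs]
  exact (integrable_congr (Eventually.of_forall key)).1 h4

/-- the transversal integral -/
theorem inner_l {η : ℝ} (hη : |η| ≤ 1) {X W : ℝ} (hX : |X| ≤ 1 / 2) (hW0 : 0 ≤ W) (hW1 : W ≤ 1) :
    PhiV η (X, W) ≤ ∫ l in Ioo (0 : ℝ) (√2 * W), Fv η ((X, W), l) := by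
  obtain ⟨n0, n1⟩ := nn_bd hη hX
  have r := r2
  have hT0 : 0 ≤ √2 * W := by positivity
  rw [← integral_Ioc_eq_integral_Ioo, ← intervalIntegral.integral_of_le hT0]
  have hd : ∀ l ∈ uIcc (0 : ℝ) (√2 * W), HasDerivAt (fun l : ℝ =>
      (nn η X * (√2 / 2 * (1 - X ^ 2 / 2 - 6 * W ^ 2))) * l ^ 1 +
      (nn η X * (4 * (1 - W) * (1 - X ^ 2 - 12 * W ^ 2))) * l ^ 2)
      (nn η X * (√2 / 2 * (1 - X ^ 2 / 2 - 6 * W ^ 2) +
        8 * (l * (1 - W)) * (1 - X ^ 2 - 12 * W ^ 2))) l := by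
    intro l _
    have k := (hpow 0 (nn η X * (√2 / 2 * (1 - X ^ 2 / 2 - 6 * W ^ 2))) l).add
      (hpow 1 (nn η X * (4 * (1 - W) * (1 - X ^ 2 - 12 * W ^ 2))) l)
    refine k.congr_deriv ?_
    push_cast
    ring
  have hc2 : Continuous fun l : ℝ => nn η X * (√2 / 2 * (1 - X ^ 2 / 2 - 6 * W ^ 2) +
        8 * (l * (1 - W)) * (1 - X ^ 2 - 12 * W ^ 2)) := by fun_prop
  have hc : Continuous fun l : ℝ => Fv η ((X, W), l) := (Fv_cont η).comp (by fun_prop)
  have hmono : ∫ l in (0 : ℝ)..(√2 * W), nn η X * (√2 / 2 * (1 - X ^ 2 / 2 - 6 * W ^ 2) +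
        8 * (l * (1 - W)) * (1 - X ^ 2 - 12 * W ^ 2)) ≤
      ∫ l in (0 : ℝ)..(√2 * W), Fv η ((X, W), l) := by
    refine intervalIntegral.integral_mono_on hT0 (hc2.intervalIntegrable _ _)
      (hc.intervalIntegrable _ _) fun l hl => ?_
    have hD := Dh_pos ((X, W), l)
    set u := 4 * Dh ((X, W), l) - 1 with hu
    have hu0 : 0 ≤ u := by linarith
    have hu1 : u ≤ X ^ 2 / 2 + 6 * W ^ 2 := by
      have e : u = X ^ 2 / 2 + 6 * W ^ 2 - 4 * (l * (√2 * W - l)) := by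
        rw [hu]
        unfold Dh
        simp only
        linear_combination W ^ 2 * r
      have : 0 ≤ l * (√2 * W - l) := mul_nonneg hl.1 (by linarith [hl.2])
      linarith
    have hDu : Dh ((X, W), l) = (1 + u) / 4 := by rw [hu]; ring
    unfold Fv
    rw [hDu]
    simp only
    have hp : (0 : ℝ) < 1 + u := by linarith
    have e1 : nn η X / (4 * ((1 + u) / 4)) * (√2 / 2) = nn η X * (√2 / 2) * (1 / (1 + u)) := by
      field_simp
    have e2 : nn η X * (l * (1 - W)) / (2 * ((1 + u) / 4) ^ 2) =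
        nn η X * (8 * (l * (1 - W))) * (1 / (1 + u) ^ 2) := by
      field_simp
      ring
    rw [e1, e2]
    have f1 : 1 - X ^ 2 / 2 - 6 * W ^ 2 ≤ 1 / (1 + u) := by
      rw [le_div_iff₀ hp]
      nlinarith [sq_nonneg u]
    have f2 : 1 - X ^ 2 - 12 * W ^ 2 ≤ 1 / (1 + u) ^ 2 := by
      have f3 : 1 - 2 * u ≤ 1 / (1 + u) ^ 2 := by
        rw [le_div_iff₀ (by positivity)]
        have : 0 ≤ u ^ 3 := by positivity
        nlinarith [sq_nonneg u]
      linarith
    have g1 : nn η X * (√2 / 2) * (1 - X ^ 2 / 2 - 6 * W ^ 2) ≤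
        nn η X * (√2 / 2) * (1 / (1 + u)) :=
      mul_le_mul_of_nonneg_left f1 (mul_nonneg n0 (by positivity))
    have g2 : nn η X * (8 * (l * (1 - W))) * (1 - X ^ 2 - 12 * W ^ 2) ≤
        nn η X * (8 * (l * (1 - W))) * (1 / (1 + u) ^ 2) := by
      refine mul_le_mul_of_nonneg_left f2 (mul_nonneg n0 ?_)
      have := mul_nonneg hl.1 (by linarith : (0 : ℝ) ≤ 1 - W)
      linarith
    linarith
  refine le_trans (le_of_eq ?_) hmono
  rw [intervalIntegral.integral_eq_sub_of_hasDerivAt hd (hc2.intervalIntegrable _ _)]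
  unfold PhiV
  simp only
  linear_combination (-(nn η X * (W * (1 - X ^ 2 / 2 - 6 * W ^ 2)) / 2 +
    nn η X * (4 * (1 - W) * (1 - X ^ 2 - 12 * W ^ 2)) * W ^ 2)) * r

variable {b : OrthonormalBasis (Fin 3) ℝ E3} {c : E3}

theorem EC_iff {x : E3} : x ∈ EC b c ↔
    |(co b c x).2.1| < √2 / 2 * ((co b c x).2.2 - √2 / 4) := by
  rw [← cel_eq]
  unfold Cel
  simp only [mem_ofPred_eq, Fin.forall_fin_two]
  have h0 := nuw0 b c x
  have h1 := nuw1 b c x
  unfold Tw at h0 h1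
  simp only at h0 h1
  rw [abs_lt]
  constructor
  · rintro ⟨h2, h3⟩
    constructor <;> linarith
  · rintro ⟨h2, h3⟩
    constructor <;> linarith

theorem Wlow_W {e d w : ℝ} (hw : 0 ≤ w) (hδ : ∀ X : ℝ, |X| ≤ 1 / 2 → 0 ≤ e + d * X) {r : ℝ × ℝ}
    (hr : r ∈ Wlow e d w) : |r.1| ≤ 1 / 2 ∧ w < r.2 ∧ r.2 ≤ 1 ∧
      r.2 < W0 r.1 - √2 / 3 * (e + d * r.1) := by
  obtain ⟨X, W⟩ := r
  unfold Wlow regionBetween at hr
  simp only [mem_ofPred_eq, mem_Ioo, mem_Ioc] at hr
  obtain ⟨⟨hXl, hXu⟩, hWl, hWu⟩ := hr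
  have hX : |X| ≤ 1 / 2 := abs_le.2 ⟨hXl.le, hXu⟩
  have h1 := W0_le X
  have h2 : 0 ≤ √2 / 3 * (e + d * X) := mul_nonneg (by positivity) (hδ X hX)
  exact ⟨hX, hWl, by simp only; linarith, hWu⟩

/-- **volume part**, first form -/
theorem vol_lo {K : Set E3} {s1 s2 s3 s4 : ℝ} (hK : IsCompact K) (h : Bod b c K s1 s2 s3 s4)
    {η : ℝ} (hη : |η| ≤ 1) {ε : ℝ} (hε : ε = 1 ∨ ε = -1) :
    ∫ r in Wlow (0.5774 * (s1 + s2)) (s1 - s2) 0, PhiV η r ≤
      ∫ x in K ∩ EC b c, Fv η (Tw b c ε x) := by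
  have r := r2
  have hδ : ∀ X : ℝ, |X| ≤ 1 / 2 → 0 ≤ 0.5774 * (s1 + s2) + (s1 - s2) * X := by
    intro X hX
    obtain ⟨hXl, hXu⟩ := abs_le.1 hX
    have h4 : 0 ≤ s1 * (0.5774 + X) := mul_nonneg h.s1_nn (by linarith)
    have h5 : 0 ≤ s2 * (0.5774 - X) := mul_nonneg h.s2_nn (by linarith)
    have h6 : s1 * (0.5774 + X) + s2 * (0.5774 - X) =
      0.5774 * (s1 + s2) + (s1 - s2) * X := by ring
    linarith
  set Ω := Wlow (0.5774 * (s1 + s2)) (s1 - s2) 0 with hΩ
  have hΩm : MeasurableSet Ω := Wlow_meas _ _ _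
  have hΩb : Bornology.IsBounded Ω := Wlow_bdd le_rfl hδ
  set R := regionBetween (fun _ => (0 : ℝ)) (fun r : ℝ × ℝ => √2 * r.2) Ω with hR
  have hg : Continuous fun r : ℝ × ℝ => √2 * r.2 := by fun_prop
  have hεε : ε * ε = 1 := by rcases hε with h | h <;> rw [h] <;> norm_num
  have hεa : |ε| = 1 := by rcases hε with h | h <;> rw [h] <;> simp
  have hRb : Bornology.IsBounded R := by
    refine (hΩb.prod (isBounded_Icc (0 : ℝ) √2)).subset ?_
    rintro ⟨q, l⟩ hp
    have h1 := Wlow_W le_rfl hδ hp.1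
    refine ⟨hp.1, hp.2.1.le, ?_⟩
    have h2 : √2 * q.2 ≤ √2 * 1 := mul_le_mul_of_nonneg_left h1.2.2.1 (by positivity)
    have h3 := hp.2.2
    simp only at h3 ⊢
    linarith
  obtain ⟨hi, hint⟩ := int_reg2 hg hΩm (Fv_cont η) hRb
  -- the region is in the image
  have hsub : R ⊆ Tw b c ε '' (K ∩ EC b c) := by
    rintro ⟨⟨X, W⟩, l⟩ hp
    obtain ⟨hX, hW0, hW1, hWu⟩ := Wlow_W le_rfl hδ hp.1
    have hl0 := hp.2.1
    have hl1 := hp.2.2
    simp only at hX hW0 hW1 hWu hl0 hl1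
    have hab : |√2 / 2 * W - l| < √2 / 2 * W := by
      rw [abs_lt]
      constructor <;> linarith
    have hY : |ε * (√2 / 2 * W - l)| = |√2 / 2 * W - l| := by rw [abs_mul, hεa, one_mul]
    obtain ⟨x, hxK, hx⟩ := in_mem h (Y := ε * (√2 / 2 * W - l)) hX hW0.le hWu
      (by rw [hY]; exact hab.le)
    refine ⟨x, ⟨hxK, ?_⟩, ?_⟩
    · rw [EC_iff, hx]
      simp only
      rw [hY]
      have e : √2 / 4 + W - √2 / 4 = W := by ring
      rw [e]
      exact hab
    · unfold Tw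
      rw [hx]
      simp only
      have e : √2 / 4 + W - √2 / 4 = W := by ring
      rw [e]
      have e2 : √2 / 2 * W - ε * (ε * (√2 / 2 * W - l)) = l := by
        linear_combination (-(√2 / 2 * W - l)) * hεε
      rw [e2]
  have hEm : MeasurableSet (K ∩ EC b c) := by
    refine hK.isClosed.measurableSet.inter ?_
    rw [← cel_eq]; exact (Cel_open _ _).measurableSet
  have him : MeasurableSet (Tw b c ε '' (K ∩ EC b c)) :=
    (Tw_emb b c hε).measurableSet_image.2 hEm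
  have hnn : ∀ p ∈ Tw b c ε '' (K ∩ EC b c), 0 ≤ Fv η p := by
    rintro p ⟨x, ⟨hxK, hxE⟩, rfl⟩
    have hX := h.X_le x hxK
    have hW := h.W_le x hxK
    have hl : 0 < (Tw b c ε x).2 := by
      rw [EC_iff, abs_lt] at hxE
      unfold Tw
      simp only
      rcases hε with h | h <;> rw [h] <;> linarith [hxE.1, hxE.2]
    have hn := (nn_bd hη hX).1
    have hD := Dh_pos (Tw b c ε x)
    have hW1 : 0 ≤ 1 - (Tw b c ε x).1.2 := by
      unfold Tw
      simp only
      have hs : 1 ≤ √2 := by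
        rw [Real.one_le_sqrt]; norm_num
      by_contra hcon
      rw [not_le] at hcon
      have h1 : 1 ≤ (co b c x).2.2 - √2 / 4 := by linarith
      have h2 : 1 * 1 ≤ √2 * ((co b c x).2.2 - √2 / 4) :=
        mul_le_mul hs h1 zero_le_one (by positivity)
      linarith
    unfold Fv
    have hX' : (Tw b c ε x).1.1 = (co b c x).1 := rfl
    rw [hX']
    refine add_nonneg (mul_nonneg (div_nonneg hn (by linarith)) (by positivity)) ?_
    exact div_nonneg (mul_nonneg hn (mul_nonneg hl.le hW1)) (by positivity)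
  have hIm : IntegrableOn (Fv η) (Tw b c ε '' (K ∩ EC b c)) :=
    ((Fv_cont η).continuousOn.integrableOn_compact (hK.image (Tw_cont b c ε))).mono_set
      (image_mono inter_subset_left)
  rw [int_Tw b c hε (K ∩ EC b c) (Fv η)]
  have h1 : ∫ p in R, Fv η p ≤ ∫ p in Tw b c ε '' (K ∩ EC b c), Fv η p := by
    refine setIntegral_mono_set hIm ?_ hsub.eventuallyLE
    exact (ae_restrict_iff' him).2 (ae_of_all _ hnn)
  refine le_trans ?_ h1
  rw [hR, hint]
  refine setIntegral_mono_on ?_ hi hΩm fun q hq => ?_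
  · exact ((PhiV_cont η).continuousOn.integrableOn_compact hΩb.isCompact_closure).mono_set
      subset_closure
  · obtain ⟨hX, hW0, hW1, _⟩ := Wlow_W le_rfl hδ hq
    exact inner_l hη hX hW0.le hW1

/-- **volume part**, second form -/
theorem V_int {η : ℝ} (hη : |η| ≤ 1) {e d la : ℝ} (h0 : 0 ≤ la) (h1 : la ≤ 1)
    (hδ : ∀ X : ℝ, |X| ≤ 1 / 2 → 0 ≤ e + d * X) :
    ∫ x in (-(1 / 2) : ℝ)..(1 / 2), nn η x * (1 / 2 * (c2 x * L2 la x (e + d * x)) +
      c3 x * L3 la x (e + d * x)) ≤ ∫ r in Wlow e d 0, PhiV η r := by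
  obtain ⟨hi, hint⟩ := int_reg (f := fun _ => (0 : ℝ)) (g := fun X => W0 X - √2 / 3 * (e + d * X))
    (s := Ioc (-(1 / 2)) (1 / 2)) continuous_const (W0_cont.sub (by fun_prop))
    measurableSet_Ioc (PhiV_cont η) (Wlow_bdd le_rfl hδ)
  have hW : Wlow e d 0 = regionBetween (fun _ => (0 : ℝ)) (fun X => W0 X - √2 / 3 * (e + d * X))
    (Ioc (-(1 / 2)) (1 / 2)) := rfl
  rw [hW, hint, intervalIntegral.integral_of_le (by norm_num)]
  have hG : Continuous (fun x : ℝ => nn η x * (1 / 2 * (c2 x * L2 la x (e + d * x)) +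
      c3 x * L3 la x (e + d * x))) := by
    unfold nn c2 c3 L2 L3 ul uu hh
    fun_prop
  refine setIntegral_mono_on
    ((hG.continuousOn.integrableOn_compact isCompact_Icc).mono_set Ioc_subset_Icc_self) hi
    measurableSet_Ioc fun x hx => ?_
  have hX : |x| ≤ 1 / 2 := abs_le.2 ⟨hx.1.le, hx.2⟩
  exact sliceV hη hX (hδ x hX) h0 h1

/-- **wall part**, second form -/
theorem W_int {η : ℝ} (hη : |η| ≤ 1) {e d la w C : ℝ} (h0 : 0 ≤ la) (h1 : la ≤ 1) (hw : 0 ≤ w)
    (hC : 0 ≤ C) (hδ : ∀ X : ℝ, |X| ≤ 1 / 2 → 0 ≤ e + d * X) :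
    ∫ x in (-(1 / 2) : ℝ)..(1 / 2), (nn η x * (1 / 2 * (c2 x * L2 la x (e + d * x)) - w ^ 2 / 2)
      - C) ≤ ∫ r in Wlow e d w, (f2 η r * r.2 - C) := by
  have hH : Continuous (fun r : ℝ × ℝ => f2 η r * r.2 - C) :=
    ((f2_cont η).mul continuous_snd).sub continuous_const
  obtain ⟨hi, hint⟩ := int_reg (f := fun _ => w) (g := fun X => W0 X - √2 / 3 * (e + d * X))
    (s := Ioc (-(1 / 2)) (1 / 2)) continuous_const (W0_cont.sub (by fun_prop))
    measurableSet_Ioc hH (Wlow_bdd hw hδ)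
  have hW : Wlow e d w = regionBetween (fun _ => w) (fun X => W0 X - √2 / 3 * (e + d * X))
    (Ioc (-(1 / 2)) (1 / 2)) := rfl
  rw [hW, hint, intervalIntegral.integral_of_le (by norm_num)]
  have hG : Continuous (fun x : ℝ => nn η x * (1 / 2 * (c2 x * L2 la x (e + d * x)) - w ^ 2 / 2)
      - C) := by
    unfold nn c2 L2 ul uu hh
    fun_prop
  refine setIntegral_mono_on
    ((hG.continuousOn.integrableOn_compact isCompact_Icc).mono_set Ioc_subset_Icc_self) hi
    measurableSet_Ioc fun x hx => ?_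
  have hX : |x| ≤ 1 / 2 := abs_le.2 ⟨hx.1.le, hx.2⟩
  have hδ0 : 0 ≤ √2 / 3 * (e + d * x) := mul_nonneg (by positivity) (hδ x hX)
  have hc : Continuous fun y : ℝ => f2 η (x, y) * y :=
    ((f2_cont η).comp (by fun_prop)).mul continuous_id
  have hi1 : IntegrableOn (fun y : ℝ => f2 η (x, y) * y) (Ioo w (W0 x - √2 / 3 * (e + d * x))) :=
    (hc.continuousOn.integrableOn_compact isCompact_Icc).mono_set Ioo_subset_Icc_self
  have hi2 : IntegrableOn (fun _ : ℝ => C) (Ioo w (W0 x - √2 / 3 * (e + d * x))) :=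
    (continuous_const.continuousOn.integrableOn_compact isCompact_Icc).mono_set
      Ioo_subset_Icc_self
  rw [integral_sub hi1 hi2, setIntegral_const, Real.volume_real_Ioo, smul_eq_mul]
  have h2 := sliceW hη hX (hδ x hX) h0 h1 hw
  have h3 : max (W0 x - √2 / 3 * (e + d * x) - w) 0 * C ≤ 1 * C := by
    refine mul_le_mul_of_nonneg_right (max_le ?_ zero_le_one) hC
    have := W0_le x
    linarith
  linarith

end Helper37.Bulk
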