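import Pool.Agent.Helper37.MEI.Bulk3

/-!
# Project MEI (M2): bulk terms of the moment of an arc, IV: the theorem
-/

namespace Helper37.Bulk

open Set MeasureTheory Filter Topology Metric
open Helper80.CW Helper22.Wedge Helper22.Sig Helper14.CW Helper14.MEI2 Helper93.MEI
open Helper22.MEI (s t FD FD_pos)
open Helper21.Sec Helper21.Mom Helper53.MEI
open Pool.Agent.Helper95.MEI.Fub (Zp int_cont Zp_meas)
open Pool.Agent.Helper73.MEI
open scoped RealInnerProductSpace ContDiff Real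

variable {b : OrthonormalBasis (Fin 3) ℝ E3} {c : E3}

/-! ### the wall integrals -/

/-- near wall -/
theorem near_nn {K : Set E3} {s1 s2 s3 s4 : ℝ} (hK : IsCompact K) (h : Bod b c K s1 s2 s3 s4)
    {η : ℝ} (hη : |η| ≤ 1) {ε : ℝ} (hε : ε = 1 ∨ ε = -1) (m : ℕ) :
    0 ≤ ∫ x in K, gf η ε (co b c x) * jk (m + 1) (Tw b c ε x) := by
  have hM : (0 : ℝ) < m + 1 := by positivity
  refine setIntegral_nonneg hK.isClosed.measurableSet fun x hx => ?_
  by_cases hl : 0 < (Tw b c ε x).2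
  · have h1 : 0 ≤ gf η ε (co b c x) := by
      unfold gf
      rw [lf_Tw, om_omh b c η hε]
      exact mul_nonneg (omh_bd hη (h.X_le x hx)).1 hl.le
    exact mul_nonneg h1 (jk_nonneg hM _)
  · rw [jk_zero hM fun hcon => hl hcon.1.1, mul_zero]

/-- far wall -/
theorem far_lo {K : Set E3} {s1 s2 s3 s4 : ℝ} (hK : IsCompact K) (h : Bod b c K s1 s2 s3 s4)
    {η : ℝ} (hη : |η| ≤ 1) {ε : ℝ} (hε : ε = 1 ∨ ε = -1) (m : ℕ) :
    √2 * ∫ r in Wlow (0.5774 * (s1 + s2) + 2 / ((m : ℝ) + 1)) (s1 - s2) (√2 / ((m : ℝ) + 1)),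
      (f2 η r * r.2 - 4 * (1 / ((m : ℝ) + 1))) ≤
      ∫ x in K, gf η ε (co b c x) * jk (m + 1) (Tw b c (-ε) x) := by
  have hM : (0 : ℝ) < m + 1 := by positivity
  have hM1 : (1 : ℝ) / (m + 1) ≤ 1 := by
    rw [div_le_one hM]
    have : (0 : ℝ) ≤ m := Nat.cast_nonneg m
    linarith
  have hε' : -ε = 1 ∨ -ε = -1 := by
    rcases hε with h | h
    · right; rw [h]
    · left; rw [h]; norm_num
  have hs1 := h.s1_nn
  have hs2 := h.s2_nn
  have hδ : ∀ X : ℝ, |X| ≤ 1 / 2 →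
      0 ≤ (0.5774 * (s1 + s2) + 2 / ((m : ℝ) + 1)) + (s1 - s2) * X := by
    intro X hX
    obtain ⟨hXl, hXu⟩ := abs_le.1 hX
    have h3 : 0 ≤ 2 / ((m : ℝ) + 1) := by positivity
    have h4 : 0 ≤ s1 * (0.5774 + X) := mul_nonneg hs1 (by linarith)
    have h5 : 0 ≤ s2 * (0.5774 - X) := mul_nonneg hs2 (by linarith)
    have h6 : s1 * (0.5774 + X) + s2 * (0.5774 - X) =
      0.5774 * (s1 + s2) + (s1 - s2) * X := by ring
    linarith
  have hw : 0 ≤ √2 / ((m : ℝ) + 1) := by positivity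
  set gg' : (ℝ × ℝ) × ℝ → ℝ := fun p => omh η p * max (√2 * p.1.2 - p.2) 0 with hgg
  have hgc : Continuous gg' :=
    (omh_cont η).mul ((by fun_prop : Continuous fun p : (ℝ × ℝ) × ℝ =>
      √2 * p.1.2 - p.2).max continuous_const)
  have e1 : ∫ x in K, gf η ε (co b c x) * jk (m + 1) (Tw b c (-ε) x) =
      ∫ p in Tw b c (-ε) '' K, gg' p * jk (m + 1) p := by
    rw [← int_Tw b c hε' K (fun p => gg' p * jk (m + 1) p)]
    refine setIntegral_congr_fun hK.isClosed.measurableSet fun x _ => ?_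
    simp only [hgg]
    have e2 : gf η ε (co b c x) = omh η (Tw b c (-ε) x) *
        (√2 * (Tw b c (-ε) x).1.2 - (Tw b c (-ε) x).2) := by
      unfold gf
      rw [om_omh b c η hε']
      congr 1
      unfold lf Tw
      simp only
      ring
    rw [e2]
    rcases le_total (√2 * (Tw b c (-ε) x).1.2 - (Tw b c (-ε) x).2) 0 with h1 | h1
    · rw [jk_zero hM fun hcon => absurd hcon.2 (not_lt.2 h1), mul_zero, mul_zero]
    · rw [max_eq_left h1]
  rw [e1, ← integral_const_mul]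
  refine wall_lower_w hM (hK.image (Tw_cont b c (-ε))) (Wlow_meas _ _ _) (Wlow_bdd hw hδ)
    hgc ?_ (continuous_const.mul (((f2_cont η).mul continuous_snd).sub continuous_const)) ?_
  · rintro p ⟨x, hx, rfl⟩
    exact mul_nonneg (omh_bd hη (h.X_le x hx)).1 (le_max_right _ _)
  intro r hr l hl
  obtain ⟨h2, h3⟩ := low_mem h hε' m hr hl
  refine ⟨h2, h3, ?_⟩
  obtain ⟨hX, hW0, hW1, _⟩ := Wlow_W hw hδ hr
  obtain ⟨X, W⟩ := r
  simp only at hX hW0 hW1 h3 ⊢
  have hW0' : 0 < W := lt_of_le_of_lt hw hW0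
  have hpos : 0 < 1 / ((m : ℝ) + 1) := by positivity
  have h4 := omh_lo hη hX hW0'.le hl.1.le (hl.2.le.trans hM1)
  have h5 := hl.2.le
  have h6 : 0 ≤ √2 * W - l := by linarith
  simp only [hgg]
  rw [max_eq_left h6]
  have h7 := mul_le_mul_of_nonneg_right h4 h6
  refine le_trans ?_ h7
  have h8 : 0 ≤ f2 η (X, W) ∧ f2 η (X, W) ≤ 0.72 := by
    obtain ⟨n0, n1⟩ := nn_bd hη hX
    unfold f2
    simp only
    have hE : (1 : ℝ) ≤ 1 + X ^ 2 / 2 + 6 * W ^ 2 := by
      have : 0 ≤ X ^ 2 / 2 + 6 * W ^ 2 := by positivity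
      linarith
    exact ⟨div_nonneg n0 (by linarith), (div_le_self n0 hE).trans n1⟩
  set F := f2 η (X, W) with hF
  have s2l : (1 : ℝ) ≤ √2 := by
    rw [Real.one_le_sqrt]; norm_num
  have hl0 := hl.1.le
  have k1 : l * F ≤ 1 / ((m : ℝ) + 1) * 0.72 := mul_le_mul h5 h8.2 h8.1 hpos.le
  have k2 : l * (√2 * W) ≤ 1 / ((m : ℝ) + 1) * (√2 * 1) :=
    mul_le_mul h5 (mul_le_mul_of_nonneg_left hW1 (by positivity)) (by positivity) hpos.le
  have k3 : 0 ≤ l ^ 2 := sq_nonneg l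
  have k4 : 1 / ((m : ℝ) + 1) * 0.72 ≤ 1 / ((m : ℝ) + 1) * √2 :=
    mul_le_mul_of_nonneg_left (by linarith) hpos.le
  nlinarith

/-- value of the wall polynomial -/
noncomputable def bW (la η e d : ℝ) : ℝ :=
  1 / 9 * ((2 * la - la ^ 2) * (25309 / 1853280) - 2 * la * (1124003 / 15120000 * e +
    74947 / 23040000 * (η * d)))

theorem bW_int (la η e d : ℝ) : ∫ x in (-(1 / 2) : ℝ)..(1 / 2),
    nn η x * (1 / 2 * (c2 x * L2 la x (e + d * x))) = bW la η e d := by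
  have c1 : Continuous fun x : ℝ => nn η x * (c2 x * ul x ^ 2) := by
    unfold nn c2 ul hh; fun_prop
  have c2' : Continuous fun x : ℝ => nn η x * (c2 x * (uu x * (e + d * x))) := by
    unfold nn c2 uu hh; fun_prop
  have e1 : ∀ x : ℝ, nn η x * (1 / 2 * (c2 x * L2 la x (e + d * x))) =
      1 / 9 * (2 * la - la ^ 2) * (nn η x * (c2 x * ul x ^ 2)) -
      1 / 9 * (2 * la) * (nn η x * (c2 x * (uu x * (e + d * x)))) := by
    intro x
    unfold L2
    ring
  have j1 : Continuous fun x : ℝ => 1 / 9 * (2 * la - la ^ 2) * (nn η x * (c2 x * ul x ^ 2)) :=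
    continuous_const.mul c1
  have j2 : Continuous fun x : ℝ => 1 / 9 * (2 * la) * (nn η x * (c2 x * (uu x * (e + d * x)))) :=
    continuous_const.mul c2'
  simp only [e1]
  rw [intervalIntegral.integral_sub (j1.intervalIntegrable _ _)
    (j2.intervalIntegrable _ _), intervalIntegral.integral_const_mul,
    intervalIntegral.integral_const_mul, int_k1, int_k2]
  unfold bW
  ring

/-- value of the volume polynomial -/
noncomputable def bV (la η e d : ℝ) : ℝ :=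
  bW la η e d + √2 * (2 / 27) * ((3 * la ^ 2 - 2 * la ^ 3) * (6101119279 / 992431440000) -
    3 * la ^ 2 * (1336263121 / 42000000000 * e + 19374653503 / 19008000000000 * (η * d)))

theorem bV_int (la η e d : ℝ) : ∫ x in (-(1 / 2) : ℝ)..(1 / 2), nn η x *
    (1 / 2 * (c2 x * L2 la x (e + d * x)) + c3 x * L3 la x (e + d * x)) = bV la η e d := by
  have c1 : Continuous fun x : ℝ => nn η x * (1 / 2 * (c2 x * L2 la x (e + d * x))) := by
    unfold nn c2 L2 ul uu hh; fun_prop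
  have c3' : Continuous fun x : ℝ => nn η x * (c3 x * ul x ^ 3) := by
    unfold nn c3 ul hh; fun_prop
  have c4 : Continuous fun x : ℝ => nn η x * (c3 x * (uu x ^ 2 * (e + d * x))) := by
    unfold nn c3 uu hh; fun_prop
  have e1 : ∀ x : ℝ, nn η x * (1 / 2 * (c2 x * L2 la x (e + d * x)) +
      c3 x * L3 la x (e + d * x)) = nn η x * (1 / 2 * (c2 x * L2 la x (e + d * x))) +
      (√2 * (2 / 27) * (3 * la ^ 2 - 2 * la ^ 3) * (nn η x * (c3 x * ul x ^ 3)) -
      √2 * (2 / 27) * (3 * la ^ 2) * (nn η x * (c3 x * (uu x ^ 2 * (e + d * x))))) := by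
    intro x
    unfold L3
    ring
  have i3 : Continuous fun x : ℝ =>
    √2 * (2 / 27) * (3 * la ^ 2 - 2 * la ^ 3) * (nn η x * (c3 x * ul x ^ 3)) :=
    continuous_const.mul c3'
  have i4 : Continuous fun x : ℝ =>
    √2 * (2 / 27) * (3 * la ^ 2) * (nn η x * (c3 x * (uu x ^ 2 * (e + d * x)))) :=
    continuous_const.mul c4
  have i34 : Continuous fun x : ℝ => √2 * (2 / 27) * (3 * la ^ 2 - 2 * la ^ 3) *
      (nn η x * (c3 x * ul x ^ 3)) - √2 * (2 / 27) * (3 * la ^ 2) *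
      (nn η x * (c3 x * (uu x ^ 2 * (e + d * x)))) := i3.sub i4
  simp only [e1]
  rw [intervalIntegral.integral_add (c1.intervalIntegrable _ _)
    (i34.intervalIntegrable _ _),
    intervalIntegral.integral_sub (i3.intervalIntegrable _ _) (i4.intervalIntegrable _ _),
    intervalIntegral.integral_const_mul, intervalIntegral.integral_const_mul, bW_int, int_k3,
    int_k4]
  unfold bV
  ring

theorem W_int2 {η : ℝ} (hη : |η| ≤ 1) {e d la w C : ℝ} (h0 : 0 ≤ la) (h1 : la ≤ 1) (hw : 0 ≤ w)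
    (hC : 0 ≤ C) (hδ : ∀ X : ℝ, |X| ≤ 1 / 2 → 0 ≤ e + d * X) :
    bW la η e d - w ^ 2 / 4 - C ≤ ∫ r in Wlow e d w, (f2 η r * r.2 - C) := by
  refine le_trans (le_of_eq ?_) (W_int hη h0 h1 hw hC hδ)
  have c1 : Continuous fun x : ℝ => nn η x * (1 / 2 * (c2 x * L2 la x (e + d * x))) := by
    unfold nn c2 L2 ul uu hh; fun_prop
  have c5 : Continuous fun x : ℝ => nn η x := by unfold nn; fun_prop
  have e1 : ∀ x : ℝ, nn η x * (1 / 2 * (c2 x * L2 la x (e + d * x)) - w ^ 2 / 2) - C =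
      nn η x * (1 / 2 * (c2 x * L2 la x (e + d * x))) - (w ^ 2 / 2 * nn η x + C) := by
    intro x; ring
  simp only [e1]
  have i5 : Continuous fun x : ℝ => w ^ 2 / 2 * nn η x := continuous_const.mul c5
  have i6 : Continuous fun x : ℝ => w ^ 2 / 2 * nn η x + C := i5.add continuous_const
  rw [intervalIntegral.integral_sub (c1.intervalIntegrable _ _)
    (i6.intervalIntegrable _ _), intervalIntegral.integral_add (i5.intervalIntegrable _ _) (by simp),
    intervalIntegral.integral_const_mul, bW_int, int_nn, intervalIntegral.integral_const]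
  simp only [smul_eq_mul]
  ring

/-! ### the limit -/

/-- **axial flux of the weighted coordinate** -/
theorem surf_lo {σ : Measure (E3 × E3)} [IsFiniteMeasure σ] {K : Set E3} (hK : IsCompact K)
    (hσ : ∀ᵐ z ∂σ, z.1 ∈ K ∧ z.2 ∈ K)
    (hU : ∀ G : E3 → E3, ContDiff ℝ ∞ G → ∫ z, ⟪G z.1, z.1 - z.2⟫ ∂σ = ∫ x in K, dvg G x)
    {s1 s2 s3 s4 : ℝ} (h : Bod b c K s1 s2 s3 s4) {η : ℝ} (hη : |η| ≤ 1)
    {ε : ℝ} (hε : ε = 1 ∨ ε = -1) {la : ℝ} (h0 : 0 ≤ la) (h1 : la ≤ 1) :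
    bW la η (0.5774 * (s1 + s2)) (s1 - s2) +
      (∫ x in K ∩ EC b c, fderiv ℝ (fun y => gf η ε (co b c y)) x (b 2)) ≤
      ∫ z in {z | z.1 ∈ EC b c}, gf η ε (co b c z.1) * ⟪b 2, z.1 - z.2⟫ ∂σ := by
  have hg : ContDiff ℝ ∞ (fun x => gf η ε (co b c x)) := (gf_cd η ε).comp (co_cdn b c)
  have hl := fluxg_lim b c hK hσ hU hg (b 2)
  rw [cel_eq] at hl
  have hn := nuw_b b
  have n0 := (hn 0).1
  have n1 := (hn 1).1
  have r := r2
  have hs1 := h.s1_nn
  have hs2 := h.s2_nn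
  have hlow : ∀ m : ℕ, bW la η (0.5774 * (s1 + s2) + 2 * (1 / ((m : ℝ) + 1))) (s1 - s2) -
      (1 / ((m : ℝ) + 1)) ^ 2 / 2 - 4 * (1 / ((m : ℝ) + 1)) ≤
      ⟪nuw b 0, b 2⟫ * (∫ x in K, gf η ε (co b c x) * jk (m + 1) (Tw b c 1 x)) +
        ⟪nuw b 1, b 2⟫ * (∫ x in K, gf η ε (co b c x) * jk (m + 1) (Tw b c (-1) x)) := by
    intro m
    have hδ : ∀ X : ℝ, |X| ≤ 1 / 2 →
        0 ≤ (0.5774 * (s1 + s2) + 2 / ((m : ℝ) + 1)) + (s1 - s2) * X := by
      intro X hX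
      obtain ⟨hXl, hXu⟩ := abs_le.1 hX
      have h3 : 0 ≤ 2 / ((m : ℝ) + 1) := by positivity
      have h4 : 0 ≤ s1 * (0.5774 + X) := mul_nonneg hs1 (by linarith)
      have h5 : 0 ≤ s2 * (0.5774 - X) := mul_nonneg hs2 (by linarith)
      have h6 : s1 * (0.5774 + X) + s2 * (0.5774 - X) =
        0.5774 * (s1 + s2) + (s1 - s2) * X := by ring
      linarith
    have k1 := near_nn hK h hη hε m
    have k2 := far_lo hK h hη hε m
    have k3 := W_int2 hη (w := √2 / ((m : ℝ) + 1)) (C := 4 * (1 / ((m : ℝ) + 1))) h0 h1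
      (by positivity) (by positivity) hδ
    have e1 : (2 : ℝ) / (m + 1) = 2 * (1 / (m + 1)) := by ring
    have e2 : (√2 / ((m : ℝ) + 1)) ^ 2 = 2 * (1 / ((m : ℝ) + 1)) ^ 2 := by
      have : (√2 / ((m : ℝ) + 1)) ^ 2 = (√2 * √2) * (1 / ((m : ℝ) + 1)) ^ 2 := by ring
      rw [this, r]
    rw [e1, e2] at k3
    rw [e1] at k2
    rw [n0, n1]
    set I := ∫ r in Wlow (0.5774 * (s1 + s2) + 2 * (1 / ((m : ℝ) + 1))) (s1 - s2)
      (√2 / ((m : ℝ) + 1)), (f2 η r * r.2 - 4 * (1 / ((m : ℝ) + 1))) with hI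
    have k4 : I ≤ √2 / 2 * (∫ x in K, gf η ε (co b c x) * jk (m + 1) (Tw b c (-ε) x)) := by
      have := mul_le_mul_of_nonneg_left k2 (by positivity : (0 : ℝ) ≤ √2 / 2)
      have e3 : √2 / 2 * (√2 * I) = I := by linear_combination I / 2 * r
      linarith
    have k5 : 0 ≤ √2 / 2 * ∫ x in K, gf η ε (co b c x) * jk (m + 1) (Tw b c ε x) :=
      mul_nonneg (by positivity) k1
    rcases hε with hh | hh
    · rw [hh] at k4 k5 ⊢
      linarith
    · rw [hh] at k4 k5 ⊢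
      rw [neg_neg] at k4
      linarith
  have hlim : Tendsto (fun m : ℕ => bW la η (0.5774 * (s1 + s2) + 2 * (1 / ((m : ℝ) + 1)))
      (s1 - s2) - (1 / ((m : ℝ) + 1)) ^ 2 / 2 - 4 * (1 / ((m : ℝ) + 1))) atTop
      (𝓝 (bW la η (0.5774 * (s1 + s2)) (s1 - s2))) := by
    have hc : Continuous (fun u : ℝ => bW la η (0.5774 * (s1 + s2) + 2 * u) (s1 - s2) -
        u ^ 2 / 2 - 4 * u) := by unfold bW; fun_prop
    have h2 := (hc.tendsto 0).comp lim_inv
    refine h2.congr' ?_ |>.trans (le_of_eq ?_)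
    · exact Eventually.of_forall fun m => rfl
    · congr 1
      unfold bW
      ring
  have h3 := le_of_tendsto_of_tendsto' hlim hl hlow
  linarith

/-! ### the theorem -/

/-- **lower bound of the bulk terms** -/
noncomputable def bL (la η s1 s2 : ℝ) : ℝ :=
  bW la η (0.5774 * (s1 + s2)) (s1 - s2) + bV la η (0.5774 * (s1 + s2)) (s1 - s2)

section main
variable {a : Fin 4 → E3} (ha : ∀ i j, i ≠ j → dist (a i) (a j) = 1)
  {K : Set E3} {σ : Measure (E3 × E3)} [IsFiniteMeasure σ] (h : PM K σ)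
  (hcomp : ∀ p : E3, (∀ q ∈ K, dist p q ≤ 1) → p ∈ K)
  (hpl : ∀ x ∈ K, Pl a x) {b : OrthonormalBasis (Fin 3) ℝ E3} (hb : Fr a b)
  {S : Fin 4 → ℝ} (hQ : ∀ x ∈ K, ∀ i, Qv a i x ≤ S i) (hS0 : ∀ i, 0 ≤ S i)

include ha hb in
omit [IsFiniteMeasure σ] in
theorem lf_bar {k k' : Fin 4} {ε : ℝ} (hk : ks k ε k') (x : E3) :
    lf ε (co b (cen a) x) = -bar a k x := by
  have hG := gram_of_dist ha
  rw [Pool.Agent.Helper95.MEI.Fub.co_e hG hb.1 hb.2.1 hb.2.2 x]
  have r := r2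
  unfold lf eY eW
  rcases hk with ⟨h1, h2, _⟩ | ⟨h1, h2, _⟩
  · rw [h1, h2]
    simp only
    linear_combination (-(1 / 4)) * (bar a 2 x + bar a 3 x) * r
  · rw [h1, h2]
    simp only
    linear_combination (-(1 / 4)) * (bar a 2 x + bar a 3 x) * r

include ha h hcomp hpl hb hQ hS0 in
/-- **BULK TERMS**: `.00358 - .0205 (S_0 + S_1)` for `la = .85` -/
theorem bulk_lo (i : Bool) {k k' : Fin 4} {ε : ℝ} (hk : ks k ε k') {la : ℝ} (h0 : 0 ≤ la)
    (h1 : la ≤ 1) :
    bL la (sg i) (S 0) (S 1) ≤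
      -(∫ z in Zp a 2 3, Helper37.MEI.wt a i z.1 * bar a k z.1 ∂σ) +
      ∫ x in K ∩ EC b (cen a), fderiv ℝ (fun y => om (sg i) (co b (cen a) y)) x (be b ε) := by
  have hG := gram_of_dist ha
  have hB := Helper21.Alp.bod ha hcomp hpl hb hQ hS0
  have hη := sg_abs i
  have hε : ε = 1 ∨ ε = -1 := by
    rcases hk with ⟨_, h2, _⟩ | ⟨_, h2, _⟩
    · exact Or.inl h2
    · exact Or.inr h2
  have k1 := surf_lo h.cpt h.mem h.flux hB hη hε h0 h1
  -- pointwise comparison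
  have k2 : ∫ z in {z | z.1 ∈ EC b (cen a)}, gf (sg i) ε (co b (cen a) z.1) *
      ⟪b 2, z.1 - z.2⟫ ∂σ ≤ -(∫ z in Zp a 2 3, Helper37.MEI.wt a i z.1 * bar a k z.1 ∂σ) := by
    rw [← Helper21.Alp.Zp_eq ha hb, ← integral_neg]
    have hwc := Helper37.MEI.wt_cont a i
    have hbc := Pool.Agent.Helper95.MEI.Fub.bar_cont a k
    have hgc : Continuous fun x => gf (sg i) ε (co b (cen a) x) :=
      ((gf_cd (sg i) ε (n := 0)).comp (co_cdn b (cen a))).continuous
    have i1 : Integrable (fun z : E3 × E3 => gf (sg i) ε (co b (cen a) z.1) *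
        ⟪b 2, z.1 - z.2⟫) σ :=
      int_cont h.cpt h.mem ((hgc.comp continuous_fst).mul (by fun_prop))
    have i2 : Integrable (fun z : E3 × E3 => -(Helper37.MEI.wt a i z.1 * bar a k z.1)) σ :=
      int_cont h.cpt h.mem (((hwc.comp continuous_fst).mul (hbc.comp continuous_fst)).neg)
    refine integral_mono_ae i1.integrableOn i2.integrableOn ?_
    filter_upwards [ae_restrict_mem (Zp_meas a 2 3), ae_restrict_of_ae (s := Zp a 2 3) h.ae]
      with z hz hm
    have hw0 := Helper37.MEI.wt_nonneg hG i (hpl _ hm.1)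
    have e1 : gf (sg i) ε (co b (cen a) z.1) = -(Helper37.MEI.wt a i z.1 * bar a k z.1) := by
      unfold gf
      rw [← wt_om ha hb i z.1, lf_bar ha hb hk]
      ring
    have hg0 : 0 ≤ gf (sg i) ε (co b (cen a) z.1) := by
      rw [e1]
      have hbk : bar a k z.1 ≤ 0 := by
        rcases hk with ⟨h3, _, _⟩ | ⟨h3, _, _⟩
        · rw [h3]; exact hz.1.le
        · rw [h3]; exact hz.2.le
      have := mul_nonpos_of_nonneg_of_nonpos hw0 hbk
      linarith
    have hin : ⟪b 2, z.1 - z.2⟫ ≤ 1 := by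
      have h3 := real_inner_le_norm (b 2) (z.1 - z.2)
      rw [hm.2.2.1, b.orthonormal.1 2] at h3
      linarith
    rw [← e1]
    exact mul_le_of_le_one_right hg0 hin
  -- the volume term
  have hEm : MeasurableSet (EC b (cen a)) := by
    rw [← cel_eq]; exact (Cel_open _ _).measurableSet
  have hgd : Continuous fun x => fderiv ℝ (fun y => gf (sg i) ε (co b (cen a) y)) x (b 2) :=
    ((((gf_cd (sg i) ε (n := 1)).comp (co_cdn b (cen a))).continuous_fderiv
      one_ne_zero)).clm_apply continuous_const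
  have hod : Continuous fun x => fderiv ℝ (fun y => om (sg i) (co b (cen a) y)) x (be b ε) :=
    ((((om_cd (sg i) (n := 1)).comp (co_cdn b (cen a))).continuous_fderiv
      one_ne_zero)).clm_apply continuous_const
  have j1 : IntegrableOn (fun x => fderiv ℝ (fun y => gf (sg i) ε (co b (cen a) y)) x (b 2))
      (K ∩ EC b (cen a)) :=
    (hgd.continuousOn.integrableOn_compact h.cpt).mono_set inter_subset_left
  have j2 : IntegrableOn (fun x => fderiv ℝ (fun y => om (sg i) (co b (cen a) y)) x (be b ε))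
      (K ∩ EC b (cen a)) :=
    (hod.continuousOn.integrableOn_compact h.cpt).mono_set inter_subset_left
  have k3 : (∫ x in K ∩ EC b (cen a), fderiv ℝ (fun y => gf (sg i) ε (co b (cen a) y)) x (b 2)) +
      ∫ x in K ∩ EC b (cen a), fderiv ℝ (fun y => om (sg i) (co b (cen a) y)) x (be b ε) =
      ∫ x in K ∩ EC b (cen a), Fv (sg i) (Tw b (cen a) ε x) := by
    rw [← integral_add j1 j2]
    refine integral_congr_ae (Eventually.of_forall fun x => ?_)
    exact TV_eq b (cen a) (sg i) hε x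
  have k4 := vol_lo h.cpt hB hη hε
  have hδ : ∀ X : ℝ, |X| ≤ 1 / 2 → 0 ≤ 0.5774 * (S 0 + S 1) + (S 0 - S 1) * X := by
    intro X hX
    obtain ⟨hXl, hXu⟩ := abs_le.1 hX
    have h4 : 0 ≤ S 0 * (0.5774 + X) := mul_nonneg (hS0 0) (by linarith)
    have h5 : 0 ≤ S 1 * (0.5774 - X) := mul_nonneg (hS0 1) (by linarith)
    have h6 : S 0 * (0.5774 + X) + S 1 * (0.5774 - X) =
      0.5774 * (S 0 + S 1) + (S 0 - S 1) * X := by ring
    linarith
  have k5 := V_int hη h0 h1 hδ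
  rw [bV_int] at k5
  unfold bL
  linarith

include ha h hcomp hpl hb hQ hS0 in
/-- **moment of an arc by the walls, with the bulk terms** -/
theorem momw_bulk (i : Bool) {k k' : Fin 4} {ε : ℝ} (hk : ks k ε k') {la : ℝ} (h0 : 0 ≤ la)
    (h1 : la ≤ 1) :
    ∫ z in Zp a 2 3, Helper37.MEI.wt a i z.1 * bar a k z.2 ∂σ ≤
      3 / 2 * ju (S k') - 1 / 2 * jl (sg i) (S 0) (S 1) - bL la (sg i) (S 0) (S 1) := by
  have k1 := momw_id ha h hcomp hpl hb hQ hS0 i hk
  have k2 := bulk_lo ha h hcomp hpl hb hQ hS0 i hk h0 h1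
  linarith

end main

end Helper37.Bulk
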