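import Pool.Agent.Helper37.MEI.Bulk4

/-!
# Project MEI (M2): bulk terms of the moment of an arc, V: numbers and all six edges
-/

namespace Helper37.Bulk

open Set MeasureTheory Filter Topology Metric
open Helper80.CW Helper22.Wedge Helper22.Sig Helper14.CW Helper14.MEI2 Helper93.MEI
open Helper22.MEI (s t FD FD_pos)
open Helper21.Sec Helper21.Mom Helper53.MEI
open Pool.Agent.Helper95.MEI.Fub (Zp int_cont Zp_meas)
open Pool.Agent.Helper73.MEI
open scoped RealInnerProductSpace ContDiff Real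

/-- general evaluation -/
theorem bL_ge {la : ℝ} (h0 : 0 ≤ la) (h1 : la ≤ 1) {s1 s2 : ℝ} (hs1 : 0 ≤ s1) (hs2 : 0 ≤ s2)
    (i : Bool) : (2 * la - la ^ 2) * 0.0030347 + (3 * la ^ 2 - 2 * la ^ 3) * 0.000644 -
      (la * 0.0205228 + la ^ 2 * 0.0060937) * (if i then s2 else s1) -
      (la * 0.0176313 + la ^ 2 * 0.005453) * (if i then s1 else s2) ≤ bL la (sg i) s1 s2 := by
  have s2l : 1.41421 < √2 := by
    rw [Real.lt_sqrt (by norm_num)]; norm_num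
  have s2u : √2 < 1.41422 := by
    rw [Real.sqrt_lt' (by norm_num)]; norm_num
  have hla2 : 0 ≤ la ^ 2 := sq_nonneg la
  have k0 : 0 ≤ 3 * la ^ 2 - 2 * la ^ 3 := by nlinarith
  have k1 : (3 * la ^ 2 - 2 * la ^ 3) * 1.41421 ≤ (3 * la ^ 2 - 2 * la ^ 3) * √2 :=
    mul_le_mul_of_nonneg_left s2l.le k0
  have k01 : 0 ≤ 2 * la - la ^ 2 := by nlinarith
  have m1 : 0 ≤ la ^ 2 * s1 := mul_nonneg hla2 hs1
  have m2 : 0 ≤ la ^ 2 * s2 := mul_nonneg hla2 hs2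
  have n1 : 0 ≤ la * s1 := mul_nonneg h0 hs1
  have n2 : 0 ≤ la * s2 := mul_nonneg h0 hs2
  have a1 : la ^ 2 * s1 * √2 ≤ la ^ 2 * s1 * 1.41422 := mul_le_mul_of_nonneg_left s2u.le m1
  have a2 : la ^ 2 * s2 * √2 ≤ la ^ 2 * s2 * 1.41422 := mul_le_mul_of_nonneg_left s2u.le m2
  cases i
  · simp only [sg, Bool.false_eq_true, if_false]
    unfold bL bV bW
    nlinarith
  · simp only [sg, if_true]
    unfold bL bV bW
    nlinarith

theorem bL_100 {s1 s2 : ℝ} (hs1 : 0 ≤ s1) (hs2 : 0 ≤ s2) (i : Bool) :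
    0.00367 - 0.0267 * (if i then s2 else s1) - 0.0232 * (if i then s1 else s2) ≤
      bL 1 (sg i) s1 s2 := by
  have h := bL_ge zero_le_one le_rfl hs1 hs2 i
  cases i
  · simp only [Bool.false_eq_true, if_false] at h ⊢
    linarith
  · simp only [if_true] at h ⊢
    linarith

theorem bL_085 {s1 s2 : ℝ} (hs1 : 0 ≤ s1) (hs2 : 0 ≤ s2) (i : Bool) :
    0.00357 - 0.0219 * (if i then s2 else s1) - 0.019 * (if i then s1 else s2) ≤
      bL 0.85 (sg i) s1 s2 := by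
  have h := bL_ge (la := 0.85) (by norm_num) (by norm_num) hs1 hs2 i
  cases i
  · simp only [Bool.false_eq_true, if_false] at h ⊢
    linarith
  · simp only [if_true] at h ⊢
    linarith

theorem bL_070 {s1 s2 : ℝ} (hs1 : 0 ≤ s1) (hs2 : 0 ≤ s2) (i : Bool) :
    0.00326 - 0.0174 * (if i then s2 else s1) - 0.0151 * (if i then s1 else s2) ≤
      bL 0.7 (sg i) s1 s2 := by
  have h := bL_ge (la := 0.7) (by norm_num) (by norm_num) hs1 hs2 i
  cases i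
  · simp only [Bool.false_eq_true, if_false] at h ⊢
    linarith
  · simp only [if_true] at h ⊢
    linarith

/-! ### all six edges -/

section six
variable {a : Fin 4 → E3} {K : Set E3} {σ : Measure (E3 × E3)}

/-- **first moments of the arcs, full density, with the bulk terms** -/
theorem momw_all_bulk [IsFiniteMeasure σ] (h : PM K σ)
    (ha : ∀ i j, i ≠ j → dist (a i) (a j) = 1)
    (hull : ∀ p, (∀ q ∈ K, ‖p - q‖ ≤ 1) → p ∈ K) (hp : ∀ x ∈ K, Pl a x)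
    {B : Fin 3 → Bool → OrthonormalBasis (Fin 3) ℝ E3}
    (hB : ∀ m e, Fr (fun i => a (pr m e i)) (B m e)) {S : Fin 4 → ℝ} (hS0 : ∀ i, 0 ≤ S i)
    (hQ : ∀ i, ∀ q ∈ K, Qv a i q ≤ S i)
    (m : Fin 3) (e i : Bool) {k k' : Fin 4} (hk : k = 2 ∧ k' = 3 ∨ k = 3 ∧ k' = 2)
    {la : ℝ} (h0 : 0 ≤ la) (h1 : la ≤ 1) :
    ∫ z in Helper37.MEI.EE a m e, Helper37.MEI.wt (Helper37.MEI.ap a m e) i z.1 *
      bar a (pf m e k) z.2 ∂σ ≤ 3 / 2 * ju (S (pf m e k')) -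
        1 / 2 * jl (sg i) (S (pf m e 0)) (S (pf m e 1)) -
        bL la (sg i) (S (pf m e 0)) (S (pf m e 1)) := by
  have ha' := Helper37.MEI.hap ha m e
  have hb : Fr (Helper37.MEI.ap a m e) (B m e) := hB m e
  have hcomp : ∀ p : E3, (∀ q ∈ K, dist p q ≤ 1) → p ∈ K := fun p hpp =>
    hull p fun q hq => by rw [← dist_eq_norm]; exact hpp q hq
  have hp' : ∀ x ∈ K, Pl (Helper37.MEI.ap a m e) x := fun x hx => Pl_perm _ (hp x hx)
  have hQ' : ∀ x ∈ K, ∀ j, Qv (Helper37.MEI.ap a m e) j x ≤ S (pf m e j) :=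
    fun x hx j => hQ (pf m e j) x hx
  have hS' : ∀ j, 0 ≤ S (pf m e j) := fun j => hS0 _
  obtain ⟨ε, hks⟩ : ∃ ε : ℝ, ks k ε k' := by
    rcases hk with ⟨h1, h2⟩ | ⟨h1, h2⟩
    · exact ⟨1, Or.inl ⟨h1, rfl, h2⟩⟩
    · exact ⟨-1, Or.inr ⟨h1, rfl, h2⟩⟩
  have h1 := momw_bulk ha' h hcomp hp' hb hQ' hS' i hks h0 h1
  have hbk : ∀ x, bar (Helper37.MEI.ap a m e) k x = bar a (pf m e k) x := fun x =>
    bar_perm (pr m e) k x
  simp only [hbk] at h1
  exact h1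

/-- the number for `la = 1` (small levels): `.03211 + .328 S_{k'} + .0999 S_own + .0805 S_other` -/
theorem momw_all_100 [IsFiniteMeasure σ] (h : PM K σ)
    (ha : ∀ i j, i ≠ j → dist (a i) (a j) = 1)
    (hull : ∀ p, (∀ q ∈ K, ‖p - q‖ ≤ 1) → p ∈ K) (hp : ∀ x ∈ K, Pl a x)
    {B : Fin 3 → Bool → OrthonormalBasis (Fin 3) ℝ E3}
    (hB : ∀ m e, Fr (fun i => a (pr m e i)) (B m e)) {S : Fin 4 → ℝ} (hS0 : ∀ i, 0 ≤ S i)
    (hQ : ∀ i, ∀ q ∈ K, Qv a i q ≤ S i)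
    (m : Fin 3) (e i : Bool) {k k' : Fin 4} (hk : k = 2 ∧ k' = 3 ∨ k = 3 ∧ k' = 2) :
    ∫ z in Helper37.MEI.EE a m e, Helper37.MEI.wt (Helper37.MEI.ap a m e) i z.1 *
      bar a (pf m e k) z.2 ∂σ ≤ 0.03211 + 0.328 * S (pf m e k') +
        0.0999 * (if i then S (pf m e 1) else S (pf m e 0)) +
        0.0805 * (if i then S (pf m e 0) else S (pf m e 1)) := by
  have h2 := momw_all_bulk h ha hull hp hB hS0 hQ m e i hk zero_le_one le_rfl
  have h3 := mom_num (hS0 (pf m e k')) (hS0 (pf m e 0)) (hS0 (pf m e 1)) i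
  have h4 := bL_100 (hS0 (pf m e 0)) (hS0 (pf m e 1)) i
  have u0 := hS0 (pf m e 0)
  have u1 := hS0 (pf m e 1)
  refine h2.trans ?_
  cases i
  · simp only [Bool.false_eq_true, if_false] at h3 h4 ⊢
    linarith
  · simp only [if_true] at h3 h4 ⊢
    linarith

/-- the number for `la = 17/20`: `.03221 + .328 S_{k'} + .0951 S_own + .0763 S_other` -/
theorem momw_all_085 [IsFiniteMeasure σ] (h : PM K σ)
    (ha : ∀ i j, i ≠ j → dist (a i) (a j) = 1)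
    (hull : ∀ p, (∀ q ∈ K, ‖p - q‖ ≤ 1) → p ∈ K) (hp : ∀ x ∈ K, Pl a x)
    {B : Fin 3 → Bool → OrthonormalBasis (Fin 3) ℝ E3}
    (hB : ∀ m e, Fr (fun i => a (pr m e i)) (B m e)) {S : Fin 4 → ℝ} (hS0 : ∀ i, 0 ≤ S i)
    (hQ : ∀ i, ∀ q ∈ K, Qv a i q ≤ S i)
    (m : Fin 3) (e i : Bool) {k k' : Fin 4} (hk : k = 2 ∧ k' = 3 ∨ k = 3 ∧ k' = 2) :
    ∫ z in Helper37.MEI.EE a m e, Helper37.MEI.wt (Helper37.MEI.ap a m e) i z.1 *
      bar a (pf m e k) z.2 ∂σ ≤ 0.03221 + 0.328 * S (pf m e k') +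
        0.0951 * (if i then S (pf m e 1) else S (pf m e 0)) +
        0.0763 * (if i then S (pf m e 0) else S (pf m e 1)) := by
  have h2 := momw_all_bulk h ha hull hp hB hS0 hQ m e i hk
    (la := 0.85) (by norm_num) (by norm_num)
  have h3 := mom_num (hS0 (pf m e k')) (hS0 (pf m e 0)) (hS0 (pf m e 1)) i
  have h4 := bL_085 (hS0 (pf m e 0)) (hS0 (pf m e 1)) i
  have u0 := hS0 (pf m e 0)
  have u1 := hS0 (pf m e 1)
  refine h2.trans ?_
  cases i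
  · simp only [Bool.false_eq_true, if_false] at h3 h4 ⊢
    linarith
  · simp only [if_true] at h3 h4 ⊢
    linarith

end six

end Helper37.Bulk
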