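import Mathlib

/-!
# Project MEI (M2): the a priori bound `S < 0.12`, arithmetic part
-/

set_option autoImplicit false

namespace Helper37.MEI.Clo

open Real

/-- the first bound of `R` -/
theorem R_tang {R u : ℝ} (hu0 : 0 ≤ u) (hu : u ≤ 2)
    (h : (0.12 + R) ^ 2 ≤ R * (4 * (1 + 0.12) - u ^ 2)) :
    0.013175 * (4.84 * u ^ 2 - 15.7828) ≤ R := by
  have h1 : (0.013175 : ℝ) ≤ R * (4.17 - u ^ 2) := by nlinarith [sq_nonneg (R - 0.035)]
  have h2 : 0 < 4.17 - u ^ 2 := by nlinarith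
  have h3 : (0.013175 : ℝ) * (4.84 * u ^ 2 - 15.7828) * (4.17 - u ^ 2) ≤ R * (4.17 - u ^ 2) := by
    nlinarith [sq_nonneg (2.2 * (4.17 - u ^ 2) - 1)]
  exact le_of_mul_le_mul_right h3 h2

/-- the second bound of `R` -/
theorem R_tang2 {R u : ℝ} (hu0 : 0 ≤ u) (hu : u ≤ 2)
    (h : (0.12 + R) ^ 2 ≤ R * (4 * (1 + 0.12) - u ^ 2)) :
    0.01424375 * (0.5184 * u ^ 2 - 0.745056) ≤ R := by
  have h1 : (0.01424375 : ℝ) ≤ R * (4.215 - u ^ 2) := by nlinarith [sq_nonneg (R - 0.0125)]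
  have h2 : 0 < 4.215 - u ^ 2 := by nlinarith
  have h3 : (0.01424375 : ℝ) * (0.5184 * u ^ 2 - 0.745056) * (4.215 - u ^ 2) ≤
      R * (4.215 - u ^ 2) := by
    nlinarith [sq_nonneg (0.72 * (4.215 - u ^ 2) - 1)]
  exact le_of_mul_le_mul_right h3 h2

/-- `R ≥ 0.006` for `u ≥ 1.38` -/
theorem R_ge {R u : ℝ} (hu0 : 1.38 ≤ u) (hu : u ≤ 2)
    (h : (0.12 + R) ^ 2 ≤ R * (4 * (1 + 0.12) - u ^ 2)) : 0.006 ≤ R := by
  have h1 : (0.01424375 : ℝ) ≤ R * (4.215 - u ^ 2) := by nlinarith [sq_nonneg (R - 0.0125)]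
  have h2 : 0 < 4.215 - u ^ 2 := by nlinarith
  by_contra hc
  push Not at hc
  have h3 : R * (4.215 - u ^ 2) < 0.006 * (4.215 - u ^ 2) := mul_lt_mul_of_pos_right hc h2
  nlinarith

/-- `C0` -/
def C0 (b β : ℝ) : ℝ := 3 * β ^ 2 + 2.64 * β - 0.2256 - b * (0.88 + 2 * β - b)

/-- lower bound of the smallest coordinate -/
theorem C0_ge {b1 b2 b3 β ε : ℝ} (h1 : b1 + b2 + b3 = 1 + β)
    (h2 : 1 / 2 * (β ^ 2 + b1 ^ 2 + b2 ^ 2 + b3 ^ 2) + β - 1 / 2 = 0.12) (h32 : b3 ≤ b2)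
    (h4 : 0.12 - β - b3 ≤ ε) :
    -(ε * (0.76 + 3 * β - b1 + ε)) ≤ C0 b1 β := by
  unfold C0
  have h3 : 0 ≤ (b3 - (0.12 - β - ε)) * (b2 - (0.12 - β - ε)) :=
    mul_nonneg (by linarith) (by linarith)
  have e2 : b2 = 1 + β - b1 - b3 := by linarith
  subst e2
  nlinarith

/-- `β` is nonnegative -/
theorem beta_nonneg {b1 b2 b3 β : ℝ} (h1 : b1 + b2 + b3 = 1 + β)
    (h2 : 1 / 2 * (β ^ 2 + b1 ^ 2 + b2 ^ 2 + b3 ^ 2) + β - 1 / 2 = 0.12) (h12 : b2 ≤ b1)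
    (h32 : b3 ≤ b2) (hp13 : b1 - b3 ≤ 1) (hb1 : 0.4 ≤ b1) (hp03 : -β - b3 ≤ 1) : 0 ≤ β := by
  by_contra hβ
  push Not at hβ
  have key : b1 ^ 2 + b2 ^ 2 + b3 ^ 2 ≤ 1 := by
    rcases le_or_gt 0 b3 with h3 | h3
    · have hb2 : 0 ≤ b2 := h3.trans h32
      have hS : (b1 + b2 + b3) ^ 2 ≤ 1 := by
        have : 0 ≤ b1 + b2 + b3 := by linarith
        nlinarith
      have q1 := mul_nonneg h3 hb2
      have q2 := mul_nonneg h3 (by linarith : 0 ≤ b1)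
      have q3 := mul_nonneg hb2 (by linarith : 0 ≤ b1)
      linarith
    · rcases le_or_gt 0 b2 with h4 | h4
      · rcases le_or_gt b3 (-1 / 3) with h5 | h5
        · have q1 : b1 ^ 2 ≤ (1 + b3) ^ 2 := pow_le_pow_left₀ (by linarith) (by linarith) 2
          have q2 : b2 ^ 2 ≤ (1 + b3) ^ 2 := pow_le_pow_left₀ h4 (by linarith) 2
          have q3 := mul_nonneg (by linarith : 0 ≤ -(3 * b3 + 1)) (by linarith : 0 ≤ b3 + 1)
          linarith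
        · have q1 := mul_nonneg (by linarith : 0 ≤ 1 + b3 - b1) (by linarith : 0 ≤ b1 - b2)
          have q2 := mul_nonneg (by linarith : 0 ≤ 1 - b3 - b1 - b2) h4
          have q3 := mul_nonneg (by linarith : 0 ≤ -b3) (by linarith : 0 ≤ 1 - b3 - b1 - b2)
          have q4 := mul_nonneg (by linarith : 0 ≤ 1 + b3 - b1) (by linarith : 0 ≤ 1 + 3 * b3)
          have q5 := mul_nonneg (by linarith : 0 ≤ -b3) (by linarith : 0 ≤ 1 + 3 * b3)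
          linarith
      · have q1 : b1 ^ 2 ≤ (1 + b3) ^ 2 := pow_le_pow_left₀ (by linarith) (by linarith) 2
        have q2 : (-b2) ^ 2 ≤ (-b3) ^ 2 := pow_le_pow_left₀ (by linarith) (by linarith) 2
        have q3 := mul_nonneg (by linarith : 0 ≤ -b3) (by linarith : 0 ≤ 2 + 3 * b3)
        linarith
  have q := mul_pos (by linarith : 0 < -β) (by linarith : 0 < β + 2)
  linarith

/-- crude bound of `T` -/
theorem T_le1 {P T : ℝ} (hP : 0.06 ≤ P) (hPT : P + T ≤ 0.123)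
    (h : P - 2.25 * P ^ 2 + T - 3 * T ^ 2 - 1 / 2 * (P * T) ≤ 0.0887) : T ≤ 0.0445 := by
  by_contra hT
  push Not at hT
  nlinarith [mul_nonneg (by linarith : 0 ≤ T - 0.0445) (by linarith : 0 ≤ 0.123 - P - T),
    mul_nonneg (by linarith : 0 ≤ P - 0.06) (by linarith : 0 ≤ 0.123 - P - T),
    mul_nonneg (by linarith : 0 ≤ P - 0.06) (by linarith : 0 ≤ T - 0.0445)]

/-- second bound of `T` -/
theorem T_le2 {P T : ℝ} (hP : 0.0705 ≤ P) (hPT : P + T ≤ 0.123)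
    (h : P - 2.25 * P ^ 2 + T - 3 * T ^ 2 - 1 / 2 * (P * T) ≤ 0.0887) : T ≤ 0.0345 := by
  by_contra hT
  push Not at hT
  nlinarith [mul_nonneg (by linarith : 0 ≤ T - 0.0345) (by linarith : 0 ≤ 0.123 - P - T),
    mul_nonneg (by linarith : 0 ≤ P - 0.0705) (by linarith : 0 ≤ 0.123 - P - T),
    mul_nonneg (by linarith : 0 ≤ P - 0.0705) (by linarith : 0 ≤ T - 0.0345)]

/-- linear bound of `T` -/
theorem T_lin {P T : ℝ} (hP : 0.0705 ≤ P) (hT0 : 0 ≤ T) (hPT : P + T ≤ 0.123) (hT : T ≤ 0.0345)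
    (h : P - 2.25 * P ^ 2 + T - 3 * T ^ 2 - 1 / 2 * (P * T) ≤ 0.0887) :
    T ≤ 0.0829 - 0.6756 * P := by
  have hP1 : P ≤ 0.123 := by linarith
  have h1 : 0.835 * T ≤ T - 3 * T ^ 2 - 1 / 2 * (P * T) := by
    nlinarith [mul_nonneg hT0 (by linarith : 0 ≤ 0.0345 - T),
      mul_nonneg hT0 (by linarith : 0 ≤ 0.123 - P)]
  have h2 : 2.25 * P ^ 2 ≤ 0.435375 * P - 0.0195108 := by
    nlinarith [mul_nonneg (by linarith : 0 ≤ P - 0.0705) (by linarith : 0 ≤ 0.123 - P)]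
  linarith

/-- the mixed terms -/
theorem mT_le {P T : ℝ} (hT : T ≤ 0.0829 - 0.6756 * P) :
    max (P - 0.0632) 0 * T ≤ 0.00061 := by
  rcases le_total (P - 0.0632) 0 with h | h
  · rw [max_eq_right h]; linarith
  · rw [max_eq_left h]
    nlinarith [mul_le_mul_of_nonneg_left hT h, sq_nonneg (P - 0.093)]

/-- the location of `z`: `0.15 ≤ β` -/
theorem loc {b1 β ε : ℝ} (hβ : 0 ≤ β) (hb : 0.4878 ≤ b1) (hb1 : b1 + β ≤ 1) (hε : 0 ≤ ε)
    (hε1 : ε ≤ 0.089 * b1) (h : -(ε * (0.76 + 3 * β - b1 + ε)) ≤ C0 b1 β) : 0.15 ≤ β := by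
  unfold C0 at h
  have hk : ε * (0.76 + 3 * β - b1 + ε) ≤ 0 ∨
      ε * (0.76 + 3 * β - b1 + ε) ≤ 0.089 * b1 * (0.76 + 3 * β - 0.911 * b1) := by
    rcases le_total 0 (0.76 + 3 * β - b1 + ε) with h3 | h3
    · right
      exact mul_le_mul hε1 (by linarith) h3 (by linarith)
    · left
      exact mul_nonpos_of_nonneg_of_nonpos hε h3
  by_contra hc
  push Not at hc
  have p1 := mul_nonneg (by linarith : 0 ≤ b1 - 0.4878) (by linarith : 0 ≤ 1 - β - b1)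
  have p2 := mul_nonneg (by linarith : 0 ≤ 0.15 - β) (by linarith : 0 ≤ 1 - β - b1)
  have p3 := mul_nonneg hβ (by linarith : 0 ≤ 0.15 - β)
  have p4 := mul_nonneg (by linarith : 0 ≤ 0.15 - β) (by linarith : 0 ≤ b1 - 0.4878)
  rcases hk with hk | hk
  · nlinarith
  · nlinarith

end Helper37.MEI.Clo
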