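import Pool.Agent.Helper37.MEI.Clo1

/-!
# Project MEI (M2): the a priori bound `S < 0.12`, arithmetic part, final contradiction
-/

set_option autoImplicit false

namespace Helper37.MEI.Clo

open Real

/-- case 1, endpoint `0.2` -/
theorem G1_a {b : ℝ} (hb : 0.4878 ≤ b) :
    0.003 ≤ 0.12 - 0.0227 * 0.2 + b * (0.013175 * (4.84 * (1 + 0.2 + b) ^ 2 - 15.7828) -
      0.1774) + 0.003 * (1 + 0.2 - b) - 0.00597 * b -
      0.1 * (2 * 0.2 + 0.2 ^ 2 - 0.12 - b * (1 + 0.2) + b ^ 2) := by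
  nlinarith [mul_nonneg (sub_nonneg.2 hb) (sq_nonneg (b - 0.75)), sq_nonneg (b - 0.75)]

/-- case 1, endpoint `0.24` -/
theorem G1_b {b : ℝ} (hb : 0.4878 ≤ b) :
    0.003 ≤ 0.12 - 0.0227 * 0.24 + b * (0.013175 * (4.84 * (1 + 0.24 + b) ^ 2 - 15.7828) - 0.1774) + 0.003 * (1 + 0.24 - b) - 0.00597 * b -
      0.1 * (2 * 0.24 + 0.24 ^ 2 - 0.12 - b * (1 + 0.24) + b ^ 2) := by
  nlinarith [mul_nonneg (sub_nonneg.2 hb) (sq_nonneg (b - 0.7)), sq_nonneg (b - 0.7)]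

/-- case 1, `β = 0.24` without the multiplier -/
theorem F1_c {b : ℝ} (hb : 0.4878 ≤ b) :
    0.003 ≤ 0.12 - 0.0227 * 0.24 + b * (0.013175 * (4.84 * (1 + 0.24 + b) ^ 2 - 15.7828) - 0.1774) + 0.003 * (1 + 0.24 - b) - 0.00597 * b := by
  nlinarith [mul_nonneg (sub_nonneg.2 hb) (sq_nonneg (b - 0.67)), sq_nonneg (b - 0.67)]

/-- case 1 -/
theorem F1_pos {b β : ℝ} (hb : 0.4878 ≤ b) (hbβ : b + β ≤ 1) (hβ : 0.2 ≤ β)
    (hP : 0 ≤ 2 * β + β ^ 2 - 0.12 - b * (1 + β) + b ^ 2) :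
    0 < 0.12 - 0.0227 * β + b * (0.013175 * (4.84 * (1 + β + b) ^ 2 - 15.7828) -
      0.1774) + 0.003 * (1 + β - b) - 0.00597 * b := by
  rcases le_total β 0.24 with h | h
  · have k1 := mul_nonneg (sub_nonneg.2 h) (sub_nonneg.2 (G1_a hb))
    have k2 := mul_nonneg (sub_nonneg.2 hβ) (sub_nonneg.2 (G1_b hb))
    have k3 := mul_nonneg (mul_nonneg (sub_nonneg.2 hβ) (sub_nonneg.2 h))
      (by linarith : (0 : ℝ) ≤ 0.1 - 0.063767 * b)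
    nlinarith
  · have k1 := F1_c hb
    have k2 : 0 ≤ (β - 0.24) * (b * 0.063767 * (2 + 2 * b + β + 0.24) - 0.0197) := by
      apply mul_nonneg (by linarith)
      nlinarith [mul_nonneg (by linarith : 0 ≤ b - 0.4878) (by linarith : 0 ≤ β - 0.24),
        mul_nonneg (by linarith : 0 ≤ b - 0.4878) (by linarith : 0 ≤ b)]
    nlinarith

/-- case 2, endpoint `0.15` -/
theorem G2_a {b : ℝ} (hb : 0.4878 ≤ b) (hb2 : b ≤ 0.85) :
    0.002 ≤ 0.12 + b * (0.013175 * (4.84 * (1 + 0.15 + b) ^ 2 - 15.7828) - 0.1774) +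
      (1 + 0.15 - b) * (0.01424375 * (0.5184 * (2 + 2 * 0.15 - b) ^ 2 - 0.745056)) -
      0.0227 * (2 * 0.15 - 0.12) - 0.00597 * b - 0.08 * C0 b 0.15 := by
  unfold C0
  nlinarith [mul_nonneg (sub_nonneg.2 hb) (sq_nonneg (b - 0.785)),
    mul_nonneg (sub_nonneg.2 hb2) (sq_nonneg (b - 0.785)), sq_nonneg (b - 0.785)]

/-- case 2, endpoint `0.2221` -/
theorem G2_b {b : ℝ} (hb : 0.4878 ≤ b) (hb2 : b ≤ 0.85) :
    0.002 ≤ 0.12 + b * (0.013175 * (4.84 * (1 + 0.2221 + b) ^ 2 - 15.7828) - 0.1774) +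
      (1 + 0.2221 - b) * (0.01424375 * (0.5184 * (2 + 2 * 0.2221 - b) ^ 2 - 0.745056)) -
      0.0227 * (2 * 0.2221 - 0.12) - 0.00597 * b - 0.08 * C0 b 0.2221 := by
  unfold C0
  nlinarith [mul_nonneg (sub_nonneg.2 hb) (sq_nonneg (b - 0.724)),
    mul_nonneg (sub_nonneg.2 hb2) (sq_nonneg (b - 0.724)), sq_nonneg (b - 0.724)]

/-- case 2 -/
theorem F2_pos {b β : ℝ} (hb : 0.4878 ≤ b) (hb2 : b ≤ 0.85) (hβ : 0.15 ≤ β) (hβ2 : β ≤ 0.2221) :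
    0 < 0.12 + b * (0.013175 * (4.84 * (1 + β + b) ^ 2 - 15.7828) - 0.1774) +
      (1 + β - b) * (0.01424375 * (0.5184 * (2 + 2 * β - b) ^ 2 - 0.745056)) -
      0.0227 * (2 * β - 0.12) - 0.00597 * b - 0.08 * C0 b β := by
  have k1 := mul_nonneg (sub_nonneg.2 hβ2) (sub_nonneg.2 (G2_a hb hb2))
  have k2 := mul_nonneg (sub_nonneg.2 hβ) (sub_nonneg.2 (G2_b hb hb2))
  have k3 := mul_nonneg (mul_nonneg (sub_nonneg.2 hβ) (sub_nonneg.2 hβ2))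
    (by linarith : (0 : ℝ) ≤ 0.24 - 0.063767 * b - 0.00738396 * (12 - 8 * b) -
      4 * (0.00738396) * (β + 0.15 + 0.2221))
  unfold C0 at k1 k2 ⊢
  nlinarith

end Helper37.MEI.Clo
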