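import Pool.Agent.Helper37.MEI.Clo2

/-!
# Project MEI (M2): the a priori bound `S < 0.12`, final contradiction
-/

set_option autoImplicit false

namespace Helper37.MEI.Clo

open Real

/-- the final contradiction -/
theorem clo_final {b1 b2 b3 β P A1 A2 A3 Ω δ R R2 Y1 Y2 : ℝ} (h1 : b1 + b2 + b3 = 1 + β)
    (h2 : 1 / 2 * (β ^ 2 + b1 ^ 2 + b2 ^ 2 + b3 ^ 2) + β - 1 / 2 = 0.12) (h12 : b2 ≤ b1)
    (h32 : b3 ≤ b2) (p01 : b1 + β ≤ 1) (p31 : b1 - b3 ≤ 1) (p30 : -β - b3 ≤ 1)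
    (hA1 : 0 ≤ A1) (hA2 : 0 ≤ A2) (hA3 : 0 ≤ A3) (hΩ0 : 0 ≤ Ω) (hΩ : Ω ≤ A3) (hP0 : 0 ≤ P)
    (hS : P + (A1 + A2 + A3) ≤ 0.123) (hδ0 : 0 ≤ δ) (hδ : δ ≤ 1.5 * P ^ 2)
    (hE0 : 0.12 + δ ≤ 2 * b1 * P)
    (hR : (0.12 + R) ^ 2 ≤ R * (4 * (1 + 0.12) - (1 + β + b1) ^ 2))
    (hR2 : (0.12 + R2) ^ 2 ≤ R2 * (4 * (1 + 0.12) - (1 + β + b2) ^ 2))
    (hY1 : 0 ≤ Y1) (hRY1 : R ≤ 1.5 * Y1 ^ 2) (hY2 : 0 ≤ Y2) (hRY2 : R2 ≤ 1.5 * Y2 ^ 2)
    (hQ3 : 0 ≤ β → 0.12 - β - b3 ≤ 2 * b1 * Ω)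
    (J1 : 0 ≤ b2 → ∀ p, 0 ≤ p → b3 ≤ p → p ≤ b1 →
      0.12 + δ * (1 - b1 - b2 - p) + b1 * R + b2 * R2 + 2 * (b1 - p) * Ω ≤
        0.1774 * b1 + 4.5 * b1 * (A1 ^ 2 + A2 ^ 2 + A3 ^ 2) + b1 * (max (P - Y1) 0 * A1) +
          b2 * (max (P - Y2) 0 * A2))
    (J2 : P + (A1 + A2 + A3) - 1.5 * δ - 3 * (A1 ^ 2 + A2 ^ 2 + A3 ^ 2) -
      1 / 2 * (P * (A1 + A2 + A3)) ≤ 0.0887) : False := by
  set T : ℝ := A1 + A2 + A3 with hT
  have hT0 : 0 ≤ T := by positivity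
  have hsq : A1 ^ 2 + A2 ^ 2 + A3 ^ 2 ≤ T ^ 2 := by
    rw [hT]
    nlinarith [mul_nonneg hA1 hA2, mul_nonneg hA1 hA3, mul_nonneg hA2 hA3]
  have hP1 : P ≤ 0.123 := by linarith
  have hbP : 0.06 ≤ b1 * P := by linarith
  have hb1 : 0.4878 ≤ b1 := by
    by_contra hc
    push Not at hc
    rcases le_or_gt b1 0 with h | h
    · have := mul_nonneg (by linarith : 0 ≤ -b1) hP0
      linarith
    · have h3 := mul_le_mul_of_nonneg_left hP1 h.le
      linarith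
  have hβ0 : 0 ≤ β := beta_nonneg h1 h2 h12 h32 p31 (by linarith) p30
  have hb1' : b1 ≤ 1 := by linarith
  have hP6 : 0.06 ≤ P := by
    have := mul_le_mul_of_nonneg_right hb1' hP0
    linarith
  have hT2 : P - 2.25 * P ^ 2 + T - 3 * T ^ 2 - 1 / 2 * (P * T) ≤ 0.0887 := by linarith
  have hT3 := T_le1 hP6 hS hT2
  set ε : ℝ := 2 * b1 * Ω with hε
  have hε0 : 0 ≤ ε := by positivity
  have hΩT : Ω ≤ 0.0445 := by linarith
  have hε1 : ε ≤ 0.089 * b1 := by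
    have := mul_le_mul_of_nonneg_left hΩT (by linarith : 0 ≤ b1)
    rw [hε]
    linarith
  have hC := C0_ge h1 h2 h32 (hQ3 hβ0)
  have hβ := loc hβ0 hb1 p01 hε0 hε1 hC
  have hb85 : b1 ≤ 0.85 := by linarith
  have hP7 : 0.0705 ≤ P := by
    have := mul_le_mul_of_nonneg_right hb85 hP0
    linarith
  have hT4 := T_le2 hP7 hS hT2
  have hT5 := T_lin hP7 hT0 hS hT4 hT2
  have hm := mT_le hT5
  have hδ1 : δ ≤ 0.0227 := by
    have : P ^ 2 ≤ 0.123 ^ 2 := pow_le_pow_left₀ hP0 hP1 2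
    norm_num at this
    linarith
  have hTsq : 4.5 * (A1 ^ 2 + A2 ^ 2 + A3 ^ 2) ≤ 0.00536 := by
    have : T ^ 2 ≤ 0.0345 ^ 2 := pow_le_pow_left₀ hT0 hT4 2
    norm_num at this
    linarith
  have hb2 : 1 + β - b1 - b3 = b2 := by linarith
  -- mixed terms, given lower bounds of `R`, `R2`
  have mixed : 0 ≤ b2 → 0.006 ≤ R → 0.006 ≤ R2 → b1 * (max (P - Y1) 0 * A1) +
      b2 * (max (P - Y2) 0 * A2) ≤ 0.00061 * b1 := by
    intro hb20 k1 k2
    have y1 : 0.0632 ≤ Y1 := by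
      by_contra hc
      push Not at hc
      have : Y1 ^ 2 ≤ 0.0632 ^ 2 := pow_le_pow_left₀ hY1 hc.le 2
      norm_num at this
      linarith
    have y2 : 0.0632 ≤ Y2 := by
      by_contra hc
      push Not at hc
      have : Y2 ^ 2 ≤ 0.0632 ^ 2 := pow_le_pow_left₀ hY2 hc.le 2
      norm_num at this
      linarith
    have m0 : 0 ≤ max (P - 0.0632) 0 := le_max_right _ _
    have m1 : max (P - Y1) 0 ≤ max (P - 0.0632) 0 := max_le_max (by linarith) le_rfl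
    have m2 : max (P - Y2) 0 ≤ max (P - 0.0632) 0 := max_le_max (by linarith) le_rfl
    have q1 := mul_le_mul_of_nonneg_left (mul_le_mul_of_nonneg_right m1 hA1)
      (by linarith : 0 ≤ b1)
    have q2 := mul_le_mul_of_nonneg_left (mul_le_mul_of_nonneg_right m2 hA2) hb20
    have q3 := mul_le_mul_of_nonneg_right h12 (mul_nonneg m0 hA2)
    have q4 := mul_nonneg (mul_nonneg m0 hA3) (by linarith : 0 ≤ b1)
    have q5 := mul_le_mul_of_nonneg_left hm (by linarith : 0 ≤ b1)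
    have e : b1 * (max (P - 0.0632) 0 * T) = b1 * (max (P - 0.0632) 0 * A1) +
        b1 * (max (P - 0.0632) 0 * A2) + max (P - 0.0632) 0 * A3 * b1 := by rw [hT]; ring
    linarith
  have hR6 : 0.006 ≤ R := R_ge (by linarith) (by linarith) hR
  have hRt := R_tang (by linarith) (by linarith) hR
  have hquad : 4.5 * b1 * (A1 ^ 2 + A2 ^ 2 + A3 ^ 2) ≤ 0.00536 * b1 := by
    have := mul_le_mul_of_nonneg_right hTsq (by linarith : 0 ≤ b1)
    linarith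
  have hbR := mul_le_mul_of_nonneg_left hRt (by linarith : 0 ≤ b1)
  have hP12 : b2 * b3 = 2 * β + β ^ 2 - 0.12 - b1 * (1 + β) + b1 ^ 2 := by
    rw [← hb2] at h2 ⊢
    linarith
  rcases le_or_gt 0 b3 with h3 | h3
  · -- case 1
    have hb20 : 0 ≤ b2 := h3.trans h32
    have hpp : 0 ≤ 2 * β + β ^ 2 - 0.12 - b1 * (1 + β) + b1 ^ 2 := by
      rw [← hP12]; exact mul_nonneg hb20 h3
    have hβ2 : 0.2 ≤ β := by
      by_contra hc
      push Not at hc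
      have r1 := mul_nonneg (by linarith : 0 ≤ b1 - 0.4878) (by linarith : 0 ≤ 1 - β - b1)
      have r2 := mul_nonneg (by linarith : 0 ≤ 0.4878 - 2 * β) (by linarith : 0 ≤ 1 - β - b1)
      have r3 := mul_pos (by linarith : 0 < 0.2 - β) (by linarith : 0 < 0.2 + β)
      linarith
    have hb2l : β ≤ b2 := by linarith
    have hR26 : 0.006 ≤ R2 := R_ge (by linarith) (by linarith) hR2
    have hM := mixed hb20 hR6 hR26
    have hJ := J1 hb20 b3 h3 le_rfl (h32.trans h12)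
    have hF := F1_pos hb1 p01 hβ2 hpp
    have e1 : 1 - b1 - b2 - b3 = -β := by linarith
    rw [e1] at hJ
    have r1 : b2 * 0.006 ≤ b2 * R2 := mul_le_mul_of_nonneg_left hR26 hb20
    have r2 : δ * β ≤ 0.0227 * β := mul_le_mul_of_nonneg_right hδ1 hβ0
    have r3 : 0 ≤ 2 * (b1 - b3) * Ω := mul_nonneg (by linarith) hΩ0
    linarith
  · -- case 2
    have hb2l : 1 + β - b1 ≤ b2 := by linarith
    have hb20 : 0 ≤ b2 := by linarith
    have hβ2 : β ≤ 0.2221 := by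
      by_contra hc
      push Not at hc
      have r1 : b2 * b3 ≤ 0 := mul_nonpos_of_nonneg_of_nonpos hb20 h3.le
      rw [hP12] at r1
      nlinarith [sq_nonneg (b1 - (1 + β) / 2), mul_nonneg hβ0 (by linarith : 0 ≤ β - 0.2221)]
    have hR26 : 0.006 ≤ R2 := R_ge (by linarith) (by linarith) hR2
    have hM := mixed hb20 hR6 hR26
    have hJ := J1 hb20 0 le_rfl h3.le (by linarith)
    have hF := F2_pos hb1 hb85 hβ hβ2
    have hRt2 := R_tang2 (by linarith) (by linarith) hR2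
    have s1 : 0.01424375 * (0.5184 * (2 + 2 * β - b1) ^ 2 - 0.745056) ≤ R2 := by
      refine le_trans ?_ hRt2
      have : (2 + 2 * β - b1) ^ 2 ≤ (1 + β + b2) ^ 2 :=
        pow_le_pow_left₀ (by linarith) (by linarith) 2
      linarith
    have s2 : (1 + β - b1) * (0.01424375 * (0.5184 * (2 + 2 * β - b1) ^ 2 - 0.745056)) ≤
        b2 * R2 := by
      refine (mul_le_mul_of_nonneg_left s1 (by linarith)).trans ?_
      exact mul_le_mul_of_nonneg_right hb2l (by linarith)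
    -- the credit
    have hq := hQ3 hβ0
    have t1 : δ * (2 * β - 0.12 + ε) ≤ 0.0227 * (2 * β - 0.12 + ε) :=
      mul_le_mul_of_nonneg_right hδ1 (by linarith)
    have t2 : δ * (-(2 * β - 0.12 + ε)) ≤ δ * (1 - b1 - b2 - 0) := by
      apply mul_le_mul_of_nonneg_left _ hδ0
      linarith
    have t3 : ε * (0.76 + 3 * β - b1 + ε) ≤ ε * 2 :=
      mul_le_mul_of_nonneg_left (by linarith) hε0
    have t4 : 2 * (b1 - 0) * Ω = ε := by rw [hε]; ring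
    rw [t4] at hJ
    linarith

end Helper37.MEI.Clo
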