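import Mathlib

/-!
# Project MEI (M2): the a priori bound `S < 0.12`, the combination of the constraints
-/

set_option autoImplicit false

namespace Helper37.MEI.Clo

open Real

/-- one vertex `k ≥ 1` -/
theorem part_arith {P α α' γ ω ω' Y d d' M : ℝ} (hγ : 0 ≤ γ) (hω : 0 ≤ ω) (hω' : 0 ≤ ω')
    (hα : 0 ≤ α) (hα' : 0 ≤ α') (hd2 : d ≤ 1 / 2) (hd2' : d' ≤ 1 / 2)
    (hY : Y = d + d') (hM : P - Y ≤ M) :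
    -2 * (2 * (α * ω + α' * ω') - 1 / 2 * (P * (γ + ω + ω'))) +
      2 * (2 * (ω * d + ω' * d') - 1 / 2 * ((γ + ω + ω') * (d + d'))) - 2 * (ω + ω') ≤
      M * (γ + ω + ω') := by
  have k1 := mul_nonneg hγ (sub_nonneg.2 hM)
  have k2 := mul_nonneg hω (sub_nonneg.2 hM)
  have k3 := mul_nonneg hω' (sub_nonneg.2 hM)
  have k4 := mul_nonneg hω (sub_nonneg.2 hd2)
  have k5 := mul_nonneg hω' (sub_nonneg.2 hd2')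
  have k6 := mul_nonneg hα hω
  have k7 := mul_nonneg hα' hω'
  rw [hY] at k1 k2 k3
  linarith

/-- the combination of the constraints -/
theorem J1_arith {s X2 b1 b2 b3 p P α1 α2 α3 γ1 γ2 γ3 ω12 ω13 ω21 ω23 ω31 ω32 δ0 δ1 δ2 δ3
    d d' e e' R R2 x01 x02 x03 x1d x2e A1 A2 A3 : ℝ}
    (hP : P = α1 + α2 + α3) (hA1 : A1 = γ1 + ω12 + ω13) (hA2 : A2 = γ2 + ω21 + ω23)
    (hA3 : A3 = γ3 + ω31 + ω32)
    (a1 : 0 ≤ α1) (a2 : 0 ≤ α2) (a3 : 0 ≤ α3) (g1 : 0 ≤ γ1) (g2 : 0 ≤ γ2) (g3 : 0 ≤ γ3)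
    (o12 : 0 ≤ ω12) (o13 : 0 ≤ ω13) (o21 : 0 ≤ ω21) (o23 : 0 ≤ ω23) (o31 : 0 ≤ ω31)
    (o32 : 0 ≤ ω32) (hd : d ≤ 1 / 2) (hd' : d' ≤ 1 / 2) (he : e ≤ 1 / 2) (he' : e' ≤ 1 / 2)
    (hb1 : 0 ≤ b1) (hb2 : 0 ≤ b2) (h12 : b2 ≤ b1) (hp : 0 ≤ p) (h3p : b3 ≤ p) (hp1 : p ≤ b1)
    (hx01 : x01 = 2 * (α2 * ω12 + α3 * ω13) - 1 / 2 * (P * A1))
    (hx02 : x02 = 2 * (α1 * ω21 + α3 * ω23) - 1 / 2 * (P * A2))
    (hx03 : x03 = 2 * (α1 * ω31 + α2 * ω32) - 1 / 2 * (P * A3))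
    (hx1d : x1d = 2 * (ω12 * d + ω13 * d') - 1 / 2 * (A1 * (d + d')))
    (hx2e : x2e = 2 * (ω21 * e + ω23 * e') - 1 / 2 * (A2 * (e + e')))
    (h1 : δ1 ≤ 1.5 * A1 ^ 2) (h2 : δ2 ≤ 1.5 * A2 ^ 2) (h3 : δ3 ≤ 1.5 * A3 ^ 2)
    (hPA : P + 1.5 * A3 ≤ 2)
    (hB : P + (A1 + A2 + A3) ≤ X2 + 1.5 * δ0 + 2 * (δ1 + δ2 + δ3) - (x01 + x02 + x03))
    (hE0 : s + δ0 ≤ 2 * (b1 * α1 + b2 * α2 + b3 * α3))
    (hG2 : δ0 + δ2 - 2 * x02 ≤ 2 * (α2 + γ2)) (hG3 : δ0 + δ3 - 2 * x03 ≤ 2 * (α3 + γ3))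
    (hF1 : δ1 + R - 2 * x1d ≤ 2 * γ1) (hF2 : δ2 + R2 - 2 * x2e ≤ 2 * γ2) :
    s + δ0 * (1 - b1 - b2 - p) + b1 * R + b2 * R2 + 2 * (b1 - p) * (ω31 + ω32) ≤
        2 * X2 * b1 + 4.5 * b1 * (A1 ^ 2 + A2 ^ 2 + A3 ^ 2) + b1 * (max (P - (d + d')) 0 * A1) +
          b2 * (max (P - (e + e')) 0 * A2) := by
  have m1 : P - (d + d') ≤ max (P - (d + d')) 0 := le_max_left _ _
  have m2 : P - (e + e') ≤ max (P - (e + e')) 0 := le_max_left _ _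
  have q1 := part_arith (P := P) g1 o12 o13 a2 a3 hd hd' rfl m1
  have q2 := part_arith (P := P) g2 o21 o23 a1 a3 he he' rfl m2
  rw [← hA1, ← hx01, ← hx1d] at q1
  rw [← hA2, ← hx02, ← hx2e] at q2
  have r1 := mul_le_mul_of_nonneg_left q1 hb1
  have r2 := mul_le_mul_of_nonneg_left q2 hb2
  have r3 : 0 ≤ (b1 - b2) * (ω21 + ω23) := mul_nonneg (by linarith) (by linarith)
  -- vertex 3
  have hA3n : 0 ≤ A3 := by rw [hA3]; linarith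
  have q3 : -2 * x03 - 2 * γ3 - 2 * (ω31 + ω32) + δ3 ≤ 0 := by
    have k1 := mul_nonneg a1 o31
    have k2 := mul_nonneg a2 o32
    have k3 := mul_nonneg hA3n (sub_nonneg.2 hPA)
    have k4 : 2 * A3 = 2 * γ3 + 2 * (ω31 + ω32) := by rw [hA3]; ring
    rw [hx03]
    linarith
  have r4 := mul_le_mul_of_nonneg_left q3 hp
  -- the combination
  have s1 := mul_le_mul_of_nonneg_left hB (by linarith : 0 ≤ 2 * b1)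
  have s2 := mul_le_mul_of_nonneg_left hG2 (by linarith : 0 ≤ b1 - b2)
  have s3 := mul_le_mul_of_nonneg_left hG3 (by linarith : 0 ≤ b1 - p)
  have s4 := mul_le_mul_of_nonneg_left hF1 hb1
  have s5 := mul_le_mul_of_nonneg_left hF2 hb2
  have s6 : b3 * α3 ≤ p * α3 := mul_le_mul_of_nonneg_right h3p a3
  have s7 := mul_le_mul_of_nonneg_left h1 hb1
  have s8 := mul_le_mul_of_nonneg_left h2 hb1
  have s9 := mul_le_mul_of_nonneg_left h3 hb1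
  rw [hP] at s1
  have t1 : b1 * A1 = b1 * (γ1 + ω12 + ω13) := by rw [hA1]
  have t2 : b1 * A2 = b1 * (γ2 + ω21 + ω23) := by rw [hA2]
  have t3 : b1 * A3 = b1 * (γ3 + ω31 + ω32) := by rw [hA3]
  linarith

/-- the second consequence of the budget -/
theorem J2_arith {X2 P α1 α2 α3 ω12 ω13 ω21 ω23 ω31 ω32 δ0 δ1 δ2 δ3 x01 x02 x03 A1 A2 A3 : ℝ}
    (a1 : 0 ≤ α1) (a2 : 0 ≤ α2) (a3 : 0 ≤ α3)
    (o12 : 0 ≤ ω12) (o13 : 0 ≤ ω13) (o21 : 0 ≤ ω21) (o23 : 0 ≤ ω23) (o31 : 0 ≤ ω31)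
    (o32 : 0 ≤ ω32)
    (hx01 : x01 = 2 * (α2 * ω12 + α3 * ω13) - 1 / 2 * (P * A1))
    (hx02 : x02 = 2 * (α1 * ω21 + α3 * ω23) - 1 / 2 * (P * A2))
    (hx03 : x03 = 2 * (α1 * ω31 + α2 * ω32) - 1 / 2 * (P * A3))
    (h1 : δ1 ≤ 1.5 * A1 ^ 2) (h2 : δ2 ≤ 1.5 * A2 ^ 2) (h3 : δ3 ≤ 1.5 * A3 ^ 2)
    (hB : P + (A1 + A2 + A3) ≤ X2 + 1.5 * δ0 + 2 * (δ1 + δ2 + δ3) - (x01 + x02 + x03)) :
    P + (A1 + A2 + A3) - 1.5 * δ0 - 3 * (A1 ^ 2 + A2 ^ 2 + A3 ^ 2) -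
      1 / 2 * (P * (A1 + A2 + A3)) ≤ X2 := by
  have k1 := mul_nonneg a2 o12
  have k2 := mul_nonneg a3 o13
  have k3 := mul_nonneg a1 o21
  have k4 := mul_nonneg a3 o23
  have k5 := mul_nonneg a1 o31
  have k6 := mul_nonneg a2 o32
  rw [hx01, hx02, hx03] at hB
  linarith

end Helper37.MEI.Clo
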