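import Pool.Agent.Helper13.PLM.Ap3
import Pool.Agent.Helper52.MEI.Contact
import Pool.Agent.Helper37.MEI.Clo3
import Pool.Agent.Helper37.MEI.Clo4

/-!
# Project MEI (M2): the a priori bound `S < 0.12`

`Near.lt12`: if the sum of the six edge defects is at most `0.1774`, then `Q_i < 0.12` on `K`.
-/

set_option autoImplicit false

namespace Helper37.MEI.Clo

open Set Metric Finset MeasureTheory Helper80.CW Helper82.CW Helper14.CW Helper93.MEI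
open Helper66.MEI Helper13.PLM Pool.Agent.Helper52.MEI
open scoped RealInnerProductSpace

/-- the length of the contact vector and a point of the body -/
theorem ct_R {K : Set E3} {a : Fin 4 → E3} (hG : Gram4 (al a)) {i j : Fin 4} (hij : i ≠ j)
    {d : E3} (hd : Ct a K i j d) (hn : dist (a i) (a j) = 1)
    (hdi : ∀ x ∈ K, ∀ y ∈ K, ‖x - y‖ ≤ 1) {q : E3} (hq : q ∈ K) (hs : 0 ≤ Qv a i q) :
    (Qv a i q + ‖d‖ ^ 2) ^ 2 ≤
      ‖d‖ ^ 2 * (4 * (1 + Qv a i q) - (1 - bar a i q + bar a j q) ^ 2) := by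
  have hn1 : ‖a i - a j‖ = 1 := by rw [← dist_eq_norm]; exact hn
  have hy := depth_bar hG hij q
  have hQ : ‖a i - q‖ ^ 2 = 1 + Qv a i q := by
    unfold Qv
    rw [norm_sub_rev]
    ring
  have h1 := hdi _ hd.mem1 _ hq
  have h2 : ‖a i - d - q‖ ^ 2 ≤ 1 := by
    have := norm_nonneg (a i - d - q)
    nlinarith
  have e1 : a i - d - q = (a i - q) - d := by abel
  rw [e1, norm_sub_sq_real, hQ] at h2
  -- the inner product
  set w : E3 := (a i - q) - ⟪a i - q, a i - a j⟫ • (a i - a j) with hw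
  have e2 : ⟪a i - q, d⟫ = ⟪w, d⟫ := by
    rw [hw, inner_sub_left (a i - q) (⟪a i - q, a i - a j⟫ • (a i - a j)), real_inner_smul_left,
      real_inner_comm d (a i - a j), hd.perp]
    ring
  have e3 : ‖w‖ ^ 2 = 1 + Qv a i q - ⟪a i - q, a i - a j⟫ ^ 2 := by
    rw [hw, norm_sub_sq_real, real_inner_smul_right, norm_smul, hn1, hQ, mul_one, Real.norm_eq_abs,
      sq_abs]
    ring
  have h3 : ⟪w, d⟫ ^ 2 ≤ ‖w‖ ^ 2 * ‖d‖ ^ 2 := by
    have h4 := abs_real_inner_le_norm w d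
    have h5 : |⟪w, d⟫| ^ 2 ≤ (‖w‖ * ‖d‖) ^ 2 := pow_le_pow_left₀ (abs_nonneg _) h4 2
    rw [sq_abs, mul_pow] at h5
    exact h5
  rw [e3, ← e2, hy] at h3
  have h6 : Qv a i q + ‖d‖ ^ 2 ≤ 2 * ⟪a i - q, d⟫ := by linarith
  have h7 : 0 ≤ Qv a i q + ‖d‖ ^ 2 := by positivity
  have h8 : (Qv a i q + ‖d‖ ^ 2) ^ 2 ≤ (2 * ⟪a i - q, d⟫) ^ 2 := pow_le_pow_left₀ h7 h6 2
  have e4 : (2 * ⟪a i - q, d⟫) ^ 2 = 4 * ⟪a i - q, d⟫ ^ 2 := by ring
  rw [e4] at h8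
  have e5 : 4 * ((1 + Qv a i q - ((1 - bar a i q + bar a j q) / 2) ^ 2) * ‖d‖ ^ 2) =
    ‖d‖ ^ 2 * (4 * (1 + Qv a i q) - (1 - bar a i q + bar a j q) ^ 2) := by ring
  linarith

/-- the depths of a contact vector are at most `1/2` -/
theorem dep_le {x y r : ℝ} (h : r = 3 / 2 * (x ^ 2 + y ^ 2) - x * y) (hr : r ≤ 3 / 16) :
    x ≤ 1 / 2 := by
  by_contra hc
  push Not at hc
  nlinarith [sq_nonneg (3 * y - x)]

/-- the length in terms of the sum of the depths -/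
theorem len_le {x y r : ℝ} (h : r = 3 / 2 * (x ^ 2 + y ^ 2) - x * y) (hx : 0 ≤ x) (hy : 0 ≤ y) :
    r ≤ 1.5 * (x + y) ^ 2 := by
  nlinarith [mul_nonneg hx hy]

section near
variable {K : Set E3} {a c : Fin 4 → E3} (N : Near K a c)
include N

/-- inner products of two displacements -/
theorem x0k (k : Fin 4) : ⟪a 0 - c 0, a k - c k⟫ =
    2 * (⟪a 0 - c 0, a 0 - a 1⟫ * ⟪a k - c k, a k - a 1⟫ +
      ⟪a 0 - c 0, a 0 - a 2⟫ * ⟪a k - c k, a k - a 2⟫ +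
      ⟪a 0 - c 0, a 0 - a 3⟫ * ⟪a k - c k, a k - a 3⟫) -
      1 / 2 * ((⟪a 0 - c 0, a 0 - a 1⟫ + ⟪a 0 - c 0, a 0 - a 2⟫ + ⟪a 0 - c 0, a 0 - a 3⟫) *
        (∑ j, ⟪a k - c k, a k - a j⟫)) := by
  rw [inner_disp N.placed.gram]
  simp only [Fin.sum_univ_four, sub_self, inner_zero_right]
  ring

/-- inner product of a displacement and a contact vector -/
theorem xkd (k : Fin 4) (d : E3) : ⟪a k - c k, d⟫ =
    2 * ∑ j, ⟪a k - c k, a k - a j⟫ * ⟪d, a k - a j⟫ -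
      (∑ j, ⟪a k - c k, a k - a j⟫) * (∑ j, ⟪d, a k - a j⟫) / 2 := by
  have h := inner_disp N.placed.gram k k (c k) (a k - d)
  have e : a k - (a k - d) = d := by abel
  rw [e] at h
  exact h

/-- the budget, combined -/
theorem hB (hE : Eps c ≤ 0.1774) : ∑ i, Adep a c i ≤ 0.0887 + 1.5 * ‖a 0 - c 0‖ ^ 2 +
    2 * (‖a 1 - c 1‖ ^ 2 + ‖a 2 - c 2‖ ^ 2 + ‖a 3 - c 3‖ ^ 2) -
    (⟪a 0 - c 0, a 1 - c 1⟫ + ⟪a 0 - c 0, a 2 - c 2⟫ + ⟪a 0 - c 0, a 3 - c 3⟫) := by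
  have h := N.budget_eq
  rw [norm_sub_sq_real (a 0 - c 0) (a 1 - c 1), norm_sub_sq_real (a 0 - c 0) (a 2 - c 2),
    norm_sub_sq_real (a 0 - c 0) (a 3 - c 3), norm_sub_sq_real (a 1 - c 1) (a 2 - c 2),
    norm_sub_sq_real (a 1 - c 1) (a 3 - c 3), norm_sub_sq_real (a 2 - c 2) (a 3 - c 3)] at h
  have h2 : 0 ≤ ‖(a 1 - c 1) + (a 2 - c 2) + (a 3 - c 3)‖ ^ 2 := sq_nonneg _
  rw [norm_add_sq_real, norm_add_sq_real, inner_add_left] at h2
  linarith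

variable (hK : IsCompact K) (hw : Width1 K)
include hK hw

/-- vertex `0`, coordinates in decreasing order -/
theorem sorted (hE : Eps c ≤ 0.1774) {z : E3} (hz : z ∈ K) (hQ : Qv a 0 z = 0.12)
    (h12 : bar a 2 z ≤ bar a 1 z) (h23 : bar a 3 z ≤ bar a 2 z) : False := by
  have P := N.placed
  have hG := P.gram
  have hs := bar_sum hG z
  have hp := (pl_iff hG).1 (N.pl z hz)
  have hdi : ∀ x ∈ K, ∀ y ∈ K, ‖x - y‖ ≤ 1 := by
    intro x hx y hy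
    rw [← dist_eq_norm]
    exact diam_le hK hw x hx y hy
  obtain ⟨d, hd⟩ := contact_exists hK hw N.reg N.sup (i := 0) (j := 1) (by decide)
  obtain ⟨e, he⟩ := contact_exists hK hw N.reg N.sup (i := 0) (j := 2) (by decide)
  have hnd := hd.norm_sq hG (i := 0) (j := 1) (k := 2) (l := 3) (by decide) (by decide)
    (by decide) (by decide) (by decide) (by decide)
  have hne := he.norm_sq hG (i := 0) (j := 2) (k := 1) (l := 3) (by decide) (by decide)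
    (by decide) (by decide) (by decide) (by decide)
  have hd16 : ‖d‖ ^ 2 ≤ 3 / 16 := by
    rw [← hd.Qv_eq (N.reg 0 1 (by decide))]
    exact (N.ap hK hw hd.mem2 0).le
  have he16 : ‖e‖ ^ 2 ≤ 3 / 16 := by
    rw [← he.Qv_eq (N.reg 0 2 (by decide))]
    exact (N.ap hK hw he.mem2 0).le
  have hd2 := hd.y_nonneg N.pl (k := 2) (by decide)
  have hd3 := hd.y_nonneg N.pl (k := 3) (by decide)
  have he1 := he.y_nonneg N.pl (k := 1) (by decide)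
  have he3 := he.y_nonneg N.pl (k := 3) (by decide)
  have hR := ct_R hG (by decide) hd (N.reg 0 1 (by decide)) hdi hz (by rw [hQ]; norm_num)
  have hR2 := ct_R hG (by decide) he (N.reg 0 2 (by decide)) hdi hz (by rw [hQ]; norm_num)
  have hc1 := hd.symm.coupling (N.reg 1 0 (by decide)) hdi (N.mem 1)
  have hc2 := he.symm.coupling (N.reg 2 0 (by decide)) hdi (N.mem 2)
  rw [norm_sub_sq_real] at hc1 hc2
  unfold yv at hc1 hc2
  have hx1 := x0k N 1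
  have hx2 := x0k N 2
  have hx3 := x0k N 3
  have hxd := xkd N 1 d
  have hxe := xkd N 2 e
  have hBB := hB N hE
  have hg2 := N.eps_nonneg hK hw (i := 0) (j := 2) (by decide)
  have hg3 := N.eps_nonneg hK hw (i := 0) (j := 3) (by decide)
  rw [norm_sub_sq_real] at hg2 hg3
  have q0 := P.Qv_le hK hw hz 0
  have q3 := P.Qv_le hK hw hz 3
  have hQ3 : Qv a 3 z = Qv a 0 z + bar a 0 z - bar a 3 z := by
    rw [Qv_eq hG, Qv_eq hG]; ring
  have hQe := Qv_eq hG 0 z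
  rw [hQ] at hR hR2 q0 hQ3 hQe
  have hdl := N.delta_le
  have hsum := N.A_sum_1774 hE
  have n0 := hdl 0
  have n1 := hdl 1
  have n2 := hdl 2
  have n3 := hdl 3
  have dp : ⟪d, a 1 - a 0⟫ = (0 : ℝ) := hd.symm.perp
  have ep : ⟪e, a 2 - a 0⟫ = (0 : ℝ) := he.symm.perp
  have dp2 : ⟪d, a 1 - a 2⟫ = (⟪d, a 0 - a 2⟫ : ℝ) := by
    have e1 : a 1 - a 2 = (a 0 - a 2) + (a 1 - a 0) := by abel
    rw [e1, inner_add_right, dp, add_zero]
  have dp3 : ⟪d, a 1 - a 3⟫ = (⟪d, a 0 - a 3⟫ : ℝ) := by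
    have e1 : a 1 - a 3 = (a 0 - a 3) + (a 1 - a 0) := by abel
    rw [e1, inner_add_right, dp, add_zero]
  have ep1 : ⟪e, a 2 - a 1⟫ = (⟪e, a 0 - a 1⟫ : ℝ) := by
    have e1 : a 2 - a 1 = (a 0 - a 1) + (a 2 - a 0) := by abel
    rw [e1, inner_add_right, ep, add_zero]
  have ep3 : ⟪e, a 2 - a 3⟫ = (⟪e, a 0 - a 3⟫ : ℝ) := by
    have e1 : a 2 - a 3 = (a 0 - a 3) + (a 2 - a 0) := by abel
    rw [e1, inner_add_right, ep, add_zero]
  unfold Adep at hBB hsum n0 n1 n2 n3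
  simp only [Fin.sum_univ_four, sub_self, inner_zero_right] at q0 q3 hBB hsum n0 n1 n2 n3
  simp only [Fin.sum_univ_four, sub_self, inner_zero_right] at hx1 hx2 hx3
  simp only [Fin.sum_univ_four, sub_self, inner_zero_right, dp, ep, dp2, dp3, ep1, ep3] at hxd hxe
  have m01 := N.nonneg 0 1
  have m02 := N.nonneg 0 2
  have m03 := N.nonneg 0 3
  have m10 := N.nonneg 1 0
  have m12 := N.nonneg 1 2
  have m13 := N.nonneg 1 3
  have m20 := N.nonneg 2 0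
  have m21 := N.nonneg 2 1
  have m23 := N.nonneg 2 3
  have m30 := N.nonneg 3 0
  have m31 := N.nonneg 3 1
  have m32 := N.nonneg 3 2
  have δ0n := sq_nonneg ‖a 0 - c 0‖
  have δ3n := sq_nonneg ‖a 3 - c 3‖
  generalize ⟪a 0 - c 0, a 0 - a 1⟫ = α1 at *
  generalize ⟪a 0 - c 0, a 0 - a 2⟫ = α2 at *
  generalize ⟪a 0 - c 0, a 0 - a 3⟫ = α3 at *
  generalize ⟪a 1 - c 1, a 1 - a 0⟫ = γ1 at *
  generalize ⟪a 1 - c 1, a 1 - a 2⟫ = ω12 at *
  generalize ⟪a 1 - c 1, a 1 - a 3⟫ = ω13 at *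
  generalize ⟪a 2 - c 2, a 2 - a 0⟫ = γ2 at *
  generalize ⟪a 2 - c 2, a 2 - a 1⟫ = ω21 at *
  generalize ⟪a 2 - c 2, a 2 - a 3⟫ = ω23 at *
  generalize ⟪a 3 - c 3, a 3 - a 0⟫ = γ3 at *
  generalize ⟪a 3 - c 3, a 3 - a 1⟫ = ω31 at *
  generalize ⟪a 3 - c 3, a 3 - a 2⟫ = ω32 at *
  generalize ‖a 0 - c 0‖ ^ 2 = δ0 at *
  generalize ‖a 1 - c 1‖ ^ 2 = δ1 at *
  generalize ‖a 2 - c 2‖ ^ 2 = δ2 at *
  generalize ‖a 3 - c 3‖ ^ 2 = δ3 at *
  generalize ⟪a 0 - c 0, a 1 - c 1⟫ = x01 at *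
  generalize ⟪a 0 - c 0, a 2 - c 2⟫ = x02 at *
  generalize ⟪a 0 - c 0, a 3 - c 3⟫ = x03 at *
  generalize ⟪a 1 - c 1, d⟫ = x1d at *
  generalize ⟪a 2 - c 2, e⟫ = x2e at *
  generalize ⟪d, a 0 - a 2⟫ = y2 at *
  generalize ⟪d, a 0 - a 3⟫ = y3 at *
  generalize ⟪e, a 0 - a 1⟫ = w1 at *
  generalize ⟪e, a 0 - a 3⟫ = w3 at *
  generalize ‖d‖ ^ 2 = R at *
  generalize ‖e‖ ^ 2 = R2 at *
  have hy2 := dep_le hnd hd16
  have hy3 : y3 ≤ 1 / 2 := dep_le (x := y3) (y := y2) (r := R) (by rw [hnd]; ring) hd16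
  have hw1 := dep_le hne he16
  have hw3 : w3 ≤ 1 / 2 := dep_le (x := w3) (y := w1) (r := R2) (by rw [hne]; ring) he16
  have c01 := hp 1 0 (by decide)
  have c13 := hp 1 3 (by decide)
  have c03 := hp 0 3 (by decide)
  have hAA : 0.123 ≥ α1 + α2 + α3 + (γ1 + ω12 + ω13 + (γ2 + ω21 + ω23) + (γ3 + ω31 + ω32)) := by
    linarith
  have hBB' : α1 + α2 + α3 + (γ1 + ω12 + ω13 + (γ2 + ω21 + ω23) + (γ3 + ω31 + ω32)) ≤
      0.0887 + 1.5 * δ0 + 2 * (δ1 + δ2 + δ3) - (x01 + x02 + x03) := by linarith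
  have n0' : δ0 ≤ 1.5 * (α1 + α2 + α3) ^ 2 := by
    have e : (0 + α1 + α2 + α3) = (α1 + α2 + α3) := by ring
    rwa [e] at n0
  have n1' : δ1 ≤ 1.5 * (γ1 + ω12 + ω13) ^ 2 := by
    have e : (γ1 + 0 + ω12 + ω13) = (γ1 + ω12 + ω13) := by ring
    rwa [e] at n1
  have n2' : δ2 ≤ 1.5 * (γ2 + ω21 + ω23) ^ 2 := by
    have e : (γ2 + ω21 + 0 + ω23) = (γ2 + ω21 + ω23) := by ring
    rwa [e] at n2
  have n3' : δ3 ≤ 1.5 * (γ3 + ω31 + ω32) ^ 2 := by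
    have e : (γ3 + ω31 + ω32 + 0) = (γ3 + ω31 + ω32) := by ring
    rwa [e] at n3
  have hx01 : x01 = 2 * (α2 * ω12 + α3 * ω13) - 1 / 2 * ((α1 + α2 + α3) * (γ1 + ω12 + ω13)) := by
    rw [hx1]; ring
  have hx02 : x02 = 2 * (α1 * ω21 + α3 * ω23) - 1 / 2 * ((α1 + α2 + α3) * (γ2 + ω21 + ω23)) := by
    rw [hx2]; ring
  have hx03 : x03 = 2 * (α1 * ω31 + α2 * ω32) - 1 / 2 * ((α1 + α2 + α3) * (γ3 + ω31 + ω32)) := by
    rw [hx3]; ring
  have hxd' : x1d = 2 * (ω12 * y2 + ω13 * y3) - 1 / 2 * ((γ1 + ω12 + ω13) * (y2 + y3)) := by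
    rw [hxd]; ring
  have hxe' : x2e = 2 * (ω21 * w1 + ω23 * w3) - 1 / 2 * ((γ2 + ω21 + ω23) * (w1 + w3)) := by
    rw [hxe]; ring
  generalize bar a 0 z = b0 at *
  generalize bar a 1 z = b1 at *
  generalize bar a 2 z = b2 at *
  generalize bar a 3 z = b3 at *
  refine clo_final (b1 := b1) (b2 := b2) (b3 := b3) (β := -b0) (P := α1 + α2 + α3)
    (A1 := γ1 + ω12 + ω13) (A2 := γ2 + ω21 + ω23) (A3 := γ3 + ω31 + ω32) (Ω := ω31 + ω32)
    (δ := δ0) (R := R) (R2 := R2) (Y1 := y2 + y3) (Y2 := w1 + w3) (by linarith) (by linarith)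
    h12 h23 (by linarith) (by linarith) (by linarith) (by linarith) (by linarith) (by linarith)
    (by linarith) (by linarith) (by linarith) (by linarith) δ0n n0' ?_ ?_ ?_ (by linarith)
    (len_le hnd hd2 hd3) (by linarith) (len_le hne he1 he3) ?_ ?_ ?_
  · -- E0
    have k1 := mul_nonneg (sub_nonneg.2 h12) m02
    have k2 := mul_nonneg (sub_nonneg.2 (h23.trans h12)) m03
    linarith
  · have e1 : (1 + -b0 + b1) = (1 - b0 + b1) := by ring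
    rw [e1]; exact hR
  · have e1 : (1 + -b0 + b2) = (1 - b0 + b2) := by ring
    rw [e1]; exact hR2
  · intro hβ
    have k1 := mul_nonneg hβ m30
    have k2 := mul_nonneg (sub_nonneg.2 h12) m32
    linarith
  · intro hb2 p hp0 hp3 hp1
    have h := J1_arith (s := 0.12) (X2 := 0.0887) (b1 := b1) (b2 := b2) (b3 := b3) (p := p)
      (P := α1 + α2 + α3) (A1 := γ1 + ω12 + ω13) (A2 := γ2 + ω21 + ω23) (A3 := γ3 + ω31 + ω32)
      rfl rfl rfl rfl m01 m02 m03 m10 m20 m30 m12 m13 m21 m23 m31 m32 hy2 hy3 hw1 hw3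
      (hb2.trans h12) hb2 h12 hp0 hp3 hp1 hx01 hx02 hx03 hxd' hxe' n1' n2' n3' (by linarith)
      hBB' (R := R) (R2 := R2) (by linarith) (by linarith) (by linarith) (by linarith)
      (by linarith)
    linarith
  · have h := J2_arith (X2 := 0.0887) (P := α1 + α2 + α3) m01 m02 m03 m12 m13 m21 m23 m31 m32
      hx01 hx02 hx03 n1' n2' n3' hBB'
    linarith

end near

end Helper37.MEI.Clo
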