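import Pool.Agent.Helper37.MEI.Clo1

/-!
# Project MEI (M2): the a priori bound `S < 0.115`, arithmetic part
-/

set_option autoImplicit false

namespace Helper37.MEI.Clq

open Real

/-- the first bound of `R`, parameter `k` -/
theorem R_tang {R u : ℝ} (k : ℝ) (hu0 : 0 ≤ u) (hu : u ≤ 2)
    (h : (0.115 + R) ^ 2 ≤ R * (4 * (1 + 0.115) - u ^ 2)) :
    0.01210275 * (2 * k - k ^ 2 * (4.163 - u ^ 2)) ≤ R := by
  have h1 : (0.01210275 : ℝ) ≤ R * (4.163 - u ^ 2) := by nlinarith [sq_nonneg (R - 0.0335)]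
  have h2 : 0 < 4.163 - u ^ 2 := by nlinarith
  have h3 : (0.01210275 : ℝ) * (2 * k - k ^ 2 * (4.163 - u ^ 2)) * (4.163 - u ^ 2) ≤
      R * (4.163 - u ^ 2) := by
    nlinarith [sq_nonneg (k * (4.163 - u ^ 2) - 1)]
  exact le_of_mul_le_mul_right h3 h2

/-- the second bound of `R`, parameter `k` -/
theorem R_tang2 {R u : ℝ} (k : ℝ) (hu0 : 0 ≤ u) (hu : u ≤ 2)
    (h : (0.115 + R) ^ 2 ≤ R * (4 * (1 + 0.115) - u ^ 2)) :
    0.013081 * (2 * k - k ^ 2 * (4.206 - u ^ 2)) ≤ R := by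
  have h1 : (0.013081 : ℝ) ≤ R * (4.206 - u ^ 2) := by nlinarith [sq_nonneg (R - 0.012)]
  have h2 : 0 < 4.206 - u ^ 2 := by nlinarith
  have h3 : (0.013081 : ℝ) * (2 * k - k ^ 2 * (4.206 - u ^ 2)) * (4.206 - u ^ 2) ≤
      R * (4.206 - u ^ 2) := by
    nlinarith [sq_nonneg (k * (4.206 - u ^ 2) - 1)]
  exact le_of_mul_le_mul_right h3 h2

/-- `R ≥ 0.0057` for `u ≥ 1.391` -/
theorem R_ge {R u : ℝ} (hu0 : 1.391 ≤ u) (hu : u ≤ 2)
    (h : (0.115 + R) ^ 2 ≤ R * (4 * (1 + 0.115) - u ^ 2)) : 0.0057 ≤ R := by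
  have h1 : (0.013081 : ℝ) ≤ R * (4.206 - u ^ 2) := by nlinarith [sq_nonneg (R - 0.012)]
  have h2 : 0 < 4.206 - u ^ 2 := by nlinarith
  by_contra hc
  push Not at hc
  have h3 : R * (4.206 - u ^ 2) < 0.0057 * (4.206 - u ^ 2) := mul_lt_mul_of_pos_right hc h2
  nlinarith

/-- `C0` -/
def C0 (b β : ℝ) : ℝ := 3 * β ^ 2 + 2.655 * β - 0.216775 - b * (0.885 + 2 * β - b)

/-- lower bound of the smallest coordinate -/
theorem C0_ge {b1 b2 b3 β ε : ℝ} (h1 : b1 + b2 + b3 = 1 + β)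
    (h2 : 1 / 2 * (β ^ 2 + b1 ^ 2 + b2 ^ 2 + b3 ^ 2) + β - 1 / 2 = 0.115) (h32 : b3 ≤ b2)
    (h4 : 0.115 - β - b3 ≤ ε) :
    -(ε * (0.77 + 3 * β - b1 + ε)) ≤ C0 b1 β := by
  unfold C0
  have h3 : 0 ≤ (b3 - (0.115 - β - ε)) * (b2 - (0.115 - β - ε)) :=
    mul_nonneg (by linarith) (by linarith)
  have e2 : b2 = 1 + β - b1 - b3 := by linarith
  subst e2
  nlinarith

/-- `β` is nonnegative -/
theorem beta_nonneg {b1 b2 b3 β : ℝ} (h1 : b1 + b2 + b3 = 1 + β)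
    (h2 : 1 / 2 * (β ^ 2 + b1 ^ 2 + b2 ^ 2 + b3 ^ 2) + β - 1 / 2 = 0.115) (h12 : b2 ≤ b1)
    (h32 : b3 ≤ b2) (hp13 : b1 - b3 ≤ 1) (hb1 : 0.4 ≤ b1) (hp03 : -β - b3 ≤ 1) : 0 ≤ β := by
  by_contra hβ
  push Not at hβ
  have key : b1 ^ 2 + b2 ^ 2 + b3 ^ 2 ≤ 1 := by
    rcases le_or_gt 0 b3 with h3 | h3
    · have hb2 : 0 ≤ b2 := h3.trans h32
      have hS : (b1 + b2 + b3) ^ 2 ≤ 1 := by
        have : 0 ≤ b1 + b2 + b3 := by linarith
        nlinarith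
      have q1 := mul_nonneg h3 hb2
      have q2 := mul_nonneg h3 (by linarith : 0 ≤ b1)
      have q3 := mul_nonneg hb2 (by linarith : 0 ≤ b1)
      linarith
    · rcases le_or_gt 0 b2 with h4 | h4
      · rcases le_or_gt b3 (-1 / 3) with h5 | h5
        · have q1 : b1 ^ 2 ≤ (1 + b3) ^ 2 := pow_le_pow_left₀ (by linarith) (by linarith) 2
          have q2 : b2 ^ 2 ≤ (1 + b3) ^ 2 := pow_le_pow_left₀ h4 (by linarith) 2
          have q3 := mul_nonneg (by linarith : 0 ≤ -(3 * b3 + 1)) (by linarith : 0 ≤ b3 + 1)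
          linarith
        · have q1 := mul_nonneg (by linarith : 0 ≤ 1 + b3 - b1) (by linarith : 0 ≤ b1 - b2)
          have q2 := mul_nonneg (by linarith : 0 ≤ 1 - b3 - b1 - b2) h4
          have q3 := mul_nonneg (by linarith : 0 ≤ -b3) (by linarith : 0 ≤ 1 - b3 - b1 - b2)
          have q4 := mul_nonneg (by linarith : 0 ≤ 1 + b3 - b1) (by linarith : 0 ≤ 1 + 3 * b3)
          have q5 := mul_nonneg (by linarith : 0 ≤ -b3) (by linarith : 0 ≤ 1 + 3 * b3)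
          linarith
      · have q1 : b1 ^ 2 ≤ (1 + b3) ^ 2 := pow_le_pow_left₀ (by linarith) (by linarith) 2
        have q2 : (-b2) ^ 2 ≤ (-b3) ^ 2 := pow_le_pow_left₀ (by linarith) (by linarith) 2
        have q3 := mul_nonneg (by linarith : 0 ≤ -b3) (by linarith : 0 ≤ 2 + 3 * b3)
        linarith
  have q := mul_pos (by linarith : 0 < -β) (by linarith : 0 < β + 2)
  linarith

/-- bound of `T`, general form -/
theorem T_le {P T p0 t0 : ℝ} (hp0 : 0.05 ≤ p0) (ht0 : 0 ≤ t0)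
    (hval : 0.0887 < p0 - 2.25 * p0 ^ 2 + t0 - 3 * t0 ^ 2 - 1 / 2 * (p0 * t0))
    (hP : p0 ≤ P) (hPT : P + T ≤ 0.1115)
    (h : P - 2.25 * P ^ 2 + T - 3 * T ^ 2 - 1 / 2 * (P * T) ≤ 0.0887) : T ≤ t0 := by
  by_contra hT
  push Not at hT
  have e : P - 2.25 * P ^ 2 + T - 3 * T ^ 2 - 1 / 2 * (P * T) -
      (p0 - 2.25 * p0 ^ 2 + t0 - 3 * t0 ^ 2 - 1 / 2 * (p0 * t0)) =
      (P - p0) * (1 - 2.25 * (P + p0) - 1 / 2 * T) + (T - t0) * (1 - 3 * (T + t0) - 1 / 2 * p0) := by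
    ring
  have k1 : 0 ≤ (P - p0) * (1 - 2.25 * (P + p0) - 1 / 2 * T) :=
    mul_nonneg (by linarith) (by linarith)
  have k2 : 0 ≤ (T - t0) * (1 - 3 * (T + t0) - 1 / 2 * p0) :=
    mul_nonneg (by linarith) (by linarith)
  linarith

/-- `T ^ 2` below a line, second range of `P` -/
theorem Tsq_B {P T : ℝ} (hP : 0.0727 ≤ P) (hT0 : 0 ≤ T) (hPT : P + T ≤ 0.1115)
    (hT : T ≤ 0.0323)
    (h : P - 2.25 * P ^ 2 + T - 3 * T ^ 2 - 1 / 2 * (P * T) ≤ 0.0887) :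
    T ^ 2 ≤ 0.0281 * (0.1115 - P) := by
  rcases le_or_gt P 0.09 with h9 | h9
  · have h1 : 0.84735 * T ≤ T - 3 * T ^ 2 - 1 / 2 * (P * T) := by
      nlinarith [mul_nonneg hT0 (by linarith : 0 ≤ 0.0323 - T),
        mul_nonneg hT0 (by linarith : 0 ≤ 0.1115 - P)]
    have h2 : 2.25 * P ^ 2 ≤ 0.366075 * P - 0.01472175 := by
      nlinarith [mul_nonneg (by linarith : 0 ≤ P - 0.0727) (by linarith : 0 ≤ 0.09 - P)]
    have h3 : T ≤ 0.087306 - 0.748126 * P := by linarith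
    have h4 : T ^ 2 ≤ (0.087306 - 0.748126 * P) ^ 2 := pow_le_pow_left₀ hT0 h3 2
    nlinarith [mul_nonneg (by linarith : 0 ≤ P - 0.0727) (by linarith : 0 ≤ 0.09 - P)]
  · nlinarith [mul_nonneg hT0 (by linarith : 0 ≤ 0.1115 - P - T),
      mul_nonneg (by linarith : 0 ≤ 0.1115 - P) (by linarith : 0 ≤ 0.0215 - T)]

/-- `T ^ 2` below a line, first range of `P` -/
theorem Tsq_A {P T : ℝ} (hP : 0.0675 ≤ P) (hT0 : 0 ≤ T) (hPT : P + T ≤ 0.1115)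
    (hT : T ≤ 0.0369)
    (h : P - 2.25 * P ^ 2 + T - 3 * T ^ 2 - 1 / 2 * (P * T) ≤ 0.0887) :
    T ^ 2 ≤ 0.0324 * (0.1115 - P) := by
  rcases le_or_gt P 0.09 with h9 | h9
  · have h1 : 0.83355 * T ≤ T - 3 * T ^ 2 - 1 / 2 * (P * T) := by
      nlinarith [mul_nonneg hT0 (by linarith : 0 ≤ 0.0369 - T),
        mul_nonneg hT0 (by linarith : 0 ≤ 0.1115 - P)]
    have h2 : 2.25 * P ^ 2 ≤ 0.354375 * P - 0.01366875 := by
      nlinarith [mul_nonneg (by linarith : 0 ≤ P - 0.0675) (by linarith : 0 ≤ 0.09 - P)]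
    have h3 : T ≤ 0.090015 - 0.774549 * P := by linarith
    have h4 : T ^ 2 ≤ (0.090015 - 0.774549 * P) ^ 2 := pow_le_pow_left₀ hT0 h3 2
    nlinarith [mul_nonneg (by linarith : 0 ≤ P - 0.0675) (by linarith : 0 ≤ 0.09 - P)]
  · nlinarith [mul_nonneg hT0 (by linarith : 0 ≤ 0.1115 - P - T),
      mul_nonneg (by linarith : 0 ≤ 0.1115 - P) (by linarith : 0 ≤ 0.0215 - T)]

/-- the mixed terms -/
theorem mT_le {P T : ℝ} (hP : 0.0675 ≤ P) (hT0 : 0 ≤ T) (hPT : P + T ≤ 0.1115)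
    (hT : T ≤ 0.0369)
    (h : P - 2.25 * P ^ 2 + T - 3 * T ^ 2 - 1 / 2 * (P * T) ≤ 0.0887) :
    max (P - 0.0616) 0 * T ≤ 0.00063 := by
  rcases le_total (P - 0.0616) 0 with h0 | h0
  · rw [max_eq_right h0]; linarith
  · rw [max_eq_left h0]
    rcases le_or_gt P 0.09 with h9 | h9
    · have h1 : 0.83355 * T ≤ T - 3 * T ^ 2 - 1 / 2 * (P * T) := by
        nlinarith [mul_nonneg hT0 (by linarith : 0 ≤ 0.0369 - T),
          mul_nonneg hT0 (by linarith : 0 ≤ 0.1115 - P)]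
      have h2 : 2.25 * P ^ 2 ≤ 0.354375 * P - 0.01366875 := by
        nlinarith [mul_nonneg (by linarith : 0 ≤ P - 0.0675) (by linarith : 0 ≤ 0.09 - P)]
      have h3 : T ≤ 0.090015 - 0.774549 * P := by linarith
      nlinarith [mul_le_mul_of_nonneg_left h3 h0, sq_nonneg (P - 0.089)]
    · nlinarith [mul_le_mul_of_nonneg_left (by linarith : T ≤ 0.1115 - P) h0,
        mul_nonneg (by linarith : 0 ≤ P - 0.09) (by linarith : 0 ≤ 0.1115 - P)]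

/-- the location of `z`: `0.149 ≤ β` -/
theorem loc {b1 β ε : ℝ} (hβ : 0 ≤ β) (hb : 0.5156 ≤ b1) (hb1 : b1 + β ≤ 1) (hε : 0 ≤ ε)
    (hε1 : ε ≤ 0.0934 * b1) (h : -(ε * (0.77 + 3 * β - b1 + ε)) ≤ C0 b1 β) : 0.149 ≤ β := by
  unfold C0 at h
  have hk : ε * (0.77 + 3 * β - b1 + ε) ≤ 0 ∨
      ε * (0.77 + 3 * β - b1 + ε) ≤ 0.0934 * b1 * (0.77 + 3 * β - 0.9066 * b1) := by
    rcases le_total 0 (0.77 + 3 * β - b1 + ε) with h3 | h3
    · right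
      exact mul_le_mul hε1 (by linarith) h3 (by linarith)
    · left
      exact mul_nonpos_of_nonneg_of_nonpos hε h3
  by_contra hc
  push Not at hc
  have p1 := mul_nonneg (by linarith : 0 ≤ b1 - 0.5156) (by linarith : 0 ≤ 1 - β - b1)
  have p2 := mul_nonneg (by linarith : 0 ≤ 0.149 - β) (by linarith : 0 ≤ 1 - β - b1)
  have p3 := mul_nonneg hβ (by linarith : 0 ≤ 0.149 - β)
  have p4 := mul_nonneg (by linarith : 0 ≤ 0.149 - β) (by linarith : 0 ≤ b1 - 0.5156)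
  rcases hk with hk | hk
  · nlinarith
  · nlinarith

end Helper37.MEI.Clq
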