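import Pool.Agent.Helper37.MEI.Clq1

/-!
# Project MEI (M2): the a priori bound `S < 0.115`, polynomial inequalities
-/

set_option autoImplicit false

namespace Helper37.MEI.Clq

open Real

/-- base function, case 2 -/
def F2 (k1 k2 κ b β : ℝ) : ℝ :=
  0.115 + b * (0.01210275 * (2 * k1 - k1 ^ 2 * (4.163 - (1 + β + b) ^ 2)) - 0.1774) +
    (1 + β - b) * (0.013081 * (2 * k2 - k2 ^ 2 * (4.206 - (2 + 2 * β - b) ^ 2))) - κ * C0 b β

/-- base function, case 1 -/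
def F1 (k1 b β : ℝ) : ℝ :=
  0.115 + b * (0.01210275 * (2 * k1 - k1 ^ 2 * (4.163 - (1 + β + b) ^ 2)) - 0.1774) +
    0.00285 * (1 + β - b)

/-- chord inequality in `β`, case 2 -/
theorem F2_chord {k1 k2 κ b β l h c0 c1 m : ℝ} (hl : l ≤ β) (hh : β ≤ h) (hlh : l < h)
    (hc : 0.01210275 * k1 ^ 2 * b + 0.013081 * k2 ^ 2 * (12 - 8 * b) - 3 * κ +
      4 * (0.013081 * k2 ^ 2) * (β + l + h) ≤ 0)
    (h1 : c0 * (2 * l - 0.115) + c1 + m ≤ F2 k1 k2 κ b l)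
    (h2 : c0 * (2 * h - 0.115) + c1 + m ≤ F2 k1 k2 κ b h) :
    c0 * (2 * β - 0.115) + c1 + m ≤ F2 k1 k2 κ b β := by
  have k1' := mul_nonneg (sub_nonneg.2 hh) (sub_nonneg.2 h1)
  have k2' := mul_nonneg (sub_nonneg.2 hl) (sub_nonneg.2 h2)
  have k3' := mul_nonneg (mul_nonneg (sub_nonneg.2 hl) (sub_nonneg.2 hh)) (neg_nonneg.2 hc)
  have key : 0 ≤ (h - l) * (F2 k1 k2 κ b β - (c0 * (2 * β - 0.115) + c1 + m)) := by
    have k4 := mul_nonneg (sub_nonneg.2 hlh.le) k3'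
    unfold F2 C0 at *
    nlinarith [k1', k2', k4, k3']
  by_contra hcon
  push Not at hcon
  have := mul_pos (sub_pos.2 hlh) (sub_pos.2 hcon)
  linarith

end Helper37.MEI.Clq
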