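import Pool.Agent.Helper37.MEI.Clq2

/-!
# Project MEI (M2): the a priori bound `S < 0.115`, polynomial inequalities, end points
-/

set_option autoImplicit false

namespace Helper37.MEI.Clq

open Real

theorem loB_a {b : ℝ} (hb : 0.5156 ≤ b) (hb2 : b ≤ 0.79) :
    0.007928 * (2 * 0.149 - 0.115) + 0.0055363 * b + 0.0003 ≤ F2 2.3 0.7 0.09 b 0.149 := by
  unfold F2 C0
  nlinarith [mul_nonneg (sub_nonneg.2 hb) (sq_nonneg (b - 0.79)),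
    mul_nonneg (sub_nonneg.2 hb2) (sq_nonneg (b - 0.76)), sq_nonneg (b - 0.79),
    mul_nonneg (sub_nonneg.2 hb) (sub_nonneg.2 hb2)]

theorem loB_b {b : ℝ} (hb : 0.5156 ≤ b) (hb2 : b ≤ 0.79) :
    0.007928 * (2 * 0.2195 - 0.115) + 0.0055363 * b + 0.0003 ≤ F2 2.3 0.7 0.09 b 0.2195 := by
  unfold F2 C0
  nlinarith [mul_nonneg (sub_nonneg.2 hb) (sq_nonneg (b - 0.732)),
    mul_nonneg (sub_nonneg.2 hb2) (sq_nonneg (b - 0.732)), sq_nonneg (b - 0.732)]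

theorem hi_a {b : ℝ} (hb : 0.5156 ≤ b) (hb2 : b ≤ 0.851) :
    0.0186484 * (2 * 0.149 - 0.115) + 0.00063 * b + 0.0005 ≤ F2 2.3 0.75 0.08 b 0.149 := by
  unfold F2 C0
  nlinarith [mul_nonneg (sub_nonneg.2 hb) (sq_nonneg (b - 0.784)),
    mul_nonneg (sub_nonneg.2 hb2) (sq_nonneg (b - 0.784)), sq_nonneg (b - 0.784)]

theorem hi_b {b : ℝ} (hb : 0.5156 ≤ b) (hb2 : b ≤ 0.851) :
    0.0186484 * (2 * 0.2195 - 0.115) + 0.00063 * b + 0.0005 ≤ F2 2.3 0.75 0.08 b 0.2195 := by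
  unfold F2 C0
  nlinarith [mul_nonneg (sub_nonneg.2 hb) (sq_nonneg (b - 0.725)),
    mul_nonneg (sub_nonneg.2 hb2) (sq_nonneg (b - 0.725)), sq_nonneg (b - 0.725)]

theorem loA_a {b : ℝ} (hb : 0.79 ≤ b) (hb2 : b ≤ 0.851) :
    0.0068344 * (2 * 0.149 - 0.115) + 0.0070452 * b + 0.0005 ≤ F2 2.5 0.66 0.11 b 0.149 := by
  unfold F2 C0
  nlinarith [mul_nonneg (sub_nonneg.2 hb) (sq_nonneg (b - 0.79)),
    mul_nonneg (sub_nonneg.2 hb2) (sq_nonneg (b - 0.79)), sq_nonneg (b - 0.79),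
    mul_nonneg (sub_nonneg.2 hb) (sub_nonneg.2 hb2)]

theorem loA_b {b : ℝ} (hb : 0.79 ≤ b) (hb2 : b ≤ 0.851) :
    0.0068344 * (2 * 0.2195 - 0.115) + 0.0070452 * b + 0.0005 ≤ F2 2.5 0.66 0.11 b 0.2195 := by
  unfold F2 C0
  nlinarith [mul_nonneg (sub_nonneg.2 hb) (sq_nonneg (b - 0.79)),
    mul_nonneg (sub_nonneg.2 hb2) (sq_nonneg (b - 0.79)), sq_nonneg (b - 0.79),
    mul_nonneg (sub_nonneg.2 hb) (sub_nonneg.2 hb2)]

/-- case 2, small `P`, `b ≤ 0.79` -/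
theorem F2_loB {b β : ℝ} (hb : 0.5156 ≤ b) (hb2 : b ≤ 0.79) (hβ : 0.149 ≤ β)
    (hβ2 : β ≤ 0.2195) :
    0.007928 * (2 * β - 0.115) + 0.0055363 * b + 0.0003 ≤ F2 2.3 0.7 0.09 b β :=
  F2_chord hβ hβ2 (by norm_num) (by norm_num; linarith) (loB_a hb hb2) (loB_b hb hb2)

/-- case 2, large `P` -/
theorem F2_hi {b β : ℝ} (hb : 0.5156 ≤ b) (hb2 : b ≤ 0.851) (hβ : 0.149 ≤ β)
    (hβ2 : β ≤ 0.2195) :
    0.0186484 * (2 * β - 0.115) + 0.00063 * b + 0.0005 ≤ F2 2.3 0.75 0.08 b β :=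
  F2_chord hβ hβ2 (by norm_num) (by norm_num; linarith) (hi_a hb hb2) (hi_b hb hb2)

/-- case 2, small `P`, `b ≥ 0.79` -/
theorem F2_loA {b β : ℝ} (hb : 0.79 ≤ b) (hb2 : b ≤ 0.851) (hβ : 0.149 ≤ β)
    (hβ2 : β ≤ 0.2195) :
    0.0068344 * (2 * β - 0.115) + 0.0070452 * b + 0.0005 ≤ F2 2.5 0.66 0.11 b β :=
  F2_chord hβ hβ2 (by norm_num) (by norm_num; linarith) (loA_a hb hb2) (loA_b hb hb2)

/-! ### case 1 -/

theorem c1lo_a {b : ℝ} (hb : 0.5156 ≤ b) :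
    0.0068344 * 0.1957 + 0.0070452 * b + 0.0005 ≤ F1 2.3 b 0.1957 -
      0.1 * (2 * 0.1957 + 0.1957 ^ 2 - 0.115 - b * (1 + 0.1957) + b ^ 2) := by
  unfold F1
  nlinarith [mul_nonneg (sub_nonneg.2 hb) (sq_nonneg (b - 0.748)), sq_nonneg (b - 0.748)]

theorem c1lo_b {b : ℝ} (hb : 0.5156 ≤ b) :
    0.0068344 * 0.24 + 0.0070452 * b + 0.0005 ≤ F1 2.3 b 0.24 -
      0.1 * (2 * 0.24 + 0.24 ^ 2 - 0.115 - b * (1 + 0.24) + b ^ 2) := by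
  unfold F1
  nlinarith [mul_nonneg (sub_nonneg.2 hb) (sq_nonneg (b - 0.698)), sq_nonneg (b - 0.698)]

theorem c1lo_c {b : ℝ} (hb : 0.5156 ≤ b) :
    0.0068344 * 0.24 + 0.0070452 * b + 0.0005 ≤ F1 2.3 b 0.24 := by
  unfold F1
  nlinarith [mul_nonneg (sub_nonneg.2 hb) (sq_nonneg (b - 0.671)), sq_nonneg (b - 0.671)]

theorem c1hi_a {b : ℝ} (hb : 0.5156 ≤ b) :
    0.0186484 * 0.1957 + 0.00063 * b + 0.0005 ≤ F1 2.2 b 0.1957 -
      0.08 * (2 * 0.1957 + 0.1957 ^ 2 - 0.115 - b * (1 + 0.1957) + b ^ 2) := by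
  unfold F1
  nlinarith [mul_nonneg (sub_nonneg.2 hb) (sq_nonneg (b - 0.719)), sq_nonneg (b - 0.719)]

theorem c1hi_b {b : ℝ} (hb : 0.5156 ≤ b) :
    0.0186484 * 0.24 + 0.00063 * b + 0.0005 ≤ F1 2.2 b 0.24 -
      0.08 * (2 * 0.24 + 0.24 ^ 2 - 0.115 - b * (1 + 0.24) + b ^ 2) := by
  unfold F1
  nlinarith [mul_nonneg (sub_nonneg.2 hb) (sq_nonneg (b - 0.676)), sq_nonneg (b - 0.676)]

theorem c1hi_c {b : ℝ} (hb : 0.5156 ≤ b) :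
    0.0186484 * 0.24 + 0.00063 * b + 0.0005 ≤ F1 2.2 b 0.24 := by
  unfold F1
  nlinarith [mul_nonneg (sub_nonneg.2 hb) (sq_nonneg (b - 0.66)), sq_nonneg (b - 0.66)]

/-- chord inequality in `β`, case 1 -/
theorem F1_chord {k1 κ b β l h c0 c1 : ℝ} (hl : l ≤ β) (hh : β ≤ h) (hlh : l < h)
    (hc : 0.01210275 * k1 ^ 2 * b - κ ≤ 0)
    (h1 : c0 * l + c1 ≤ F1 k1 b l - κ * (2 * l + l ^ 2 - 0.115 - b * (1 + l) + b ^ 2))
    (h2 : c0 * h + c1 ≤ F1 k1 b h - κ * (2 * h + h ^ 2 - 0.115 - b * (1 + h) + b ^ 2)) :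
    c0 * β + c1 ≤ F1 k1 b β - κ * (2 * β + β ^ 2 - 0.115 - b * (1 + β) + b ^ 2) := by
  have k1' := mul_nonneg (sub_nonneg.2 hh) (sub_nonneg.2 h1)
  have k2' := mul_nonneg (sub_nonneg.2 hl) (sub_nonneg.2 h2)
  have k3' := mul_nonneg (mul_nonneg (sub_nonneg.2 hl) (sub_nonneg.2 hh)) (neg_nonneg.2 hc)
  have k4 := mul_nonneg (sub_nonneg.2 hlh.le) k3'
  have key : 0 ≤ (h - l) * (F1 k1 b β - κ * (2 * β + β ^ 2 - 0.115 - b * (1 + β) + b ^ 2) -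
      (c0 * β + c1)) := by
    unfold F1 at *
    linarith
  by_contra hcon
  push Not at hcon
  have := mul_pos (sub_pos.2 hlh) (sub_pos.2 hcon)
  linarith

/-- case 1, general `β ≥ 0.24` -/
theorem F1_up {k1 b β c0 c1 : ℝ} (hk : 2.2 ≤ k1) (hk2 : k1 ≤ 2.3) (hb : 0.5156 ≤ b)
    (hβ : 0.24 ≤ β) (hc0 : c0 ≤ 0.02) (h : c0 * 0.24 + c1 ≤ F1 k1 b 0.24) :
    c0 * β + c1 ≤ F1 k1 b β := by
  have e : F1 k1 b β - F1 k1 b 0.24 = (β - 0.24) *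
      (0.01210275 * k1 ^ 2 * b * (2 + 2 * b + β + 0.24) + 0.00285) := by
    unfold F1; ring
  have h1 : 2.2 ^ 2 ≤ k1 ^ 2 := pow_le_pow_left₀ (by norm_num) hk 2
  have h2 : 0.05 ≤ 0.01210275 * k1 ^ 2 * b * (2 + 2 * b + β + 0.24) := by
    have h3 : 0.0585 ≤ 0.01210275 * k1 ^ 2 := by norm_num at h1 ⊢; linarith
    have h4 : 0.0585 * 0.5156 ≤ 0.01210275 * k1 ^ 2 * b :=
      mul_le_mul h3 hb (by norm_num) (by linarith)
    have h5 : (0.0585 * 0.5156 : ℝ) * 2 ≤ 0.01210275 * k1 ^ 2 * b * (2 + 2 * b + β + 0.24) :=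
      mul_le_mul h4 (by linarith) (by norm_num) (by linarith)
    linarith
  have h6 := mul_le_mul_of_nonneg_left h2 (by linarith : 0 ≤ β - 0.24)
  have h7 := mul_le_mul_of_nonneg_right hc0 (by linarith : 0 ≤ β - 0.24)
  linarith

/-- case 1, small `P` -/
theorem F1_lo {b β : ℝ} (hb : 0.5156 ≤ b) (hbβ : b + β ≤ 1) (hβ : 0.1957 ≤ β)
    (hP : 0 ≤ 2 * β + β ^ 2 - 0.115 - b * (1 + β) + b ^ 2) :
    0.0068344 * β + (0.0070452 * b + 0.0005) ≤ F1 2.3 b β := by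
  rcases le_total β 0.24 with h | h
  · have := F1_chord (k1 := 2.3) (κ := 0.1) (b := b) (c0 := 0.0068344)
      (c1 := 0.0070452 * b + 0.0005) hβ h (by norm_num) (by norm_num; linarith)
      (by linarith [c1lo_a hb]) (by linarith [c1lo_b hb])
    linarith
  · exact F1_up (by norm_num) (by norm_num) hb h (by norm_num) (by linarith [c1lo_c hb])

/-- case 1, large `P` -/
theorem F1_hi {b β : ℝ} (hb : 0.5156 ≤ b) (hbβ : b + β ≤ 1) (hβ : 0.1957 ≤ β)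
    (hP : 0 ≤ 2 * β + β ^ 2 - 0.115 - b * (1 + β) + b ^ 2) :
    0.0186484 * β + (0.00063 * b + 0.0005) ≤ F1 2.2 b β := by
  rcases le_total β 0.24 with h | h
  · have := F1_chord (k1 := 2.2) (κ := 0.08) (b := b) (c0 := 0.0186484)
      (c1 := 0.00063 * b + 0.0005) hβ h (by norm_num) (by norm_num; linarith)
      (by linarith [c1hi_a hb]) (by linarith [c1hi_b hb])
    linarith
  · exact F1_up (by norm_num) (by norm_num) hb h (by norm_num) (by linarith [c1hi_c hb])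

end Helper37.MEI.Clq
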