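import Pool.Agent.Helper93.MEI.S2a

/-!
# Project MEI (M2): flux through the edge cell for fields tangent to both walls
-/

namespace Helper37.MEI

open Set Metric MeasureTheory Helper80.CW
open Helper22.MEI (t s Fa Fb Fc FD FD_pos)
open Helper22.Wedge (co fld EC ib ibv)
open Helper22.Sig (dvg Cel Tang S2_cell)
open Helper93.MEI
open scoped ContDiff RealInnerProductSpace Real

section
variable (b : OrthonormalBasis (Fin 3) ℝ E3) (c : E3)

/-- the two wall normals -/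
noncomputable def nu : Fin 2 → E3 := ![s • b 2 - b 1, s • b 2 + b 1]

noncomputable def cc : Fin 2 → ℝ := fun j => ⟪nu b j, c⟫ + s * t

theorem nu0 (x : E3) : ⟪nu b 0, x⟫ - ⟪nu b 0, c⟫ = s * (co b c x).2.2 - (co b c x).2.1 := by
  rw [← inner_sub_right]
  simp only [nu, Matrix.cons_val_zero]
  rw [inner_sub_left, inner_smul_left]
  rfl

theorem nu1 (x : E3) : ⟪nu b 1, x⟫ - ⟪nu b 1, c⟫ = s * (co b c x).2.2 + (co b c x).2.1 := by
  rw [← inner_sub_right]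
  simp only [nu, Matrix.cons_val_one, Matrix.cons_val_fin_one]
  rw [inner_add_left, inner_smul_left]
  rfl

theorem EC_cel : EC b c = Cel (nu b) (cc b c) := by
  ext x
  have h0 := nu0 b c x
  have h1 := nu1 b c x
  constructor
  · intro hx j
    have hx' : |(co b c x).2.1| < s * ((co b c x).2.2 - t) := hx
    obtain ⟨k1, k2⟩ := abs_lt.1 hx'
    fin_cases j
    · show ⟪nu b 0, c⟫ + s * t < ⟪nu b 0, x⟫
      linarith
    · show ⟪nu b 1, c⟫ + s * t < ⟪nu b 1, x⟫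
      linarith
  · intro hx
    have k0 : ⟪nu b 0, c⟫ + s * t < ⟪nu b 0, x⟫ := hx 0
    have k1 : ⟪nu b 1, c⟫ + s * t < ⟪nu b 1, x⟫ := hx 1
    show |(co b c x).2.1| < s * ((co b c x).2.2 - t)
    rw [abs_lt]
    constructor <;> linarith

/-- fields whose last two components are proportional to the distance vector are tangent -/
theorem tang_EC {G1 G2 G3 ψ : ℝ × ℝ × ℝ → ℝ} (h2 : ∀ q, G2 q = q.2.1 * ψ q)
    (h3 : ∀ q, G3 q = (q.2.2 - t) * ψ q) : Tang (nu b) (cc b c) (fld b c G1 G2 G3) := by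
  obtain ⟨⟨i00, i01, i02⟩, ⟨i10, i11, i12⟩, ⟨i20, i21, i22⟩⟩ := ibv b
  intro j x hx
  have e1 : ⟪b 1, fld b c G1 G2 G3 x⟫ = G2 (co b c x) := by
    unfold fld
    rw [inner_add_right, inner_add_right, inner_smul_right, inner_smul_right, inner_smul_right,
      i10, i11, i12]
    ring
  have e2 : ⟪b 2, fld b c G1 G2 G3 x⟫ = G3 (co b c x) := by
    unfold fld
    rw [inner_add_right, inner_add_right, inner_smul_right, inner_smul_right, inner_smul_right,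
      i20, i21, i22]
    ring
  fin_cases j
  · have h0 := nu0 b c x
    have hx' : ⟪nu b 0, x⟫ = ⟪nu b 0, c⟫ + s * t := hx
    show ⟪s • b 2 - b 1, fld b c G1 G2 G3 x⟫ = 0
    rw [inner_sub_left, inner_smul_left, e1, e2, h2, h3]
    have h5 : (starRingEnd ℝ) s = s := rfl
    rw [h5]
    have h4 : s * ((co b c x).2.2 - t) - (co b c x).2.1 = 0 := by linarith
    linear_combination ψ (co b c x) * h4
  · have h0 := nu1 b c x
    have hx' : ⟪nu b 1, x⟫ = ⟪nu b 1, c⟫ + s * t := hx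
    show ⟪s • b 2 + b 1, fld b c G1 G2 G3 x⟫ = 0
    rw [inner_add_left, inner_smul_left, e1, e2, h2, h3]
    have h5 : (starRingEnd ℝ) s = s := rfl
    rw [h5]
    have h4 : s * ((co b c x).2.2 - t) + (co b c x).2.1 = 0 := by linarith
    linear_combination ψ (co b c x) * h4

theorem FD_cdn {n : WithTop ℕ∞} : ContDiff ℝ n FD := by unfold FD; fun_prop

theorem Fa_cdn {n : WithTop ℕ∞} : ContDiff ℝ n Fa :=
  ContDiff.div (by fun_prop) FD_cdn fun q => (FD_pos q).ne'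

theorem Fb_cdn {n : WithTop ℕ∞} : ContDiff ℝ n Fb :=
  ContDiff.div (by fun_prop) FD_cdn fun q => (FD_pos q).ne'

theorem Fc_cdn {n : WithTop ℕ∞} : ContDiff ℝ n Fc :=
  ContDiff.div (by fun_prop) FD_cdn fun q => (FD_pos q).ne'

end

section
variable {b : OrthonormalBasis (Fin 3) ℝ E3} {c : E3} {K : Set E3} {σ : Measure (E3 × E3)}

/-- **flux in the edge cell** -/
theorem EC_flux [IsFiniteMeasure σ] (hK : IsCompact K) (hσ : ∀ᵐ z ∂σ, z.1 ∈ K ∧ z.2 ∈ K)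
    (hU : ∀ G : E3 → E3, ContDiff ℝ ∞ G → ∫ z, ⟪G z.1, z.1 - z.2⟫ ∂σ = ∫ x in K, dvg G x)
    {G1 G2 G3 ψ : ℝ × ℝ × ℝ → ℝ} (k1 : ContDiff ℝ ∞ G1) (k2 : ContDiff ℝ ∞ G2)
    (k3 : ContDiff ℝ ∞ G3) (h2 : ∀ q, G2 q = q.2.1 * ψ q) (h3 : ∀ q, G3 q = (q.2.2 - t) * ψ q) :
    ∫ z in {z : E3 × E3 | z.1 ∈ EC b c}, ⟪fld b c G1 G2 G3 z.1, z.1 - z.2⟫ ∂σ =
      ∫ x in K ∩ EC b c, dvg (fld b c G1 G2 G3) x := by
  rw [EC_cel b c]
  exact S2_cell hK hσ (n := ⊤) le_top hU (nu b) (cc b c)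
    (Helper22.Sig.fld_cd b c k1 k2 k3) (tang_EC b c h2 h3)

/-- the field `F` -/
theorem EC_flux_F [IsFiniteMeasure σ] (hK : IsCompact K) (hσ : ∀ᵐ z ∂σ, z.1 ∈ K ∧ z.2 ∈ K)
    (hU : ∀ G : E3 → E3, ContDiff ℝ ∞ G → ∫ z, ⟪G z.1, z.1 - z.2⟫ ∂σ = ∫ x in K, dvg G x) :
    ∫ z in {z : E3 × E3 | z.1 ∈ EC b c}, ⟪fld b c Fa Fb Fc z.1, z.1 - z.2⟫ ∂σ =
      ∫ x in K ∩ EC b c, dvF b c x := by
  rw [EC_flux hK hσ hU (ψ := fun q => 1 / 2 / FD q) Fa_cdn Fb_cdn Fc_cdn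
    (fun q => by unfold Fb; ring) (fun q => by unfold Fc; ring)]
  apply setIntegral_congr_fun (hK.measurableSet.inter (EC_open b c).measurableSet)
  intro x _
  show dvg (fld b c Fa Fb Fc) x = dvF b c x
  rw [Helper22.Sig.dvg_fld b c Fa_cdn Fb_cdn Fc_cdn, Helper22.MEI.dv_F]
  rfl

end

end Helper37.MEI
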