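import Pool.Agent.Helper37.MEI.Mass
import Pool.Agent.Helper72.MEI.EdgeSum

/-!
# Project MEI (M2): the mass of the edge weight, sharp volume side
-/

namespace Helper37.MEI

open Set Metric MeasureTheory Helper80.CW Helper14.CW Helper14.MEI2
open Helper22.MEI (t s Fa Fb Fc FD FD_pos)
open Helper22.Wedge (co fld EC ib ibv norm_co)
open Helper22.Sig (dvg)
open Helper93.MEI
open Pool.Agent.Helper8.MEI (DD DD_pos DD_ge divF NU)
open scoped ContDiff RealInnerProductSpace Real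

/-- outside of the lens the divergence is at most `4.6` -/
theorem divF_out {x y w : ℝ} (h : 1 / 4 < x ^ 2 + y ^ 2 + w ^ 2 + √2 * w + |y|) :
    divF x y w ≤ 4.6 := by
  have hD := DD_pos x y w
  unfold divF
  rw [div_le_iff₀ (by positivity)]
  set r := √(y ^ 2 + w ^ 2) with hr
  have r0 : 0 ≤ r := Real.sqrt_nonneg _
  have r2 : r ^ 2 = y ^ 2 + w ^ 2 := Real.sq_sqrt (by positivity)
  have h3 : √3 ^ 2 = 3 := Real.sq_sqrt (by norm_num)
  have h30 : 0 ≤ √3 := Real.sqrt_nonneg _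
  have h2 : √2 ^ 2 = 2 := Real.sq_sqrt (by norm_num)
  have h20 : 0 ≤ √2 := Real.sqrt_nonneg _
  have hcs : √2 * w + |y| ≤ √3 * r := by
    apply le_of_sq_le_sq _ (by positivity)
    have e1 : |y| ^ 2 = y ^ 2 := sq_abs y
    nlinarith [sq_nonneg (w - √2 * |y|)]
  set z := √3 * r with hz
  have z2 : z ^ 2 = 3 * (y ^ 2 + w ^ 2) := by rw [hz, mul_pow, h3, r2]
  have hc : 1 / 4 < x ^ 2 + z ^ 2 / 3 + z := by
    rw [z2]; linarith
  have eD : DD x y w = 1 / 4 + x ^ 2 / 8 + z ^ 2 / 3 := by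
    rw [z2]; unfold DD; ring
  have eN : NU x y w = 41 / 128 + 23 / 256 * x ^ 2 + 3 / 32 * z ^ 2 := by
    rw [z2]; unfold NU; ring
  rw [eN]
  have k1 := sq_nonneg (DD x y w - 0.2683)
  have k2 : 2 * 0.2683 * DD x y w - 0.2683 ^ 2 ≤ DD x y w ^ 2 := by linarith
  have k3 : 41 / 128 + 23 / 256 * x ^ 2 + 3 / 32 * z ^ 2 ≤
      4.6 * (2 * 0.2683 * DD x y w - 0.2683 ^ 2) := by
    rw [eD]
    nlinarith [sq_nonneg (z - 0.1667)]
  linarith

section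
variable {b : OrthonormalBasis (Fin 3) ℝ E3} {c : E3} {K : Set E3} {a3 a4 : E3}

/-- the box -/
def Bx (b : OrthonormalBasis (Fin 3) ℝ E3) (c a3 a4 : E3) (s3 s4 : ℝ) : Set E3 :=
  {x | |(co b c x).1| ≤ 1 / 2 ∧ ‖x - a3‖ ^ 2 - 1 ≤ s3 ∧ ‖x - a4‖ ^ 2 - 1 ≤ s4}

theorem Bx_closed (b : OrthonormalBasis (Fin 3) ℝ E3) (c a3 a4 : E3) (s3 s4 : ℝ) :
    IsClosed (Bx b c a3 a4 s3 s4) := by
  have h := co_cont b c
  have h1 : Continuous fun x => |(co b c x).1| := by fun_prop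
  have h2 : ∀ a : E3, Continuous fun x : E3 => ‖x - a‖ ^ 2 - 1 := fun a => by fun_prop
  exact (isClosed_le h1 continuous_const).inter
    ((isClosed_le (h2 a3) continuous_const).inter (isClosed_le (h2 a4) continuous_const))

theorem Bx_cpt (b : OrthonormalBasis (Fin 3) ℝ E3) (c a3 a4 : E3) (s3 s4 : ℝ) :
    IsCompact (Bx b c a3 a4 s3 s4) := by
  apply (isCompact_closedBall a3 (s3 + 2)).of_isClosed_subset (Bx_closed b c a3 a4 s3 s4)
  intro x hx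
  rw [mem_closedBall, dist_eq_norm]
  have h1 := hx.2.1
  nlinarith [norm_nonneg (x - a3), sq_nonneg (‖x - a3‖ - 1)]

/-- the outer region -/
def Rg (b : OrthonormalBasis (Fin 3) ℝ E3) (c a3 a4 : E3) (s3 s4 : ℝ) : Set E3 :=
  (Bx b c a3 a4 s3 s4 ∩ EC b c) \ Ast b c a3 a4

theorem Rg_meas (b : OrthonormalBasis (Fin 3) ℝ E3) (c a3 a4 : E3) (s3 s4 : ℝ) :
    MeasurableSet (Rg b c a3 a4 s3 s4) :=
  ((Bx_closed b c a3 a4 s3 s4).measurableSet.inter (EC_open b c).measurableSet).diff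
    (Ast_meas b c a3 a4)

theorem Rg_refl (ha3 : co b c a3 = (0, 1 / 2, -t)) (ha4 : co b c a4 = (0, -(1 / 2), -t))
    (s3 s4 : ℝ) : Rr b c ⁻¹' Rg b c a3 a4 s3 s4 = Rg b c a3 a4 s3 s4 := by
  have hA := Rr_Ast b c ha3 ha4
  ext x
  have hx : Rr b c x ∈ Ast b c a3 a4 ↔ x ∈ Ast b c a3 a4 := by
    have := Set.ext_iff.1 hA x
    exact this
  have h3 := Rr_norm b c ha3 x
  have h4 := Rr_norm b c ha4 x
  have h5 : Rr b c x ∈ EC b c ↔ x ∈ EC b c := by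
    show |(co b c (Rr b c x)).2.1| < s * ((co b c (Rr b c x)).2.2 - t) ↔
      |(co b c x).2.1| < s * ((co b c x).2.2 - t)
    rw [co_Rr]
  have h6 : Rr b c x ∈ Bx b c a3 a4 s3 s4 ↔ x ∈ Bx b c a3 a4 s3 s4 := by
    show (|(co b c (Rr b c x)).1| ≤ 1 / 2 ∧ ‖Rr b c x - a3‖ ^ 2 - 1 ≤ s3 ∧
      ‖Rr b c x - a4‖ ^ 2 - 1 ≤ s4) ↔
      (|(co b c x).1| ≤ 1 / 2 ∧ ‖x - a3‖ ^ 2 - 1 ≤ s3 ∧ ‖x - a4‖ ^ 2 - 1 ≤ s4)
    rw [h3, h4, co_Rr]
    simp only [abs_neg]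
  show ((Rr b c x ∈ Bx b c a3 a4 s3 s4 ∧ Rr b c x ∈ EC b c) ∧ Rr b c x ∉ Ast b c a3 a4) ↔
    ((x ∈ Bx b c a3 a4 s3 s4 ∧ x ∈ EC b c) ∧ x ∉ Ast b c a3 a4)
  rw [hx, h5, h6]

theorem int_ho_Rg (ha3 : co b c a3 = (0, 1 / 2, -t)) (ha4 : co b c a4 = (0, -(1 / 2), -t))
    (s3 s4 : ℝ) : ∫ x in Rg b c a3 a4 s3 s4, ho (co b c x) = 0 := by
  have h1 := (Rr_mp b c).setIntegral_preimage_emb (Rr b c).measurableEmbedding
    (fun x => ho (co b c x)) (Rg b c a3 a4 s3 s4)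
  rw [Rg_refl ha3 ha4] at h1
  have h2 : ∀ x, ho (co b c (Rr b c x)) = - ho (co b c x) := by
    intro x
    rw [co_Rr]
    exact ho_odd _ _ _
  simp only [h2] at h1
  rw [integral_neg] at h1
  linarith

/-- outside of the lens -/
theorem out_lens (ha3 : co b c a3 = (0, 1 / 2, -t)) (ha4 : co b c a4 = (0, -(1 / 2), -t))
    {x : E3} (hx : x ∈ EC b c) (hn : x ∉ Ast b c a3 a4) :
    1 / 4 < (co b c x).1 ^ 2 + (co b c x).2.1 ^ 2 + ((co b c x).2.2 - t) ^ 2 +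
      √2 * ((co b c x).2.2 - t) + |(co b c x).2.1| := by
  by_contra hc
  rw [not_lt] at hc
  apply hn
  have d3 := Helper78.MEI.d3_eq b c (p := x) ha3
  have d4 := Helper78.MEI.d4_eq b c (p := x) ha4
  have h3 := le_abs_self (co b c x).2.1
  have h4 := neg_le_abs (co b c x).2.1
  refine ⟨hx, ?_, ?_⟩
  · have : ‖x - a3‖ ^ 2 ≤ 1 := by linarith
    nlinarith [norm_nonneg (x - a3)]
  · have : ‖x - a4‖ ^ 2 ≤ 1 := by linarith
    nlinarith [norm_nonneg (x - a4)]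

/-- volume side, sharp -/
theorem vol_side_s (hK : IsCompact K) (hX : ∀ x ∈ K, |(co b c x).1| ≤ 1 / 2)
    (ha3 : co b c a3 = (0, 1 / 2, -t)) (ha4 : co b c a4 = (0, -(1 / 2), -t)) {s3 s4 : ℝ}
    (h3 : ∀ x ∈ K, ‖x - a3‖ ^ 2 - 1 ≤ s3) (h4 : ∀ x ∈ K, ‖x - a4‖ ^ 2 - 1 ≤ s4) {ε : ℝ}
    (hε : ε ^ 2 = 1) :
    ∫ x in K ∩ EC b c, gH ε (co b c x) ≤
      2 * (∫ x in Ast b c a3 a4, dvF b c x) + 9.2 * volume.real (Rg b c a3 a4 s3 s4) := by
  have hm := Ast_meas b c a3 a4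
  have hKB : K ⊆ Bx b c a3 a4 s3 s4 := fun x hx => ⟨hX x hx, h3 x hx, h4 x hx⟩
  have hBi : IntegrableOn (fun x => gH ε (co b c x)) (Bx b c a3 a4 s3 s4) :=
    (gH_cont ε).continuousOn.integrableOn_compact (Bx_cpt b c a3 a4 s3 s4)
  have hRi : IntegrableOn (fun x => gH ε (co b c x)) (Rg b c a3 a4 s3 s4) :=
    hBi.mono_set (sdiff_subset.trans inter_subset_left)
  have hKZ : IntegrableOn (fun x => gH ε (co b c x)) (K ∩ EC b c) :=
    ((gH_cont ε).continuousOn.integrableOn_compact hK).mono_set inter_subset_left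
  have hAi : IntegrableOn (fun x => gH ε (co b c x)) (Ast b c a3 a4) := by
    have hcl : Ast b c a3 a4 ⊆ closedBall a3 1 := by
      intro x hx
      rw [mem_closedBall, dist_eq_norm]
      exact hx.2.1
    exact ((gH_cont ε).continuousOn.integrableOn_compact (isCompact_closedBall a3 1)).mono_set hcl
  have h1 := integral_inter_add_sdiff hm hKZ
  rw [← h1, ← int_gH b c ha3 ha4 ε]
  apply add_le_add
  · apply setIntegral_mono_set hAi
    · filter_upwards [ae_restrict_mem hm] with x hx using gH_nonneg hε (Ast_X b c ha3 ha4 hx)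
    · exact LE.le.eventuallyLE inter_subset_right
  · have hsub : (K ∩ EC b c) \ Ast b c a3 a4 ⊆ Rg b c a3 a4 s3 s4 :=
      fun x hx => ⟨⟨hKB hx.1.1, hx.1.2⟩, hx.2⟩
    have h2 : ∫ x in (K ∩ EC b c) \ Ast b c a3 a4, gH ε (co b c x) ≤
        ∫ x in Rg b c a3 a4 s3 s4, gH ε (co b c x) := by
      apply setIntegral_mono_set hRi
      · filter_upwards [ae_restrict_mem (Rg_meas b c a3 a4 s3 s4)] with x hx using
          gH_nonneg hε hx.1.1.1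
      · exact LE.le.eventuallyLE hsub
    refine h2.trans ?_
    have i1 : IntegrableOn (fun x => 2 * dvF b c x) (Rg b c a3 a4 s3 s4) :=
      (((dvF_cont b c).continuousOn.integrableOn_compact (Bx_cpt b c a3 a4 s3 s4)).mono_set
        (sdiff_subset.trans inter_subset_left)).const_mul 2
    have i2 : IntegrableOn (fun x => ε * ho (co b c x)) (Rg b c a3 a4 s3 s4) :=
      (((ho_cont b c).continuousOn.integrableOn_compact (Bx_cpt b c a3 a4 s3 s4)).mono_set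
        (sdiff_subset.trans inter_subset_left)).const_mul ε
    have e1 : ∀ x, gH ε (co b c x) = 2 * dvF b c x + ε * ho (co b c x) := fun x => rfl
    simp only [e1]
    rw [integral_add i1 i2, integral_const_mul ε, int_ho_Rg ha3 ha4, mul_zero, add_zero]
    have hd : volume (Rg b c a3 a4 s3 s4) ≠ ⊤ :=
      ((measure_mono (sdiff_subset.trans inter_subset_left)).trans_lt
        (Bx_cpt b c a3 a4 s3 s4).measure_lt_top).ne
    have h5 : ∫ x in Rg b c a3 a4 s3 s4, 2 * dvF b c x ≤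
        ∫ x in Rg b c a3 a4 s3 s4, (9.2 : ℝ) := by
      apply setIntegral_mono_on i1 (integrableOn_const hd) (Rg_meas b c a3 a4 s3 s4)
      intro x hx
      have h6 := divF_out (x := (co b c x).1) (y := (co b c x).2.1) (w := (co b c x).2.2 - t)
        (by linarith [out_lens ha3 ha4 hx.1.2 hx.2])
      have h7 : dvF b c x = divF (co b c x).1 (co b c x).2.1 ((co b c x).2.2 - t) := rfl
      rw [h7]
      linarith
    refine h5.trans (le_of_eq ?_)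
    rw [setIntegral_const, smul_eq_mul, mul_comm]

/-- **MASS LEMMA**, sharp volume side -/
theorem mass_s {σ : Measure (E3 × E3)} [IsFiniteMeasure σ] {a1 a2 : E3} {s1 s2 : ℝ}
    (hK : IsCompact K)
    (hpr : ∀ᵐ z ∂σ, z.1 ∈ K ∧ z.2 ∈ K ∧ ‖z.1 - z.2‖ = 1)
    (hU : ∀ G : E3 → E3, ContDiff ℝ ∞ G → ∫ z, ⟪G z.1, z.1 - z.2⟫ ∂σ = ∫ x in K, dvg G x)
    (hX : ∀ x ∈ K, |(co b c x).1| ≤ 1 / 2)
    (ha1 : co b c a1 = (1 / 2, 0, t)) (ha2 : co b c a2 = (-(1 / 2), 0, t))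
    (ha3 : co b c a3 = (0, 1 / 2, -t)) (ha4 : co b c a4 = (0, -(1 / 2), -t)) {s3 s4 : ℝ}
    (h1 : ∀ x ∈ K, ‖x - a1‖ ^ 2 - 1 ≤ s1) (h2 : ∀ x ∈ K, ‖x - a2‖ ^ 2 - 1 ≤ s2)
    (h3 : ∀ x ∈ K, ‖x - a3‖ ^ 2 - 1 ≤ s3) (h4 : ∀ x ∈ K, ‖x - a4‖ ^ 2 - 1 ≤ s4)
    {ε : ℝ} (hε : ε ^ 2 = 1) :
    (1 - 2 * (s1 + s2) - 1.54 * (s1 - s2) ^ 2) *
        (∫ z in {z : E3 × E3 | z.1 ∈ EC b c}, wD b c ε z.1 ∂σ) ≤
      2 * (∫ x in Ast b c a3 a4, dvF b c x) + 9.2 * volume.real (Rg b c a3 a4 s3 s4) := by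
  have hσ : ∀ᵐ z ∂σ, z.1 ∈ K ∧ z.2 ∈ K := by
    filter_upwards [hpr] with z hz using ⟨hz.1, hz.2.1⟩
  have hfl := EC_flux (b := b) (c := c) hK hσ hU
    (ψ := fun q => (2 + ε * (7 / 4) * q.1) * (1 / 2 / FD q)) (Ha_cd ε) (Hb_cd ε) (Hc_cd ε)
    (fun q => by unfold Hb Fb; ring) (fun q => by unfold Hc Fc; ring)
  have e1 : ∫ x in K ∩ EC b c, dvg (fld b c (Ha ε) (Hb ε) (Hc ε)) x =
      ∫ x in K ∩ EC b c, gH ε (co b c x) := by
    apply setIntegral_congr_fun (hK.measurableSet.inter (EC_open b c).measurableSet)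
    intro x _
    exact dvg_H b c ε x
  rw [e1] at hfl
  have h5 := vol_side_s (b := b) (c := c) hK hX ha3 ha4 h3 h4 hε
  rw [← hfl] at h5
  refine le_trans ?_ h5
  rw [← integral_const_mul]
  have i1 : Integrable (fun z : E3 × E3 =>
      (1 - 2 * (s1 + s2) - 1.54 * (s1 - s2) ^ 2) * wD b c ε z.1) σ := by
    apply cont_int hK hσ
    have := wD_cont (b := b) (c := c) ε
    fun_prop
  have i2 : Integrable (fun z : E3 × E3 => ⟪fld b c (Ha ε) (Hb ε) (Hc ε) z.1, z.1 - z.2⟫) σ := by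
    apply cont_int hK hσ
    have : Continuous (fld b c (Ha ε) (Hb ε) (Hc ε)) :=
      (Helper22.Sig.fld_cd b c (Ha_cd ε) (Hb_cd ε) (Hc_cd ε)).continuous
    fun_prop
  apply integral_mono_ae i1.integrableOn i2.integrableOn
  filter_upwards [ae_restrict_of_ae hpr] with z hz
  exact wD_le (hX _ hz.1) hz.2.2 ha1 ha2 (h1 _ hz.2.1) (h2 _ hz.2.1) hε

end

end Helper37.MEI
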