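import Pool.Agent.Helper37.MEI.Loss
import Pool.Agent.Helper37.MEI.Mass2
import Pool.Agent.Helper73.MEI.Reg2

/-!
# Project MEI (M2): the losses of the six edge cells, collected at the vertices
-/

namespace Helper37.MEI

open Set Metric MeasureTheory Helper80.CW Helper14.CW Helper14.MEI2
open Helper22.MEI (t s Fa Fb Fc FD FD_pos)
open Helper22.Wedge (co fld EC ib ibv norm_co)
open Helper22.Sig (dvg)
open Helper93.MEI
open Pool.Agent.Helper8.MEI (DD DD_pos DD_ge divF NU)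
open Pool.Agent.Helper73.MEI (PM TE pf pf_bij pr pr_apply beE EC_Ze)
open Pool.Agent.Helper95.MEI.Fub (Zp exn Zp_meas)
open Pool.Agent.Helper95.MEI.Cst (AsE AxE dvE fAs AsE_eq int_dvE_As)
open scoped ContDiff RealInnerProductSpace Real

section
variable {a : Fin 4 → E3}

/-- the weights of the two vertices of the edge `a 0, a 1` -/
noncomputable def wt (a : Fin 4 → E3) (i : Bool) (x : E3) : ℝ :=
  (1 / 2 + (if i then -(7 * eX a x / 16) else 7 * eX a x / 16)) /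
    (4 * DD (eX a x) (eY a x) (eW a x))

/-- the vertex -/
def vx (m : Fin 3) (e i : Bool) : Fin 4 := if i then pf m e 1 else pf m e 0

theorem vx_false (m : Fin 3) (e : Bool) : vx m e false = pf m e 0 := rfl
theorem vx_true (m : Fin 3) (e : Bool) : vx m e true = pf m e 1 := rfl

theorem wt_cont (a : Fin 4 → E3) (i : Bool) : Continuous (wt a i) := by
  have h1 := Pool.Agent.Helper95.MEI.Fub.eX_cont a
  have h2 := Pool.Agent.Helper95.MEI.Fub.eY_cont a
  have h3 := Pool.Agent.Helper95.MEI.Fub.eW_cont a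
  unfold wt
  refine Continuous.div ?_ ?_ fun x => ?_
  · cases i
    · simp only [Bool.false_eq_true, if_false]
      fun_prop
    · simp only [if_true]
      fun_prop
  · unfold DD
    fun_prop
  · have := DD_pos (eX a x) (eY a x) (eW a x)
    positivity

theorem wt_nonneg (h : Gram4 (al a)) (i : Bool) {x : E3} (hx : Pl a x) : 0 ≤ wt a i x := by
  obtain ⟨_, h1, _⟩ := pl_e h hx
  obtain ⟨k1, k2⟩ := abs_le.1 h1
  have hD := DD_pos (eX a x) (eY a x) (eW a x)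
  unfold wt
  apply div_nonneg _ (by positivity)
  cases i
  · simp only [Bool.false_eq_true, if_false]; linarith
  · simp only [if_true]; linarith

theorem exn_split (a : Fin 4 → E3) (z : E3 × E3) :
    exn a z = wt a false z.1 * pp (Qv a 0 z.2) + wt a true z.1 * pp (Qv a 1 z.2) := by
  unfold exn wt
  simp only [Bool.false_eq_true, if_false, if_true]
  have hD := DD_pos (eX a z.1) (eY a z.1) (eW a z.1)
  field_simp
  ring

/-- the weight in the frame -/
theorem wt_wD (h : Gram4 (al a)) {b : OrthonormalBasis (Fin 3) ℝ E3} (hb : Fr a b) (x : E3) :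
    wt a false x = wD b (cen a) 1 x ∧ wt a true x = wD b (cen a) (-1) x := by
  obtain ⟨h0, h1, h2⟩ := frame_e h hb.1 hb.2.1 hb.2.2 x
  have e1 : co b (cen a) x = (eX a x, eY a x, √2 / 4 + eW a x) := by
    unfold co
    rw [h0, h1, h2]
  have e2 : FD (co b (cen a) x) = DD (eX a x) (eY a x) (eW a x) := by
    rw [e1]
    unfold FD DD t
    simp only
    ring
  unfold wt wD
  rw [e2, e1]
  simp only [Bool.false_eq_true, if_false, if_true]
  constructor
  · congr 1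
    ring
  · congr 1
    ring

/-- helper93's and helper95's lens are the same set -/
theorem Ast_AsE (ha : ∀ i j, i ≠ j → dist (a i) (a j) = 1)
    {b : OrthonormalBasis (Fin 3) ℝ E3} (hb : Fr a b) :
    Ast b (cen a) (a 2) (a 3) = AsE b (cen a) := by
  obtain ⟨_, _, v2, v3⟩ := co_vert ha hb
  have ht : √2 / 4 = t := by unfold t; ring
  rw [ht] at v2 v3
  ext x
  rw [AsE_eq]
  have d3 := Helper78.MEI.d3_eq b (cen a) (p := x) v2
  have d4 := Helper78.MEI.d4_eq b (cen a) (p := x) v3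
  have hsq : ∀ y : E3, ‖x - y‖ ≤ 1 ↔ ‖x - y‖ ^ 2 - 1 ≤ 0 := by
    intro y
    have := norm_nonneg (x - y)
    constructor
    · intro h; nlinarith
    · intro h; nlinarith
  show (x ∈ EC b (cen a) ∧ ‖x - a 2‖ ≤ 1 ∧ ‖x - a 3‖ ≤ 1) ↔ (x ∈ EC b (cen a) ∧
    (co b (cen a) x).1 ^ 2 + (co b (cen a) x).2.1 ^ 2 + ((co b (cen a) x).2.2 - t) ^ 2 +
      √2 * ((co b (cen a) x).2.2 - t) + |(co b (cen a) x).2.1| ≤ 1 / 4)
  rw [hsq, hsq, d3, d4]
  constructor
  · rintro ⟨h1, h2, h3⟩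
    refine ⟨h1, ?_⟩
    rcases abs_cases (co b (cen a) x).2.1 with ⟨h, _⟩ | ⟨h, _⟩
    · rw [h]; linarith
    · rw [h]; linarith
  · rintro ⟨h1, h2⟩
    have h3 := le_abs_self (co b (cen a) x).2.1
    have h4 := neg_le_abs (co b (cen a) x).2.1
    exact ⟨h1, by linarith, by linarith⟩

end

/-! ### the six cells -/

section
variable (σ : Measure (E3 × E3)) (a : Fin 4 → E3)

/-- the relabelled tetrahedron -/
noncomputable def ap (m : Fin 3) (e : Bool) : Fin 4 → E3 := fun i => a (pr m e i)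

/-- the pairs of the cell `(m, e)` -/
noncomputable def EE (m : Fin 3) (e : Bool) : Set (E3 × E3) := Zp (ap a m e) 2 3

/-- loss, mass, first moment of one (edge, vertex) -/
noncomputable def cL (m : Fin 3) (e i : Bool) : ℝ :=
  ∫ z in EE a m e, wt (ap a m e) i z.1 * pp (Qv a (vx m e i) z.2) ∂σ
noncomputable def cm (m : Fin 3) (e i : Bool) : ℝ :=
  ∫ z in EE a m e ∩ Pos a (vx m e i), wt (ap a m e) i z.1 ∂σ
noncomputable def cM (m : Fin 3) (e i : Bool) (k : Fin 4) : ℝ :=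
  ∫ z in EE a m e ∩ Pos a (vx m e i), wt (ap a m e) i z.1 * bar a k z.2 ∂σ

/-- loss, mass, first moment of a vertex -/
noncomputable def LL (j : Fin 4) : ℝ :=
  ∑ x : Fin 3 × Bool × Bool, if vx x.1 x.2.1 x.2.2 = j then cL σ a x.1 x.2.1 x.2.2 else 0
noncomputable def mm (j : Fin 4) : ℝ :=
  ∑ x : Fin 3 × Bool × Bool, if vx x.1 x.2.1 x.2.2 = j then cm σ a x.1 x.2.1 x.2.2 else 0
noncomputable def MM (j k : Fin 4) : ℝ :=
  ∑ x : Fin 3 × Bool × Bool, if vx x.1 x.2.1 x.2.2 = j then cM σ a x.1 x.2.1 x.2.2 k else 0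

end

section
variable {a : Fin 4 → E3} {K : Set E3} {σ : Measure (E3 × E3)}

/-- the total loss is the sum of the losses of the vertices -/
theorem sum_LL [IsFiniteMeasure σ] (hK : IsCompact K) (hσ : ∀ᵐ z ∂σ, z.1 ∈ K ∧ z.2 ∈ K) :
    ∑ m, ((∫ z in Zp (fun i => a (pr m false i)) 2 3, exn (fun i => a (pr m false i)) z ∂σ) +
      ∫ z in Zp (fun i => a (pr m true i)) 2 3, exn (fun i => a (pr m true i)) z ∂σ) =
    ∑ j, LL σ a j := by
  have hcell : ∀ m e, ∫ z in Zp (fun i => a (pr m e i)) 2 3, exn (fun i => a (pr m e i)) z ∂σ =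
      cL σ a m e false + cL σ a m e true := by
    intro m e
    unfold cL EE
    have hpc := Pool.Agent.Helper95.MEI.Fub.pp_cont
    have i1 : ∀ i j, Integrable (fun z : E3 × E3 => wt (ap a m e) i z.1 * pp (Qv a j z.2)) σ :=
      fun i j => cont_int hK hσ (((wt_cont _ i).comp continuous_fst).mul
        (hpc.comp ((Pool.Agent.Helper95.MEI.Fub.Qv_cont a j).comp continuous_snd)))
    rw [← integral_add (i1 _ _).integrableOn (i1 _ _).integrableOn]
    apply integral_congr_ae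
    filter_upwards with z
    exact exn_split (ap a m e) z
  have h1 : ∑ j, LL σ a j = ∑ x : Fin 3 × Bool × Bool, cL σ a x.1 x.2.1 x.2.2 := by
    unfold LL
    rw [Finset.sum_comm]
    apply Finset.sum_congr rfl
    intro x _
    simp
  rw [h1, Fintype.sum_prod_type]
  apply Finset.sum_congr rfl
  intro m _
  rw [Fintype.sum_prod_type, Fintype.sum_bool, Fintype.sum_bool, Fintype.sum_bool,
    hcell m false, hcell m true]
  simp only
  ring

variable (ha : ∀ i j, i ≠ j → dist (a i) (a j) = 1)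
include ha

theorem hgp (m : Fin 3) (e : Bool) : Gram4 (al (ap a m e)) :=
  gram_perm (gram_of_dist ha) (pr m e)

theorem hap (m : Fin 3) (e : Bool) : ∀ i j, i ≠ j → dist (ap a m e i) (ap a m e j) = 1 :=
  fun i j hij => ha _ _ (fun h => hij ((pr m e).injective h))

/-- **averaged coupling of one arc** -/
theorem cpl_c [IsFiniteMeasure σ] (hK : IsCompact K) (hσ : ∀ᵐ z ∂σ, z.1 ∈ K ∧ z.2 ∈ K)
    (hp : ∀ x ∈ K, Pl a x) (m : Fin 3) (e i : Bool) {r : E3} (hr : ∀ z ∈ K, ‖z - r‖ ≤ 1) :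
    cL σ a m e i + cm σ a m e i * ‖a (vx m e i) - r‖ ^ 2 ≤
      2 * ∑ k, cM σ a m e i k * yv a (vx m e i) k r :=
  cell_cpl (gram_of_dist ha) hK hσ (E := EE a m e) (Zp_meas _ _ _)
    (wt_cont (ap a m e) i) (fun x hx => wt_nonneg (hgp ha m e) i (Pl_perm _ (hp x hx)))
    (vx m e i) hr

/-- **averaged coupling at the vertex `j`** -/
theorem cpl [IsFiniteMeasure σ] (hK : IsCompact K) (hσ : ∀ᵐ z ∂σ, z.1 ∈ K ∧ z.2 ∈ K)
    (hp : ∀ x ∈ K, Pl a x) (j : Fin 4) {r : E3} (hr : ∀ z ∈ K, ‖z - r‖ ≤ 1) :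
    LL σ a j + mm σ a j * ‖a j - r‖ ^ 2 ≤ 2 * ∑ k, MM σ a j k * yv a j k r := by
  have h1 : ∀ x : Fin 3 × Bool × Bool,
      (if vx x.1 x.2.1 x.2.2 = j then cL σ a x.1 x.2.1 x.2.2 else 0) +
        (if vx x.1 x.2.1 x.2.2 = j then cm σ a x.1 x.2.1 x.2.2 else 0) * ‖a j - r‖ ^ 2 ≤
      2 * ∑ k, (if vx x.1 x.2.1 x.2.2 = j then cM σ a x.1 x.2.1 x.2.2 k else 0) * yv a j k r := by
    rintro ⟨m, e, i⟩
    simp only
    by_cases hv : vx m e i = j
    · simp only [hv, if_true]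
      have h2 := cpl_c ha hK hσ hp m e i hr
      rw [hv] at h2
      exact h2
    · simp [hv]
  have h2 := Finset.sum_le_sum (fun x (_ : x ∈ Finset.univ) => h1 x)
  rw [Finset.sum_add_distrib, ← Finset.sum_mul, ← Finset.mul_sum, Finset.sum_comm] at h2
  have e1 : ∑ k, ∑ x : Fin 3 × Bool × Bool,
      (if vx x.1 x.2.1 x.2.2 = j then cM σ a x.1 x.2.1 x.2.2 k else 0) * yv a j k r =
      ∑ k, MM σ a j k * yv a j k r := by
    apply Finset.sum_congr rfl
    intro k _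
    unfold MM
    rw [Finset.sum_mul]
  rw [e1] at h2
  exact h2

theorem cL_nonneg (hσ : ∀ᵐ z ∂σ, z.1 ∈ K ∧ z.2 ∈ K) (hp : ∀ x ∈ K, Pl a x) (m : Fin 3)
    (e i : Bool) : 0 ≤ cL σ a m e i := by
  unfold cL
  apply integral_nonneg_of_ae
  filter_upwards [ae_restrict_of_ae hσ] with z hz
  exact mul_nonneg (wt_nonneg (hgp ha m e) i (Pl_perm _ (hp _ hz.1))) (pp_nonneg _)

theorem cm_nonneg (hσ : ∀ᵐ z ∂σ, z.1 ∈ K ∧ z.2 ∈ K) (hp : ∀ x ∈ K, Pl a x) (m : Fin 3)
    (e i : Bool) : 0 ≤ cm σ a m e i := by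
  unfold cm
  apply integral_nonneg_of_ae
  filter_upwards [ae_restrict_of_ae hσ] with z hz
  exact wt_nonneg (hgp ha m e) i (Pl_perm _ (hp _ hz.1))

theorem LL_nonneg (hσ : ∀ᵐ z ∂σ, z.1 ∈ K ∧ z.2 ∈ K) (hp : ∀ x ∈ K, Pl a x) (j : Fin 4) :
    0 ≤ LL σ a j := by
  unfold LL
  apply Finset.sum_nonneg
  intro x _
  split_ifs
  · exact cL_nonneg ha hσ hp _ _ _
  · exact le_rfl

theorem mm_nonneg (hσ : ∀ᵐ z ∂σ, z.1 ∈ K ∧ z.2 ∈ K) (hp : ∀ x ∈ K, Pl a x) (j : Fin 4) :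
    0 ≤ mm σ a j := by
  unfold mm
  apply Finset.sum_nonneg
  intro x _
  split_ifs
  · exact cm_nonneg ha hσ hp _ _ _
  · exact le_rfl

/-- **one arc: the first moment is at most `√(3/2 + 2 S)` times the mass** -/
theorem sum_cM [IsFiniteMeasure σ] (hK : IsCompact K) (hσ : ∀ᵐ z ∂σ, z.1 ∈ K ∧ z.2 ∈ K)
    (hp : ∀ x ∈ K, Pl a x) {S : ℝ} (hS : 0 ≤ S) (hQ : ∀ i, ∀ x ∈ K, Qv a i x ≤ S)
    (m : Fin 3) (e i : Bool) :
    (∑ k, if k = vx m e i then 0 else pp (cM σ a m e i k)) ≤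
      √(3 / 2 + 2 * S) * cm σ a m e i := by
  refine le_trans ?_ (cell_pp (gram_of_dist ha) hK hσ hp hS hQ (E := EE a m e)
    (wt_cont (ap a m e) i) (fun x hx => wt_nonneg (hgp ha m e) i (Pl_perm _ (hp x hx)))
    (vx m e i))
  apply Finset.sum_le_sum
  intro k _
  have h2 := cell_M_le (a := a) hK hσ (E := EE a m e)
    (wt_cont (ap a m e) i) (fun x hx => wt_nonneg (hgp ha m e) i (Pl_perm _ (hp x hx)))
    (vx m e i) k
  split_ifs
  · exact le_rfl
  · exact max_le h2.1 h2.2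

/-- **the first moment is at most `√(3/2 + 2 S)` times the mass** -/
theorem sum_MM [IsFiniteMeasure σ] (hK : IsCompact K) (hσ : ∀ᵐ z ∂σ, z.1 ∈ K ∧ z.2 ∈ K)
    (hp : ∀ x ∈ K, Pl a x) {S : ℝ} (hS : 0 ≤ S) (hQ : ∀ i, ∀ x ∈ K, Qv a i x ≤ S)
    (j : Fin 4) :
    (∑ k, if k = j then 0 else pp (MM σ a j k)) ≤ √(3 / 2 + 2 * S) * mm σ a j := by
  have h1 : ∀ x : Fin 3 × Bool × Bool, ∀ k, (if vx x.1 x.2.1 x.2.2 = j then
      cM σ a x.1 x.2.1 x.2.2 k else 0) ≤ (if vx x.1 x.2.1 x.2.2 = j then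
      ∫ z in EE a x.1 x.2.1 ∩ Pos a j, wt (ap a x.1 x.2.1) x.2.2 z.1 * pp (bar a k z.2) ∂σ
      else 0) ∧ 0 ≤ (if vx x.1 x.2.1 x.2.2 = j then
      ∫ z in EE a x.1 x.2.1 ∩ Pos a j, wt (ap a x.1 x.2.1) x.2.2 z.1 * pp (bar a k z.2) ∂σ
      else 0) := by
    rintro ⟨m, e, i⟩ k
    simp only
    by_cases hv : vx m e i = j
    · simp only [hv, if_true]
      have h2 := cell_M_le (a := a) hK hσ (E := EE a m e)
        (wt_cont (ap a m e) i) (fun x hx => wt_nonneg (hgp ha m e) i (Pl_perm _ (hp x hx)))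
        (vx m e i) k
      unfold cM
      rw [hv] at h2 ⊢
      exact h2
    · simp [hv]
  have h2 : ∀ k, pp (MM σ a j k) ≤ ∑ x : Fin 3 × Bool × Bool, (if vx x.1 x.2.1 x.2.2 = j then
      ∫ z in EE a x.1 x.2.1 ∩ Pos a j, wt (ap a x.1 x.2.1) x.2.2 z.1 * pp (bar a k z.2) ∂σ
      else 0) := by
    intro k
    unfold pp
    apply max_le
    · unfold MM
      exact Finset.sum_le_sum fun x _ => (h1 x k).1
    · exact Finset.sum_nonneg fun x _ => (h1 x k).2
  have h3 : ∀ x : Fin 3 × Bool × Bool, (∑ k, if k = j then 0 else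
      (if vx x.1 x.2.1 x.2.2 = j then
        ∫ z in EE a x.1 x.2.1 ∩ Pos a j, wt (ap a x.1 x.2.1) x.2.2 z.1 * pp (bar a k z.2) ∂σ
        else 0)) ≤ √(3 / 2 + 2 * S) *
      (if vx x.1 x.2.1 x.2.2 = j then cm σ a x.1 x.2.1 x.2.2 else 0) := by
    rintro ⟨m, e, i⟩
    simp only
    by_cases hv : vx m e i = j
    · simp only [hv, if_true]
      have h4 := cell_pp (gram_of_dist ha) hK hσ hp hS hQ (E := EE a m e)
        (wt_cont (ap a m e) i) (fun x hx => wt_nonneg (hgp ha m e) i (Pl_perm _ (hp x hx)))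
        (vx m e i)
      unfold cm
      rw [hv] at h4 ⊢
      exact h4
    · simp [hv]
  calc (∑ k, if k = j then 0 else pp (MM σ a j k))
      ≤ ∑ k, (if k = j then 0 else ∑ x : Fin 3 × Bool × Bool, (if vx x.1 x.2.1 x.2.2 = j then
        ∫ z in EE a x.1 x.2.1 ∩ Pos a j, wt (ap a x.1 x.2.1) x.2.2 z.1 * pp (bar a k z.2) ∂σ
        else 0)) := by
        apply Finset.sum_le_sum
        intro k _
        split_ifs
        · exact le_rfl
        · exact h2 k
    _ = ∑ x : Fin 3 × Bool × Bool, ∑ k, (if k = j then 0 else (if vx x.1 x.2.1 x.2.2 = j then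
        ∫ z in EE a x.1 x.2.1 ∩ Pos a j, wt (ap a x.1 x.2.1) x.2.2 z.1 * pp (bar a k z.2) ∂σ
        else 0)) := by
        rw [Finset.sum_comm]
        apply Finset.sum_congr rfl
        intro k _
        by_cases hk : k = j
        · simp [hk]
        · simp only [hk, if_false]
    _ ≤ ∑ x : Fin 3 × Bool × Bool, √(3 / 2 + 2 * S) *
        (if vx x.1 x.2.1 x.2.2 = j then cm σ a x.1 x.2.1 x.2.2 else 0) :=
        Finset.sum_le_sum fun x _ => h3 x
    _ = _ := by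
        unfold mm
        rw [Finset.mul_sum]

/-- **the mass of one arc** -/
theorem cm_le {B : Fin 3 → Bool → OrthonormalBasis (Fin 3) ℝ E3} [IsFiniteMeasure σ]
    (h : PM K σ) (hp : ∀ x ∈ K, Pl a x)
    (hB : ∀ m e, Fr (fun i => a (pr m e i)) (B m e)) {s : Fin 4 → ℝ} (hs : ∀ i, 0 ≤ s i)
    (hQ : ∀ i, ∀ q ∈ K, Qv a i q ≤ s i) (m : Fin 3) (e i : Bool)
    (hd : 0 ≤ 1 - 2 * (s (pf m e 0) + s (pf m e 1)) - 1.54 * (s (pf m e 0) - s (pf m e 1)) ^ 2) :
    (1 - 2 * (s (pf m e 0) + s (pf m e 1)) - 1.54 * (s (pf m e 0) - s (pf m e 1)) ^ 2) *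
        cm σ a m e i ≤
      2 * fAs + 9.2 * ((0.0393 + 0.2358 * s (pf m e 2)) * s (pf m e 2) +
        (0.0393 + 0.2358 * s (pf m e 3)) * s (pf m e 3)) := by
  have ha' := hap ha m e
  have hb : Fr (ap a m e) (B m e) := hB m e
  have hc : cen (ap a m e) = cen a := cen_perm _
  have hp' : ∀ x ∈ K, Pl (ap a m e) x := fun x hx => Pl_perm _ (hp x hx)
  have ht : √2 / 4 = t := by unfold t; ring
  obtain ⟨v0, v1, v2, v3⟩ := co_vert ha' hb
  rw [ht] at v0 v1 v2 v3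
  have hpr : ∀ᵐ z ∂σ, z.1 ∈ K ∧ z.2 ∈ K ∧ ‖z.1 - z.2‖ = 1 := by
    filter_upwards [h.ae] with z hz using ⟨hz.1, hz.2.1, hz.2.2.1⟩
  have hX : ∀ x ∈ K, |(co (B m e) (cen (ap a m e)) x).1| ≤ 1 / 2 := by
    intro x hx
    have h1 := (pl_e (hgp ha m e) (hp' x hx)).2.1
    have h2 := (frame_e (hgp ha m e) hb.1 hb.2.1 hb.2.2 x).1
    have h3 : (co (B m e) (cen (ap a m e)) x).1 = ⟪B m e 0, x - cen (ap a m e)⟫ := rfl
    rw [h3, h2]
    exact h1
  have hq : ∀ j, ∀ x ∈ K, ‖x - ap a m e j‖ ^ 2 - 1 ≤ s (pf m e j) :=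
    fun j x hx => hQ (pf m e j) x hx
  set ε : ℝ := if i then -1 else 1 with hε
  have hε2 : ε ^ 2 = 1 := by
    rw [hε]
    split_ifs <;> norm_num
  have h1 := mass_s (b := B m e) (c := cen (ap a m e)) (σ := σ) h.cpt hpr h.flux hX v0 v1 v2 v3
    (hq 0) (hq 1) (hq 2) (hq 3) hε2
  have hA := Ast_AsE ha' hb
  have e1 : ∫ x in Ast (B m e) (cen (ap a m e)) (ap a m e 2) (ap a m e 3),
      dvF (B m e) (cen (ap a m e)) x = fAs := by
    rw [hA]
    exact int_dvE_As _ _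
  rw [e1, Pool.Agent.Helper73.MEI.EC_Zp ha' hb] at h1
  have h2 : volume.real (Rg (B m e) (cen (ap a m e)) (ap a m e 2) (ap a m e 3)
      (s (pf m e 2)) (s (pf m e 3))) ≤
      (0.0393 + 0.2358 * s (pf m e 2)) * s (pf m e 2) +
        (0.0393 + 0.2358 * s (pf m e 3)) * s (pf m e 3) := by
    unfold Rg
    rw [hA]
    apply Helper72.MEI.beta_gen ha' hb _ (hs _) (hs _)
    · intro q hq
      exact hq.2.1
    · intro q hq
      exact hq.2.2
    · intro q hq
      have h3 := hq.1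
      have h4 := (frame_e (hgp ha m e) hb.1 hb.2.1 hb.2.2 q).1
      have h5 : (co (B m e) (cen (ap a m e)) q).1 = ⟪B m e 0, q - cen (ap a m e)⟫ := rfl
      rw [h5, h4] at h3
      exact h3
  have h3 : cm σ a m e i ≤ ∫ z in Zp (ap a m e) 2 3, wD (B m e) (cen (ap a m e)) ε z.1 ∂σ := by
    have e2 : ∀ x, wD (B m e) (cen (ap a m e)) ε x = wt (ap a m e) i x := by
      intro x
      obtain ⟨w0, w1⟩ := wt_wD (hgp ha m e) hb x
      rw [hε]
      cases i
      · simp only [Bool.false_eq_true, if_false]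
        exact w0.symm
      · simp only [if_true]
        exact w1.symm
    simp only [e2]
    unfold cm EE
    apply setIntegral_mono_set
    · exact (cont_int h.cpt h.mem ((wt_cont (ap a m e) i).comp continuous_fst)).integrableOn
    · filter_upwards [ae_restrict_of_ae h.mem] with z hz
      exact wt_nonneg (hgp ha m e) i (hp' _ hz.1)
    · exact LE.le.eventuallyLE inter_subset_left
  have h4 := mul_le_mul_of_nonneg_left h3 hd
  linarith

end

end Helper37.MEI
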