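import Pool.Agent.Helper37.MEI.ECF

/-!
# Project MEI (M2): the weighted mass of the edge cell
-/

namespace Helper37.MEI

open Set Metric MeasureTheory Helper80.CW
open Helper22.MEI (t s Fa Fb Fc FD FD_pos)
open Helper22.Wedge (co fld EC ib ibv norm_co)
open Helper22.Sig (dvg Cel Tang S2_cell)
open Pool.Agent.Helper8.MEI (DD DD_pos DD_ge divF NU)
open Helper93.MEI
open scoped ContDiff RealInnerProductSpace Real

/-- components of `4 w F`, `w = 1/2 + 7 ε x / 16` -/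
noncomputable def Ha (ε : ℝ) (q : ℝ × ℝ × ℝ) : ℝ := (2 + ε * (7 / 4) * q.1) * Fa q
noncomputable def Hb (ε : ℝ) (q : ℝ × ℝ × ℝ) : ℝ := (2 + ε * (7 / 4) * q.1) * Fb q
noncomputable def Hc (ε : ℝ) (q : ℝ × ℝ × ℝ) : ℝ := (2 + ε * (7 / 4) * q.1) * Fc q

theorem Ha_cd (ε : ℝ) : ContDiff ℝ ∞ (Ha ε) := by
  have := Fa_cdn (n := ∞)
  unfold Ha
  fun_prop

theorem Hb_cd (ε : ℝ) : ContDiff ℝ ∞ (Hb ε) := by
  have := Fb_cdn (n := ∞)
  unfold Hb
  fun_prop

theorem Hc_cd (ε : ℝ) : ContDiff ℝ ∞ (Hc ε) := by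
  have := Fc_cdn (n := ∞)
  unfold Hc
  fun_prop

/-- odd part of the divergence -/
noncomputable def ho (q : ℝ × ℝ × ℝ) : ℝ := 7 / 4 * (q.1 * divF q.1 q.2.1 (q.2.2 - t) + Fa q)

/-- divergence of `4 w F` -/
noncomputable def gH (ε : ℝ) (q : ℝ × ℝ × ℝ) : ℝ := 2 * divF q.1 q.2.1 (q.2.2 - t) + ε * ho q

section
variable (b : OrthonormalBasis (Fin 3) ℝ E3) (c : E3)

theorem fld_H (ε : ℝ) (x : E3) : fld b c (Ha ε) (Hb ε) (Hc ε) x =
    (2 + ε * (7 / 4) * (co b c x).1) • fld b c Fa Fb Fc x := by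
  unfold fld Ha Hb Hc
  simp only [smul_add, smul_smul]

theorem inner_b0 (G1 G2 G3 : ℝ × ℝ × ℝ → ℝ) (x : E3) :
    ⟪b 0, fld b c G1 G2 G3 x⟫ = G1 (co b c x) := by
  obtain ⟨⟨i00, i01, i02⟩, _, _⟩ := ibv b
  unfold fld
  rw [inner_add_right, inner_add_right, inner_smul_right, inner_smul_right, inner_smul_right,
    i00, i01, i02]
  ring

theorem dvg_H (ε : ℝ) (x : E3) : dvg (fld b c (Ha ε) (Hb ε) (Hc ε)) x = gH ε (co b c x) := by
  have e1 : fld b c (Ha ε) (Hb ε) (Hc ε) = fun y =>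
      (2 + ε * (7 / 4) * (co b c y).1) • fld b c Fa Fb Fc y := funext fun y => fld_H b c ε y
  have h0 : HasFDerivAt (fun y : E3 => 2 + ε * (7 / 4) * (co b c y).1)
      ((ε * (7 / 4)) • innerSL ℝ (b 0)) x :=
    ((Helper22.Wedge.ip_hasFDerivAt c (b 0) x).const_mul (ε * (7 / 4))).const_add 2
  rw [e1, Helper22.Sig.dvg_smul h0.differentiableAt
    ((Helper22.Sig.fld_cd b c (n := ∞) Fa_cdn Fb_cdn Fc_cdn).differentiable (by simp) x),
    Helper22.Sig.dvg_fld b c Fa_cdn Fb_cdn Fc_cdn, Helper22.MEI.dv_F, h0.fderiv]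
  have e2 : ((ε * (7 / 4)) • innerSL ℝ (b 0)) (fld b c Fa Fb Fc x) =
      ε * (7 / 4) * Fa (co b c x) := by
    rw [_root_.smul_apply, innerSL_apply_apply, inner_b0, smul_eq_mul]
  rw [e2]
  unfold gH ho
  ring

end

/-! ### bounds of the integrand -/

theorem abs_one_of_sq {ε : ℝ} (h : ε ^ 2 = 1) : |ε| = 1 := by
  have h1 := sq_abs ε
  rw [h] at h1
  exact (pow_eq_one_iff_of_nonneg (abs_nonneg ε) two_ne_zero).1 h1

theorem gH_nonneg {ε : ℝ} (hε : ε ^ 2 = 1) {q : ℝ × ℝ × ℝ} (hq : |q.1| ≤ 1 / 2) :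
    0 ≤ gH ε q := by
  obtain ⟨k1, k2⟩ := abs_le.1 hq
  have hD := DD_pos q.1 q.2.1 (q.2.2 - t)
  have e1 : gH ε q = ((2 + ε * (7 / 4) * q.1) * NU q.1 q.2.1 (q.2.2 - t) +
      ε * (63 / 128) * q.1 * DD q.1 q.2.1 (q.2.2 - t)) / DD q.1 q.2.1 (q.2.2 - t) ^ 2 := by
    unfold gH ho divF Fa
    have e2 : FD q = DD q.1 q.2.1 (q.2.2 - t) := rfl
    rw [e2]
    field_simp
    ring
  rw [e1]
  apply div_nonneg _ (by positivity)
  set x := ε * q.1 with hx
  have hx2 : |x| ≤ 1 / 2 := by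
    rw [hx, abs_mul]
    have : |ε| = 1 := abs_one_of_sq hε
    rw [this, one_mul]
    exact hq
  obtain ⟨m1, m2⟩ := abs_le.1 hx2
  have e3 : (2 + ε * (7 / 4) * q.1) = 2 + 7 / 4 * x := by rw [hx]; ring
  have e4 : ε * (63 / 128) * q.1 = 63 / 128 * x := by rw [hx]; ring
  rw [e3, e4]
  have h1 : 7 / 8 * DD q.1 q.2.1 (q.2.2 - t) / 4 ≤ NU q.1 q.2.1 (q.2.2 - t) := by
    unfold NU DD
    nlinarith [sq_nonneg q.1, sq_nonneg q.2.1, sq_nonneg (q.2.2 - t)]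
  nlinarith [mul_nonneg (by linarith : 0 ≤ 2 + 7 / 4 * x - 9 / 8) (sub_nonneg.2 h1),
    mul_nonneg (by linarith : 0 ≤ x + 1 / 2) hD.le]

theorem gH_le {ε : ℝ} (hε : ε ^ 2 = 1) {q : ℝ × ℝ × ℝ} (hq : |q.1| ≤ 1 / 2) :
    gH ε q ≤ 16 := by
  have hD := DD_ge q.1 q.2.1 (q.2.2 - t)
  have hd := Helper93.MEI.divF_le q.1 q.2.1 (q.2.2 - t)
  have hd0 := (Helper78.MEI.div_pos q.1 q.2.1 (q.2.2 - t)).le
  set x := ε * q.1 with hx
  have hx2 : |x| ≤ 1 / 2 := by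
    rw [hx, abs_mul]
    have : |ε| = 1 := abs_one_of_sq hε
    rw [this, one_mul]
    exact hq
  obtain ⟨m1, m2⟩ := abs_le.1 hx2
  have e1 : gH ε q = (2 + 7 / 4 * x) * divF q.1 q.2.1 (q.2.2 - t) +
      63 / 128 * x / DD q.1 q.2.1 (q.2.2 - t) := by
    unfold gH ho Fa
    have e2 : FD q = DD q.1 q.2.1 (q.2.2 - t) := rfl
    rw [e2, hx]
    ring
  rw [e1]
  have h1 : 63 / 128 * x / DD q.1 q.2.1 (q.2.2 - t) ≤ 1 := by
    rw [div_le_iff₀ (by linarith)]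
    linarith
  nlinarith [mul_nonneg (by linarith : 0 ≤ 1 / 2 - x) hd0]

/-! ### reflection -/

section
variable (b : OrthonormalBasis (Fin 3) ℝ E3) (c : E3)

/-- the reflection `X ↦ -X` -/
noncomputable def Lr : E3 ≃ₗᵢ[ℝ] E3 := (ℝ ∙ b 0)ᗮ.reflection

theorem Lr_apply (v : E3) : Lr b v = v - (2 * ⟪b 0, v⟫) • b 0 := by
  unfold Lr
  rw [Submodule.reflection_orthogonal_apply, Submodule.reflection_singleton_apply]
  have h : ‖b 0‖ = 1 := b.norm_eq_one 0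
  rw [h]
  module

/-- affine reflection as a homeomorphism -/
noncomputable def Rr : E3 ≃ₜ E3 :=
  ((Homeomorph.subRight c).trans (Lr b).toHomeomorph).trans (Homeomorph.addRight c)

theorem Rr_apply (x : E3) : Rr b c x = Lr b (x - c) + c := rfl

theorem Rr_mp : MeasurePreserving (Rr b c) := by
  have h1 : MeasurePreserving (fun x : E3 => x - c) := measurePreserving_sub_right volume c
  have h2 : MeasurePreserving (Lr b) := (Lr b).measurePreserving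
  have h3 : MeasurePreserving (fun x : E3 => x + c) := measurePreserving_add_right volume c
  exact (h3.comp h2).comp h1

theorem co_Rr (x : E3) : co b c (Rr b c x) = (-(co b c x).1, (co b c x).2.1, (co b c x).2.2) := by
  obtain ⟨⟨i00, i01, i02⟩, ⟨i10, i11, i12⟩, ⟨i20, i21, i22⟩⟩ := ibv b
  have e1 : Rr b c x - c = (x - c) - (2 * ⟪b 0, x - c⟫) • b 0 := by
    rw [Rr_apply, Lr_apply]
    abel
  unfold co
  rw [e1]
  simp only [inner_sub_right, inner_smul_right, i00, i10, i20]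
  refine Prod.ext ?_ (Prod.ext ?_ ?_)
  · simp only; ring
  · simp only; ring
  · simp only; ring

variable {a3 a4 : E3}

theorem Rr_norm {a : E3} {y z : ℝ} (ha : co b c a = (0, y, z)) (x : E3) :
    ‖Rr b c x - a‖ = ‖x - a‖ := by
  have h1 := norm_co b c (Rr b c x) a
  have h2 := norm_co b c x a
  rw [co_Rr, ha] at h1
  rw [ha] at h2
  simp only at h1 h2
  have h3 : ‖Rr b c x - a‖ ^ 2 = ‖x - a‖ ^ 2 := by rw [h1, h2]; ring
  exact (sq_eq_sq₀ (norm_nonneg _) (norm_nonneg _)).1 h3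

theorem Rr_Ast (ha3 : co b c a3 = (0, 1 / 2, -t)) (ha4 : co b c a4 = (0, -(1 / 2), -t)) :
    Rr b c ⁻¹' Ast b c a3 a4 = Ast b c a3 a4 := by
  ext x
  have h3 := Rr_norm b c ha3 x
  have h4 := Rr_norm b c ha4 x
  have h5 : Rr b c x ∈ EC b c ↔ x ∈ EC b c := by
    show |(co b c (Rr b c x)).2.1| < s * ((co b c (Rr b c x)).2.2 - t) ↔
      |(co b c x).2.1| < s * ((co b c x).2.2 - t)
    rw [co_Rr]
  show (Rr b c x ∈ EC b c ∧ ‖Rr b c x - a3‖ ≤ 1 ∧ ‖Rr b c x - a4‖ ≤ 1) ↔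
    (x ∈ EC b c ∧ ‖x - a3‖ ≤ 1 ∧ ‖x - a4‖ ≤ 1)
  rw [h3, h4, h5]

theorem ho_odd (x y z : ℝ) : ho (-x, y, z) = - ho (x, y, z) := by
  have e1 : divF (-x) y (z - t) = divF x y (z - t) := by
    unfold divF NU DD
    ring_nf
  have e2 : FD (-x, y, z) = FD (x, y, z) := by
    unfold FD
    simp only
    ring
  unfold ho Fa
  simp only
  rw [e1, e2]
  ring

/-- the odd part has integral zero -/
theorem int_ho (ha3 : co b c a3 = (0, 1 / 2, -t)) (ha4 : co b c a4 = (0, -(1 / 2), -t)) :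
    ∫ x in Ast b c a3 a4, ho (co b c x) = 0 := by
  have h1 := (Rr_mp b c).setIntegral_preimage_emb (Rr b c).measurableEmbedding
    (fun x => ho (co b c x)) (Ast b c a3 a4)
  rw [Rr_Ast b c ha3 ha4] at h1
  have h2 : ∀ x, ho (co b c (Rr b c x)) = - ho (co b c x) := by
    intro x
    rw [co_Rr]
    exact ho_odd _ _ _
  simp only [h2] at h1
  rw [integral_neg] at h1
  linarith

theorem ho_cont : Continuous (fun x => ho (co b c x)) := by
  have h := co_cont b c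
  have h1 := dvF_cont b c
  have h2 : Continuous (fun x => Fa (co b c x)) := (Fa_cdn (n := 1)).continuous.comp h
  have e1 : (fun x => ho (co b c x)) =
      fun x => 7 / 4 * ((co b c x).1 * dvF b c x + Fa (co b c x)) := rfl
  rw [e1]
  fun_prop

theorem Ast_X (ha3 : co b c a3 = (0, 1 / 2, -t)) (ha4 : co b c a4 = (0, -(1 / 2), -t)) {x : E3}
    (hx : x ∈ Ast b c a3 a4) : |(co b c x).1| ≤ 1 / 2 := by
  have h1 := Helper78.MEI.star_r b c (p := x) ha3 ha4 (η := 0)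
    (by nlinarith [norm_nonneg (x - a3), hx.2.1]) (by nlinarith [norm_nonneg (x - a4), hx.2.2])
  have h2 := Helper78.MEI.EC_w b c hx.1
  rw [abs_le]
  have h3 := abs_nonneg (co b c x).2.1
  have h4 : 0 ≤ √2 * ((co b c x).2.2 - t) := by positivity
  have h5 := sq_nonneg (co b c x).2.1
  have h6 := sq_nonneg ((co b c x).2.2 - t)
  constructor <;> nlinarith

theorem int_gH (ha3 : co b c a3 = (0, 1 / 2, -t)) (ha4 : co b c a4 = (0, -(1 / 2), -t))
    (ε : ℝ) :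
    ∫ x in Ast b c a3 a4, gH ε (co b c x) = 2 * ∫ x in Ast b c a3 a4, dvF b c x := by
  have hf := Ast_fin b c a3 a4
  have i1 : IntegrableOn (fun x => 2 * dvF b c x) (Ast b c a3 a4) := (dvF_int b c hf).const_mul 2
  have i2 : IntegrableOn (fun x => ε * ho (co b c x)) (Ast b c a3 a4) := by
    apply Integrable.const_mul
    have hcl : Ast b c a3 a4 ⊆ closedBall a3 1 := by
      intro x hx
      rw [mem_closedBall, dist_eq_norm]
      exact hx.2.1
    exact ((ho_cont b c).continuousOn.integrableOn_compact (isCompact_closedBall a3 1)).mono_set hcl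
  have e1 : ∀ x, gH ε (co b c x) = 2 * dvF b c x + ε * ho (co b c x) := fun x => rfl
  simp only [e1]
  rw [integral_add i1 i2, integral_const_mul, integral_const_mul, int_ho b c ha3 ha4]
  ring

end

section
variable {b : OrthonormalBasis (Fin 3) ℝ E3} {c : E3} {K : Set E3} {a1 a2 a3 a4 : E3}
  {s1 s2 : ℝ} {σ : Measure (E3 × E3)}

theorem gH_cont (ε : ℝ) : Continuous (fun x => gH ε (co b c x)) := by
  have h1 := dvF_cont b c
  have h2 := ho_cont b c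
  have e1 : (fun x => gH ε (co b c x)) = fun x => 2 * dvF b c x + ε * ho (co b c x) := rfl
  rw [e1]
  fun_prop

/-- volume side of the weighted identity -/
theorem vol_side_w (hK : IsCompact K) (hX : ∀ x ∈ K, |(co b c x).1| ≤ 1 / 2)
    (ha3 : co b c a3 = (0, 1 / 2, -t)) (ha4 : co b c a4 = (0, -(1 / 2), -t)) {ε : ℝ}
    (hε : ε ^ 2 = 1) :
    ∫ x in K ∩ EC b c, gH ε (co b c x) ≤
      2 * (∫ x in Ast b c a3 a4, dvF b c x) +
        16 * volume.real ((K ∩ EC b c) \ Ast b c a3 a4) := by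
  have hm := Ast_meas b c a3 a4
  have hKi : IntegrableOn (fun x => gH ε (co b c x)) K :=
    (gH_cont ε).continuousOn.integrableOn_compact hK
  have hKZ : IntegrableOn (fun x => gH ε (co b c x)) (K ∩ EC b c) := hKi.mono_set inter_subset_left
  have hcl : Ast b c a3 a4 ⊆ closedBall a3 1 := by
    intro x hx
    rw [mem_closedBall, dist_eq_norm]
    exact hx.2.1
  have hAi : IntegrableOn (fun x => gH ε (co b c x)) (Ast b c a3 a4) :=
    ((gH_cont ε).continuousOn.integrableOn_compact (isCompact_closedBall a3 1)).mono_set hcl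
  have h1 := integral_inter_add_sdiff hm hKZ
  rw [← h1, ← int_gH b c ha3 ha4 ε]
  have hd : volume ((K ∩ EC b c) \ Ast b c a3 a4) ≠ ⊤ :=
    ((measure_mono (sdiff_subset.trans inter_subset_left)).trans_lt hK.measure_lt_top).ne
  apply add_le_add
  · apply setIntegral_mono_set hAi
    · filter_upwards [ae_restrict_mem hm] with x hx using gH_nonneg hε (Ast_X b c ha3 ha4 hx)
    · exact LE.le.eventuallyLE inter_subset_right
  · have h2 : ∫ x in (K ∩ EC b c) \ Ast b c a3 a4, gH ε (co b c x) ≤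
        ∫ x in (K ∩ EC b c) \ Ast b c a3 a4, (16 : ℝ) := by
      apply setIntegral_mono_on (hKZ.mono_set sdiff_subset) (integrableOn_const hd)
      · exact (hK.measurableSet.inter (EC_open b c).measurableSet).diff hm
      · intro x hx
        exact gH_le hε (hX x hx.1.1)
    refine h2.trans (le_of_eq ?_)
    rw [setIntegral_const, smul_eq_mul, mul_comm]

/-- the weight density -/
noncomputable def wD (b : OrthonormalBasis (Fin 3) ℝ E3) (c : E3) (ε : ℝ) (x : E3) : ℝ :=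
  (1 / 2 + ε * (7 / 16) * (co b c x).1) / (4 * FD (co b c x))

theorem wD_cont (ε : ℝ) : Continuous (wD b c ε) := by
  have h := co_cont b c
  have h1 : Continuous (fun x => FD (co b c x)) := (FD_cdn (n := 1)).continuous.comp h
  unfold wD
  refine Continuous.div (by fun_prop) (by fun_prop) fun x => ?_
  have := FD_pos (co b c x)
  positivity

theorem cont_int [IsFiniteMeasure σ] (hK : IsCompact K) (hσ : ∀ᵐ z ∂σ, z.1 ∈ K ∧ z.2 ∈ K)
    {g : E3 × E3 → ℝ} (hg : Continuous g) : Integrable g σ := by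
  obtain ⟨C, hC⟩ := (hK.prod hK).exists_bound_of_continuousOn hg.continuousOn
  apply Integrable.mono' (integrable_const C) hg.aestronglyMeasurable
  filter_upwards [hσ] with z hz
  exact hC z ⟨hz.1, hz.2⟩

/-- pointwise bound (E1) -/
theorem wD_le {z : E3 × E3} (hX : |(co b c z.1).1| ≤ 1 / 2) (hz : ‖z.1 - z.2‖ = 1)
    (ha1 : co b c a1 = (1 / 2, 0, t)) (ha2 : co b c a2 = (-(1 / 2), 0, t))
    (h1 : ‖z.2 - a1‖ ^ 2 - 1 ≤ s1) (h2 : ‖z.2 - a2‖ ^ 2 - 1 ≤ s2) {ε : ℝ} (hε : ε ^ 2 = 1) :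
    (1 - 2 * (s1 + s2) - 1.54 * (s1 - s2) ^ 2) * wD b c ε z.1 ≤
      ⟪fld b c (Ha ε) (Hb ε) (Hc ε) z.1, z.1 - z.2⟫ := by
  rw [fld_H, inner_smul_left, Helper78.MEI.edge_id b c hz ha1 ha2]
  obtain ⟨k1, k2⟩ := abs_le.1 hX
  have hDpos := FD_pos (co b c z.1)
  have hDe : FD (co b c z.1) = 1 / 4 + (co b c z.1).1 ^ 2 / 8 +
      ((co b c z.1).2.1 ^ 2 + ((co b c z.1).2.2 - t) ^ 2) := rfl
  set X := (co b c z.1).1 with hXd
  set D := FD (co b c z.1) with hDd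
  set e1 := 1 - ‖z.2 - a1‖ ^ 2 with he1
  set e2 := 1 - ‖z.2 - a2‖ ^ 2 with he2
  set w := 1 / 2 + ε * (7 / 16) * X with hw
  have hεX : |ε * X| ≤ 1 / 2 := by
    rw [abs_mul]
    have : |ε| = 1 := abs_one_of_sq hε
    rw [this, one_mul]
    exact hX
  obtain ⟨m1, m2⟩ := abs_le.1 hεX
  have hw0 : 0 ≤ w := by rw [hw]; nlinarith
  have e4 : (starRingEnd ℝ) (2 + ε * (7 / 4) * X) = 4 * w := by
    rw [hw, conj_trivial]
    ring
  rw [e4]
  have e5 : wD b c ε z.1 = w / (4 * D) := rfl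
  rw [e5]
  have hn : (1 - 2 * (s1 + s2) - 1.54 * (s1 - s2) ^ 2) / 4 ≤
      D + ((1 / 2 + 7 / 16 * X) * e1 + (1 / 2 - 7 / 16 * X) * e2) := by
    have g1 : (1 / 2 + 7 / 16 * X) * (-s1) ≤ (1 / 2 + 7 / 16 * X) * e1 :=
      mul_le_mul_of_nonneg_left (by linarith) (by linarith)
    have g2 : (1 / 2 - 7 / 16 * X) * (-s2) ≤ (1 / 2 - 7 / 16 * X) * e2 :=
      mul_le_mul_of_nonneg_left (by linarith) (by linarith)
    have g3 : 1 / 4 + X ^ 2 / 8 ≤ D := by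
      rw [hDe]
      nlinarith [sq_nonneg (co b c z.1).2.1, sq_nonneg ((co b c z.1).2.2 - t)]
    nlinarith [sq_nonneg (X - 7 / 4 * (s1 - s2)), sq_nonneg (s1 - s2)]
  have e6 : 4 * w * (1 / 4 + ((1 / 2 + 7 / 16 * X) * e1 + (1 / 2 - 7 / 16 * X) * e2) / (4 * D)) =
      w / D * (D + ((1 / 2 + 7 / 16 * X) * e1 + (1 / 2 - 7 / 16 * X) * e2)) := by
    field_simp
  rw [e6]
  have e7 : (1 - 2 * (s1 + s2) - 1.54 * (s1 - s2) ^ 2) * (w / (4 * D)) =
      w / D * ((1 - 2 * (s1 + s2) - 1.54 * (s1 - s2) ^ 2) / 4) := by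
    field_simp
  rw [e7]
  exact mul_le_mul_of_nonneg_left hn (by positivity)

/-- **MASS LEMMA** (E2) -/
theorem mass [IsFiniteMeasure σ] (hK : IsCompact K)
    (hpr : ∀ᵐ z ∂σ, z.1 ∈ K ∧ z.2 ∈ K ∧ ‖z.1 - z.2‖ = 1)
    (hU : ∀ G : E3 → E3, ContDiff ℝ ∞ G → ∫ z, ⟪G z.1, z.1 - z.2⟫ ∂σ = ∫ x in K, dvg G x)
    (hX : ∀ x ∈ K, |(co b c x).1| ≤ 1 / 2)
    (ha1 : co b c a1 = (1 / 2, 0, t)) (ha2 : co b c a2 = (-(1 / 2), 0, t))
    (ha3 : co b c a3 = (0, 1 / 2, -t)) (ha4 : co b c a4 = (0, -(1 / 2), -t))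
    (h1 : ∀ x ∈ K, ‖x - a1‖ ^ 2 - 1 ≤ s1) (h2 : ∀ x ∈ K, ‖x - a2‖ ^ 2 - 1 ≤ s2)
    {ε : ℝ} (hε : ε ^ 2 = 1) :
    (1 - 2 * (s1 + s2) - 1.54 * (s1 - s2) ^ 2) *
        (∫ z in {z : E3 × E3 | z.1 ∈ EC b c}, wD b c ε z.1 ∂σ) ≤
      2 * (∫ x in Ast b c a3 a4, dvF b c x) +
        16 * volume.real ((K ∩ EC b c) \ Ast b c a3 a4) := by
  have hσ : ∀ᵐ z ∂σ, z.1 ∈ K ∧ z.2 ∈ K := by
    filter_upwards [hpr] with z hz using ⟨hz.1, hz.2.1⟩
  have hfl := EC_flux (b := b) (c := c) hK hσ hU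
    (ψ := fun q => (2 + ε * (7 / 4) * q.1) * (1 / 2 / FD q)) (Ha_cd ε) (Hb_cd ε) (Hc_cd ε)
    (fun q => by unfold Hb Fb; ring) (fun q => by unfold Hc Fc; ring)
  have e1 : ∫ x in K ∩ EC b c, dvg (fld b c (Ha ε) (Hb ε) (Hc ε)) x =
      ∫ x in K ∩ EC b c, gH ε (co b c x) := by
    apply setIntegral_congr_fun (hK.measurableSet.inter (EC_open b c).measurableSet)
    intro x _
    exact dvg_H b c ε x
  rw [e1] at hfl
  have h3 := vol_side_w (b := b) (c := c) hK hX ha3 ha4 hε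
  rw [← hfl] at h3
  refine le_trans ?_ h3
  rw [← integral_const_mul]
  have i1 : Integrable (fun z : E3 × E3 =>
      (1 - 2 * (s1 + s2) - 1.54 * (s1 - s2) ^ 2) * wD b c ε z.1) σ := by
    apply cont_int hK hσ
    have := wD_cont (b := b) (c := c) ε
    fun_prop
  have i2 : Integrable (fun z : E3 × E3 => ⟪fld b c (Ha ε) (Hb ε) (Hc ε) z.1, z.1 - z.2⟫) σ := by
    apply cont_int hK hσ
    have : Continuous (fld b c (Ha ε) (Hb ε) (Hc ε)) :=
      (Helper22.Sig.fld_cd b c (Ha_cd ε) (Hb_cd ε) (Hc_cd ε)).continuous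
    fun_prop
  apply integral_mono_ae i1.integrableOn i2.integrableOn
  filter_upwards [ae_restrict_of_ae hpr] with z hz
  exact wD_le (hX _ hz.1) hz.2.2 ha1 ha2 (h1 _ hz.2.1) (h2 _ hz.2.1) hε

end

end Helper37.MEI
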