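import Mathlib

/-!
# Project MEI (M2): a coordinate beyond the far end of the opposite edge, sharper, algebra

`x` in the cell of `01`, `|x - q| = 1`, `r = -b_3(q)`, `s = b_0(q) + b_1(q)`, `z = - q_X`,
`X = 2 x_X`: `r ≤ ε b_2(q) + κ X (X / 2 + z)` with `ε`, `κ` affine in the levels.
-/

set_option autoImplicit false


namespace Helper37.Neg

/-- the pointwise bound -/
def Key (T0 k0 kA kB eA eB : ℝ) : Prop :=
  ∀ X z s r S0 S2 S3 : ℝ, 0 ≤ X → X ≤ 1 → 0 ≤ r → 2 * r ≤ s → 0 ≤ S0 → 0 ≤ S2 → 0 ≤ S3 →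
    S0 + S2 + S3 ≤ T0 → r + s / 2 ≤ S2 + S3 + X * z → (1 - X) * z ≤ S0 + S2 →
    r + r ^ 2 - s * r + z + z ^ 2 ≤ 3 / 2 * s - 3 / 4 * s ^ 2 + S0 →
    r ≤ (eA * (S2 + S3) + eB * (S0 + S2)) * (1 - s + r) +
      (k0 + kA * (S2 + S3) + kB * S0) * (X * (X / 2 + z))

/-- the remainder -/
noncomputable def GG (l7 l5 l3 e k A B T X z s r : ℝ) : ℝ :=
  (e - l7 * A - l5 * B - l3 * T) + k * X ^ 2 / 2 + s * (-e + l7 / 2 - 3 / 2 * l5) +
    r * (e - 1 + l7 + l5) + z * (k * X - l7 * X + l5 + l3 * (1 - X)) +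
    l5 * (3 / 4 * s ^ 2 - s * r + r ^ 2 + z ^ 2)

theorem comb {T0 k0 kA kB eA eB l7 l5 l3 X z s r S0 S2 S3 : ℝ} (hT0 : 0 < T0) (h7 : 0 ≤ l7)
    (h5 : 0 ≤ l5) (hl3 : 0 ≤ l3) (h0 : 0 ≤ S0) (h2 : 0 ≤ S2) (h3 : 0 ≤ S3)
    (hT : S0 + S2 + S3 ≤ T0) (c7 : r + s / 2 ≤ S2 + S3 + X * z) (c3 : (1 - X) * z ≤ S0 + S2)
    (c5 : r + r ^ 2 - s * r + z + z ^ 2 ≤ 3 / 2 * s - 3 / 4 * s ^ 2 + S0)
    (g0 : 0 ≤ GG l7 l5 l3 0 k0 0 0 0 X z s r)
    (g1 : 0 ≤ GG l7 l5 l3 (eB * T0) (k0 + kB * T0) 0 T0 T0 X z s r)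
    (g2 : 0 ≤ GG l7 l5 l3 ((eA + eB) * T0) (k0 + kA * T0) T0 0 T0 X z s r)
    (g3 : 0 ≤ GG l7 l5 l3 (eA * T0) (k0 + kA * T0) T0 0 0 X z s r) :
    r ≤ (eA * (S2 + S3) + eB * (S0 + S2)) * (1 - s + r) +
      (k0 + kA * (S2 + S3) + kB * S0) * (X * (X / 2 + z)) := by
  have m0 := mul_nonneg (sub_nonneg.2 hT) g0
  have m1 := mul_nonneg h0 g1
  have m2 := mul_nonneg h2 g2
  have m3 := mul_nonneg h3 g3
  have n7 := mul_nonneg (mul_nonneg hT0.le h7) (sub_nonneg.2 c7)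
  have n3 := mul_nonneg (mul_nonneg hT0.le hl3) (sub_nonneg.2 c3)
  have n5 := mul_nonneg (mul_nonneg hT0.le h5) (sub_nonneg.2 c5)
  have e : T0 * ((eA * (S2 + S3) + eB * (S0 + S2)) * (1 - s + r) +
      (k0 + kA * (S2 + S3) + kB * S0) * (X * (X / 2 + z)) - r) =
      (T0 - (S0 + S2 + S3)) * GG l7 l5 l3 0 k0 0 0 0 X z s r +
      S0 * GG l7 l5 l3 (eB * T0) (k0 + kB * T0) 0 T0 T0 X z s r +
      S2 * GG l7 l5 l3 ((eA + eB) * T0) (k0 + kA * T0) T0 0 T0 X z s r +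
      S3 * GG l7 l5 l3 (eA * T0) (k0 + kA * T0) T0 0 0 X z s r +
      T0 * l7 * (S2 + S3 + X * z - (r + s / 2)) + T0 * l3 * (S0 + S2 - (1 - X) * z) +
      T0 * l5 * (3 / 2 * s - 3 / 4 * s ^ 2 + S0 - (r + r ^ 2 - s * r + z + z ^ 2)) := by
    unfold GG
    ring
  have h : 0 ≤ T0 * ((eA * (S2 + S3) + eB * (S0 + S2)) * (1 - s + r) +
      (k0 + kA * (S2 + S3) + kB * S0) * (X * (X / 2 + z)) - r) := by
    rw [e]
    exact add_nonneg (add_nonneg (add_nonneg (add_nonneg (add_nonneg (add_nonneg m0 m1) m2) m3)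
      n7) n3) n5
  have := nonneg_of_mul_nonneg_right h hT0
  linarith

theorem reg1 {T0 k0 kA kB eA eB l7 X z s r S0 S2 S3 : ℝ} (hT0 : 0 < T0) (hk0 : 0 ≤ k0)
    (hkA : 0 ≤ kA) (hkB : 0 ≤ kB) (heA : l7 ≤ eA) (heB : 0 ≤ eB) (hk : k0 + (kA + kB) * T0 ≤ l7)
    (he : 1 + (eA + eB) * T0 ≤ 2 * l7) (he2 : (eA + eB) * T0 + l7 ≤ 1) (hX0 : 0 ≤ X)
    (hX1 : X < 1) (hr : 0 ≤ r)
    (hs : 2 * r ≤ s) (h0 : 0 ≤ S0) (h2 : 0 ≤ S2) (h3 : 0 ≤ S3) (hT : S0 + S2 + S3 ≤ T0)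
    (c7 : r + s / 2 ≤ S2 + S3 + X * z) (c3 : (1 - X) * z ≤ S0 + S2)
    (g0 : 0 ≤ T0 * ((1 - X) * (eB + kB * X ^ 2 / 2) - X * (l7 - k0)) +
      (1 - X) * (k0 * X ^ 2 / 2))
    (g2 : 0 ≤ T0 * ((1 - X) * (eA + eB - l7 + kA * X ^ 2 / 2) - X * (l7 - k0)) +
      (1 - X) * (k0 * X ^ 2 / 2)) :
    r ≤ (eA * (S2 + S3) + eB * (S0 + S2)) * (1 - s + r) +
      (k0 + kA * (S2 + S3) + kB * S0) * (X * (X / 2 + z)) := by
  have hX : 0 < 1 - X := by linarith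
  set A := S2 + S3 with hA
  set T := S0 + S2 with hTd
  set e := eA * A + eB * T with he0
  set k := k0 + kA * A + kB * S0 with hk1
  have A0 : 0 ≤ A := by rw [hA]; linarith
  have T1 : 0 ≤ T := by rw [hTd]; linarith
  have A1 : A ≤ T0 := by rw [hA]; linarith
  have T2 : T ≤ T0 := by rw [hTd]; linarith
  have eA0 : 0 ≤ eA := by
    by_contra hcon
    rw [not_le] at hcon
    nlinarith
  have e1 : e ≤ (eA + eB) * T0 := by
    have k1 := mul_le_mul_of_nonneg_left A1 eA0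
    have k2 := mul_le_mul_of_nonneg_left T2 heB
    rw [he0]; linarith
  have e0 : 0 ≤ e := add_nonneg (mul_nonneg eA0 A0) (mul_nonneg heB T1)
  have kk : k ≤ l7 := by
    have k1 := mul_le_mul_of_nonneg_left A1 hkA
    have k2 := mul_le_mul_of_nonneg_left (show S0 ≤ T0 by linarith) hkB
    rw [hk1]; linarith
  have kk0 : k0 ≤ k := by
    have k1 := mul_nonneg hkA A0
    have k2 := mul_nonneg hkB h0
    rw [hk1]; linarith
  have s0 : 0 ≤ s := by linarith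
  have n7 := mul_nonneg (mul_nonneg hX.le (show 0 ≤ l7 by linarith)) (sub_nonneg.2 c7)
  have n3 := mul_nonneg (mul_nonneg hX0 (sub_nonneg.2 kk)) (sub_nonneg.2 c3)
  have n0 := mul_nonneg (mul_nonneg hX.le (show 0 ≤ (1 - l7 - e) / 2 by linarith))
    (sub_nonneg.2 hs)
  have ns := mul_nonneg (mul_nonneg hX.le (show 0 ≤ l7 - 1 / 2 - e / 2 by linarith)) s0
  have nk := mul_nonneg (mul_nonneg hX0 (sub_nonneg.2 kk0)) T1
  have p3 : 0 ≤ T0 * ((1 - X) * (eA - l7 + kA * X ^ 2 / 2)) + (1 - X) * (k0 * X ^ 2 / 2) := by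
    have : 0 ≤ eA - l7 := by linarith
    positivity
  have p0 : 0 ≤ (1 - X) * (k0 * X ^ 2 / 2) := by positivity
  have q0 := mul_nonneg (sub_nonneg.2 hT) p0
  have q1 := mul_nonneg h0 g0
  have q2 := mul_nonneg h2 g2
  have q3 := mul_nonneg h3 p3
  have hR : 0 ≤ (1 - X) * (e + k * X ^ 2 / 2 - l7 * A) - X * (l7 - k0) * T := by
    have e2 : T0 * ((1 - X) * (e + k * X ^ 2 / 2 - l7 * A) - X * (l7 - k0) * T) =
        (T0 - (S0 + S2 + S3)) * ((1 - X) * (k0 * X ^ 2 / 2)) +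
        S0 * (T0 * ((1 - X) * (eB + kB * X ^ 2 / 2) - X * (l7 - k0)) +
          (1 - X) * (k0 * X ^ 2 / 2)) +
        S2 * (T0 * ((1 - X) * (eA + eB - l7 + kA * X ^ 2 / 2) - X * (l7 - k0)) +
          (1 - X) * (k0 * X ^ 2 / 2)) +
        S3 * (T0 * ((1 - X) * (eA - l7 + kA * X ^ 2 / 2)) + (1 - X) * (k0 * X ^ 2 / 2)) := by
      rw [he0, hk1, hA, hTd]; ring
    have e3 : 0 ≤ T0 * ((1 - X) * (e + k * X ^ 2 / 2 - l7 * A) - X * (l7 - k0) * T) := by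
      rw [e2]
      exact add_nonneg (add_nonneg (add_nonneg q0 q1) q2) q3
    exact nonneg_of_mul_nonneg_right e3 hT0
  have fin : (1 - X) * (e * (1 - s + r) + k * (X * (X / 2 + z)) - r) =
      (1 - X) * l7 * (A + X * z - (r + s / 2)) + X * (l7 - k) * (T - (1 - X) * z) +
      (1 - X) * ((1 - l7 - e) / 2) * (s - 2 * r) + (1 - X) * (l7 - 1 / 2 - e / 2) * s +
      X * (k - k0) * T + ((1 - X) * (e + k * X ^ 2 / 2 - l7 * A) - X * (l7 - k0) * T) := by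
    ring
  have h : 0 ≤ (1 - X) * (e * (1 - s + r) + k * (X * (X / 2 + z)) - r) := by
    rw [fin]
    exact add_nonneg (add_nonneg (add_nonneg (add_nonneg (add_nonneg n7 n3) n0) ns) nk) hR
  have := nonneg_of_mul_nonneg_right h hX
  linarith

theorem gA_1_0 {X z s r : ℝ} (h1 : 0.24 ≤ X) (h2 : X ≤ 0.31) (hr : 0 ≤ r) (hs : 2 * r ≤ s) :
    0 ≤ GG (0.5803) (0.0661) (0.0479) (0) (0.136) (0) (0) (0) X z s r := by
  unfold GG
  linarith [sq_nonneg (0.1322 * z + (-0.4922) * X + 0.114), sq_nonneg (0.1322 * (r - s / 2) + (0)),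
    sq_nonneg (0.0661 * s + (0)), mul_nonneg (sub_nonneg.2 h1) (sub_nonneg.2 h2)]

theorem gA_1_1 {X z s r : ℝ} (h1 : 0.24 ≤ X) (h2 : X ≤ 0.31) (hr : 0 ≤ r) (hs : 2 * r ≤ s) :
    0 ≤ GG (0.5803) (0.0661) (0.0479) (0.006328) (0.173064) (0) (0.0904) (0.0904) X z s r := by
  unfold GG
  linarith [sq_nonneg (0.1322 * z + (-0.455136) * X + 0.114), sq_nonneg (0.1322 * (r - s / 2) + (0)),
    sq_nonneg (0.0661 * s + (0)), mul_nonneg (sub_nonneg.2 h1) (sub_nonneg.2 h2)]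

theorem gA_1_2 {X z s r : ℝ} (h1 : 0.24 ≤ X) (h2 : X ≤ 0.31) (hr : 0 ≤ r) (hs : 2 * r ≤ s) :
    0 ≤ GG (0.5803) (0.0661) (0.0479) (0.055596) (0.174872) (0.0904) (0) (0.0904) X z s r := by
  unfold GG
  linarith [sq_nonneg (0.1322 * z + (-0.453328) * X + 0.114), sq_nonneg (0.1322 * (r - s / 2) + (0)),
    sq_nonneg (0.0661 * s + (-0.013598)), mul_nonneg (sub_nonneg.2 h1) (sub_nonneg.2 h2)]

theorem gA_1_3 {X z s r : ℝ} (h1 : 0.24 ≤ X) (h2 : X ≤ 0.31) (hr : 0 ≤ r) (hs : 2 * r ≤ s) :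
    0 ≤ GG (0.5803) (0.0661) (0.0479) (0.049268) (0.174872) (0.0904) (0) (0) X z s r := by
  unfold GG
  linarith [sq_nonneg (0.1322 * z + (-0.453328) * X + 0.114), sq_nonneg (0.1322 * (r - s / 2) + (0)),
    sq_nonneg (0.0661 * s + (-0.010434)), mul_nonneg (sub_nonneg.2 h1) (sub_nonneg.2 h2)]

theorem gA_2_0 {X z s r : ℝ} (h1 : 0.31 ≤ X) (h2 : X ≤ 0.38) (hr : 0 ≤ r) (hs : 2 * r ≤ s) :
    0 ≤ GG (0.5935) (0.0883) (0.0527) (0) (0.136) (0) (0) (0) X z s r := by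
  unfold GG
  linarith [sq_nonneg (0.1766 * z + (-0.5102) * X + 0.141), sq_nonneg (0.1766 * (r - s / 2) + (0)),
    sq_nonneg (0.0883 * s + (0)), mul_nonneg (sub_nonneg.2 h1) (sub_nonneg.2 h2)]

theorem gA_2_1 {X z s r : ℝ} (h1 : 0.31 ≤ X) (h2 : X ≤ 0.38) (hr : 0 ≤ r) (hs : 2 * r ≤ s) :
    0 ≤ GG (0.5935) (0.0883) (0.0527) (0.006328) (0.173064) (0) (0.0904) (0.0904) X z s r := by
  unfold GG
  linarith [sq_nonneg (0.1766 * z + (-0.473136) * X + 0.141), sq_nonneg (0.1766 * (r - s / 2) + (0)),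
    sq_nonneg (0.0883 * s + (0)), mul_nonneg (sub_nonneg.2 h1) (sub_nonneg.2 h2)]

theorem gA_2_2 {X z s r : ℝ} (h1 : 0.31 ≤ X) (h2 : X ≤ 0.38) (hr : 0 ≤ r) (hs : 2 * r ≤ s) :
    0 ≤ GG (0.5935) (0.0883) (0.0527) (0.055596) (0.174872) (0.0904) (0) (0.0904) X z s r := by
  unfold GG
  linarith [sq_nonneg (0.1766 * z + (-0.471328) * X + 0.141), sq_nonneg (0.1766 * (r - s / 2) + (0)),
    sq_nonneg (0.0883 * s + (-0.022598)), mul_nonneg (sub_nonneg.2 h1) (sub_nonneg.2 h2)]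

theorem gA_2_3 {X z s r : ℝ} (h1 : 0.31 ≤ X) (h2 : X ≤ 0.38) (hr : 0 ≤ r) (hs : 2 * r ≤ s) :
    0 ≤ GG (0.5935) (0.0883) (0.0527) (0.049268) (0.174872) (0.0904) (0) (0) X z s r := by
  unfold GG
  linarith [sq_nonneg (0.1766 * z + (-0.471328) * X + 0.141), sq_nonneg (0.1766 * (r - s / 2) + (0)),
    sq_nonneg (0.0883 * s + (-0.019434)), mul_nonneg (sub_nonneg.2 h1) (sub_nonneg.2 h2)]

theorem gA_3_0 {X z s r : ℝ} (h1 : 0.38 ≤ X) (h2 : X ≤ 0.48) (hr : 0 ≤ r) (hs : 2 * r ≤ s) :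
    0 ≤ GG (0.6291) (0.1298) (0.0492) (0) (0.136) (0) (0) (0) X z s r := by
  unfold GG
  linarith [sq_nonneg (0.2596 * z + (-0.5423) * X + 0.179), sq_nonneg (0.2596 * (r - s / 2) + (0)),
    sq_nonneg (0.1298 * s + (-0.0007)), mul_nonneg (sub_nonneg.2 h1) (sub_nonneg.2 h2)]

theorem gA_3_1 {X z s r : ℝ} (h1 : 0.38 ≤ X) (h2 : X ≤ 0.48) (hr : 0 ≤ r) (hs : 2 * r ≤ s) :
    0 ≤ GG (0.6291) (0.1298) (0.0492) (0.006328) (0.173064) (0) (0.0904) (0.0904) X z s r := by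
  unfold GG
  linarith [sq_nonneg (0.2596 * z + (-0.505236) * X + 0.179), sq_nonneg (0.2596 * (r - s / 2) + (0)),
    sq_nonneg (0.1298 * s + (-0.003864)), mul_nonneg (sub_nonneg.2 h1) (sub_nonneg.2 h2)]

theorem gA_3_2 {X z s r : ℝ} (h1 : 0.38 ≤ X) (h2 : X ≤ 0.48) (hr : 0 ≤ r) (hs : 2 * r ≤ s) :
    0 ≤ GG (0.6291) (0.1298) (0.0492) (0.055596) (0.174872) (0.0904) (0) (0.0904) X z s r := by
  unfold GG
  linarith [sq_nonneg (0.2596 * z + (-0.503428) * X + 0.179), sq_nonneg (0.2596 * (r - s / 2) + (0)),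
    sq_nonneg (0.1298 * s + (-0.028498)), mul_nonneg (sub_nonneg.2 h1) (sub_nonneg.2 h2)]

theorem gA_3_3 {X z s r : ℝ} (h1 : 0.38 ≤ X) (h2 : X ≤ 0.48) (hr : 0 ≤ r) (hs : 2 * r ≤ s) :
    0 ≤ GG (0.6291) (0.1298) (0.0492) (0.049268) (0.174872) (0.0904) (0) (0) X z s r := by
  unfold GG
  linarith [sq_nonneg (0.2596 * z + (-0.503428) * X + 0.179), sq_nonneg (0.2596 * (r - s / 2) + (0)),
    sq_nonneg (0.1298 * s + (-0.025334)), mul_nonneg (sub_nonneg.2 h1) (sub_nonneg.2 h2)]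

theorem gA_4_0 {X z s r : ℝ} (h1 : 0.48 ≤ X) (h2 : X ≤ 0.62) (hr : 0 ≤ r) (hs : 2 * r ≤ s) :
    0 ≤ GG (0.6859) (0.1962) (0.041) (0) (0.136) (0) (0) (0) X z s r := by
  unfold GG
  linarith [sq_nonneg (0.3924 * z + (-0.5909) * X + 0.2372), sq_nonneg (0.3924 * (r - s / 2) + (0)),
    sq_nonneg (0.1962 * s + (-0.0103)), mul_nonneg (sub_nonneg.2 h1) (sub_nonneg.2 h2)]

theorem gA_4_1 {X z s r : ℝ} (h1 : 0.48 ≤ X) (h2 : X ≤ 0.62) (hr : 0 ≤ r) (hs : 2 * r ≤ s) :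
    0 ≤ GG (0.6859) (0.1962) (0.041) (0.006328) (0.173064) (0) (0.0904) (0.0904) X z s r := by
  unfold GG
  linarith [sq_nonneg (0.3924 * z + (-0.553836) * X + 0.2372), sq_nonneg (0.3924 * (r - s / 2) + (0)),
    sq_nonneg (0.1962 * s + (-0.013464)), mul_nonneg (sub_nonneg.2 h1) (sub_nonneg.2 h2)]

theorem gA_4_2 {X z s r : ℝ} (h1 : 0.48 ≤ X) (h2 : X ≤ 0.62) (hr : 0 ≤ r) (hs : 2 * r ≤ s) :
    0 ≤ GG (0.6859) (0.1962) (0.041) (0.055596) (0.174872) (0.0904) (0) (0.0904) X z s r := by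
  unfold GG
  linarith [sq_nonneg (0.3924 * z + (-0.552028) * X + 0.2372), sq_nonneg (0.3924 * (r - s / 2) + (0)),
    sq_nonneg (0.1962 * s + (-0.038098)), mul_nonneg (sub_nonneg.2 h1) (sub_nonneg.2 h2)]

theorem gA_4_3 {X z s r : ℝ} (h1 : 0.48 ≤ X) (h2 : X ≤ 0.62) (hr : 0 ≤ r) (hs : 2 * r ≤ s) :
    0 ≤ GG (0.6859) (0.1962) (0.041) (0.049268) (0.174872) (0.0904) (0) (0) X z s r := by
  unfold GG
  linarith [sq_nonneg (0.3924 * z + (-0.552028) * X + 0.2372), sq_nonneg (0.3924 * (r - s / 2) + (0)),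
    sq_nonneg (0.1962 * s + (-0.034934)), mul_nonneg (sub_nonneg.2 h1) (sub_nonneg.2 h2)]

theorem gA_5_0 {X z s r : ℝ} (h1 : 0.62 ≤ X) (h2 : X ≤ 0.8) (hr : 0 ≤ r) (hs : 2 * r ≤ s) :
    0 ≤ GG (0.72) (0.2655) (0.04) (0) (0.136) (0) (0) (0) X z s r := by
  unfold GG
  linarith [sq_nonneg (0.531 * z + (-0.624) * X + 0.3055), sq_nonneg (0.531 * (r - s / 2) + (0)),
    sq_nonneg (0.2655 * s + (-0.0455)), mul_nonneg (sub_nonneg.2 h1) (sub_nonneg.2 h2)]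

theorem gA_5_1 {X z s r : ℝ} (h1 : 0.62 ≤ X) (h2 : X ≤ 0.8) (hr : 0 ≤ r) (hs : 2 * r ≤ s) :
    0 ≤ GG (0.72) (0.2655) (0.04) (0.006328) (0.173064) (0) (0.0904) (0.0904) X z s r := by
  unfold GG
  linarith [sq_nonneg (0.531 * z + (-0.586936) * X + 0.3055), sq_nonneg (0.531 * (r - s / 2) + (0)),
    sq_nonneg (0.2655 * s + (-0.048664)), mul_nonneg (sub_nonneg.2 h1) (sub_nonneg.2 h2)]

theorem gA_5_2 {X z s r : ℝ} (h1 : 0.62 ≤ X) (h2 : X ≤ 0.8) (hr : 0 ≤ r) (hs : 2 * r ≤ s) :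
    0 ≤ GG (0.72) (0.2655) (0.04) (0.055596) (0.174872) (0.0904) (0) (0.0904) X z s r := by
  unfold GG
  linarith [sq_nonneg (0.531 * z + (-0.585128) * X + 0.3055), sq_nonneg (0.531 * (r - s / 2) + (0.041096)),
    sq_nonneg (0.2655 * s + (-0.073298)), mul_nonneg (sub_nonneg.2 h1) (sub_nonneg.2 h2)]

theorem gA_5_3 {X z s r : ℝ} (h1 : 0.62 ≤ X) (h2 : X ≤ 0.8) (hr : 0 ≤ r) (hs : 2 * r ≤ s) :
    0 ≤ GG (0.72) (0.2655) (0.04) (0.049268) (0.174872) (0.0904) (0) (0) X z s r := by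
  unfold GG
  linarith [sq_nonneg (0.531 * z + (-0.585128) * X + 0.3055), sq_nonneg (0.531 * (r - s / 2) + (0.034768)),
    sq_nonneg (0.2655 * s + (-0.070134)), mul_nonneg (sub_nonneg.2 h1) (sub_nonneg.2 h2)]

theorem gA_6_0 {X z s r : ℝ} (h1 : 0.8 ≤ X) (h2 : X ≤ 0.9) (hr : 0 ≤ r) (hs : 2 * r ≤ s) :
    0 ≤ GG (0.7146) (0.3019) (0.0425) (0) (0.136) (0) (0) (0) X z s r := by
  unfold GG
  linarith [sq_nonneg (0.6038 * z + (-0.6211) * X + 0.3444), sq_nonneg (0.6038 * (r - s / 2) + (0.0165)),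
    sq_nonneg (0.3019 * s + (-0.0873)), mul_nonneg (sub_nonneg.2 h1) (sub_nonneg.2 h2)]

theorem gA_6_1 {X z s r : ℝ} (h1 : 0.8 ≤ X) (h2 : X ≤ 0.9) (hr : 0 ≤ r) (hs : 2 * r ≤ s) :
    0 ≤ GG (0.7146) (0.3019) (0.0425) (0.006328) (0.173064) (0) (0.0904) (0.0904) X z s r := by
  unfold GG
  linarith [sq_nonneg (0.6038 * z + (-0.584036) * X + 0.3444), sq_nonneg (0.6038 * (r - s / 2) + (0.022828)),
    sq_nonneg (0.3019 * s + (-0.090464)), mul_nonneg (sub_nonneg.2 h1) (sub_nonneg.2 h2)]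

theorem gA_6_2 {X z s r : ℝ} (h1 : 0.8 ≤ X) (h2 : X ≤ 0.9) (hr : 0 ≤ r) (hs : 2 * r ≤ s) :
    0 ≤ GG (0.7146) (0.3019) (0.0425) (0.055596) (0.174872) (0.0904) (0) (0.0904) X z s r := by
  unfold GG
  linarith [sq_nonneg (0.6038 * z + (-0.582228) * X + 0.3444), sq_nonneg (0.6038 * (r - s / 2) + (0.072096)),
    sq_nonneg (0.3019 * s + (-0.115098)), mul_nonneg (sub_nonneg.2 h1) (sub_nonneg.2 h2)]

theorem gA_6_3 {X z s r : ℝ} (h1 : 0.8 ≤ X) (h2 : X ≤ 0.9) (hr : 0 ≤ r) (hs : 2 * r ≤ s) :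
    0 ≤ GG (0.7146) (0.3019) (0.0425) (0.049268) (0.174872) (0.0904) (0) (0) X z s r := by
  unfold GG
  linarith [sq_nonneg (0.6038 * z + (-0.582228) * X + 0.3444), sq_nonneg (0.6038 * (r - s / 2) + (0.065768)),
    sq_nonneg (0.3019 * s + (-0.111934)), mul_nonneg (sub_nonneg.2 h1) (sub_nonneg.2 h2)]

theorem gA_7_0 {X z s r : ℝ} (h1 : 0.9 ≤ X) (h2 : X ≤ 1) (hr : 0 ≤ r) (hs : 2 * r ≤ s) :
    0 ≤ GG (0.7066) (0.3343) (0.0348) (0) (0.136) (0) (0) (0) X z s r := by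
  unfold GG
  linarith [sq_nonneg (0.6686 * z + (-0.6054) * X + 0.3691), sq_nonneg (0.6686 * (r - s / 2) + (0.0409)),
    sq_nonneg (0.3343 * s + (-0.1277)), mul_nonneg (sub_nonneg.2 h1) (sub_nonneg.2 h2)]

theorem gA_7_1 {X z s r : ℝ} (h1 : 0.9 ≤ X) (h2 : X ≤ 1) (hr : 0 ≤ r) (hs : 2 * r ≤ s) :
    0 ≤ GG (0.7066) (0.3343) (0.0348) (0.006328) (0.173064) (0) (0.0904) (0.0904) X z s r := by
  unfold GG
  linarith [sq_nonneg (0.6686 * z + (-0.568336) * X + 0.3691), sq_nonneg (0.6686 * (r - s / 2) + (0.047228)),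
    sq_nonneg (0.3343 * s + (-0.130864)), mul_nonneg (sub_nonneg.2 h1) (sub_nonneg.2 h2)]

theorem gA_7_2 {X z s r : ℝ} (h1 : 0.9 ≤ X) (h2 : X ≤ 1) (hr : 0 ≤ r) (hs : 2 * r ≤ s) :
    0 ≤ GG (0.7066) (0.3343) (0.0348) (0.055596) (0.174872) (0.0904) (0) (0.0904) X z s r := by
  unfold GG
  linarith [sq_nonneg (0.6686 * z + (-0.566528) * X + 0.3691), sq_nonneg (0.6686 * (r - s / 2) + (0.096496)),
    sq_nonneg (0.3343 * s + (-0.155498)), mul_nonneg (sub_nonneg.2 h1) (sub_nonneg.2 h2)]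

theorem gA_7_3 {X z s r : ℝ} (h1 : 0.9 ≤ X) (h2 : X ≤ 1) (hr : 0 ≤ r) (hs : 2 * r ≤ s) :
    0 ≤ GG (0.7066) (0.3343) (0.0348) (0.049268) (0.174872) (0.0904) (0) (0) X z s r := by
  unfold GG
  linarith [sq_nonneg (0.6686 * z + (-0.566528) * X + 0.3691), sq_nonneg (0.6686 * (r - s / 2) + (0.090168)),
    sq_nonneg (0.3343 * s + (-0.152334)), mul_nonneg (sub_nonneg.2 h1) (sub_nonneg.2 h2)]

theorem rA_0 {X : ℝ} (h1 : 0 ≤ X) (h2 : X ≤ 0.24) :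
    0 ≤ 0.0904 * ((1 - X) * (0.07 + 0.41 * X ^ 2 / 2) - X * (0.394)) + (1 - X) * (0.136 * X ^ 2 / 2) := by
  nlinarith [mul_nonneg h1 (sub_nonneg.2 h2), mul_nonneg (mul_nonneg h1 h1) (sub_nonneg.2 h2),
    mul_nonneg h1 (mul_nonneg (sub_nonneg.2 h2) (sub_nonneg.2 h2))]

theorem rA_2 {X : ℝ} (h1 : 0 ≤ X) (h2 : X ≤ 0.24) :
    0 ≤ 0.0904 * ((1 - X) * (0.085 + 0.43 * X ^ 2 / 2) - X * (0.394)) + (1 - X) * (0.136 * X ^ 2 / 2) := by
  nlinarith [mul_nonneg h1 (sub_nonneg.2 h2), mul_nonneg (mul_nonneg h1 h1) (sub_nonneg.2 h2),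
    mul_nonneg h1 (mul_nonneg (sub_nonneg.2 h2) (sub_nonneg.2 h2))]

theorem keyA : Key (0.0904) (0.136) (0.43) (0.41) (0.545) (0.07) := by
  intro X z s r S0 S2 S3 hX0 hX1 hr hs h0 h2 h3 hT c7 c3 c5
  rcases le_total X 0.24 with k | k
  · refine reg1 (l7 := 0.53) (T0 := 0.0904) (by norm_num) (by norm_num) (by norm_num) (by norm_num)
      (by norm_num) (by norm_num) (by norm_num) (by norm_num) (by norm_num) hX0
      (by linarith) hr hs h0 h2 h3 hT c7 c3 ?_ ?_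
    · have := rA_0 hX0 k
      linarith
    · have := rA_2 hX0 k
      linarith
  rcases le_total X 0.31 with k1 | k1
  · refine comb (T0 := 0.0904) (l7 := 0.5803) (l5 := 0.0661) (l3 := 0.0479) (by norm_num) (by norm_num)
      (by norm_num) (by norm_num) h0 h2 h3 hT c7 c3 c5 ?_ ?_ ?_ ?_
    · have := gA_1_0 (z := z) k k1 hr hs
      unfold GG at this ⊢
      linarith
    · have := gA_1_1 (z := z) k k1 hr hs
      unfold GG at this ⊢
      linarith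
    · have := gA_1_2 (z := z) k k1 hr hs
      unfold GG at this ⊢
      linarith
    · have := gA_1_3 (z := z) k k1 hr hs
      unfold GG at this ⊢
      linarith
  rcases le_total X 0.38 with k2 | k2
  · refine comb (T0 := 0.0904) (l7 := 0.5935) (l5 := 0.0883) (l3 := 0.0527) (by norm_num) (by norm_num)
      (by norm_num) (by norm_num) h0 h2 h3 hT c7 c3 c5 ?_ ?_ ?_ ?_
    · have := gA_2_0 (z := z) k1 k2 hr hs
      unfold GG at this ⊢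
      linarith
    · have := gA_2_1 (z := z) k1 k2 hr hs
      unfold GG at this ⊢
      linarith
    · have := gA_2_2 (z := z) k1 k2 hr hs
      unfold GG at this ⊢
      linarith
    · have := gA_2_3 (z := z) k1 k2 hr hs
      unfold GG at this ⊢
      linarith
  rcases le_total X 0.48 with k3 | k3
  · refine comb (T0 := 0.0904) (l7 := 0.6291) (l5 := 0.1298) (l3 := 0.0492) (by norm_num) (by norm_num)
      (by norm_num) (by norm_num) h0 h2 h3 hT c7 c3 c5 ?_ ?_ ?_ ?_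
    · have := gA_3_0 (z := z) k2 k3 hr hs
      unfold GG at this ⊢
      linarith
    · have := gA_3_1 (z := z) k2 k3 hr hs
      unfold GG at this ⊢
      linarith
    · have := gA_3_2 (z := z) k2 k3 hr hs
      unfold GG at this ⊢
      linarith
    · have := gA_3_3 (z := z) k2 k3 hr hs
      unfold GG at this ⊢
      linarith
  rcases le_total X 0.62 with k4 | k4
  · refine comb (T0 := 0.0904) (l7 := 0.6859) (l5 := 0.1962) (l3 := 0.041) (by norm_num) (by norm_num)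
      (by norm_num) (by norm_num) h0 h2 h3 hT c7 c3 c5 ?_ ?_ ?_ ?_
    · have := gA_4_0 (z := z) k3 k4 hr hs
      unfold GG at this ⊢
      linarith
    · have := gA_4_1 (z := z) k3 k4 hr hs
      unfold GG at this ⊢
      linarith
    · have := gA_4_2 (z := z) k3 k4 hr hs
      unfold GG at this ⊢
      linarith
    · have := gA_4_3 (z := z) k3 k4 hr hs
      unfold GG at this ⊢
      linarith
  rcases le_total X 0.8 with k5 | k5
  · refine comb (T0 := 0.0904) (l7 := 0.72) (l5 := 0.2655) (l3 := 0.04) (by norm_num) (by norm_num)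
      (by norm_num) (by norm_num) h0 h2 h3 hT c7 c3 c5 ?_ ?_ ?_ ?_
    · have := gA_5_0 (z := z) k4 k5 hr hs
      unfold GG at this ⊢
      linarith
    · have := gA_5_1 (z := z) k4 k5 hr hs
      unfold GG at this ⊢
      linarith
    · have := gA_5_2 (z := z) k4 k5 hr hs
      unfold GG at this ⊢
      linarith
    · have := gA_5_3 (z := z) k4 k5 hr hs
      unfold GG at this ⊢
      linarith
  rcases le_total X 0.9 with k6 | k6
  · refine comb (T0 := 0.0904) (l7 := 0.7146) (l5 := 0.3019) (l3 := 0.0425) (by norm_num) (by norm_num)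
      (by norm_num) (by norm_num) h0 h2 h3 hT c7 c3 c5 ?_ ?_ ?_ ?_
    · have := gA_6_0 (z := z) k5 k6 hr hs
      unfold GG at this ⊢
      linarith
    · have := gA_6_1 (z := z) k5 k6 hr hs
      unfold GG at this ⊢
      linarith
    · have := gA_6_2 (z := z) k5 k6 hr hs
      unfold GG at this ⊢
      linarith
    · have := gA_6_3 (z := z) k5 k6 hr hs
      unfold GG at this ⊢
      linarith
  refine comb (T0 := 0.0904) (l7 := 0.7066) (l5 := 0.3343) (l3 := 0.0348) (by norm_num) (by norm_num)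
      (by norm_num) (by norm_num) h0 h2 h3 hT c7 c3 c5 ?_ ?_ ?_ ?_
  · have := gA_7_0 (z := z) k6 hX1 hr hs
    unfold GG at this ⊢
    linarith
  · have := gA_7_1 (z := z) k6 hX1 hr hs
    unfold GG at this ⊢
    linarith
  · have := gA_7_2 (z := z) k6 hX1 hr hs
    unfold GG at this ⊢
    linarith
  · have := gA_7_3 (z := z) k6 hX1 hr hs
    unfold GG at this ⊢
    linarith

theorem gB_1_0 {X z s r : ℝ} (h1 : 0.25 ≤ X) (h2 : X ≤ 0.31) (hr : 0 ≤ r) (hs : 2 * r ≤ s) :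
    0 ≤ GG (0.5806) (0.0566) (0.0654) (0) (0.137) (0) (0) (0) X z s r := by
  unfold GG
  linarith [sq_nonneg (0.1132 * z + (-0.509) * X + 0.122), sq_nonneg (0.1132 * (r - s / 2) + (0)),
    sq_nonneg (0.0566 * s + (0)), mul_nonneg (sub_nonneg.2 h1) (sub_nonneg.2 h2)]

theorem gB_1_1 {X z s r : ℝ} (h1 : 0.25 ≤ X) (h2 : X ≤ 0.31) (hr : 0 ≤ r) (hs : 2 * r ≤ s) :
    0 ≤ GG (0.5806) (0.0566) (0.0654) (0.010836) (0.188772) (0) (0.1204) (0.1204) X z s r := by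
  unfold GG
  linarith [sq_nonneg (0.1132 * z + (-0.457228) * X + 0.122), sq_nonneg (0.1132 * (r - s / 2) + (0)),
    sq_nonneg (0.0566 * s + (0)), mul_nonneg (sub_nonneg.2 h1) (sub_nonneg.2 h2)]

theorem gB_1_2 {X z s r : ℝ} (h1 : 0.25 ≤ X) (h2 : X ≤ 0.31) (hr : 0 ≤ r) (hs : 2 * r ≤ s) :
    0 ≤ GG (0.5806) (0.0566) (0.0654) (0.077658) (0.19118) (0.1204) (0) (0.1204) X z s r := by
  unfold GG
  linarith [sq_nonneg (0.1132 * z + (-0.45482) * X + 0.122), sq_nonneg (0.1132 * (r - s / 2) + (0)),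
    sq_nonneg (0.0566 * s + (-0.014829)), mul_nonneg (sub_nonneg.2 h1) (sub_nonneg.2 h2)]

theorem gB_1_3 {X z s r : ℝ} (h1 : 0.25 ≤ X) (h2 : X ≤ 0.31) (hr : 0 ≤ r) (hs : 2 * r ≤ s) :
    0 ≤ GG (0.5806) (0.0566) (0.0654) (0.066822) (0.19118) (0.1204) (0) (0) X z s r := by
  unfold GG
  linarith [sq_nonneg (0.1132 * z + (-0.45482) * X + 0.122), sq_nonneg (0.1132 * (r - s / 2) + (0)),
    sq_nonneg (0.0566 * s + (-0.009411)), mul_nonneg (sub_nonneg.2 h1) (sub_nonneg.2 h2)]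

theorem gB_2_0 {X z s r : ℝ} (h1 : 0.31 ≤ X) (h2 : X ≤ 0.38) (hr : 0 ≤ r) (hs : 2 * r ≤ s) :
    0 ≤ GG (0.5972) (0.0825) (0.0665) (0) (0.137) (0) (0) (0) X z s r := by
  unfold GG
  linarith [sq_nonneg (0.165 * z + (-0.5267) * X + 0.149), sq_nonneg (0.165 * (r - s / 2) + (0)),
    sq_nonneg (0.0825 * s + (0)), mul_nonneg (sub_nonneg.2 h1) (sub_nonneg.2 h2)]

theorem gB_2_1 {X z s r : ℝ} (h1 : 0.31 ≤ X) (h2 : X ≤ 0.38) (hr : 0 ≤ r) (hs : 2 * r ≤ s) :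
    0 ≤ GG (0.5972) (0.0825) (0.0665) (0.010836) (0.188772) (0) (0.1204) (0.1204) X z s r := by
  unfold GG
  linarith [sq_nonneg (0.165 * z + (-0.474928) * X + 0.149), sq_nonneg (0.165 * (r - s / 2) + (0)),
    sq_nonneg (0.0825 * s + (0)), mul_nonneg (sub_nonneg.2 h1) (sub_nonneg.2 h2)]

theorem gB_2_2 {X z s r : ℝ} (h1 : 0.31 ≤ X) (h2 : X ≤ 0.38) (hr : 0 ≤ r) (hs : 2 * r ≤ s) :
    0 ≤ GG (0.5972) (0.0825) (0.0665) (0.077658) (0.19118) (0.1204) (0) (0.1204) X z s r := by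
  unfold GG
  linarith [sq_nonneg (0.165 * z + (-0.47252) * X + 0.149), sq_nonneg (0.165 * (r - s / 2) + (0)),
    sq_nonneg (0.0825 * s + (-0.024129)), mul_nonneg (sub_nonneg.2 h1) (sub_nonneg.2 h2)]

theorem gB_2_3 {X z s r : ℝ} (h1 : 0.31 ≤ X) (h2 : X ≤ 0.38) (hr : 0 ≤ r) (hs : 2 * r ≤ s) :
    0 ≤ GG (0.5972) (0.0825) (0.0665) (0.066822) (0.19118) (0.1204) (0) (0) X z s r := by
  unfold GG
  linarith [sq_nonneg (0.165 * z + (-0.47252) * X + 0.149), sq_nonneg (0.165 * (r - s / 2) + (0)),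
    sq_nonneg (0.0825 * s + (-0.018711)), mul_nonneg (sub_nonneg.2 h1) (sub_nonneg.2 h2)]

theorem gB_3_0 {X z s r : ℝ} (h1 : 0.38 ≤ X) (h2 : X ≤ 0.48) (hr : 0 ≤ r) (hs : 2 * r ≤ s) :
    0 ≤ GG (0.6217) (0.1174) (0.0676) (0) (0.137) (0) (0) (0) X z s r := by
  unfold GG
  linarith [sq_nonneg (0.2348 * z + (-0.5523) * X + 0.185), sq_nonneg (0.2348 * (r - s / 2) + (0)),
    sq_nonneg (0.1174 * s + (0)), mul_nonneg (sub_nonneg.2 h1) (sub_nonneg.2 h2)]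

theorem gB_3_1 {X z s r : ℝ} (h1 : 0.38 ≤ X) (h2 : X ≤ 0.48) (hr : 0 ≤ r) (hs : 2 * r ≤ s) :
    0 ≤ GG (0.6217) (0.1174) (0.0676) (0.010836) (0.188772) (0) (0.1204) (0.1204) X z s r := by
  unfold GG
  linarith [sq_nonneg (0.2348 * z + (-0.500528) * X + 0.185), sq_nonneg (0.2348 * (r - s / 2) + (0)),
    sq_nonneg (0.1174 * s + (-0.001118)), mul_nonneg (sub_nonneg.2 h1) (sub_nonneg.2 h2)]

theorem gB_3_2 {X z s r : ℝ} (h1 : 0.38 ≤ X) (h2 : X ≤ 0.48) (hr : 0 ≤ r) (hs : 2 * r ≤ s) :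
    0 ≤ GG (0.6217) (0.1174) (0.0676) (0.077658) (0.19118) (0.1204) (0) (0.1204) X z s r := by
  unfold GG
  linarith [sq_nonneg (0.2348 * z + (-0.49812) * X + 0.185), sq_nonneg (0.2348 * (r - s / 2) + (0)),
    sq_nonneg (0.1174 * s + (-0.034529)), mul_nonneg (sub_nonneg.2 h1) (sub_nonneg.2 h2)]

theorem gB_3_3 {X z s r : ℝ} (h1 : 0.38 ≤ X) (h2 : X ≤ 0.48) (hr : 0 ≤ r) (hs : 2 * r ≤ s) :
    0 ≤ GG (0.6217) (0.1174) (0.0676) (0.066822) (0.19118) (0.1204) (0) (0) X z s r := by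
  unfold GG
  linarith [sq_nonneg (0.2348 * z + (-0.49812) * X + 0.185), sq_nonneg (0.2348 * (r - s / 2) + (0)),
    sq_nonneg (0.1174 * s + (-0.029111)), mul_nonneg (sub_nonneg.2 h1) (sub_nonneg.2 h2)]

theorem gB_4_0 {X z s r : ℝ} (h1 : 0.48 ≤ X) (h2 : X ≤ 0.62) (hr : 0 ≤ r) (hs : 2 * r ≤ s) :
    0 ≤ GG (0.6739) (0.1803) (0.059) (0) (0.137) (0) (0) (0) X z s r := by
  unfold GG
  linarith [sq_nonneg (0.3606 * z + (-0.5959) * X + 0.2393), sq_nonneg (0.3606 * (r - s / 2) + (0)),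
    sq_nonneg (0.1803 * s + (-0.0064)), mul_nonneg (sub_nonneg.2 h1) (sub_nonneg.2 h2)]

theorem gB_4_1 {X z s r : ℝ} (h1 : 0.48 ≤ X) (h2 : X ≤ 0.62) (hr : 0 ≤ r) (hs : 2 * r ≤ s) :
    0 ≤ GG (0.6739) (0.1803) (0.059) (0.010836) (0.188772) (0) (0.1204) (0.1204) X z s r := by
  unfold GG
  linarith [sq_nonneg (0.3606 * z + (-0.544128) * X + 0.2393), sq_nonneg (0.3606 * (r - s / 2) + (0)),
    sq_nonneg (0.1803 * s + (-0.011818)), mul_nonneg (sub_nonneg.2 h1) (sub_nonneg.2 h2)]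

theorem gB_4_2 {X z s r : ℝ} (h1 : 0.48 ≤ X) (h2 : X ≤ 0.62) (hr : 0 ≤ r) (hs : 2 * r ≤ s) :
    0 ≤ GG (0.6739) (0.1803) (0.059) (0.077658) (0.19118) (0.1204) (0) (0.1204) X z s r := by
  unfold GG
  linarith [sq_nonneg (0.3606 * z + (-0.54172) * X + 0.2393), sq_nonneg (0.3606 * (r - s / 2) + (0)),
    sq_nonneg (0.1803 * s + (-0.045229)), mul_nonneg (sub_nonneg.2 h1) (sub_nonneg.2 h2)]

theorem gB_4_3 {X z s r : ℝ} (h1 : 0.48 ≤ X) (h2 : X ≤ 0.62) (hr : 0 ≤ r) (hs : 2 * r ≤ s) :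
    0 ≤ GG (0.6739) (0.1803) (0.059) (0.066822) (0.19118) (0.1204) (0) (0) X z s r := by
  unfold GG
  linarith [sq_nonneg (0.3606 * z + (-0.54172) * X + 0.2393), sq_nonneg (0.3606 * (r - s / 2) + (0)),
    sq_nonneg (0.1803 * s + (-0.039811)), mul_nonneg (sub_nonneg.2 h1) (sub_nonneg.2 h2)]

theorem gB_5_0 {X z s r : ℝ} (h1 : 0.62 ≤ X) (h2 : X ≤ 0.8) (hr : 0 ≤ r) (hs : 2 * r ≤ s) :
    0 ≤ GG (0.7179) (0.2563) (0.0577) (0) (0.137) (0) (0) (0) X z s r := by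
  unfold GG
  linarith [sq_nonneg (0.5126 * z + (-0.6386) * X + 0.314), sq_nonneg (0.5126 * (r - s / 2) + (0)),
    sq_nonneg (0.2563 * s + (-0.0384)), mul_nonneg (sub_nonneg.2 h1) (sub_nonneg.2 h2)]

theorem gB_5_1 {X z s r : ℝ} (h1 : 0.62 ≤ X) (h2 : X ≤ 0.8) (hr : 0 ≤ r) (hs : 2 * r ≤ s) :
    0 ≤ GG (0.7179) (0.2563) (0.0577) (0.010836) (0.188772) (0) (0.1204) (0.1204) X z s r := by
  unfold GG
  linarith [sq_nonneg (0.5126 * z + (-0.586828) * X + 0.314), sq_nonneg (0.5126 * (r - s / 2) + (0)),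
    sq_nonneg (0.2563 * s + (-0.043818)), mul_nonneg (sub_nonneg.2 h1) (sub_nonneg.2 h2)]

theorem gB_5_2 {X z s r : ℝ} (h1 : 0.62 ≤ X) (h2 : X ≤ 0.8) (hr : 0 ≤ r) (hs : 2 * r ≤ s) :
    0 ≤ GG (0.7179) (0.2563) (0.0577) (0.077658) (0.19118) (0.1204) (0) (0.1204) X z s r := by
  unfold GG
  linarith [sq_nonneg (0.5126 * z + (-0.58442) * X + 0.314), sq_nonneg (0.5126 * (r - s / 2) + (0.051858)),
    sq_nonneg (0.2563 * s + (-0.077229)), mul_nonneg (sub_nonneg.2 h1) (sub_nonneg.2 h2)]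

theorem gB_5_3 {X z s r : ℝ} (h1 : 0.62 ≤ X) (h2 : X ≤ 0.8) (hr : 0 ≤ r) (hs : 2 * r ≤ s) :
    0 ≤ GG (0.7179) (0.2563) (0.0577) (0.066822) (0.19118) (0.1204) (0) (0) X z s r := by
  unfold GG
  linarith [sq_nonneg (0.5126 * z + (-0.58442) * X + 0.314), sq_nonneg (0.5126 * (r - s / 2) + (0.041022)),
    sq_nonneg (0.2563 * s + (-0.071811)), mul_nonneg (sub_nonneg.2 h1) (sub_nonneg.2 h2)]

theorem gB_6_0 {X z s r : ℝ} (h1 : 0.8 ≤ X) (h2 : X ≤ 0.9) (hr : 0 ≤ r) (hs : 2 * r ≤ s) :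
    0 ≤ GG (0.7119) (0.296) (0.0595) (0) (0.137) (0) (0) (0) X z s r := by
  unfold GG
  linarith [sq_nonneg (0.592 * z + (-0.6344) * X + 0.3555), sq_nonneg (0.592 * (r - s / 2) + (0.0079)),
    sq_nonneg (0.296 * s + (-0.0841)), mul_nonneg (sub_nonneg.2 h1) (sub_nonneg.2 h2)]

theorem gB_6_1 {X z s r : ℝ} (h1 : 0.8 ≤ X) (h2 : X ≤ 0.9) (hr : 0 ≤ r) (hs : 2 * r ≤ s) :
    0 ≤ GG (0.7119) (0.296) (0.0595) (0.010836) (0.188772) (0) (0.1204) (0.1204) X z s r := by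
  unfold GG
  linarith [sq_nonneg (0.592 * z + (-0.582628) * X + 0.3555), sq_nonneg (0.592 * (r - s / 2) + (0.018736)),
    sq_nonneg (0.296 * s + (-0.089518)), mul_nonneg (sub_nonneg.2 h1) (sub_nonneg.2 h2)]

theorem gB_6_2 {X z s r : ℝ} (h1 : 0.8 ≤ X) (h2 : X ≤ 0.9) (hr : 0 ≤ r) (hs : 2 * r ≤ s) :
    0 ≤ GG (0.7119) (0.296) (0.0595) (0.077658) (0.19118) (0.1204) (0) (0.1204) X z s r := by
  unfold GG
  linarith [sq_nonneg (0.592 * z + (-0.58022) * X + 0.3555), sq_nonneg (0.592 * (r - s / 2) + (0.085558)),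
    sq_nonneg (0.296 * s + (-0.122929)), mul_nonneg (sub_nonneg.2 h1) (sub_nonneg.2 h2)]

theorem gB_6_3 {X z s r : ℝ} (h1 : 0.8 ≤ X) (h2 : X ≤ 0.9) (hr : 0 ≤ r) (hs : 2 * r ≤ s) :
    0 ≤ GG (0.7119) (0.296) (0.0595) (0.066822) (0.19118) (0.1204) (0) (0) X z s r := by
  unfold GG
  linarith [sq_nonneg (0.592 * z + (-0.58022) * X + 0.3555), sq_nonneg (0.592 * (r - s / 2) + (0.074722)),
    sq_nonneg (0.296 * s + (-0.117511)), mul_nonneg (sub_nonneg.2 h1) (sub_nonneg.2 h2)]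

theorem gB_7_0 {X z s r : ℝ} (h1 : 0.9 ≤ X) (h2 : X ≤ 1) (hr : 0 ≤ r) (hs : 2 * r ≤ s) :
    0 ≤ GG (0.7039) (0.3304) (0.051) (0) (0.137) (0) (0) (0) X z s r := by
  unfold GG
  linarith [sq_nonneg (0.6608 * z + (-0.6179) * X + 0.3814), sq_nonneg (0.6608 * (r - s / 2) + (0.0343)),
    sq_nonneg (0.3304 * s + (-0.1265)), mul_nonneg (sub_nonneg.2 h1) (sub_nonneg.2 h2)]

theorem gB_7_1 {X z s r : ℝ} (h1 : 0.9 ≤ X) (h2 : X ≤ 1) (hr : 0 ≤ r) (hs : 2 * r ≤ s) :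
    0 ≤ GG (0.7039) (0.3304) (0.051) (0.010836) (0.188772) (0) (0.1204) (0.1204) X z s r := by
  unfold GG
  linarith [sq_nonneg (0.6608 * z + (-0.566128) * X + 0.3814), sq_nonneg (0.6608 * (r - s / 2) + (0.045136)),
    sq_nonneg (0.3304 * s + (-0.131918)), mul_nonneg (sub_nonneg.2 h1) (sub_nonneg.2 h2)]

theorem gB_7_2 {X z s r : ℝ} (h1 : 0.9 ≤ X) (h2 : X ≤ 1) (hr : 0 ≤ r) (hs : 2 * r ≤ s) :
    0 ≤ GG (0.7039) (0.3304) (0.051) (0.077658) (0.19118) (0.1204) (0) (0.1204) X z s r := by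
  unfold GG
  linarith [sq_nonneg (0.6608 * z + (-0.56372) * X + 0.3814), sq_nonneg (0.6608 * (r - s / 2) + (0.111958)),
    sq_nonneg (0.3304 * s + (-0.165329)), mul_nonneg (sub_nonneg.2 h1) (sub_nonneg.2 h2)]

theorem gB_7_3 {X z s r : ℝ} (h1 : 0.9 ≤ X) (h2 : X ≤ 1) (hr : 0 ≤ r) (hs : 2 * r ≤ s) :
    0 ≤ GG (0.7039) (0.3304) (0.051) (0.066822) (0.19118) (0.1204) (0) (0) X z s r := by
  unfold GG
  linarith [sq_nonneg (0.6608 * z + (-0.56372) * X + 0.3814), sq_nonneg (0.6608 * (r - s / 2) + (0.101122)),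
    sq_nonneg (0.3304 * s + (-0.159911)), mul_nonneg (sub_nonneg.2 h1) (sub_nonneg.2 h2)]

theorem rB_0 {X : ℝ} (h1 : 0 ≤ X) (h2 : X ≤ 0.25) :
    0 ≤ 0.1204 * ((1 - X) * (0.09 + 0.43 * X ^ 2 / 2) - X * (0.403)) + (1 - X) * (0.137 * X ^ 2 / 2) := by
  nlinarith [mul_nonneg h1 (sub_nonneg.2 h2), mul_nonneg (mul_nonneg h1 h1) (sub_nonneg.2 h2),
    mul_nonneg h1 (mul_nonneg (sub_nonneg.2 h2) (sub_nonneg.2 h2))]

theorem rB_2 {X : ℝ} (h1 : 0 ≤ X) (h2 : X ≤ 0.25) :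
    0 ≤ 0.1204 * ((1 - X) * (0.105 + 0.45 * X ^ 2 / 2) - X * (0.403)) + (1 - X) * (0.137 * X ^ 2 / 2) := by
  nlinarith [mul_nonneg h1 (sub_nonneg.2 h2), mul_nonneg (mul_nonneg h1 h1) (sub_nonneg.2 h2),
    mul_nonneg h1 (mul_nonneg (sub_nonneg.2 h2) (sub_nonneg.2 h2))]

theorem keyB : Key (0.1204) (0.137) (0.45) (0.43) (0.555) (0.09) := by
  intro X z s r S0 S2 S3 hX0 hX1 hr hs h0 h2 h3 hT c7 c3 c5
  rcases le_total X 0.25 with k | k
  · refine reg1 (l7 := 0.54) (T0 := 0.1204) (by norm_num) (by norm_num) (by norm_num) (by norm_num)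
      (by norm_num) (by norm_num) (by norm_num) (by norm_num) (by norm_num) hX0
      (by linarith) hr hs h0 h2 h3 hT c7 c3 ?_ ?_
    · have := rB_0 hX0 k
      linarith
    · have := rB_2 hX0 k
      linarith
  rcases le_total X 0.31 with k1 | k1
  · refine comb (T0 := 0.1204) (l7 := 0.5806) (l5 := 0.0566) (l3 := 0.0654) (by norm_num) (by norm_num)
      (by norm_num) (by norm_num) h0 h2 h3 hT c7 c3 c5 ?_ ?_ ?_ ?_
    · have := gB_1_0 (z := z) k k1 hr hs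
      unfold GG at this ⊢
      linarith
    · have := gB_1_1 (z := z) k k1 hr hs
      unfold GG at this ⊢
      linarith
    · have := gB_1_2 (z := z) k k1 hr hs
      unfold GG at this ⊢
      linarith
    · have := gB_1_3 (z := z) k k1 hr hs
      unfold GG at this ⊢
      linarith
  rcases le_total X 0.38 with k2 | k2
  · refine comb (T0 := 0.1204) (l7 := 0.5972) (l5 := 0.0825) (l3 := 0.0665) (by norm_num) (by norm_num)
      (by norm_num) (by norm_num) h0 h2 h3 hT c7 c3 c5 ?_ ?_ ?_ ?_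
    · have := gB_2_0 (z := z) k1 k2 hr hs
      unfold GG at this ⊢
      linarith
    · have := gB_2_1 (z := z) k1 k2 hr hs
      unfold GG at this ⊢
      linarith
    · have := gB_2_2 (z := z) k1 k2 hr hs
      unfold GG at this ⊢
      linarith
    · have := gB_2_3 (z := z) k1 k2 hr hs
      unfold GG at this ⊢
      linarith
  rcases le_total X 0.48 with k3 | k3
  · refine comb (T0 := 0.1204) (l7 := 0.6217) (l5 := 0.1174) (l3 := 0.0676) (by norm_num) (by norm_num)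
      (by norm_num) (by norm_num) h0 h2 h3 hT c7 c3 c5 ?_ ?_ ?_ ?_
    · have := gB_3_0 (z := z) k2 k3 hr hs
      unfold GG at this ⊢
      linarith
    · have := gB_3_1 (z := z) k2 k3 hr hs
      unfold GG at this ⊢
      linarith
    · have := gB_3_2 (z := z) k2 k3 hr hs
      unfold GG at this ⊢
      linarith
    · have := gB_3_3 (z := z) k2 k3 hr hs
      unfold GG at this ⊢
      linarith
  rcases le_total X 0.62 with k4 | k4
  · refine comb (T0 := 0.1204) (l7 := 0.6739) (l5 := 0.1803) (l3 := 0.059) (by norm_num) (by norm_num)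
      (by norm_num) (by norm_num) h0 h2 h3 hT c7 c3 c5 ?_ ?_ ?_ ?_
    · have := gB_4_0 (z := z) k3 k4 hr hs
      unfold GG at this ⊢
      linarith
    · have := gB_4_1 (z := z) k3 k4 hr hs
      unfold GG at this ⊢
      linarith
    · have := gB_4_2 (z := z) k3 k4 hr hs
      unfold GG at this ⊢
      linarith
    · have := gB_4_3 (z := z) k3 k4 hr hs
      unfold GG at this ⊢
      linarith
  rcases le_total X 0.8 with k5 | k5
  · refine comb (T0 := 0.1204) (l7 := 0.7179) (l5 := 0.2563) (l3 := 0.0577) (by norm_num) (by norm_num)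
      (by norm_num) (by norm_num) h0 h2 h3 hT c7 c3 c5 ?_ ?_ ?_ ?_
    · have := gB_5_0 (z := z) k4 k5 hr hs
      unfold GG at this ⊢
      linarith
    · have := gB_5_1 (z := z) k4 k5 hr hs
      unfold GG at this ⊢
      linarith
    · have := gB_5_2 (z := z) k4 k5 hr hs
      unfold GG at this ⊢
      linarith
    · have := gB_5_3 (z := z) k4 k5 hr hs
      unfold GG at this ⊢
      linarith
  rcases le_total X 0.9 with k6 | k6
  · refine comb (T0 := 0.1204) (l7 := 0.7119) (l5 := 0.296) (l3 := 0.0595) (by norm_num) (by norm_num)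
      (by norm_num) (by norm_num) h0 h2 h3 hT c7 c3 c5 ?_ ?_ ?_ ?_
    · have := gB_6_0 (z := z) k5 k6 hr hs
      unfold GG at this ⊢
      linarith
    · have := gB_6_1 (z := z) k5 k6 hr hs
      unfold GG at this ⊢
      linarith
    · have := gB_6_2 (z := z) k5 k6 hr hs
      unfold GG at this ⊢
      linarith
    · have := gB_6_3 (z := z) k5 k6 hr hs
      unfold GG at this ⊢
      linarith
  refine comb (T0 := 0.1204) (l7 := 0.7039) (l5 := 0.3304) (l3 := 0.051) (by norm_num) (by norm_num)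
      (by norm_num) (by norm_num) h0 h2 h3 hT c7 c3 c5 ?_ ?_ ?_ ?_
  · have := gB_7_0 (z := z) k6 hX1 hr hs
    unfold GG at this ⊢
    linarith
  · have := gB_7_1 (z := z) k6 hX1 hr hs
    unfold GG at this ⊢
    linarith
  · have := gB_7_2 (z := z) k6 hX1 hr hs
    unfold GG at this ⊢
    linarith
  · have := gB_7_3 (z := z) k6 hX1 hr hs
    unfold GG at this ⊢
    linarith

end Helper37.Neg
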