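import Pool.Agent.Helper41.MEI.ArcQ
import Pool.Agent.Helper37.MEI.Neg1

/-!
# Project MEI (M2): a coordinate beyond the far end of the opposite edge, sharper, pointwise
-/

set_option autoImplicit false

namespace Helper37.Neg

open Helper41.ArcP

theorem cD {X ξ s p2 p3 c S0 S1 S2 S3 : ℝ} (g2 : 0 ≤ p2) (g3 : 0 ≤ p3)
    (pl2 : 1 - s - c - c ≤ 1) (hc : c ≤ 0)
    (r23 : ipr X ξ s p2 p3 c + p2 - c ≤ S2 + S3)
    (r20 : ipr X ξ s p2 p3 c + p2 - s / 2 - ξ ≤ S2 + S0)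
    (r21 : ipr X ξ s p2 p3 c + p2 - s / 2 + ξ ≤ S2 + S1)
    (Q0 : nmr ξ s c - s / 2 - ξ - 1 / 2 ≤ S0) :
    2 * (-c) ≤ s ∧ -c + s / 2 ≤ S2 + S3 + X * (-ξ) ∧ (1 - X) * (-ξ) ≤ S0 + S2 ∧
    (1 + X) * ξ ≤ S1 + S2 ∧
    -c + (-c) ^ 2 - s * (-c) + -ξ + (-ξ) ^ 2 ≤ 3 / 2 * s - 3 / 4 * s ^ 2 + S0 := by
  have hs : 2 * (-c) ≤ s := by linarith
  have k1 : 0 ≤ p2 * (3 * s / 2 + c) := mul_nonneg g2 (by linarith)
  have k2 : 0 ≤ p3 * (s / 2 - c) := mul_nonneg g3 (by linarith)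
  unfold ipr at r23 r20 r21
  unfold nmr at Q0
  refine ⟨hs, by linarith, by linarith, by linarith, by linarith⟩

theorem cA {X ξ s p2 p3 c S1 S2 S3 : ℝ} (g2 : 0 ≤ p2) (g3 : 0 ≤ p3) (hXξ : 0 ≤ X * ξ)
    (pl3 : c - (1 - s - c) ≤ 1) (hq : 1 - s - c ≤ 0)
    (r32 : ipr X ξ s p2 p3 c + p3 - (1 - s - c) ≤ S3 + S2)
    (r31 : ipr X ξ s p2 p3 c + p3 - s / 2 + ξ ≤ S3 + S1) : ξ ≤ S3 + S1 ∧ s ≤ 2 * (S3 + S2) := by
  have hs0 : 0 ≤ s := by linarith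
  have hk1 : 0 ≤ p2 * (s + c - 1) := mul_nonneg g2 (by linarith)
  have hk2 : 0 ≤ p3 * (s - (s + c - 1)) := mul_nonneg g3 (by linarith)
  have hk3 : 0 ≤ p2 * s := mul_nonneg g2 hs0
  have hk4 : 0 ≤ p3 * s := mul_nonneg g3 hs0
  unfold ipr at r32 r31
  constructor
  · linarith
  · linarith

theorem cB {X ξ s p2 p3 c S1 S2 S3 : ℝ} (g2 : 0 ≤ p2) (g3 : 0 ≤ p3) (hXξ : 0 ≤ X * ξ)
    (hq : 0 ≤ 1 - s - c) (hc : 0 ≤ c) (hs0 : 0 ≤ s)
    (r21 : ipr X ξ s p2 p3 c + p2 - s / 2 + ξ ≤ S2 + S1)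
    (r31 : ipr X ξ s p2 p3 c + p3 - s / 2 + ξ ≤ S3 + S1)
    (X2 : ipr X ξ s p2 p3 c + p2 + (1 / 2 - nmr ξ s c) ≤ S2)
    (X3 : ipr X ξ s p2 p3 c + p3 + (1 / 2 - nmr ξ s c) ≤ S3)
    (h2 : 0 ≤ S2) (h3 : 0 ≤ S3) :
    ξ ≤ S1 + S2 + S3 ∧ 0.75 * s ≤ S2 + S3 + ξ ^ 2 := by
  have hq1 : 0 ≤ s + c := by linarith
  have k1 := mul_le_mul_of_nonneg_left r21 hq
  have k2 := mul_le_mul_of_nonneg_left r31 hq1
  have k3 := mul_le_mul_of_nonneg_left X2 hq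
  have k4 := mul_le_mul_of_nonneg_left X3 hq1
  have k5 : 0 ≤ (s + c) * S2 := mul_nonneg hq1 h2
  have k5' : 0 ≤ (1 - s - c) * S3 := mul_nonneg hq h3
  have k6 : 0 ≤ p2 * s := mul_nonneg g2 hs0
  have k7 : 0 ≤ p3 * s := mul_nonneg g3 hs0
  have k8 : 0 ≤ (1 - s - c) * c := mul_nonneg hq hc
  have k9 : 0 ≤ s * (1 - s) := mul_nonneg hs0 (by linarith)
  unfold ipr at k1 k2 k3 k4
  unfold nmr at k3 k4
  have hb : ξ ≤ S1 + S2 + S3 := by linarith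
  refine ⟨hb, ?_⟩
  linarith

theorem cC {X ξ s p2 p3 c S1 S2 S3 p0 nu : ℝ} (g2 : 0 ≤ p2) (g3 : 0 ≤ p3) (hX : 0 ≤ X)
    (hq : 0 ≤ 1 - s - c) (hc : 0 ≤ c) (hs0 : s ≤ 0) (hξ0 : 0 ≤ ξ) (hu : p2 + p3 ≤ p0)
    (r21 : ipr X ξ s p2 p3 c + p2 - s / 2 + ξ ≤ S2 + S1)
    (r31 : ipr X ξ s p2 p3 c + p3 - s / 2 + ξ ≤ S3 + S1)
    (Q1 : nmr ξ s c - s / 2 + ξ - 1 / 2 ≤ S1)
    (h2 : 0 ≤ S2) (h3 : 0 ≤ S3) (hnu : 0.375 * p0 ≤ (1 + 1.5 * p0) * nu) :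
    ξ ≤ S1 + S2 + S3 + nu := by
  have k1 := mul_le_mul_of_nonneg_left r21 hq
  have k2 := mul_le_mul_of_nonneg_left r31 hc
  have h4 : 0 < 1 - s := by linarith
  have k3 : 0 ≤ p2 * (1 - s - (1 - s - c)) := mul_nonneg g2 (by linarith)
  have k4 : 0 ≤ p3 * (1 - s - c) := mul_nonneg g3 (by linarith)
  have k3' := mul_nonneg k3 (neg_nonneg.2 hs0)
  have k4' := mul_nonneg k4 (neg_nonneg.2 hs0)
  have k5 : (1 - s - c) * (S2 + S1) + c * (S3 + S1) ≤ (1 - s) * (S1 + S2 + S3) := by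
    have a1 := mul_nonneg hc h2
    have a2 := mul_nonneg hq h3
    linarith
  have k6 : (1 - s) * ((1 + X) * ξ + (p2 + p3) * s * (3 / 2) - (S1 + S2 + S3)) ≤ 0 := by
    unfold ipr at k1 k2
    linarith
  have k7 : (1 + X) * ξ + (p2 + p3) * s * (3 / 2) - (S1 + S2 + S3) ≤ 0 := by
    by_contra hcon
    rw [not_le] at hcon
    have := mul_pos h4 hcon
    linarith
  have k8 : 0 ≤ X * ξ := mul_nonneg hX hξ0
  have k9 : (p0 - (p2 + p3)) * (-s) ≥ 0 := mul_nonneg (by linarith) (by linarith)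
  have k10 : -s ≤ 1 / 4 + S1 - ξ := by
    unfold nmr at Q1
    nlinarith [sq_nonneg (1 - s - c - c), sq_nonneg s, sq_nonneg ξ]
  have p00 : 0 ≤ p0 := by linarith
  have k11 := mul_le_mul_of_nonneg_left k10 p00
  have k12 : (1 + 1.5 * p0) * ξ ≤ (1 + 1.5 * p0) * (S1 + S2 + S3 + nu) := by
    have a3 : 0 ≤ p0 * (S2 + S3) := mul_nonneg p00 (by linarith)
    linarith
  exact le_of_mul_le_mul_left k12 (by linarith)

/-- the two alternatives where the flux term is negative -/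
theorem cE {X ξ s p2 p3 c S0 S1 S2 S3 u p0 nu : ℝ} (g2 : 0 ≤ p2) (g3 : 0 ≤ p3)
    (r23 : ipr X ξ s p2 p3 c + p2 - c ≤ S2 + S3)
    (r20 : ipr X ξ s p2 p3 c + p2 - s / 2 - ξ ≤ S2 + S0)
    (r32 : ipr X ξ s p2 p3 c + p3 - (1 - s - c) ≤ S3 + S2)
    (r21 : ipr X ξ s p2 p3 c + p2 - s / 2 + ξ ≤ S2 + S1)
    (r31 : ipr X ξ s p2 p3 c + p3 - s / 2 + ξ ≤ S3 + S1)
    (X2 : ipr X ξ s p2 p3 c + p2 + (1 / 2 - nmr ξ s c) ≤ S2)
    (X3 : ipr X ξ s p2 p3 c + p3 + (1 / 2 - nmr ξ s c) ≤ S3)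
    (hu : p2 + p3 ≤ p0) (Q0 : nmr ξ s c - s / 2 - ξ - 1 / 2 ≤ S0)
    (Q1 : nmr ξ s c - s / 2 + ξ - 1 / 2 ≤ S1)
    (pl2 : 1 - s - c - c ≤ 1) (pl3 : c - (1 - s - c) ≤ 1)
    (h1 : 0 ≤ S1) (h2 : 0 ≤ S2) (h3 : 0 ≤ S3) (hu1 : S1 ≤ u)
    (hT : u + S2 + S3 ≤ 0.1204) (hX : 0 ≤ X) (hξ0 : 0 ≤ ξ)
    (hnu : 0.375 * p0 ≤ (1 + 1.5 * p0) * nu) :
    (ξ ≤ u + S2 + S3 ∧ 0.759 ≤ max (1 - s - c) 0 + max c 0) ∨
    (ξ ≤ u + S2 + S3 + nu ∧ 1 ≤ max (1 - s - c) 0 + max c 0) := by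
  have hXξ : 0 ≤ X * ξ := mul_nonneg hX hξ0
  have m2 : 0 ≤ max (1 - s - c) 0 := le_max_right _ _
  have m2' : 1 - s - c ≤ max (1 - s - c) 0 := le_max_left _ _
  have m3 : 0 ≤ max c 0 := le_max_right _ _
  have m3' : c ≤ max c 0 := le_max_left _ _
  rcases le_or_gt 0 c with hc | hc
  · rcases lt_or_ge (1 - s - c) 0 with hq | hq
    · obtain ⟨a1, a2⟩ := cA g2 g3 hXξ pl3 hq.le r32 r31
      left
      constructor
      · linarith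
      · linarith
    · rcases le_or_gt 0 s with hs0 | hs0
      · obtain ⟨a1, a2⟩ := cB g2 g3 hXξ hq hc hs0 r21 r31 X2 X3 h2 h3
        have a3 := sqB hξ0 (show ξ ≤ 0.1204 by linarith)
        left
        constructor
        · linarith
        · norm_num at a3
          linarith
      · have a1 := cC g2 g3 hX hq hc hs0.le hξ0 hu r21 r31 Q1 h2 h3 hnu
        right
        constructor
        · linarith
        · linarith
  · obtain ⟨d1, d2, d3, d4, d5⟩ := cD g2 g3 pl2 hc.le r23 r20 r21 Q0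
    left
    constructor
    · linarith
    · linarith

theorem sq759 {N nu : ℝ} (h0 : 0 ≤ N) (h1 : N ≤ 0.1204) (h2 : 0.07 ≤ nu) :
    N ^ 2 ≤ 0.759 * (N + nu) ^ 2 := by
  have a1 : N ≤ 0.871 * (N + nu) := by linarith
  have a2 := sqB h0 a1
  have a3 : 0 ≤ (N + nu) ^ 2 := sq_nonneg _
  linarith

/-- **the pointwise bound in reduced coordinates** -/
theorem pwR {X ξ s p2 p3 c S0 S1 S2 S3 u w W T0 k0 kA kB eA eB h0 h1 wl nu p0 : ℝ}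
    (hK : Key T0 k0 kA kB eA eB) (hk0 : 0 ≤ k0) (hkA : 0 ≤ kA) (hkB : 0 ≤ kB) (hAB : kB ≤ kA)
    (heA : 0 ≤ eA) (heB : 0 ≤ eB) (hh0 : 0 ≤ h0) (hh1 : 0 ≤ h1) (hwl : 0 ≤ wl)
    (hnu0 : 0.07 ≤ nu) (hT1 : T0 ≤ 0.1204)
    (hη : ∀ N : ℝ, 0 ≤ N → N ≤ T0 → 0.32 * (k0 + kA * N) * (N + nu) ^ 2 ≤ wl * (h0 + h1 * N))
    (g2 : 0 ≤ p2) (g3 : 0 ≤ p3)
    (r23 : ipr X ξ s p2 p3 c + p2 - c ≤ S2 + S3)
    (r20 : ipr X ξ s p2 p3 c + p2 - s / 2 - ξ ≤ S2 + S0)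
    (r32 : ipr X ξ s p2 p3 c + p3 - (1 - s - c) ≤ S3 + S2)
    (r21 : ipr X ξ s p2 p3 c + p2 - s / 2 + ξ ≤ S2 + S1)
    (r31 : ipr X ξ s p2 p3 c + p3 - s / 2 + ξ ≤ S3 + S1)
    (X2 : ipr X ξ s p2 p3 c + p2 + (1 / 2 - nmr ξ s c) ≤ S2)
    (X3 : ipr X ξ s p2 p3 c + p3 + (1 / 2 - nmr ξ s c) ≤ S3)
    (hu : p2 + p3 ≤ p0)
    (Q0 : nmr ξ s c - s / 2 - ξ - 1 / 2 ≤ S0) (Q1 : nmr ξ s c - s / 2 + ξ - 1 / 2 ≤ S1)
    (plx : X ≤ 1) (pl2 : 1 - s - c - c ≤ 1) (pl3 : c - (1 - s - c) ≤ 1)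
    (s0 : 0 ≤ S0) (s1 : 0 ≤ S1) (s2 : 0 ≤ S2) (s3 : 0 ≤ S3) (hu0 : S0 ≤ u) (hu1 : S1 ≤ u)
    (hT : u + S2 + S3 ≤ T0) (hnu : 0.375 * p0 ≤ (1 + 1.5 * p0) * nu)
    (hw0 : 0 ≤ w) (hwW : w ≤ W) (hW : W ≤ 0.64) (hWl : X ≤ 2 * (T0 + nu) → wl ≤ W)
    (hX : 0 ≤ X) :
    w * max (-c) 0 ≤ w * ((eA * (S2 + S3) + eB * (u + S2)) * max (1 - s - c) 0) +
      W * ((h0 + h1 * (u + S2 + S3)) * (max (1 - s - c) 0 + max c 0)) +
      0.64 * (k0 + kA * (S2 + S3) + kB * u) * (X * (X / 2 - ξ)) := by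
  have m2 : 0 ≤ max (1 - s - c) 0 := le_max_right _ _
  have m2' : 1 - s - c ≤ max (1 - s - c) 0 := le_max_left _ _
  have m3 : 0 ≤ max c 0 := le_max_right _ _
  set M2 := max (1 - s - c) 0
  set M3 := max c 0
  have u0 : 0 ≤ u := s0.trans hu0
  set N := u + S2 + S3 with hN
  have N0 : 0 ≤ N := by rw [hN]; linarith
  set P := X * (X / 2 - ξ) with hP
  set κ := k0 + kA * (S2 + S3) + kB * u with hκ
  set ε := eA * (S2 + S3) + eB * (u + S2) with hε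
  have ε0 : 0 ≤ ε := add_nonneg (mul_nonneg heA (by linarith)) (mul_nonneg heB (by linarith))
  have κ0 : 0 ≤ κ := add_nonneg (add_nonneg hk0 (mul_nonneg hkA (by linarith)))
    (mul_nonneg hkB u0)
  have η0 : 0 ≤ h0 + h1 * N := add_nonneg hh0 (mul_nonneg hh1 N0)
  have W0 : 0 ≤ W := hw0.trans hwW
  -- the bound of the coordinate
  have hr : c < 0 → 0 < -c → -c ≤ ε * M2 + κ * max P 0 ∧ (P < 0 → -c ≤ ε * M2) := by
    intro hc hc'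
    obtain ⟨d1, d2, d3, d4, d5⟩ := cD g2 g3 pl2 hc.le r23 r20 r21 Q0
    have k1 := hK X (-ξ) s (-c) S0 S2 S3 hX plx hc'.le d1 s0 s2 s3 (by linarith) d2 d3 d5
    have e1 : X * (X / 2 + -ξ) = P := by rw [hP]; ring
    have e2 : 1 - s + -c = 1 - s - c := by ring
    rw [e1, e2] at k1
    have a1 : (eA * (S2 + S3) + eB * (S0 + S2)) * (1 - s - c) ≤ ε * M2 := by
      have b1 : 0 ≤ eA * (S2 + S3) + eB * (S0 + S2) :=
        add_nonneg (mul_nonneg heA (by linarith)) (mul_nonneg heB (by linarith))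
      have b2 : eA * (S2 + S3) + eB * (S0 + S2) ≤ ε := by
        have := mul_le_mul_of_nonneg_left (show S0 + S2 ≤ u + S2 by linarith) heB
        rw [hε]; linarith
      exact (mul_le_mul_of_nonneg_left m2' b1).trans (mul_le_mul_of_nonneg_right b2 m2)
    have a2 : k0 + kA * (S2 + S3) + kB * S0 ≤ κ := by
      have := mul_le_mul_of_nonneg_left hu0 hkB
      rw [hκ]; linarith
    have a3 : 0 ≤ k0 + kA * (S2 + S3) + kB * S0 := add_nonneg (add_nonneg hk0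
      (mul_nonneg hkA (by linarith))) (mul_nonneg hkB s0)
    have a4 : P ≤ max P 0 := le_max_left _ _
    have a5 : 0 ≤ max P 0 := le_max_right _ _
    have a6 := (mul_le_mul_of_nonneg_left a4 a3).trans (mul_le_mul_of_nonneg_right a2 a5)
    refine ⟨by linarith, fun hP0 => ?_⟩
    have a7 : (k0 + kA * (S2 + S3) + kB * S0) * P ≤ 0 :=
      mul_nonpos_of_nonneg_of_nonpos a3 hP0.le
    linarith
  rcases le_or_gt 0 P with hP0 | hP0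
  · have hz : 0 ≤ W * ((h0 + h1 * N) * (M2 + M3)) :=
      mul_nonneg W0 (mul_nonneg η0 (by linarith))
    rcases le_or_gt 0 c with hc | hc
    · rw [max_eq_right (by linarith : -c ≤ 0), mul_zero]
      have : 0 ≤ w * (ε * M2) := mul_nonneg hw0 (mul_nonneg ε0 m2)
      have : 0 ≤ 0.64 * κ * P := mul_nonneg (mul_nonneg (by norm_num) κ0) hP0
      linarith
    · rw [max_eq_left (by linarith : 0 ≤ -c)]
      obtain ⟨k1, -⟩ := hr hc (by linarith)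
      rw [max_eq_left hP0] at k1
      have k2 := mul_le_mul_of_nonneg_left k1 hw0
      have k3 : w * (κ * P) ≤ 0.64 * (κ * P) :=
        mul_le_mul_of_nonneg_right (hwW.trans hW) (mul_nonneg κ0 hP0)
      linarith
  · -- the flux term is negative
    have hξX : X / 2 < ξ := by
      by_contra hcon
      rw [not_lt] at hcon
      exact absurd (mul_nonneg hX (by linarith : 0 ≤ X / 2 - ξ)) (by linarith)
    have hξ0 : 0 ≤ ξ := by linarith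
    have hP2 : -P ≤ ξ ^ 2 / 2 := by
      have := sq_nonneg (X - ξ)
      rw [hP]
      linarith
    have κN : κ ≤ k0 + kA * N := by
      have := mul_le_mul_of_nonneg_right hAB u0
      rw [hκ, hN]; linarith
    have κN0 : 0 ≤ k0 + kA * N := κ0.trans κN
    have hη1 := hη N N0 hT
    have alt := cE g2 g3 r23 r20 r32 r21 r31 X2 X3 hu Q0 Q1 pl2 pl3 s1 s2 s3 hu1
      (by linarith : u + S2 + S3 ≤ 0.1204) hX hξ0 hnu
    rw [← hN] at alt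
    have hcomp : 0 ≤ W * ((h0 + h1 * N) * (M2 + M3)) + 0.64 * κ * P := by
      have hξT : ξ ≤ T0 + nu := by
        rcases alt with ⟨a1, -⟩ | ⟨a1, -⟩ <;> linarith
      have hwW' := hWl (by linarith)
      have b0 : 0.64 * κ * (-P) ≤ 0.32 * (k0 + kA * N) * ξ ^ 2 := by
        have c1 := mul_le_mul_of_nonneg_left hP2 (show 0 ≤ 0.64 * κ by linarith)
        have c2 := mul_le_mul_of_nonneg_right κN (sq_nonneg ξ)
        linarith
      have b1 : 0.32 * (k0 + kA * N) * ξ ^ 2 ≤ wl * (h0 + h1 * N) * (M2 + M3) := by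
        rcases alt with ⟨a1, a2⟩ | ⟨a1, a2⟩
        · have c1 := sqB hξ0 a1
          have c2 := sq759 N0 (hT.trans hT1) hnu0
          have c3 := mul_le_mul_of_nonneg_left (c1.trans c2)
            (show 0 ≤ 0.32 * (k0 + kA * N) by linarith)
          have c4 := mul_le_mul_of_nonneg_left a2 (mul_nonneg hwl η0)
          have c5 := mul_le_mul_of_nonneg_right hη1 (show (0 : ℝ) ≤ 0.759 by norm_num)
          linarith
        · have c1 := sqB hξ0 a1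
          have c3 := mul_le_mul_of_nonneg_left c1
            (show 0 ≤ 0.32 * (k0 + kA * N) by linarith)
          have c4 := mul_le_mul_of_nonneg_left a2 (mul_nonneg hwl η0)
          linarith
      have b2 : wl * (h0 + h1 * N) * (M2 + M3) ≤ W * ((h0 + h1 * N) * (M2 + M3)) := by
        have := mul_le_mul_of_nonneg_right hwW' (mul_nonneg η0 (add_nonneg m2 m3))
        linarith
      linarith
    rcases le_or_gt 0 c with hc | hc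
    · rw [max_eq_right (by linarith : -c ≤ 0), mul_zero]
      have : 0 ≤ w * (ε * M2) := mul_nonneg hw0 (mul_nonneg ε0 m2)
      linarith
    · rw [max_eq_left (by linarith : 0 ≤ -c)]
      obtain ⟨-, k1⟩ := hr hc (by linarith)
      have k2 := mul_le_mul_of_nonneg_left (k1 hP0) hw0
      linarith

end Helper37.Neg
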