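import Pool.Agent.Helper37.MEI.Neg2

/-!
# Project MEI (M2): the pointwise bound of `Neg2` in barycentric coordinates, any weight
-/

set_option autoImplicit false

namespace Helper37.Neg

open Set MeasureTheory Filter Topology Metric
open Helper80.CW Helper14.CW Helper14.MEI2 Helper93.MEI Helper41.ArcP
open scoped RealInnerProductSpace Real

/-- the conditions on the numbers -/
structure Cst (T0 k0 kA kB eA eB h0 h1 wl nu p0 : ℝ) : Prop where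
  key : Key T0 k0 kA kB eA eB
  k0_nn : 0 ≤ k0
  kA_nn : 0 ≤ kA
  kB_nn : 0 ≤ kB
  kBA : kB ≤ kA
  eA_nn : 0 ≤ eA
  eB_nn : 0 ≤ eB
  h0_nn : 0 ≤ h0
  h1_nn : 0 ≤ h1
  wl_nn : 0 ≤ wl
  nu_ge : 0.07 ≤ nu
  T0_le : T0 ≤ 0.1204
  eta : ∀ N : ℝ, 0 ≤ N → N ≤ T0 → 0.32 * (k0 + kA * N) * (N + nu) ^ 2 ≤ wl * (h0 + h1 * N)
  nup : 0.375 * p0 ≤ (1 + 1.5 * p0) * nu
  p0_nn : 0 ≤ p0
  p0_ge : 1 / 4 + T0 / 2 ≤ p0 + p0 ^ 2 / 2
  wl_le : wl * (1 + (T0 + nu) ^ 2 / 2 + 3 * p0 ^ 2) ≤ 1 / 2 - 7 / 16 * (T0 + nu)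

/-- the numbers for levels with sum `≤ .0904` -/
theorem cstA : Cst 0.0904 0.136 0.43 0.41 0.545 0.07 0.00062 0.0388 0.352 0.0704 0.2612 where
  key := keyA
  k0_nn := by norm_num
  kA_nn := by norm_num
  kB_nn := by norm_num
  kBA := by norm_num
  eA_nn := by norm_num
  eB_nn := by norm_num
  h0_nn := by norm_num
  h1_nn := by norm_num
  wl_nn := by norm_num
  nu_ge := by norm_num
  T0_le := by norm_num
  eta := by
    intro N h0 h1
    nlinarith [mul_nonneg h0 (sub_nonneg.2 h1), mul_nonneg (mul_nonneg h0 h0) (sub_nonneg.2 h1)]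
  nup := by norm_num
  p0_nn := by norm_num
  p0_ge := by norm_num
  wl_le := by norm_num

/-- the numbers for levels with sum `≤ .1204` -/
theorem cstB : Cst 0.1204 0.137 0.45 0.43 0.555 0.09 0.0007 0.0512 0.334 0.0727 0.273 where
  key := keyB
  k0_nn := by norm_num
  kA_nn := by norm_num
  kB_nn := by norm_num
  kBA := by norm_num
  eA_nn := by norm_num
  eB_nn := by norm_num
  h0_nn := by norm_num
  h1_nn := by norm_num
  wl_nn := by norm_num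
  nu_ge := by norm_num
  T0_le := by norm_num
  eta := by
    intro N h0 h1
    nlinarith [mul_nonneg h0 (sub_nonneg.2 h1), mul_nonneg (mul_nonneg h0 h0) (sub_nonneg.2 h1)]
  nup := by norm_num
  p0_nn := by norm_num
  p0_ge := by norm_num
  wl_le := by norm_num

section
variable {T0 k0 kA kB eA eB h0 h1 wl nu p0 : ℝ} (C : Cst T0 k0 kA kB eA eB h0 h1 wl nu p0)

include C in
/-- **the pointwise bound**, `x` on the side of `a 0` -/
theorem pwX {x0 x1 x2 x3 q0 q1 q2 q3 S0 S1 S2 S3 u w W : ℝ}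
    (sx : x0 + x1 + x2 + x3 = 1) (sq : q0 + q1 + q2 + q3 = 1)
    (hd : x0 ^ 2 + x1 ^ 2 + x2 ^ 2 + x3 ^ 2 + (q0 ^ 2 + q1 ^ 2 + q2 ^ 2 + q3 ^ 2) -
      2 * (x0 * q0 + x1 * q1 + x2 * q2 + x3 * q3) = 2)
    (hx2 : x2 ≤ 0) (hx3 : x3 ≤ 0) (hu : -x2 + -x3 ≤ p0)
    (X2 : 1 / 2 * (x0 ^ 2 + x1 ^ 2 + x2 ^ 2 + x3 ^ 2) - x2 - 1 / 2 ≤ S2)
    (X3 : 1 / 2 * (x0 ^ 2 + x1 ^ 2 + x2 ^ 2 + x3 ^ 2) - x3 - 1 / 2 ≤ S3)
    (Q0 : 1 / 2 * (q0 ^ 2 + q1 ^ 2 + q2 ^ 2 + q3 ^ 2) - q0 - 1 / 2 ≤ S0)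
    (Q1 : 1 / 2 * (q0 ^ 2 + q1 ^ 2 + q2 ^ 2 + q3 ^ 2) - q1 - 1 / 2 ≤ S1)
    (Q2 : 1 / 2 * (q0 ^ 2 + q1 ^ 2 + q2 ^ 2 + q3 ^ 2) - q2 - 1 / 2 ≤ S2)
    (Q3 : 1 / 2 * (q0 ^ 2 + q1 ^ 2 + q2 ^ 2 + q3 ^ 2) - q3 - 1 / 2 ≤ S3)
    (plx : x0 - x1 ≤ 1) (pl2 : q2 - q3 ≤ 1) (pl3 : q3 - q2 ≤ 1)
    (s0 : 0 ≤ S0) (s1 : 0 ≤ S1) (s2 : 0 ≤ S2) (s3 : 0 ≤ S3) (hu0 : S0 ≤ u) (hu1 : S1 ≤ u)
    (hT : u + S2 + S3 ≤ T0) (hw0 : 0 ≤ w) (hwW : w ≤ W) (hW : W ≤ 0.64)
    (hWl : x0 - x1 ≤ 2 * (T0 + nu) → wl ≤ W) (hX : 0 ≤ x0 - x1) :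
    w * max (-q3) 0 ≤ w * ((eA * (S2 + S3) + eB * (u + S2)) * max q2 0) +
      W * ((h0 + h1 * (u + S2 + S3)) * (max q2 0 + max q3 0)) +
      0.64 * (k0 + kA * (S2 + S3) + kB * u) *
        ((x0 - x1) * ((x0 - x1) / 2 - (q0 - q1) / 2)) := by
  have ei : ipr (x0 - x1) ((q0 - q1) / 2) (q0 + q1) (-x2) (-x3) q3 =
      x0 * q0 + x1 * q1 + x2 * q2 + x3 * q3 := by
    have k1 : x0 = 1 - x1 - x2 - x3 := by linarith
    have k2 : q2 = 1 - q0 - q1 - q3 := by linarith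
    unfold ipr
    rw [k1, k2]
    ring
  have en : nmr ((q0 - q1) / 2) (q0 + q1) q3 = (q0 ^ 2 + q1 ^ 2 + q2 ^ 2 + q3 ^ 2) / 2 := by
    have k2 : q2 = 1 - q0 - q1 - q3 := by linarith
    unfold nmr
    rw [k2]
    ring
  have e2 : 1 - (q0 + q1) - q3 = q2 := by linarith
  have main := pwR (X := x0 - x1) (ξ := (q0 - q1) / 2) (s := q0 + q1) (p2 := -x2) (p3 := -x3)
    (c := q3) (S0 := S0) (S1 := S1) (S2 := S2) (S3 := S3) (w := w) (W := W) C.key C.k0_nn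
    C.kA_nn C.kB_nn C.kBA C.eA_nn C.eB_nn C.h0_nn C.h1_nn C.wl_nn C.nu_ge C.T0_le C.eta
    (by linarith)
    (by linarith) (by rw [ei]; linarith) (by rw [ei]; linarith) (by rw [ei]; linarith)
    (by rw [ei]; linarith) (by rw [ei]; linarith) (by rw [ei, en]; linarith)
    (by rw [ei, en]; linarith) hu (by rw [en]; linarith) (by rw [en]; linarith) plx
    (by linarith) (by linarith) s0 s1 s2 s3 hu0 hu1 hT C.nup hw0 hwW hW hWl hX
  rw [e2] at main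
  exact main

variable {a : Fin 4 → E3}

include C in
theorem wt_lo (h : Gram4 (al a)) (i : Bool) {x : E3}
    (hX : |bar a 0 x - bar a 1 x| ≤ 2 * (T0 + nu)) (h2 : bar a 2 x ≤ 0) (h3 : bar a 3 x ≤ 0)
    (hu : -bar a 2 x + -bar a 3 x ≤ p0) : wl ≤ Helper37.MEI.wt a i x := by
  have hs := bar_sum h x
  have eX2 : |eX a x| ≤ T0 + nu := by
    unfold eX
    rw [abs_div, abs_of_pos (by norm_num : (0 : ℝ) < 2)]
    linarith
  have eY2 : 4 * eY a x ^ 2 = (bar a 2 x - bar a 3 x) ^ 2 := by unfold eY; ring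
  have eW2 : 4 * eW a x ^ 2 = 2 * (bar a 2 x + bar a 3 x) ^ 2 := by
    unfold eW
    have := s2s
    linear_combination (bar a 2 x + bar a 3 x) ^ 2 * this
  have h4 := sq_abs (eX a x)
  have h5 := abs_nonneg (eX a x)
  have h6 : |eX a x| ^ 2 ≤ (T0 + nu) ^ 2 := sqB h5 eX2
  have h7 : (bar a 2 x + bar a 3 x) ^ 2 ≤ p0 ^ 2 := by
    have e : (bar a 2 x + bar a 3 x) ^ 2 = (-bar a 2 x + -bar a 3 x) ^ 2 := by ring
    rw [e]
    exact sqB (by linarith) hu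
  have h8 : (bar a 2 x - bar a 3 x) ^ 2 ≤ (bar a 2 x + bar a 3 x) ^ 2 := by
    have := mul_nonneg_of_nonpos_of_nonpos h2 h3
    linarith
  have hwl := C.wl_nn
  rw [Helper41.ArcT.wt_eq, le_div_iff₀ (by positivity), eY2, eW2, ← h4]
  have h9 : 1 / 2 - 7 / 16 * |eX a x| ≤
      1 / 2 + (if i then -(7 * eX a x / 16) else 7 * eX a x / 16) := by
    have := neg_abs_le (eX a x)
    have := le_abs_self (eX a x)
    split_ifs <;> linarith
  have h10 : 1 + |eX a x| ^ 2 / 2 + (bar a 2 x - bar a 3 x) ^ 2 +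
      2 * (bar a 2 x + bar a 3 x) ^ 2 ≤ 1 + (T0 + nu) ^ 2 / 2 + 3 * p0 ^ 2 := by linarith
  have h11 := mul_le_mul_of_nonneg_left h10 hwl
  have h12 := C.wl_le
  linarith

include C in
theorem hu_le {x0 x1 x2 x3 S2 S3 : ℝ} (sx : x0 + x1 + x2 + x3 = 1)
    (X2 : 1 / 2 * (x0 ^ 2 + x1 ^ 2 + x2 ^ 2 + x3 ^ 2) - x2 - 1 / 2 ≤ S2)
    (X3 : 1 / 2 * (x0 ^ 2 + x1 ^ 2 + x2 ^ 2 + x3 ^ 2) - x3 - 1 / 2 ≤ S3)
    (hT : S2 + S3 ≤ T0) : -x2 + -x3 ≤ p0 := by
  have e1 : x0 ^ 2 + x1 ^ 2 = ((1 - x2 - x3) ^ 2 + (x0 - x1) ^ 2) / 2 := by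
    have : x0 = 1 - x1 - x2 - x3 := by linarith
    rw [this]; ring
  have e2 : (x2 + x3) ^ 2 / 2 ≤ x2 ^ 2 + x3 ^ 2 := by
    have := sq_nonneg (x2 - x3)
    linarith
  have e3 := sq_nonneg (x0 - x1)
  have e5 : (1 - x2 - x3) ^ 2 = (1 + (-x2 + -x3)) ^ 2 := by ring
  rw [e5] at e1
  have e6 : (-x2 + -x3) + (-x2 + -x3) ^ 2 / 2 ≤ 1 / 4 + T0 / 2 := by linarith
  have hp := C.p0_nn
  have hp2 := C.p0_ge
  by_contra hcon
  rw [not_le] at hcon
  have e7 := sqB hp hcon.le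
  linarith

include C in
/-- **the pointwise bound**: `k` the end beyond which the opposite point lies, `k'` the other;
any weight below `wt` -/
theorem pw_bar (h : Gram4 (al a)) {x q : E3} (hx : Pl a x) (hq : Pl a q) (hxq : ‖x - q‖ = 1)
    (h2 : bar a 2 x ≤ 0) (h3 : bar a 3 x ≤ 0) {S : Fin 4 → ℝ} (hS0 : ∀ i, 0 ≤ S i)
    (hQx : ∀ i, Qv a i x ≤ S i) (hQq : ∀ i, Qv a i q ≤ S i) {u : ℝ} (hu0 : S 0 ≤ u)
    (hu1 : S 1 ≤ u) (hT : u + S 2 + S 3 ≤ T0) (i : Bool) {w : ℝ} (hw0 : 0 ≤ w)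
    (hwW : w ≤ Helper37.MEI.wt a i x) {k k' : Fin 4}
    (hk : k = 2 ∧ k' = 3 ∨ k = 3 ∧ k' = 2) :
    w * max (-bar a k q) 0 ≤
      w * ((eA * (S 2 + S 3) + eB * (u + S k')) * max (bar a k' q) 0) +
      Helper37.MEI.wt a i x * ((h0 + h1 * (u + S 2 + S 3)) *
        (max (bar a k' q) 0 + max (bar a k q) 0)) +
      1.28 * (k0 + kA * (S 2 + S 3) + kB * u) * (eX a x * (eX a x - eX a q)) := by
  have sx := bar_sum h x
  have sq := bar_sum h q
  have hd := norm_sub_sq_bar h x q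
  rw [hxq] at hd
  have hW := Helper41.ArcT.wt_up h i hx
  have x2 := hQx 2
  have x3 := hQx 3
  have q0 := hQq 0
  have q1 := hQq 1
  have q2 := hQq 2
  have q3 := hQq 3
  rw [Qv_eq h] at x2 x3 q0 q1 q2 q3
  have px := (pl_iff h).1 hx
  have pq := (pl_iff h).1 hq
  have px01 := px 0 1 (by decide)
  have px10 := px 1 0 (by decide)
  have pq23 := pq 2 3 (by decide)
  have pq32 := pq 3 2 (by decide)
  have s0 := hS0 0
  have s1 := hS0 1
  have s2 := hS0 2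
  have s3 := hS0 3
  have u0 : 0 ≤ u := s0.trans hu0
  have hu := hu_le C (x0 := bar a 0 x) (x1 := bar a 1 x) (x2 := bar a 2 x) (x3 := bar a 3 x)
    (by linarith) x2 x3 (by linarith)
  have wlo := fun hX => wt_lo C (x := x) h i hX h2 h3 hu
  set W := Helper37.MEI.wt a i x
  have eP : ∀ P κ : ℝ, P = (bar a 0 x - bar a 1 x) *
      ((bar a 0 x - bar a 1 x) / 2 - (bar a 0 q - bar a 1 q) / 2) →
      0.64 * κ * P = 1.28 * κ * (eX a x * (eX a x - eX a q)) := by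
    intro P κ hP
    rw [hP]
    unfold eX
    ring
  rcases le_total 0 (bar a 0 x - bar a 1 x) with hX | hX
  · have hwl : bar a 0 x - bar a 1 x ≤ 2 * (T0 + nu) → wl ≤ W :=
      fun k1 => by
        have := wlo (by rw [abs_of_nonneg hX]; exact k1)
        exact this
    rcases hk with ⟨e1, e2⟩ | ⟨e1, e2⟩
    · rw [e1, e2]
      have := pwX C (x0 := bar a 0 x) (x1 := bar a 1 x) (x2 := bar a 3 x)
        (x3 := bar a 2 x) (q0 := bar a 0 q) (q1 := bar a 1 q) (q2 := bar a 3 q)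
        (q3 := bar a 2 q) (S0 := S 0) (S1 := S 1) (S2 := S 3) (S3 := S 2) (u := u) (w := w)
        (W := W)
        (by linarith) (by linarith) (by linarith) h3 h2 (by linarith) (by linarith)
        (by linarith)
        (by linarith) (by linarith) (by linarith) (by linarith) px01 pq32 pq23 s0 s1 s3 s2
        hu0 hu1 (by linarith) hw0 hwW hW hwl hX
      rw [eP _ _ rfl, add_comm (S 3) (S 2), add_right_comm u (S 3) (S 2)] at this
      exact this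
    · rw [e1, e2]
      have := pwX C (x0 := bar a 0 x) (x1 := bar a 1 x) (x2 := bar a 2 x)
        (x3 := bar a 3 x) (q0 := bar a 0 q) (q1 := bar a 1 q) (q2 := bar a 2 q)
        (q3 := bar a 3 q) (S0 := S 0) (S1 := S 1) (S2 := S 2) (S3 := S 3) (u := u) (w := w)
        (W := W)
        (by linarith) (by linarith) (by linarith) h2 h3 (by linarith) (by linarith)
        (by linarith)
        (by linarith) (by linarith) (by linarith) (by linarith) px01 pq23 pq32 s0 s1 s2 s3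
        hu0 hu1 (by linarith) hw0 hwW hW hwl hX
      rw [eP _ _ rfl] at this
      exact this
  · have hX' : 0 ≤ bar a 1 x - bar a 0 x := by linarith
    have hwl : bar a 1 x - bar a 0 x ≤ 2 * (T0 + nu) → wl ≤ W :=
      fun k1 => by
        have := wlo (by rw [abs_of_nonpos hX, neg_sub]; exact k1)
        exact this
    rcases hk with ⟨e1, e2⟩ | ⟨e1, e2⟩
    · rw [e1, e2]
      have := pwX C (x0 := bar a 1 x) (x1 := bar a 0 x) (x2 := bar a 3 x)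
        (x3 := bar a 2 x) (q0 := bar a 1 q) (q1 := bar a 0 q) (q2 := bar a 3 q)
        (q3 := bar a 2 q) (S0 := S 1) (S1 := S 0) (S2 := S 3) (S3 := S 2) (u := u) (w := w)
        (W := W)
        (by linarith) (by linarith) (by linarith) h3 h2 (by linarith) (by linarith)
        (by linarith)
        (by linarith) (by linarith) (by linarith) (by linarith) px10 pq32 pq23 s1 s0 s3 s2
        hu1 hu0 (by linarith) hw0 hwW hW hwl hX'
      rw [eP _ _ (by ring), add_comm (S 3) (S 2), add_right_comm u (S 3) (S 2)] at this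
      exact this
    · rw [e1, e2]
      have := pwX C (x0 := bar a 1 x) (x1 := bar a 0 x) (x2 := bar a 2 x)
        (x3 := bar a 3 x) (q0 := bar a 1 q) (q1 := bar a 0 q) (q2 := bar a 2 q)
        (q3 := bar a 3 q) (S0 := S 1) (S1 := S 0) (S2 := S 2) (S3 := S 3) (u := u) (w := w)
        (W := W)
        (by linarith) (by linarith) (by linarith) h2 h3 (by linarith) (by linarith)
        (by linarith)
        (by linarith) (by linarith) (by linarith) (by linarith) px10 pq23 pq32 s1 s0 s2 s3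
        hu1 hu0 (by linarith) hw0 hwW hW hwl hX'
      rw [eP _ _ (by ring)] at this
      exact this

end

end Helper37.Neg
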