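import Pool.Agent.Helper37.MEI.Neg3
import Pool.Agent.Helper41.MEI.ArcV
import Pool.Agent.Helper53.MEI.Mom6

/-!
# Project MEI (M2): the negative parts of the moments of an arc, sharper

`negw_part`: any density below `wt`; `neg_cell`: full weight, from any bounds of the signed
moments.
-/

set_option autoImplicit false

namespace Helper37.Neg

open Set MeasureTheory Filter Topology Metric
open Helper80.CW Helper22.Wedge Helper22.Sig Helper14.CW Helper14.MEI2 Helper93.MEI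
open Pool.Agent.Helper95.MEI.Fub (Zp int_cont co_e Zp_meas)
open Pool.Agent.Helper73.MEI
open Helper41.ArcT (fluxE int3)
open scoped RealInnerProductSpace ContDiff Real

section main
variable {T0 k0 kA kB eA eB h0 h1 wl nu p0 : ℝ} (C : Cst T0 k0 kA kB eA eB h0 h1 wl nu p0)
  {a : Fin 4 → E3} (ha : ∀ i j, i ≠ j → dist (a i) (a j) = 1)
  {K : Set E3} {σ : Measure (E3 × E3)} [IsFiniteMeasure σ] (h : PM K σ)
  (hpl : ∀ x ∈ K, Pl a x) {b : OrthonormalBasis (Fin 3) ℝ E3} (hb : Fr a b)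
  {S : Fin 4 → ℝ} (hQ : ∀ x ∈ K, ∀ i, Qv a i x ≤ S i) (hS0 : ∀ i, 0 ≤ S i)
  {u : ℝ} (hu0 : S 0 ≤ u) (hu1 : S 1 ≤ u) (hT : u + S 2 + S 3 ≤ T0)

/-- the volume bound -/
noncomputable def Vc (S2 S3 : ℝ) : ℝ :=
  0.006778 + (0.0393 + 0.2358 * S2) * S2 + (0.0393 + 0.2358 * S3) * S3

omit [IsFiniteMeasure σ] in
theorem int_den (hK : IsCompact K) (hmem : ∀ᵐ z ∂σ, z.1 ∈ K ∧ z.2 ∈ K) [IsFiniteMeasure σ]
    (hG : Gram4 (al a)) (hpl : ∀ x ∈ K, Pl a x) (i : Bool) {w : E3 × E3 → ℝ}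
    (hwm : AEStronglyMeasurable w σ) (hw0 : ∀ᵐ z ∂σ, 0 ≤ w z)
    (hw1 : ∀ᵐ z ∂σ, w z ≤ Helper37.MEI.wt a i z.1) {f : E3 × E3 → ℝ} (hf : Continuous f) :
    Integrable (fun z => w z * f z) σ := by
  have i1 : Integrable (fun z : E3 × E3 => Helper37.MEI.wt a i z.1 * |f z|) σ :=
    int_cont hK hmem (((Helper37.MEI.wt_cont a i).comp continuous_fst).mul hf.abs)
  refine i1.mono' (hwm.mul hf.aestronglyMeasurable) ?_
  filter_upwards [hw0, hw1] with z h0 h1
  rw [Real.norm_eq_abs, abs_mul, abs_of_nonneg h0]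
  exact mul_le_mul_of_nonneg_right h1 (abs_nonneg _)

include C ha h hb hQ hS0 hpl hu0 hu1 hT in
/-- **the negative part of a moment, any density below the full weight** -/
theorem negw_part (i : Bool) {w : E3 × E3 → ℝ} (hwm : AEStronglyMeasurable w σ)
    (hw0 : ∀ᵐ z ∂σ, 0 ≤ w z) (hw1 : ∀ᵐ z ∂σ, w z ≤ Helper37.MEI.wt a i z.1)
    {k k' : Fin 4} (hk : k = 2 ∧ k' = 3 ∨ k = 3 ∧ k' = 2) :
    ∫ z in Zp a 2 3, w z * max (-bar a k z.2) 0 ∂σ ≤
      (eA * (S 2 + S 3) + eB * (u + S k')) * (∫ z in Zp a 2 3, w z * max (bar a k' z.2) 0 ∂σ) +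
      (h0 + h1 * (u + S 2 + S 3)) *
        ((∫ z in Zp a 2 3, Helper37.MEI.wt a i z.1 * max (bar a k' z.2) 0 ∂σ) +
        (∫ z in Zp a 2 3, Helper37.MEI.wt a i z.1 * max (bar a k z.2) 0 ∂σ)) +
      1.28 * (k0 + kA * (S 2 + S 3) + kB * u) * Vc (S 2) (S 3) := by
  have hG := gram_of_dist ha
  have hwc := Helper37.MEI.wt_cont a i
  have hbc := fun k => Pool.Agent.Helper95.MEI.Fub.bar_cont a k
  have hXc := Pool.Agent.Helper95.MEI.Fub.eX_cont a
  have i1 : ∀ k, Integrable (fun z : E3 × E3 => Helper37.MEI.wt a i z.1 *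
      max (bar a k z.2) 0) σ := fun k => int_cont h.cpt h.mem
    ((hwc.comp continuous_fst).mul (((hbc k).comp continuous_snd).max continuous_const))
  have j1 : Integrable (fun z : E3 × E3 => w z * max (bar a k' z.2) 0) σ :=
    int_den h.cpt h.mem hG hpl i hwm hw0 hw1
      (((hbc k').comp continuous_snd).max continuous_const)
  have j2 : Integrable (fun z : E3 × E3 => w z * max (-bar a k z.2) 0) σ :=
    int_den h.cpt h.mem hG hpl i hwm hw0 hw1
      (((hbc k).comp continuous_snd).neg.max continuous_const)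
  have i3 : Integrable (fun z : E3 × E3 => eX a z.1 * (eX a z.1 - eX a z.2)) σ :=
    int_cont h.cpt h.mem ((hXc.comp continuous_fst).mul
      ((hXc.comp continuous_fst).sub (hXc.comp continuous_snd)))
  have f1 := fluxE ha h hpl hb hQ hS0
  set ε := eA * (S 2 + S 3) + eB * (u + S k') with hε
  set η := h0 + h1 * (u + S 2 + S 3) with hη
  set κ := k0 + kA * (S 2 + S 3) + kB * u with hκ
  have i4 : Integrable (fun z : E3 × E3 => Helper37.MEI.wt a i z.1 * max (bar a k' z.2) 0 +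
      Helper37.MEI.wt a i z.1 * max (bar a k z.2) 0) σ := (i1 k').add (i1 k)
  have h2 : ∫ z in Zp a 2 3, w z * max (-bar a k z.2) 0 ∂σ ≤
      ∫ z in Zp a 2 3, (ε * (w z * max (bar a k' z.2) 0) +
        (η * (Helper37.MEI.wt a i z.1 * max (bar a k' z.2) 0 +
          Helper37.MEI.wt a i z.1 * max (bar a k z.2) 0) +
        1.28 * κ * (eX a z.1 * (eX a z.1 - eX a z.2)))) ∂σ := by
    refine integral_mono_ae j2.integrableOn ((j1.integrableOn.const_mul _).add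
      ((i4.integrableOn.const_mul _).add (i3.integrableOn.const_mul _))) ?_
    filter_upwards [ae_restrict_mem (Zp_meas a 2 3), ae_restrict_of_ae (s := Zp a 2 3) h.ae,
      ae_restrict_of_ae (s := Zp a 2 3) hw0, ae_restrict_of_ae (s := Zp a 2 3) hw1]
      with z hz hm z0 z1
    have h3 := pw_bar C hG (hpl _ hm.1) (hpl _ hm.2.1) hm.2.2.1 hz.1.le hz.2.le hS0
      (hQ _ hm.1) (hQ _ hm.2.1) hu0 hu1 hT i z0 z1 hk
    rw [← hε, ← hη, ← hκ] at h3
    linarith
  have h4 := int3 (μ := σ.restrict (Zp a 2 3)) j1.integrableOn i4.integrableOn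
    i3.integrableOn ε η (1.28 * κ)
  have h5 : ∫ z in Zp a 2 3, (Helper37.MEI.wt a i z.1 * max (bar a k' z.2) 0 +
      Helper37.MEI.wt a i z.1 * max (bar a k z.2) 0) ∂σ =
      (∫ z in Zp a 2 3, Helper37.MEI.wt a i z.1 * max (bar a k' z.2) 0 ∂σ) +
      ∫ z in Zp a 2 3, Helper37.MEI.wt a i z.1 * max (bar a k z.2) 0 ∂σ :=
    integral_add (i1 k').integrableOn (i1 k).integrableOn
  rw [h4, h5] at h2
  have s0 := hS0 0
  have s2 := hS0 2
  have s3 := hS0 3
  have κ0 : 0 ≤ κ := add_nonneg (add_nonneg C.k0_nn (mul_nonneg C.kA_nn (by linarith)))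
    (mul_nonneg C.kB_nn (s0.trans hu0))
  have h6 := mul_le_mul_of_nonneg_left f1 (show 0 ≤ 1.28 * κ by linarith)
  unfold Vc
  linarith

/-- the algebra of the last step -/
theorem alg {a2 a3 am d v P2 P3 N2 N3 B2 B3 xm mu : ℝ} (ha2 : 0 ≤ a2) (ha3 : 0 ≤ a3)
    (h2m : a2 ≤ am) (h3m : a3 ≤ am) (hd : 0 ≤ d) (hv : 0 ≤ v) (p2 : 0 ≤ P2) (p3 : 0 ≤ P3)
    (e2 : P2 - N2 ≤ B2) (e3 : P3 - N3 ≤ B3) (n2 : 0 ≤ N2)
    (h2 : N2 ≤ a2 * P3 + d * P2 + v) (h3 : N3 ≤ a3 * P2 + d * P3 + v) {Bm : ℝ} (b2 : B2 ≤ Bm)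
    (b3 : B3 ≤ Bm) (hBm : 0 ≤ Bm) (had : am + d ≤ xm) (hxm : 1 ≤ mu * (1 - xm))
    (hmu : 0 ≤ mu) :
    N3 ≤ (a3 * B2 + d * B3 + v) + (am + d) * (mu * ((am + d) * Bm + v)) := by
  have ham : 0 ≤ am := ha2.trans h2m
  have hC : 0 ≤ (am + d) * Bm + v := by positivity
  have q0 : ∀ {x y z N : ℝ}, 0 ≤ x → x ≤ am → 0 ≤ y → y - z ≤ Bm → z ≤ N → 0 ≤ N →
      x * y ≤ am * (Bm + N) := by
    intro x y z N hx hxa hy hyz hzN hN
    have c1 := mul_le_mul_of_nonneg_right hxa hy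
    have c2 := mul_le_mul_of_nonneg_left (show y ≤ Bm + N by linarith) ham
    linarith
  have key : ∀ N, N = max N2 N3 → N ≤ mu * ((am + d) * Bm + v) := by
    intro N hN
    have m2 : N2 ≤ N := by rw [hN]; exact le_max_left _ _
    have m3 : N3 ≤ N := by rw [hN]; exact le_max_right _ _
    have N0 : 0 ≤ N := n2.trans m2
    have k2 := q0 ha2 h2m p3 (by linarith : P3 - N3 ≤ Bm) m3 N0
    have k3 := q0 ha3 h3m p2 (by linarith : P2 - N2 ≤ Bm) m2 N0
    have k4 := mul_le_mul_of_nonneg_left (show P2 ≤ Bm + N by linarith) hd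
    have k5 := mul_le_mul_of_nonneg_left (show P3 ≤ Bm + N by linarith) hd
    have q5 := mul_le_mul_of_nonneg_right had N0
    have hN' : N ≤ (am + d) * Bm + v + xm * N := by
      have : max N2 N3 ≤ (am + d) * Bm + v + xm * N := max_le (by linarith) (by linarith)
      rw [← hN] at this
      exact this
    have c1 : (1 - xm) * N ≤ (am + d) * Bm + v := by linarith
    have c2 := mul_le_mul_of_nonneg_left c1 hmu
    have c3 := mul_le_mul_of_nonneg_right hxm N0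
    linarith
  have hk := key _ rfl
  have m2 : N2 ≤ max N2 N3 := le_max_left _ _
  have m3 : N3 ≤ max N2 N3 := le_max_right _ _
  have q1 := mul_le_mul_of_nonneg_left (show P2 ≤ B2 + max N2 N3 by linarith) ha3
  have q2 := mul_le_mul_of_nonneg_left (show P3 ≤ B3 + max N2 N3 by linarith) hd
  have N0 : 0 ≤ max N2 N3 := n2.trans m2
  have q3 := mul_le_mul_of_nonneg_right h3m N0
  have q4 := mul_le_mul_of_nonneg_left hk (show 0 ≤ am + d by linarith)
  linarith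

include C ha h hb hQ hS0 hpl hu0 hu1 hT in
/-- **the negative parts of the moments of the full weight**, from bounds of the signed ones -/
theorem neg_cell (i : Bool) {B2 B3 Bm xm mu : ℝ}
    (c2 : ∫ z in Zp a 2 3, Helper37.MEI.wt a i z.1 * bar a 2 z.2 ∂σ ≤ B2)
    (c3 : ∫ z in Zp a 2 3, Helper37.MEI.wt a i z.1 * bar a 3 z.2 ∂σ ≤ B3)
    (b2 : B2 ≤ Bm) (b3 : B3 ≤ Bm) (hBm : 0 ≤ Bm)
    (hxm : (eA + eB) * (S 2 + S 3) + eB * u + 2 * (h0 + h1 * (u + S 2 + S 3)) ≤ xm)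
    (hmu : 1 ≤ mu * (1 - xm)) (hmu0 : 0 ≤ mu) :
    ∀ η v x, η = h0 + h1 * (u + S 2 + S 3) →
    v = 1.28 * (k0 + kA * (S 2 + S 3) + kB * u) * Vc (S 2) (S 3) →
    x = (eA + eB) * (S 2 + S 3) + eB * u + 2 * η →
    ∫ z in Zp a 2 3, Helper37.MEI.wt a i z.1 * max (-bar a 2 z.2) 0 ∂σ ≤
      ((eA * (S 2 + S 3) + eB * (u + S 3) + η) * B3 + η * B2 + v) +
        x * (mu * (x * Bm + v)) ∧
    ∫ z in Zp a 2 3, Helper37.MEI.wt a i z.1 * max (-bar a 3 z.2) 0 ∂σ ≤
      ((eA * (S 2 + S 3) + eB * (u + S 2) + η) * B2 + η * B3 + v) +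
        x * (mu * (x * Bm + v)) := by
  intro η v x hη hv hx
  have hG := gram_of_dist ha
  have hwc := Helper37.MEI.wt_cont a i
  have hbc := fun k => Pool.Agent.Helper95.MEI.Fub.bar_cont a k
  have i1 : ∀ k, Integrable (fun z : E3 × E3 => Helper37.MEI.wt a i z.1 *
      max (bar a k z.2) 0) σ := fun k => int_cont h.cpt h.mem
    ((hwc.comp continuous_fst).mul (((hbc k).comp continuous_snd).max continuous_const))
  have i2 : ∀ k, Integrable (fun z : E3 × E3 => Helper37.MEI.wt a i z.1 *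
      max (-bar a k z.2) 0) σ := fun k => int_cont h.cpt h.mem
    ((hwc.comp continuous_fst).mul (((hbc k).comp continuous_snd).neg.max continuous_const))
  have hsp : ∀ k, (∫ z in Zp a 2 3, Helper37.MEI.wt a i z.1 * max (bar a k z.2) 0 ∂σ) -
      (∫ z in Zp a 2 3, Helper37.MEI.wt a i z.1 * max (-bar a k z.2) 0 ∂σ) =
      ∫ z in Zp a 2 3, Helper37.MEI.wt a i z.1 * bar a k z.2 ∂σ := by
    intro k
    rw [← integral_sub (i1 k).integrableOn (i2 k).integrableOn]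
    congr 1
    funext z
    rcases le_total 0 (bar a k z.2) with h0 | h0
    · rw [max_eq_left h0, max_eq_right (by linarith)]; ring
    · rw [max_eq_right h0, max_eq_left (by linarith)]; ring
  have wnn : ∀ᵐ z ∂σ, 0 ≤ Helper37.MEI.wt a i z.1 := by
    filter_upwards [h.mem] with z hm
    exact Helper37.MEI.wt_nonneg hG i (hpl _ hm.1)
  have hnn : ∀ k, 0 ≤ ∫ z in Zp a 2 3, Helper37.MEI.wt a i z.1 * max (-bar a k z.2) 0 ∂σ := by
    intro k
    apply integral_nonneg_of_ae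
    filter_upwards [ae_restrict_of_ae (s := Zp a 2 3) wnn] with z hm
    exact mul_nonneg hm (le_max_right _ _)
  have hpp : ∀ k, 0 ≤ ∫ z in Zp a 2 3, Helper37.MEI.wt a i z.1 * max (bar a k z.2) 0 ∂σ := by
    intro k
    apply integral_nonneg_of_ae
    filter_upwards [ae_restrict_of_ae (s := Zp a 2 3) wnn] with z hm
    exact mul_nonneg hm (le_max_right _ _)
  have hwm : AEStronglyMeasurable (fun z : E3 × E3 => Helper37.MEI.wt a i z.1) σ :=
    (hwc.comp continuous_fst).aestronglyMeasurable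
  have n2 := negw_part C ha h hpl hb hQ hS0 hu0 hu1 hT i hwm wnn
    (Eventually.of_forall fun z => le_rfl) (k := 2) (k' := 3) (Or.inl ⟨rfl, rfl⟩)
  have n3 := negw_part C ha h hpl hb hQ hS0 hu0 hu1 hT i hwm wnn
    (Eventually.of_forall fun z => le_rfl) (k := 3) (k' := 2) (Or.inr ⟨rfl, rfl⟩)
  rw [← hη, ← hv] at n2 n3
  have s0 := hS0 0
  have s2 := hS0 2
  have s3 := hS0 3
  have u0 : 0 ≤ u := s0.trans hu0
  have η0 : 0 ≤ η := by
    rw [hη]; exact add_nonneg C.h0_nn (mul_nonneg C.h1_nn (by linarith))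
  have eA0 := C.eA_nn
  have eB0 := C.eB_nn
  have k00 := C.k0_nn
  have kA0 := C.kA_nn
  have kB0 := C.kB_nn
  have hv0 : 0 ≤ v := by
    rw [hv]; unfold Vc
    positivity
  have x2 : 0 ≤ eB * S 2 := mul_nonneg eB0 s2
  have x3 : 0 ≤ eB * S 3 := mul_nonneg eB0 s3
  have ea : 0 ≤ eA * (S 2 + S 3) := mul_nonneg eA0 (by linarith)
  have eu : 0 ≤ eB * u := mul_nonneg eB0 u0
  have ex : x = ((eA + eB) * (S 2 + S 3) + eB * u + η) + η := by rw [hx]; ring
  have hx' : ((eA + eB) * (S 2 + S 3) + eB * u + η) + η ≤ xm := by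
    rw [← ex, hx, hη]; exact hxm
  rw [ex]
  constructor
  · refine alg (a2 := eA * (S 2 + S 3) + eB * (u + S 2) + η)
      (a3 := eA * (S 2 + S 3) + eB * (u + S 3) + η) (by linarith) (by linarith) (by linarith)
      (by linarith) η0 hv0 (hpp 3) (hpp 2) (by rw [hsp]; exact c3) (by rw [hsp]; exact c2)
      (hnn 3) ?_ ?_ b3 b2 hBm hx' hmu hmu0
    · linarith
    · linarith
  · refine alg (a2 := eA * (S 2 + S 3) + eB * (u + S 3) + η)
      (a3 := eA * (S 2 + S 3) + eB * (u + S 2) + η) (by linarith) (by linarith) (by linarith)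
      (by linarith) η0 hv0 (hpp 2) (hpp 3) (by rw [hsp]; exact c2) (by rw [hsp]; exact c3)
      (hnn 2) ?_ ?_ b2 b3 hBm hx' hmu hmu0
    · linarith
    · linarith

end main

end Helper37.Neg
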