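import Pool.Agent.Helper37.MEI.Neg4

/-!
# Project MEI (M2): the negative parts of the moments of an arc, sharper, numbers

`negC` / `negA` / `negB`: sum of the levels at most `.0604` / `.0904` / `.1204`.
-/

set_option autoImplicit false

namespace Helper37.Neg

open Set MeasureTheory Filter Topology Metric
open Helper80.CW Helper22.Wedge Helper22.Sig Helper14.CW Helper14.MEI2 Helper93.MEI
open Pool.Agent.Helper95.MEI.Fub (Zp int_cont co_e Zp_meas)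
open Pool.Agent.Helper73.MEI
open Helper41.ArcT (sS sS_pf)
open scoped RealInnerProductSpace ContDiff Real

/-- the numbers, sum of the levels `≤ 0.0604` -/
theorem numC {s2 s3 U η v x : ℝ} (h2 : 0 ≤ s2) (h3 : 0 ≤ s3) (hU : 0 ≤ U)
    (hT : U + s2 + s3 ≤ 0.0604) (hη : η = 0.00062 + 0.0388 * (U + s2 + s3))
    (hv : v = 1.28 * (0.136 + 0.43 * (s2 + s3) + 0.41 * U) * Vc s2 s3)
    (hx : x = (0.545 + 0.07) * (s2 + s3) + 0.07 * U + 2 * η) :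
    ((0.545 * (s2 + s3) + 0.07 * (U + s2) + η) * (0.03561 + 0.2986 * s3 + 0.0732 * U) +
      η * (0.03561 + 0.2986 * s2 + 0.0732 * U) + v) + x * (1.0451 * (x * 0.05365 + v)) ≤
      0.00123 + 0.0443 * s2 + 0.0513 * s3 + 0.0102 * U := by
  have p22 : 0 ≤ s2 * (0.0604 - (U + s2 + s3)) := mul_nonneg h2 (by linarith)
  have p33 : 0 ≤ s3 * (0.0604 - (U + s2 + s3)) := mul_nonneg h3 (by linarith)
  have pUU : 0 ≤ U * (0.0604 - (U + s2 + s3)) := mul_nonneg hU (by linarith)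
  have q23 : 0 ≤ s2 * s3 := mul_nonneg h2 h3
  have q2U : 0 ≤ s2 * U := mul_nonneg h2 hU
  have q3U : 0 ≤ s3 * U := mul_nonneg h3 hU
  have hV : Vc s2 s3 ≤ 0.006778 + (0.0393 + 0.2358 * 0.0604) * (s2 + s3) := by
    unfold Vc
    linarith
  have hk : 0 ≤ 1.28 * (0.136 + 0.43 * (s2 + s3) + 0.41 * U) := by positivity
  have hv1 : v ≤ 0.00118 + 0.014832 * (s2 + s3) + 0.003558 * U := by
    have k1 := mul_le_mul_of_nonneg_left hV hk
    rw [← hv] at k1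
    linarith
  have hx0 : 0 ≤ x := by
    rw [hx, hη]; positivity
  have k2 := mul_le_mul_of_nonneg_left hv1 (show 0 ≤ 1.0451 * x by positivity)
  have e1 : x * (1.0451 * (x * 0.05365 + v)) = 1.0451 * 0.05365 * x ^ 2 + 1.0451 * x * v := by ring
  rw [e1]
  refine le_trans (add_le_add (add_le_add_right hv1 _) (add_le_add_right k2 _)) ?_
  rw [hx, hη]
  have f1 : 0 ≤ (s2 - s3) ^ 2 := sq_nonneg _
  have f2 : 0 ≤ (s2 - U) ^ 2 := sq_nonneg _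
  have f3 : 0 ≤ (s3 - U) ^ 2 := sq_nonneg _
  nlinarith [p22, p33, pUU, q23, q2U, q3U, f1, f2, f3]

/-- the numbers, sum of the levels `≤ 0.0904` -/
theorem numA {s2 s3 U η v x : ℝ} (h2 : 0 ≤ s2) (h3 : 0 ≤ s3) (hU : 0 ≤ U)
    (hT : U + s2 + s3 ≤ 0.0904) (hη : η = 0.00062 + 0.0388 * (U + s2 + s3))
    (hv : v = 1.28 * (0.136 + 0.43 * (s2 + s3) + 0.41 * U) * Vc s2 s3)
    (hx : x = (0.545 + 0.07) * (s2 + s3) + 0.07 * U + 2 * η) :
    ((0.545 * (s2 + s3) + 0.07 * (U + s2) + η) * (0.03561 + 0.2986 * s3 + 0.0732 * U) +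
      η * (0.03561 + 0.2986 * s2 + 0.0732 * U) + v) + x * (1.0683 * (x * 0.06261 + v)) ≤
      0.00123 + 0.0491 * s2 + 0.061 * s3 + 0.0106 * U := by
  have p22 : 0 ≤ s2 * (0.0904 - (U + s2 + s3)) := mul_nonneg h2 (by linarith)
  have p33 : 0 ≤ s3 * (0.0904 - (U + s2 + s3)) := mul_nonneg h3 (by linarith)
  have pUU : 0 ≤ U * (0.0904 - (U + s2 + s3)) := mul_nonneg hU (by linarith)
  have q23 : 0 ≤ s2 * s3 := mul_nonneg h2 h3
  have q2U : 0 ≤ s2 * U := mul_nonneg h2 hU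
  have q3U : 0 ≤ s3 * U := mul_nonneg h3 hU
  have hV : Vc s2 s3 ≤ 0.006778 + (0.0393 + 0.2358 * 0.0904) * (s2 + s3) := by
    unfold Vc
    linarith
  have hk : 0 ≤ 1.28 * (0.136 + 0.43 * (s2 + s3) + 0.41 * U) := by positivity
  have hv1 : v ≤ 0.00118 + 0.017299 * (s2 + s3) + 0.003558 * U := by
    have k1 := mul_le_mul_of_nonneg_left hV hk
    rw [← hv] at k1
    linarith
  have hx0 : 0 ≤ x := by
    rw [hx, hη]; positivity
  have k2 := mul_le_mul_of_nonneg_left hv1 (show 0 ≤ 1.0683 * x by positivity)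
  have e1 : x * (1.0683 * (x * 0.06261 + v)) = 1.0683 * 0.06261 * x ^ 2 + 1.0683 * x * v := by ring
  rw [e1]
  refine le_trans (add_le_add (add_le_add_right hv1 _) (add_le_add_right k2 _)) ?_
  rw [hx, hη]
  have f1 : 0 ≤ (s2 - s3) ^ 2 := sq_nonneg _
  have f2 : 0 ≤ (s2 - U) ^ 2 := sq_nonneg _
  have f3 : 0 ≤ (s3 - U) ^ 2 := sq_nonneg _
  nlinarith [p22, p33, pUU, q23, q2U, q3U, f1, f2, f3]

/-- the numbers, sum of the levels `≤ 0.1204` -/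
theorem numB {s2 s3 U η v x : ℝ} (h2 : 0 ≤ s2) (h3 : 0 ≤ s3) (hU : 0 ≤ U)
    (hT : U + s2 + s3 ≤ 0.1204) (hη : η = 0.0007 + 0.0512 * (U + s2 + s3))
    (hv : v = 1.28 * (0.137 + 0.45 * (s2 + s3) + 0.43 * U) * Vc s2 s3)
    (hx : x = (0.555 + 0.09) * (s2 + s3) + 0.09 * U + 2 * η) :
    ((0.555 * (s2 + s3) + 0.09 * (U + s2) + η) * (0.03561 + 0.2986 * s3 + 0.0732 * U) +
      η * (0.03561 + 0.2986 * s2 + 0.0732 * U) + v) + x * (1.1006 * (x * 0.07157 + v)) ≤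
      0.00125 + 0.0587 * s2 + 0.0752 * s3 + 0.0134 * U := by
  have p22 : 0 ≤ s2 * (0.1204 - (U + s2 + s3)) := mul_nonneg h2 (by linarith)
  have p33 : 0 ≤ s3 * (0.1204 - (U + s2 + s3)) := mul_nonneg h3 (by linarith)
  have pUU : 0 ≤ U * (0.1204 - (U + s2 + s3)) := mul_nonneg hU (by linarith)
  have q23 : 0 ≤ s2 * s3 := mul_nonneg h2 h3
  have q2U : 0 ≤ s2 * U := mul_nonneg h2 hU
  have q3U : 0 ≤ s3 * U := mul_nonneg h3 hU
  have hV : Vc s2 s3 ≤ 0.006778 + (0.0393 + 0.2358 * 0.1204) * (s2 + s3) := by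
    unfold Vc
    linarith
  have hk : 0 ≤ 1.28 * (0.137 + 0.45 * (s2 + s3) + 0.43 * U) := by positivity
  have hv1 : v ≤ 0.0011886 + 0.020469 * (s2 + s3) + 0.003731 * U := by
    have k1 := mul_le_mul_of_nonneg_left hV hk
    rw [← hv] at k1
    linarith
  have hx0 : 0 ≤ x := by
    rw [hx, hη]; positivity
  have k2 := mul_le_mul_of_nonneg_left hv1 (show 0 ≤ 1.1006 * x by positivity)
  have e1 : x * (1.1006 * (x * 0.07157 + v)) = 1.1006 * 0.07157 * x ^ 2 + 1.1006 * x * v := by ring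
  rw [e1]
  refine le_trans (add_le_add (add_le_add_right hv1 _) (add_le_add_right k2 _)) ?_
  rw [hx, hη]
  have f1 : 0 ≤ (s2 - s3) ^ 2 := sq_nonneg _
  have f2 : 0 ≤ (s2 - U) ^ 2 := sq_nonneg _
  have f3 : 0 ≤ (s3 - U) ^ 2 := sq_nonneg _
  nlinarith [p22, p33, pUU, q23, q2U, q3U, f1, f2, f3]

section six
variable {a : Fin 4 → E3} {K : Set E3} {σ : Measure (E3 × E3)}

/-- signed moments of the full weight -/
theorem sgn0 [IsFiniteMeasure σ] (h : PM K σ) (ha : ∀ i j, i ≠ j → dist (a i) (a j) = 1)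
    (hull : ∀ p, (∀ q ∈ K, ‖p - q‖ ≤ 1) → p ∈ K) (hp : ∀ x ∈ K, Pl a x)
    {B : Fin 3 → Bool → OrthonormalBasis (Fin 3) ℝ E3}
    (hB : ∀ m e, Fr (fun i => a (pr m e i)) (B m e)) {S : Fin 4 → ℝ} (hS0 : ∀ i, 0 ≤ S i)
    (hQ : ∀ i, ∀ q ∈ K, Qv a i q ≤ S i)
    (m : Fin 3) (e i : Bool) {k k' : Fin 4} (hk : k = 2 ∧ k' = 3 ∨ k = 3 ∧ k' = 2) :
    ∫ z in Helper37.MEI.EE a m e, Helper37.MEI.wt (Helper37.MEI.ap a m e) i z.1 *
      bar a (pf m e k) z.2 ∂σ ≤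
      0.03561 + 0.2986 * S (pf m e k') + 0.0732 * (S (pf m e 0) + S (pf m e 1)) := by
  have h1 := Helper53.MEI.mom_wt h ha hull hp hB hS0 hQ (τ := 0) le_rfl (by norm_num) m e i hk
  have s0 := hS0 (pf m e 0)
  have s1 := hS0 (pf m e 1)
  have hi : 0.07317 * S (pf m e (if i then 1 else 0)) + 0.05728 * S (pf m e (if i then 0 else 1)) ≤
      0.0732 * (S (pf m e 0) + S (pf m e 1)) := by
    cases i
    · simp only [Bool.false_eq_true, if_false]; linarith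
    · simp only [if_true]; linarith
  norm_num at h1 hi ⊢
  linarith

/-- all cells, from the numbers -/
theorem neg_six {T0 k0 kA kB eA eB h0 h1 wl nu p0 : ℝ}
    (C : Cst T0 k0 kA kB eA eB h0 h1 wl nu p0) {T1 xm mu Bm n0 n2 n3 nU : ℝ} (hT1 : T1 ≤ T0)
    (hT2 : 0 ≤ T1)
    (hBm : 0.03561 + 0.2986 * T1 ≤ Bm) (hxm : (eA + eB) * T1 + 2 * (h0 + h1 * T1) ≤ xm)
    (hmu : 1 ≤ mu * (1 - xm)) (hmu0 : 0 ≤ mu)
    (num : ∀ s2 s3 U η v x : ℝ, 0 ≤ s2 → 0 ≤ s3 → 0 ≤ U → U + s2 + s3 ≤ T1 →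
      η = h0 + h1 * (U + s2 + s3) →
      v = 1.28 * (k0 + kA * (s2 + s3) + kB * U) * Vc s2 s3 →
      x = (eA + eB) * (s2 + s3) + eB * U + 2 * η →
      ((eA * (s2 + s3) + eB * (U + s2) + η) * (0.03561 + 0.2986 * s3 + 0.0732 * U) +
        η * (0.03561 + 0.2986 * s2 + 0.0732 * U) + v) + x * (mu * (x * Bm + v)) ≤
        n0 + n2 * s2 + n3 * s3 + nU * U)
    [IsFiniteMeasure σ] (h : PM K σ) (ha : ∀ i j, i ≠ j → dist (a i) (a j) = 1)
    (hull : ∀ p, (∀ q ∈ K, ‖p - q‖ ≤ 1) → p ∈ K) (hp : ∀ x ∈ K, Pl a x)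
    {B : Fin 3 → Bool → OrthonormalBasis (Fin 3) ℝ E3}
    (hB : ∀ m e, Fr (fun i => a (pr m e i)) (B m e)) {S : Fin 4 → ℝ} (hS0 : ∀ i, 0 ≤ S i)
    (hQ : ∀ i, ∀ q ∈ K, Qv a i q ≤ S i) (hT : sS S ≤ T1)
    (m : Fin 3) (e i : Bool) {k k' : Fin 4} (hk : k = 2 ∧ k' = 3 ∨ k = 3 ∧ k' = 2) :
    ∫ z in Helper37.MEI.EE a m e, Helper37.MEI.wt (Helper37.MEI.ap a m e) i z.1 *
      max (-bar a (pf m e k) z.2) 0 ∂σ ≤
      n0 + n2 * S (pf m e k') + n3 * S (pf m e k) + nU * (S (pf m e 0) + S (pf m e 1)) := by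
  have ha' := Helper37.MEI.hap ha m e
  have hb : Fr (Helper37.MEI.ap a m e) (B m e) := hB m e
  have hp' : ∀ x ∈ K, Pl (Helper37.MEI.ap a m e) x := fun x hx => Pl_perm _ (hp x hx)
  have hQ' : ∀ x ∈ K, ∀ j, Qv (Helper37.MEI.ap a m e) j x ≤ S (pf m e j) :=
    fun x hx j => hQ (pf m e j) x hx
  have hS' : ∀ j, 0 ≤ S (pf m e j) := fun j => hS0 _
  have hsum := sS_pf S m e
  have hbk : ∀ k x, bar (Helper37.MEI.ap a m e) k x = bar a (pf m e k) x := fun k x =>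
    bar_perm (pr m e) k x
  have s0 := hS' 0
  have s1 := hS' 1
  have s2 := hS' 2
  have s3 := hS' 3
  have hs1 : S (pf m e 0) + S (pf m e 1) + S (pf m e 2) + S (pf m e 3) ≤ T1 := by
    rw [hsum]; exact hT
  have c2 : ∫ z in Zp (Helper37.MEI.ap a m e) 2 3, Helper37.MEI.wt (Helper37.MEI.ap a m e) i z.1 *
      bar (Helper37.MEI.ap a m e) 2 z.2 ∂σ ≤
      0.03561 + 0.2986 * S (pf m e 3) + 0.0732 * (S (pf m e 0) + S (pf m e 1)) := by
    simp only [hbk]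
    exact sgn0 h ha hull hp hB hS0 hQ m e i (Or.inl ⟨rfl, rfl⟩)
  have c3 : ∫ z in Zp (Helper37.MEI.ap a m e) 2 3, Helper37.MEI.wt (Helper37.MEI.ap a m e) i z.1 *
      bar (Helper37.MEI.ap a m e) 3 z.2 ∂σ ≤
      0.03561 + 0.2986 * S (pf m e 2) + 0.0732 * (S (pf m e 0) + S (pf m e 1)) := by
    simp only [hbk]
    exact sgn0 h ha hull hp hB hS0 hQ m e i (Or.inr ⟨rfl, rfl⟩)
  have eA0 := C.eA_nn
  have eB0 := C.eB_nn
  have h10 := C.h1_nn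
  set U := S (pf m e 0) + S (pf m e 1) with hU
  have U0 : 0 ≤ U := by rw [hU]; linarith
  have hx1 : (eA + eB) * (S (pf m e 2) + S (pf m e 3)) + eB * U +
      2 * (h0 + h1 * (U + S (pf m e 2) + S (pf m e 3))) ≤ xm := by
    have k1 := mul_le_mul_of_nonneg_left (show U + S (pf m e 2) + S (pf m e 3) ≤ T1 by linarith)
      (show 0 ≤ eA + eB by linarith)
    have k2 := mul_le_mul_of_nonneg_left (show U + S (pf m e 2) + S (pf m e 3) ≤ T1 by linarith)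
      h10
    have k3 : 0 ≤ eA * U := mul_nonneg eA0 U0
    linarith
  obtain ⟨d2, d3⟩ := neg_cell C ha' h hp' hb hQ' hS' (u := U)
    (by show S (pf m e 0) ≤ U; linarith) (by show S (pf m e 1) ≤ U; linarith)
    (by show U + S (pf m e 2) + S (pf m e 3) ≤ T0; linarith) i
    (Bm := Bm) (xm := xm) (mu := mu) c2 c3 (by linarith) (by linarith) (by linarith)
    hx1 hmu hmu0 _ _ _ rfl rfl rfl
  simp only [hbk] at d2 d3
  rcases hk with ⟨e1, e2⟩ | ⟨e1, e2⟩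
  · rw [e1, e2]
    have n := num (S (pf m e 3)) (S (pf m e 2)) U _ _ _ s3 s2 U0 (by linarith) rfl rfl rfl
    have eV : Vc (S (pf m e 3)) (S (pf m e 2)) = Vc (S (pf m e 2)) (S (pf m e 3)) := by
      unfold Vc; ring
    rw [eV] at n
    refine le_trans ?_ n
    refine d2.trans (le_of_eq ?_)
    ring
  · rw [e1, e2]
    have n := num (S (pf m e 2)) (S (pf m e 3)) U _ _ _ s2 s3 U0 (by linarith) rfl rfl rfl
    exact d3.trans n

theorem pos_gen [IsFiniteMeasure σ] (h : PM K σ) {m : Fin 3} {e i : Bool} {k : Fin 4} {N : ℝ}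
    {d : E3 × E3 → ℝ} (hd0 : ∀ᵐ z ∂σ, 0 ≤ d z)
    (hd1 : ∀ᵐ z ∂σ, d z ≤ Helper37.MEI.wt (Helper37.MEI.ap a m e) i z.1)
    (hi1 : Integrable (fun z => d z * max (bar a (pf m e k) z.2) 0) σ)
    (hi2 : Integrable (fun z => d z * bar a (pf m e k) z.2) σ)
    (h1 : ∫ z in Helper37.MEI.EE a m e, Helper37.MEI.wt (Helper37.MEI.ap a m e) i z.1 *
      max (-bar a (pf m e k) z.2) 0 ∂σ ≤ N) :
    ∫ z in Helper37.MEI.EE a m e, d z * max (bar a (pf m e k) z.2) 0 ∂σ ≤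
      (∫ z in Helper37.MEI.EE a m e, d z * bar a (pf m e k) z.2 ∂σ) + N := by
  have i2 : Integrable (fun z : E3 × E3 => Helper37.MEI.wt (Helper37.MEI.ap a m e) i z.1 *
      max (-bar a (pf m e k) z.2) 0) σ :=
    int_cont h.cpt h.mem (((Helper37.MEI.wt_cont (Helper37.MEI.ap a m e) i).comp
      continuous_fst).mul (((Pool.Agent.Helper95.MEI.Fub.bar_cont a (pf m e k)).comp
        continuous_snd).neg.max continuous_const))
  have h2 : ∫ z in Helper37.MEI.EE a m e, d z * max (bar a (pf m e k) z.2) 0 ∂σ ≤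
      ∫ z in Helper37.MEI.EE a m e, (d z * bar a (pf m e k) z.2 +
        Helper37.MEI.wt (Helper37.MEI.ap a m e) i z.1 * max (-bar a (pf m e k) z.2) 0) ∂σ := by
    refine integral_mono_ae hi1.integrableOn (hi2.integrableOn.add i2.integrableOn) ?_
    filter_upwards [ae_restrict_of_ae hd0, ae_restrict_of_ae hd1] with z z0 z1
    rcases le_total 0 (bar a (pf m e k) z.2) with h0 | h0
    · rw [max_eq_left h0, max_eq_right (by linarith)]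
      linarith
    · rw [max_eq_right h0, max_eq_left (by linarith)]
      have := mul_le_mul_of_nonneg_right z1 (neg_nonneg.2 h0)
      linarith
  have h3 : ∫ z in Helper37.MEI.EE a m e, (d z * bar a (pf m e k) z.2 +
        Helper37.MEI.wt (Helper37.MEI.ap a m e) i z.1 * max (-bar a (pf m e k) z.2) 0) ∂σ =
      (∫ z in Helper37.MEI.EE a m e, d z * bar a (pf m e k) z.2 ∂σ) +
      ∫ z in Helper37.MEI.EE a m e, Helper37.MEI.wt (Helper37.MEI.ap a m e) i z.1 *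
        max (-bar a (pf m e k) z.2) 0 ∂σ := integral_add hi2.integrableOn i2.integrableOn
  rw [h3] at h2
  linarith

/-- **negative parts of the moments of the full weight**, sum of the levels `≤ 0.0604` -/
theorem negC [IsFiniteMeasure σ] (h : PM K σ) (ha : ∀ i j, i ≠ j → dist (a i) (a j) = 1)
    (hull : ∀ p, (∀ q ∈ K, ‖p - q‖ ≤ 1) → p ∈ K) (hp : ∀ x ∈ K, Pl a x)
    {B : Fin 3 → Bool → OrthonormalBasis (Fin 3) ℝ E3}
    (hB : ∀ m e, Fr (fun i => a (pr m e i)) (B m e)) {S : Fin 4 → ℝ} (hS0 : ∀ i, 0 ≤ S i)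
    (hQ : ∀ i, ∀ q ∈ K, Qv a i q ≤ S i) (hT : sS S ≤ 0.0604)
    (m : Fin 3) (e i : Bool) {k k' : Fin 4} (hk : k = 2 ∧ k' = 3 ∨ k = 3 ∧ k' = 2) :
    ∫ z in Helper37.MEI.EE a m e, Helper37.MEI.wt (Helper37.MEI.ap a m e) i z.1 *
      max (-bar a (pf m e k) z.2) 0 ∂σ ≤
      0.00123 + 0.0443 * S (pf m e k') + 0.0513 * S (pf m e k) +
        0.0102 * (S (pf m e 0) + S (pf m e 1)) :=
  neg_six cstA (T1 := 0.0604) (xm := 0.043074) (mu := 1.0451) (Bm := 0.05365) (by norm_num) (by norm_num)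
    (by norm_num) (by norm_num) (by norm_num) (by norm_num)
    (fun _ _ _ _ _ _ h2 h3 hU hT hη hv hx => numC h2 h3 hU hT hη hv hx)
    h ha hull hp hB hS0 hQ hT m e i hk

/-- **columns of a density below the full weight**, sum of the levels `≤ 0.0604` -/
theorem posC [IsFiniteMeasure σ] (h : PM K σ) (ha : ∀ i j, i ≠ j → dist (a i) (a j) = 1)
    (hull : ∀ p, (∀ q ∈ K, ‖p - q‖ ≤ 1) → p ∈ K) (hp : ∀ x ∈ K, Pl a x)
    {B : Fin 3 → Bool → OrthonormalBasis (Fin 3) ℝ E3}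
    (hB : ∀ m e, Fr (fun i => a (pr m e i)) (B m e)) {S : Fin 4 → ℝ} (hS0 : ∀ i, 0 ≤ S i)
    (hQ : ∀ i, ∀ q ∈ K, Qv a i q ≤ S i) (hT : sS S ≤ 0.0604)
    (m : Fin 3) (e i : Bool) {k k' : Fin 4} (hk : k = 2 ∧ k' = 3 ∨ k = 3 ∧ k' = 2)
    {d : E3 × E3 → ℝ} (hd0 : ∀ᵐ z ∂σ, 0 ≤ d z)
    (hd1 : ∀ᵐ z ∂σ, d z ≤ Helper37.MEI.wt (Helper37.MEI.ap a m e) i z.1)
    (hi1 : Integrable (fun z => d z * max (bar a (pf m e k) z.2) 0) σ)
    (hi2 : Integrable (fun z => d z * bar a (pf m e k) z.2) σ) :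
    ∫ z in Helper37.MEI.EE a m e, d z * max (bar a (pf m e k) z.2) 0 ∂σ ≤
      (∫ z in Helper37.MEI.EE a m e, d z * bar a (pf m e k) z.2 ∂σ) +
      (0.00123 + 0.0443 * S (pf m e k') + 0.0513 * S (pf m e k) +
        0.0102 * (S (pf m e 0) + S (pf m e 1))) :=
  pos_gen h hd0 hd1 hi1 hi2 (negC h ha hull hp hB hS0 hQ hT m e i hk)

/-- **negative parts of the moments of the full weight**, sum of the levels `≤ 0.0904` -/
theorem negA [IsFiniteMeasure σ] (h : PM K σ) (ha : ∀ i j, i ≠ j → dist (a i) (a j) = 1)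
    (hull : ∀ p, (∀ q ∈ K, ‖p - q‖ ≤ 1) → p ∈ K) (hp : ∀ x ∈ K, Pl a x)
    {B : Fin 3 → Bool → OrthonormalBasis (Fin 3) ℝ E3}
    (hB : ∀ m e, Fr (fun i => a (pr m e i)) (B m e)) {S : Fin 4 → ℝ} (hS0 : ∀ i, 0 ≤ S i)
    (hQ : ∀ i, ∀ q ∈ K, Qv a i q ≤ S i) (hT : sS S ≤ 0.0904)
    (m : Fin 3) (e i : Bool) {k k' : Fin 4} (hk : k = 2 ∧ k' = 3 ∨ k = 3 ∧ k' = 2) :
    ∫ z in Helper37.MEI.EE a m e, Helper37.MEI.wt (Helper37.MEI.ap a m e) i z.1 *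
      max (-bar a (pf m e k) z.2) 0 ∂σ ≤
      0.00123 + 0.0491 * S (pf m e k') + 0.061 * S (pf m e k) +
        0.0106 * (S (pf m e 0) + S (pf m e 1)) :=
  neg_six cstA (T1 := 0.0904) (xm := 0.063852) (mu := 1.0683) (Bm := 0.06261) (by norm_num) (by norm_num)
    (by norm_num) (by norm_num) (by norm_num) (by norm_num)
    (fun _ _ _ _ _ _ h2 h3 hU hT hη hv hx => numA h2 h3 hU hT hη hv hx)
    h ha hull hp hB hS0 hQ hT m e i hk

/-- **columns of a density below the full weight**, sum of the levels `≤ 0.0904` -/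
theorem posA [IsFiniteMeasure σ] (h : PM K σ) (ha : ∀ i j, i ≠ j → dist (a i) (a j) = 1)
    (hull : ∀ p, (∀ q ∈ K, ‖p - q‖ ≤ 1) → p ∈ K) (hp : ∀ x ∈ K, Pl a x)
    {B : Fin 3 → Bool → OrthonormalBasis (Fin 3) ℝ E3}
    (hB : ∀ m e, Fr (fun i => a (pr m e i)) (B m e)) {S : Fin 4 → ℝ} (hS0 : ∀ i, 0 ≤ S i)
    (hQ : ∀ i, ∀ q ∈ K, Qv a i q ≤ S i) (hT : sS S ≤ 0.0904)
    (m : Fin 3) (e i : Bool) {k k' : Fin 4} (hk : k = 2 ∧ k' = 3 ∨ k = 3 ∧ k' = 2)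
    {d : E3 × E3 → ℝ} (hd0 : ∀ᵐ z ∂σ, 0 ≤ d z)
    (hd1 : ∀ᵐ z ∂σ, d z ≤ Helper37.MEI.wt (Helper37.MEI.ap a m e) i z.1)
    (hi1 : Integrable (fun z => d z * max (bar a (pf m e k) z.2) 0) σ)
    (hi2 : Integrable (fun z => d z * bar a (pf m e k) z.2) σ) :
    ∫ z in Helper37.MEI.EE a m e, d z * max (bar a (pf m e k) z.2) 0 ∂σ ≤
      (∫ z in Helper37.MEI.EE a m e, d z * bar a (pf m e k) z.2 ∂σ) +
      (0.00123 + 0.0491 * S (pf m e k') + 0.061 * S (pf m e k) +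
        0.0106 * (S (pf m e 0) + S (pf m e 1))) :=
  pos_gen h hd0 hd1 hi1 hi2 (negA h ha hull hp hB hS0 hQ hT m e i hk)

/-- **negative parts of the moments of the full weight**, sum of the levels `≤ 0.1204` -/
theorem negB [IsFiniteMeasure σ] (h : PM K σ) (ha : ∀ i j, i ≠ j → dist (a i) (a j) = 1)
    (hull : ∀ p, (∀ q ∈ K, ‖p - q‖ ≤ 1) → p ∈ K) (hp : ∀ x ∈ K, Pl a x)
    {B : Fin 3 → Bool → OrthonormalBasis (Fin 3) ℝ E3}
    (hB : ∀ m e, Fr (fun i => a (pr m e i)) (B m e)) {S : Fin 4 → ℝ} (hS0 : ∀ i, 0 ≤ S i)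
    (hQ : ∀ i, ∀ q ∈ K, Qv a i q ≤ S i) (hT : sS S ≤ 0.1204)
    (m : Fin 3) (e i : Bool) {k k' : Fin 4} (hk : k = 2 ∧ k' = 3 ∨ k = 3 ∧ k' = 2) :
    ∫ z in Helper37.MEI.EE a m e, Helper37.MEI.wt (Helper37.MEI.ap a m e) i z.1 *
      max (-bar a (pf m e k) z.2) 0 ∂σ ≤
      0.00125 + 0.0587 * S (pf m e k') + 0.0752 * S (pf m e k) +
        0.0134 * (S (pf m e 0) + S (pf m e 1)) :=
  neg_six cstB (T1 := 0.1204) (xm := 0.091387) (mu := 1.1006) (Bm := 0.07157) (by norm_num) (by norm_num)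
    (by norm_num) (by norm_num) (by norm_num) (by norm_num)
    (fun _ _ _ _ _ _ h2 h3 hU hT hη hv hx => numB h2 h3 hU hT hη hv hx)
    h ha hull hp hB hS0 hQ hT m e i hk

/-- **columns of a density below the full weight**, sum of the levels `≤ 0.1204` -/
theorem posB [IsFiniteMeasure σ] (h : PM K σ) (ha : ∀ i j, i ≠ j → dist (a i) (a j) = 1)
    (hull : ∀ p, (∀ q ∈ K, ‖p - q‖ ≤ 1) → p ∈ K) (hp : ∀ x ∈ K, Pl a x)
    {B : Fin 3 → Bool → OrthonormalBasis (Fin 3) ℝ E3}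
    (hB : ∀ m e, Fr (fun i => a (pr m e i)) (B m e)) {S : Fin 4 → ℝ} (hS0 : ∀ i, 0 ≤ S i)
    (hQ : ∀ i, ∀ q ∈ K, Qv a i q ≤ S i) (hT : sS S ≤ 0.1204)
    (m : Fin 3) (e i : Bool) {k k' : Fin 4} (hk : k = 2 ∧ k' = 3 ∨ k = 3 ∧ k' = 2)
    {d : E3 × E3 → ℝ} (hd0 : ∀ᵐ z ∂σ, 0 ≤ d z)
    (hd1 : ∀ᵐ z ∂σ, d z ≤ Helper37.MEI.wt (Helper37.MEI.ap a m e) i z.1)
    (hi1 : Integrable (fun z => d z * max (bar a (pf m e k) z.2) 0) σ)
    (hi2 : Integrable (fun z => d z * bar a (pf m e k) z.2) σ) :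
    ∫ z in Helper37.MEI.EE a m e, d z * max (bar a (pf m e k) z.2) 0 ∂σ ≤
      (∫ z in Helper37.MEI.EE a m e, d z * bar a (pf m e k) z.2 ∂σ) +
      (0.00125 + 0.0587 * S (pf m e k') + 0.0752 * S (pf m e k) +
        0.0134 * (S (pf m e 0) + S (pf m e 1))) :=
  pos_gen h hd0 hd1 hi1 hi2 (negB h ha hull hp hB hS0 hQ hT m e i hk)


end six

end Helper37.Neg
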